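import Pool.Agent.Lib.MP_06b9d2_bz.AlgU
/-! # BZ.AlgT: `U_2 x_s + 2^(2N-1) x_{N-s}` is a polynomial in `e = b + 4g` and `δ = b² g`
With `y0 = b` and `y1, y2` the roots of `y² - 4 g y - 4 b g` (the three are the roots of `y³ - e y² + 4 δ`), the left side is
`(4^s / 2) P(N-s, s)`, `P(p,s) = ∑_i (e - y_i)^p y_i^s` (use `algU`; `e - y0 = 4g`, `e - y1 = b + y2`).
`P(p,s) = 4 δ P(p-1,s-2)` for `p ≥ 1, s ≥ 2`; `P(0,s)`, `P(p,0)` satisfy 3-term recursions
(`y³ = e y² - 4δ`; `z = e - y`: `z³ = 2 e z² - e² z + 4 δ`), `P(p,1) = e P(p,0) - P(p+1,0)`. -/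
set_option autoImplicit false
open Finset
namespace Pool.Agent.BZ

/-- a polynomial in `e`, `δ` of weight `n` -/
private def RP (n : ℕ) (F : ℂ → ℂ → ℂ → ℂ → ℂ) : Prop :=
  ∃ k : ℕ → ℚ, ∀ b g y z : ℂ, y + z = 4 * g → y * z = -4 * b * g →
    F b g y z = ∑ j ∈ range (n / 3 + 1), (k j : ℂ) * ((b + 4 * g) ^ (n - 3 * j) * (b ^ 2 * g) ^ j)

/-- the same without the term `e^n` -/
private def DP (n : ℕ) (F : ℂ → ℂ → ℂ → ℂ → ℂ) : Prop :=
  ∃ k : ℕ → ℚ, ∀ b g y z : ℂ, y + z = 4 * g → y * z = -4 * b * g →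
    F b g y z = ∑ j ∈ range (n / 3),
      (k j : ℂ) * ((b + 4 * g) ^ (n - 3 * (j + 1)) * (b ^ 2 * g) ^ (j + 1))

private theorem RP_of {n : ℕ} {F G : ℂ → ℂ → ℂ → ℂ → ℂ} (h : RP n F)
    (hG : ∀ b g y z : ℂ, y + z = 4 * g → y * z = -4 * b * g → G b g y z = F b g y z) : RP n G := by
  obtain ⟨k, hk⟩ := h
  exact ⟨k, fun b g y z h1 h2 => (hG b g y z h1 h2).trans (hk b g y z h1 h2)⟩

private theorem DP_of {n : ℕ} {F G : ℂ → ℂ → ℂ → ℂ → ℂ} (h : DP n F)
    (hG : ∀ b g y z : ℂ, y + z = 4 * g → y * z = -4 * b * g → G b g y z = F b g y z) : DP n G := by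
  obtain ⟨k, hk⟩ := h
  exact ⟨k, fun b g y z h1 h2 => (hG b g y z h1 h2).trans (hk b g y z h1 h2)⟩

private theorem RP_lin {n : ℕ} {F G : ℂ → ℂ → ℂ → ℂ → ℂ} (h : RP n F) (h' : RP n G) (c d : ℚ) :
    RP n (fun b g y z => c * F b g y z + d * G b g y z) := by
  obtain ⟨k, hk⟩ := h
  obtain ⟨k', hk'⟩ := h'
  refine ⟨fun j => c * k j + d * k' j, fun b g y z h1 h2 => ?_⟩
  simp only
  rw [hk b g y z h1 h2, hk' b g y z h1 h2, mul_sum, mul_sum, ← sum_add_distrib]
  refine sum_congr rfl fun j _ => ?_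
  push_cast
  ring

private theorem DP_lin {n : ℕ} {F G : ℂ → ℂ → ℂ → ℂ → ℂ} (h : DP n F) (h' : DP n G) (c d : ℚ) :
    DP n (fun b g y z => c * F b g y z + d * G b g y z) := by
  obtain ⟨k, hk⟩ := h
  obtain ⟨k', hk'⟩ := h'
  refine ⟨fun j => c * k j + d * k' j, fun b g y z h1 h2 => ?_⟩
  simp only
  rw [hk b g y z h1 h2, hk' b g y z h1 h2, mul_sum, mul_sum, ← sum_add_distrib]
  refine sum_congr rfl fun j _ => ?_
  push_cast
  ring

private theorem RP_e {n : ℕ} {F : ℂ → ℂ → ℂ → ℂ → ℂ} (h : RP n F) :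
    RP (n + 1) (fun b g y z => (b + 4 * g) * F b g y z) := by
  obtain ⟨k, hk⟩ := h
  refine ⟨fun j => if j < n / 3 + 1 then k j else 0, fun b g y z h1 h2 => ?_⟩
  simp only
  rw [hk b g y z h1 h2, mul_sum]
  have hsub : range (n / 3 + 1) ⊆ range ((n + 1) / 3 + 1) := by
    intro j hj
    rw [mem_range] at hj ⊢
    omega
  rw [← sum_subset hsub]
  · refine sum_congr rfl fun j hj => ?_
    rw [mem_range] at hj
    rw [if_pos hj]
    have h3 : n + 1 - 3 * j = (n - 3 * j) + 1 := by omega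
    rw [h3, pow_succ]
    ring
  · intro j _ hj
    rw [mem_range] at hj
    rw [if_neg hj]
    simp

private theorem DP_e {n : ℕ} {F : ℂ → ℂ → ℂ → ℂ → ℂ} (h : DP n F) :
    DP (n + 1) (fun b g y z => (b + 4 * g) * F b g y z) := by
  obtain ⟨k, hk⟩ := h
  refine ⟨fun j => if j < n / 3 then k j else 0, fun b g y z h1 h2 => ?_⟩
  simp only
  rw [hk b g y z h1 h2, mul_sum]
  have hsub : range (n / 3) ⊆ range ((n + 1) / 3) := by
    intro j hj
    rw [mem_range] at hj ⊢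
    omega
  rw [← sum_subset hsub]
  · refine sum_congr rfl fun j hj => ?_
    rw [mem_range] at hj
    rw [if_pos hj]
    have h3 : n + 1 - 3 * (j + 1) = (n - 3 * (j + 1)) + 1 := by omega
    rw [h3, pow_succ (b + 4 * g)]
    ring
  · intro j _ hj
    rw [mem_range] at hj
    rw [if_neg hj]
    simp

private theorem RP_d {n : ℕ} {F : ℂ → ℂ → ℂ → ℂ → ℂ} (h : RP n F) :
    DP (n + 3) (fun b g y z => (b ^ 2 * g) * F b g y z) := by
  obtain ⟨k, hk⟩ := h
  refine ⟨k, fun b g y z h1 h2 => ?_⟩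
  simp only
  rw [hk b g y z h1 h2, mul_sum]
  have h3 : (n + 3) / 3 = n / 3 + 1 := by omega
  rw [h3]
  refine sum_congr rfl fun j hj => ?_
  have h4 : n + 3 - 3 * (j + 1) = n - 3 * j := by omega
  rw [h4, pow_succ (b ^ 2 * g)]
  ring

private theorem DP_RP {n : ℕ} {F : ℂ → ℂ → ℂ → ℂ → ℂ} (h : DP n F) : RP n F := by
  obtain ⟨k, hk⟩ := h
  refine ⟨fun j => if j = 0 then 0 else k (j - 1), fun b g y z h1 h2 => ?_⟩
  rw [hk b g y z h1 h2, sum_range_succ']
  simp

/-- the symmetric function `P(p, s)` -/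
private def Pw (p s : ℕ) (b g y z : ℂ) : ℂ :=
  (4 * g) ^ p * b ^ s + (b + z) ^ p * y ^ s + (b + y) ^ p * z ^ s

private theorem key1 {b g y z : ℂ} (h1 : y + z = 4 * g) (h2 : y * z = -4 * b * g) :
    (b + z) * y ^ 2 = 4 * (b ^ 2 * g) := by
  linear_combination (y - b) * h2 + b * y * h1

private theorem Pw_red (p s : ℕ) {b g y z : ℂ} (h1 : y + z = 4 * g) (h2 : y * z = -4 * b * g) :
    Pw (p + 1) (s + 2) b g y z = 4 * ((b ^ 2 * g) * Pw p s b g y z) := by
  have e1 := key1 h1 h2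
  have e2 := key1 (b := b) (g := g) (y := z) (z := y) (by rw [add_comm]; exact h1)
    (by rw [mul_comm]; exact h2)
  unfold Pw
  rw [pow_succ (4 * g), pow_add b, pow_succ (b + z), pow_add y, pow_succ (b + y), pow_add z]
  linear_combination (b + z) ^ p * y ^ s * e1 + (b + y) ^ p * z ^ s * e2

private theorem Pw_recB (s : ℕ) {b g y z : ℂ} (h1 : y + z = 4 * g) (h2 : y * z = -4 * b * g) :
    Pw 0 (s + 3) b g y z = (b + 4 * g) * Pw 0 (s + 2) b g y z -
      4 * ((b ^ 2 * g) * Pw 0 s b g y z) := by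
  have e1 := key1 h1 h2
  have e2 := key1 (b := b) (g := g) (y := z) (z := y) (by rw [add_comm]; exact h1)
    (by rw [mul_comm]; exact h2)
  have f1 : y ^ 3 = (b + 4 * g) * y ^ 2 - 4 * (b ^ 2 * g) := by
    linear_combination y ^ 2 * h1 - e1
  have f2 : z ^ 3 = (b + 4 * g) * z ^ 2 - 4 * (b ^ 2 * g) := by
    linear_combination z ^ 2 * h1 - e2
  unfold Pw
  simp only [pow_zero, one_mul]
  rw [pow_add y, pow_add z, pow_add b, pow_add y s 2, pow_add z s 2, pow_add b s 2, f1, f2]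
  ring

private theorem Pw_recC (p s : ℕ) {b g y z : ℂ} (h1 : y + z = 4 * g) (h2 : y * z = -4 * b * g) :
    Pw (p + 3) s b g y z = 2 * ((b + 4 * g) * Pw (p + 2) s b g y z) -
      (b + 4 * g) * ((b + 4 * g) * Pw (p + 1) s b g y z) +
      4 * ((b ^ 2 * g) * Pw p s b g y z) := by
  have e1 := key1 h1 h2
  have e2 := key1 (b := b) (g := g) (y := z) (z := y) (by rw [add_comm]; exact h1)
    (by rw [mul_comm]; exact h2)
  have f1 : (b + z) ^ 3 = 2 * (b + 4 * g) * (b + z) ^ 2 - (b + 4 * g) ^ 2 * (b + z) +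
      4 * (b ^ 2 * g) := by
    have hy : b + 4 * g = (b + z) + y := by linear_combination -h1
    rw [hy]
    linear_combination e1
  have f2 : (b + y) ^ 3 = 2 * (b + 4 * g) * (b + y) ^ 2 - (b + 4 * g) ^ 2 * (b + y) +
      4 * (b ^ 2 * g) := by
    have hy : b + 4 * g = (b + y) + z := by linear_combination -h1
    rw [hy]
    linear_combination e2
  unfold Pw
  rw [pow_add (b + z), pow_add (b + y), pow_add (4 * g), pow_add (b + z) p 2, pow_add (b + y) p 2,
    pow_add (4 * g) p 2, pow_add (b + z) p 1, pow_add (b + y) p 1, pow_add (4 * g) p 1, f1, f2]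
  ring

private theorem RP_base {n : ℕ} (hn : n < 3) (c : ℚ) :
    RP n (fun b g _ _ => c * (b + 4 * g) ^ n) := by
  refine ⟨fun _ => c, fun b g y z _ _ => ?_⟩
  have h : n / 3 = 0 := by omega
  rw [h]
  simp

private theorem RP_B (s : ℕ) : RP s (Pw 0 s) ∧ RP (s + 1) (Pw 0 (s + 1)) ∧
    RP (s + 2) (Pw 0 (s + 2)) := by
  induction s with
  | zero =>
    refine ⟨RP_of (RP_base (by norm_num) 3) ?_, RP_of (RP_base (by norm_num) 1) ?_,
      RP_of (RP_base (by norm_num) 1) ?_⟩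
    · intro b g y z h1 h2
      unfold Pw
      simp only [pow_zero]
      push_cast
      ring
    · intro b g y z h1 h2
      unfold Pw
      simp only [pow_zero]
      push_cast
      linear_combination h1
    · intro b g y z h1 h2
      unfold Pw
      simp only [pow_zero]
      push_cast
      linear_combination (y + z + 4 * g) * h1 - 2 * h2
  | succ s ih =>
    obtain ⟨i0, i1, i2⟩ := ih
    refine ⟨i1, i2, ?_⟩
    refine RP_of (RP_lin (RP_e i2) (DP_RP (RP_d i0)) 1 (-4)) ?_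
    intro b g y z h1 h2
    rw [Pw_recB s h1 h2]
    push_cast
    ring

private theorem RP_C (p : ℕ) : RP p (Pw p 0) ∧ RP (p + 1) (Pw (p + 1) 0) ∧
    RP (p + 2) (Pw (p + 2) 0) := by
  induction p with
  | zero =>
    refine ⟨RP_of (RP_base (by norm_num) 3) ?_, RP_of (RP_base (by norm_num) 2) ?_,
      RP_of (RP_base (by norm_num) 2) ?_⟩
    · intro b g y z h1 h2
      unfold Pw
      simp only [pow_zero]
      push_cast
      ring
    · intro b g y z h1 h2
      unfold Pw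
      simp only [pow_zero]
      push_cast
      linear_combination h1
    · intro b g y z h1 h2
      unfold Pw
      simp only [pow_zero]
      push_cast
      linear_combination (2 * b + y + z + 4 * g) * h1 - 2 * h2
  | succ p ih =>
    obtain ⟨i0, i1, i2⟩ := ih
    refine ⟨i1, i2, ?_⟩
    refine RP_of (RP_lin (RP_lin (RP_e i2) (RP_e (RP_e i1)) 2 (-1)) (DP_RP (RP_d i0)) 1 4) ?_
    intro b g y z h1 h2
    rw [Pw_recC p 0 h1 h2]
    push_cast
    ring

private theorem DP_zero (n : ℕ) : DP n (fun _ _ _ _ => 0) :=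
  ⟨fun _ => 0, fun b g y z _ _ => by simp⟩

private theorem DP_D (p : ℕ) : DP (p + 2) (Pw (p + 1) 1) ∧ DP (p + 3) (Pw (p + 2) 1) ∧
    DP (p + 4) (Pw (p + 3) 1) := by
  induction p with
  | zero =>
    refine ⟨DP_of (DP_zero _) ?_, DP_of (RP_d (RP_base (n := 0) (by norm_num) (-12))) ?_,
      DP_of (RP_d (RP_base (n := 1) (by norm_num) (-20))) ?_⟩
    · intro b g y z h1 h2
      unfold Pw
      simp only [zero_add, pow_one]
      linear_combination b * h1 + 2 * h2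
    · intro b g y z h1 h2
      unfold Pw
      simp only [zero_add, pow_one, pow_zero]
      push_cast
      linear_combination (b ^ 2 + y * z) * h1 + (4 * b + 4 * g) * h2
    · intro b g y z h1 h2
      unfold Pw
      simp only [zero_add, pow_one]
      push_cast
      linear_combination (b ^ 3 + 3 * b * y * z + y * z * (y + z + 4 * g)) * h1 +
        (6 * b ^ 2 + 12 * b * g + 16 * g ^ 2 - 2 * y * z + 8 * b * g) * h2
  | succ p ih =>
    obtain ⟨i0, i1, i2⟩ := ih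
    refine ⟨i1, i2, ?_⟩
    refine DP_of (DP_lin (DP_lin (DP_e i2) (DP_e (DP_e i1)) 2 (-1)) (RP_d (DP_RP i0)) 1 4) ?_
    intro b g y z h1 h2
    rw [Pw_recC (p + 1) 1 h1 h2]
    push_cast
    ring

private theorem RP_all (s : ℕ) : (∀ p, RP (p + s) (Pw p s)) ∧ (∀ p, RP (p + (s + 1)) (Pw p (s + 1))) := by
  induction s with
  | zero =>
    refine ⟨fun p => (RP_C p).1, fun p => ?_⟩
    cases p with
    | zero => exact (RP_B 0).2.1
    | succ p => exact DP_RP (DP_D p).1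
  | succ s ih =>
    refine ⟨ih.2, fun p => ?_⟩
    cases p with
    | zero =>
      have h := (RP_B s).2.2
      rw [zero_add]
      exact h
    | succ p =>
      have h0 := ih.1 p
      have h := DP_RP (DP_lin (RP_d h0) (DP_zero _) 4 0)
      have h3 : p + 1 + (s + 1 + 1) = p + s + 3 := by ring
      rw [h3]
      refine RP_of h ?_
      intro b g y z h1 h2
      rw [Pw_red p s h1 h2]
      push_cast
      ring

private theorem DP_all (p s : ℕ) : DP (p + 1 + (s + 1)) (Pw (p + 1) (s + 1)) := by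
  cases s with
  | zero => exact (DP_D p).1
  | succ s =>
    have h0 := (RP_all s).1 p
    have h := DP_lin (RP_d h0) (DP_zero _) 4 0
    have h3 : p + 1 + (s + 1 + 1) = p + s + 3 := by ring
    rw [h3]
    refine DP_of h ?_
    intro b g y z h1 h2
    rw [Pw_red p s h1 h2]
    push_cast
    ring

theorem algT (N s : ℕ) (hs : 1 ≤ s) (hsN : s < N) : ∃ k : ℕ → ℚ, ∀ b g : ℂ,
    ∑ a ∈ Icc 1 (N - 1), ((U N a s : ℚ) : ℂ) * (b ^ (N - a) * g ^ a) +
      2 ^ (2 * N - 1) * (b ^ s * g ^ (N - s)) =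
      ∑ j ∈ Icc 1 (N / 3), (k j : ℂ) * ((b + 4 * g) ^ (N - 3 * j) * (b ^ 2 * g) ^ j) := by
  obtain ⟨p, hp⟩ : ∃ p, N - s = p + 1 := ⟨N - s - 1, by omega⟩
  obtain ⟨t, ht⟩ : ∃ t, s = t + 1 := ⟨s - 1, by omega⟩
  have hN : N = p + 1 + (t + 1) := by omega
  obtain ⟨k, hk⟩ := DP_all p t
  refine ⟨fun j => 4 ^ s / 2 * k (j - 1), fun b g => ?_⟩
  obtain ⟨y, hy⟩ : ∃ y : ℂ, y ^ 2 - 4 * g * y - 4 * b * g = 0 := by
    obtain ⟨w, hw⟩ := IsAlgClosed.exists_pow_nat_eq (4 * g ^ 2 + 4 * b * g) (n := 2) (by norm_num)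
    exact ⟨w + 2 * g, by linear_combination hw⟩
  have h1 : y + (4 * g - y) = 4 * g := by ring
  have h2 : y * (4 * g - y) = -4 * b * g := by linear_combination -hy
  rw [← algU N s hs hsN b g y (4 * g - y) h1 h2]
  have h3 := hk b g y (4 * g - y) h1 h2
  rw [← hN, ← ht, ← hp] at h3
  have h4 : (2 : ℂ) ^ (2 * N - 1) = 4 ^ s / 2 * 4 ^ (N - s) := by
    have h5 : (2 : ℂ) ^ (2 * N - 1) * 2 = 4 ^ s * 4 ^ (N - s) := by
      rw [← pow_succ, ← pow_add]
      have h6 : 2 * N - 1 + 1 = 2 * N := by omega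
      have h7 : s + (N - s) = N := by omega
      rw [h6, h7, pow_mul]
      norm_num
    linear_combination h5 / 2
  have h5 : ((b + (4 * g - y)) ^ (N - s) * (4 * y) ^ s + (b + y) ^ (N - s) * (4 * (4 * g - y)) ^ s) / 2 +
      2 ^ (2 * N - 1) * (b ^ s * g ^ (N - s)) = 4 ^ s / 2 * Pw (N - s) s b g y (4 * g - y) := by
    unfold Pw
    rw [h4, mul_pow 4 y, mul_pow 4 (4 * g - y), mul_pow 4 g]
    ring
  rw [h5, h3, mul_sum]
  have h6 : Icc 1 (N / 3) = Ico (0 + 1) (N / 3 + 1) := by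
    ext j
    simp only [mem_Icc, mem_Ico]
    omega
  rw [h6, ← sum_Ico_add', ← range_eq_Ico]
  refine sum_congr rfl fun j _ => ?_
  simp only [Nat.add_sub_cancel]
  push_cast
  ring

end Pool.Agent.BZ
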