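import Pool.Agent.Lib.MP_06b9d2_bz.ChA
/-! # BZ.AlgU: the algebraic identity behind the matrix of `U_2`
Put `c(p,s,a) = 4^(a+s) (C(a-p-1, 2a-s) + C(a-p-1, 2a-s-1)/2)` (`= U (p+s) a s`; terms with negative lower index are 0)
and `F(p,s) = ((b+y2)^p (4 y1)^s + (b+y1)^p (4 y2)^s)/2`.  Then `F(p,s) = ∑_{a=0}^{p+s} c(p,s,a) b^(p+s-a) g^a`, because both
sides satisfy `F(p+1,s) = (b+4g) F(p,s) - F(p,s+1)/4`, `F(p,s+2) = 16 g F(p,s+1) + 64 b g F(p,s)`, and agree for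
`p = 0, s = 0, 1` (`b + y2 = b + 4g - y1`, `y1² = 4 g y1 + 4 b g`); Pascal's rule.  For `p, s ≥ 1` only `1 ≤ a ≤ p+s-1` contributes:
`c(p,s,a) ≠ 0` forces `s ≤ 2a` and (`a ≤ p` or `a ≤ s-p`). -/
set_option autoImplicit false
open Finset
namespace Pool.Agent.BZ
private noncomputable def alg_d (x : ℚ) (j : ℤ) : ℚ := if 0 ≤ j then ch x j.toNat else 0

private theorem alg_d_neg (x : ℚ) {j : ℤ} (h : j < 0) : alg_d x j = 0 := by
  unfold alg_d
  rw [if_neg (by omega)]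

private theorem alg_d_nat (x : ℚ) (k : ℕ) : alg_d x (k : ℤ) = ch x k := by
  unfold alg_d
  rw [if_pos (by omega), Int.toNat_natCast]

private theorem alg_d_pascal (x y : ℚ) (h : y = x + 1) (j : ℤ) :
    alg_d y j = alg_d x j + alg_d x (j - 1) := by
  subst h
  rcases lt_or_ge j 0 with h | h
  · rw [alg_d_neg _ h, alg_d_neg _ h, alg_d_neg _ (by omega), add_zero]
  · obtain ⟨k, rfl⟩ := Int.eq_ofNat_of_zero_le h
    rcases k with _ | k
    · rw [alg_d_nat, alg_d_nat, alg_d_neg _ (by simp), ch_zero, ch_zero, add_zero]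
    · have e : ((k + 1 : ℕ) : ℤ) - 1 = (k : ℤ) := by push_cast; ring
      rw [e, alg_d_nat, alg_d_nat, alg_d_nat, ch_pascal]

private theorem alg_d_big (n : ℕ) (j : ℤ) (h : (n : ℤ) < j) : alg_d (n : ℚ) j = 0 := by
  obtain ⟨k, rfl⟩ := Int.eq_ofNat_of_zero_le (by omega : 0 ≤ j)
  rw [alg_d_nat, ch_of_lt n k (by omega)]

/-- the coefficient -/
private noncomputable def alg_c (p s a : ℕ) : ℚ :=
  4 ^ (a + s) * (alg_d ((a : ℚ) - p - 1) (2 * a - s) + alg_d ((a : ℚ) - p - 1) (2 * a - s - 1) / 2)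

private theorem alg_r1s (p s a : ℕ) :
    alg_c (p + 1) s (a + 1) = alg_c p s (a + 1) + 4 * alg_c p s a - alg_c p (s + 1) (a + 1) / 4 := by
  unfold alg_c
  obtain ⟨x, hx⟩ : ∃ x : ℚ, x = ((a : ℚ) + 1) - (p + 1) - 1 := ⟨_, rfl⟩
  obtain ⟨j, hj⟩ : ∃ j : ℤ, j = 2 * ((a : ℤ) + 1) - s := ⟨_, rfl⟩
  have e1 : (((a + 1 : ℕ) : ℚ) - ((p + 1 : ℕ) : ℚ) - 1) = x := by rw [hx]; push_cast; ring
  have e2 : (((a + 1 : ℕ) : ℚ) - (p : ℚ) - 1) = x + 1 := by rw [hx]; push_cast; ring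
  have e3 : ((a : ℚ) - (p : ℚ) - 1) = x := by rw [hx]; push_cast; ring
  have e4 : 2 * ((a + 1 : ℕ) : ℤ) - (s : ℤ) = j := by rw [hj]; push_cast; ring
  have e5 : 2 * (a : ℤ) - (s : ℤ) = j - 2 := by rw [hj]; ring
  have e6 : 2 * ((a + 1 : ℕ) : ℤ) - ((s + 1 : ℕ) : ℤ) = j - 1 := by rw [hj]; push_cast; ring
  rw [e1, e2, e3, e4, e5, e6]
  have p1 := alg_d_pascal x (x + 1) rfl j
  have p2 := alg_d_pascal x (x + 1) rfl (j - 1)
  have p3 := alg_d_pascal x (x + 1) rfl (j - 1 - 1)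
  rw [p1, p2, p3]
  have e7 : j - 2 = j - 1 - 1 := by ring
  rw [e7]
  have e8 : (4 : ℚ) ^ (a + 1 + s) = 4 * 4 ^ (a + s) := by ring
  have e9 : (4 : ℚ) ^ (a + 1 + (s + 1)) = 16 * 4 ^ (a + s) := by ring
  rw [e8, e9]
  ring

private theorem alg_r1z (p s : ℕ) :
    alg_c (p + 1) s 0 = alg_c p s 0 - alg_c p (s + 1) 0 / 4 := by
  unfold alg_c
  rcases s with _ | s
  · have e1 : 2 * ((0 : ℕ) : ℤ) - ((0 : ℕ) : ℤ) = ((0 : ℕ) : ℤ) := by norm_num
    rw [e1, alg_d_nat, alg_d_nat, ch_zero, ch_zero, alg_d_neg _ (by norm_num), alg_d_neg _ (by norm_num),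
      alg_d_neg _ (by norm_num), alg_d_neg _ (by norm_num)]
    ring
  · rw [alg_d_neg _ (by push_cast; omega), alg_d_neg _ (by push_cast; omega), alg_d_neg _ (by push_cast; omega),
      alg_d_neg _ (by push_cast; omega), alg_d_neg _ (by push_cast; omega), alg_d_neg _ (by push_cast; omega)]
    ring

private theorem alg_r2s (p s a : ℕ) :
    alg_c p (s + 2) (a + 1) = 16 * alg_c p (s + 1) a + 64 * alg_c p s a := by
  unfold alg_c
  obtain ⟨x, hx⟩ : ∃ x : ℚ, x = (a : ℚ) - p - 1 := ⟨_, rfl⟩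
  obtain ⟨j, hj⟩ : ∃ j : ℤ, j = 2 * (a : ℤ) - s := ⟨_, rfl⟩
  have e2 : (((a + 1 : ℕ) : ℚ) - (p : ℚ) - 1) = x + 1 := by rw [hx]; push_cast; ring
  have e3 : ((a : ℚ) - (p : ℚ) - 1) = x := by rw [hx]
  have e4 : 2 * ((a + 1 : ℕ) : ℤ) - ((s + 2 : ℕ) : ℤ) = j := by rw [hj]; push_cast; ring
  have e5 : 2 * (a : ℤ) - (s : ℤ) = j := by rw [hj]
  have e6 : 2 * (a : ℤ) - ((s + 1 : ℕ) : ℤ) = j - 1 := by rw [hj]; push_cast; ring
  rw [e2, e3, e4, e5, e6]
  have p1 := alg_d_pascal x (x + 1) rfl j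
  have p2 := alg_d_pascal x (x + 1) rfl (j - 1)
  rw [p1, p2]
  have e8 : (4 : ℚ) ^ (a + 1 + (s + 2)) = 64 * 4 ^ (a + s) := by ring
  have e9 : (4 : ℚ) ^ (a + (s + 1)) = 4 * 4 ^ (a + s) := by ring
  rw [e8, e9]
  ring

private theorem alg_cz (p s : ℕ) (hs : 1 ≤ s) : alg_c p s 0 = 0 := by
  unfold alg_c
  rw [alg_d_neg _ (by push_cast; omega), alg_d_neg _ (by push_cast; omega)]
  ring

private theorem alg_top (p s a : ℕ) (h : p + 1 ≤ a) (h2 : s < a + p) : alg_c p s a = 0 := by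
  obtain ⟨n, rfl⟩ := Nat.exists_eq_add_of_le h
  unfold alg_c
  have e : (((p + 1 + n : ℕ) : ℚ) - (p : ℚ) - 1) = ((n : ℕ) : ℚ) := by push_cast; ring
  rw [e, alg_d_big _ _ (by push_cast; omega), alg_d_big _ _ (by push_cast; omega)]
  ring

private theorem alg_U (p s a : ℕ) : U ((p + s : ℕ) : ℚ) a s = alg_c p s a := by
  unfold U alg_c
  have e : ((a : ℚ) + s - ((p + s : ℕ) : ℚ) - 1) = (a : ℚ) - p - 1 := by push_cast; ring
  rw [e]
  rcases lt_or_ge (2 * a) s with h | h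
  · rw [if_neg (by omega), alg_d_neg _ (by omega), alg_d_neg _ (by omega)]
    ring
  · rw [if_pos h]
    have e1 : 2 * (a : ℤ) - (s : ℤ) = ((2 * a - s : ℕ) : ℤ) := by omega
    rw [e1, alg_d_nat]
    rcases h.lt_or_eq with h1 | h1
    · rw [if_pos h1]
      have e2 : ((2 * a - s : ℕ) : ℤ) - 1 = ((2 * a - s - 1 : ℕ) : ℤ) := by omega
      rw [e2, alg_d_nat]
    · rw [if_neg (by omega), alg_d_neg _ (by omega)]

/-- the generating sum -/
private noncomputable def alg_G (b g : ℂ) (p s : ℕ) : ℂ :=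
  ∑ a ∈ range (p + s + 1), (alg_c p s a : ℂ) * (b ^ (p + s - a) * g ^ a)

private theorem alg_G_b (b g : ℂ) (p s : ℕ) :
    ∑ a ∈ range (p + s + 2), (alg_c p s a : ℂ) * (b ^ (p + s + 1 - a) * g ^ a) = b * alg_G b g p s := by
  rw [sum_range_succ, alg_top p s (p + s + 1) (by omega) (by omega)]
  unfold alg_G
  rw [mul_sum, Rat.cast_zero, zero_mul, add_zero]
  refine sum_congr rfl fun a ha => ?_
  have ha' := mem_range.1 ha
  have e : p + s + 1 - a = (p + s - a) + 1 := by omega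
  rw [e, pow_succ]
  ring

private theorem alg_G1 (b g : ℂ) (p s : ℕ) :
    alg_G b g (p + 1) s = (b + 4 * g) * alg_G b g p s - alg_G b g p (s + 1) / 4 := by
  have h1 := alg_G_b b g p s
  have h2 : ∑ a ∈ range (p + s + 1), (alg_c p s a : ℂ) * (b ^ (p + s + 1 - (a + 1)) * g ^ (a + 1)) =
      g * alg_G b g p s := by
    unfold alg_G
    rw [mul_sum]
    refine sum_congr rfl fun a ha => ?_
    have e : p + s + 1 - (a + 1) = p + s - a := by omega
    rw [e, pow_succ]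
    ring
  have h3 : alg_G b g p (s + 1) =
      ∑ a ∈ range (p + s + 1 + 1), (alg_c p (s + 1) a : ℂ) * (b ^ (p + s + 1 - a) * g ^ a) := rfl
  have h4 : alg_G b g (p + 1) s =
      ∑ a ∈ range (p + s + 1 + 1), (alg_c (p + 1) s a : ℂ) * (b ^ (p + s + 1 - a) * g ^ a) := by
    unfold alg_G
    have e : p + 1 + s = p + s + 1 := by omega
    rw [e]
  rw [sum_range_succ'] at h1 h3 h4
  rw [h4, h3]
  have h5 : (b + 4 * g) * alg_G b g p s = b * alg_G b g p s + 4 * (g * alg_G b g p s) := by ring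
  rw [h5, ← h1, ← h2, mul_sum, add_div, sum_div]
  rw [alg_r1z]
  have h6 : ∀ a : ℕ, (alg_c (p + 1) s (a + 1) : ℂ) * (b ^ (p + s + 1 - (a + 1)) * g ^ (a + 1)) =
      (alg_c p s (a + 1) : ℂ) * (b ^ (p + s + 1 - (a + 1)) * g ^ (a + 1)) +
      4 * ((alg_c p s a : ℂ) * (b ^ (p + s + 1 - (a + 1)) * g ^ (a + 1))) -
      (alg_c p (s + 1) (a + 1) : ℂ) * (b ^ (p + s + 1 - (a + 1)) * g ^ (a + 1)) / 4 := by
    intro a
    rw [alg_r1s]
    push_cast
    ring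
  rw [sum_congr rfl fun a _ => h6 a, sum_sub_distrib, sum_add_distrib]
  push_cast
  ring

private theorem alg_G2 (b g : ℂ) (p s : ℕ) :
    alg_G b g p (s + 2) = 16 * g * alg_G b g p (s + 1) + 64 * b * g * alg_G b g p s := by
  have h1 := alg_G_b b g p s
  have h4 : alg_G b g p (s + 2) =
      ∑ a ∈ range (p + s + 2 + 1), (alg_c p (s + 2) a : ℂ) * (b ^ (p + s + 2 - a) * g ^ a) := rfl
  have h3 : alg_G b g p (s + 1) =
      ∑ a ∈ range (p + s + 2), (alg_c p (s + 1) a : ℂ) * (b ^ (p + s + 1 - a) * g ^ a) := rfl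
  rw [sum_range_succ', alg_cz _ _ (by omega)] at h4
  have h5 : 16 * g * alg_G b g p (s + 1) + 64 * b * g * alg_G b g p s =
      16 * g * alg_G b g p (s + 1) + 64 * g * (b * alg_G b g p s) := by ring
  rw [h5, h4, h3, ← h1, mul_sum, mul_sum, ← sum_add_distrib, Rat.cast_zero, zero_mul, add_zero]
  refine sum_congr rfl fun a ha => ?_
  have e : p + s + 2 - (a + 1) = p + s + 1 - a := by omega
  rw [e, alg_r2s]
  push_cast
  ring

private theorem alg_main (b g y1 y2 : ℂ) (h1 : y1 + y2 = 4 * g) (h2 : y1 * y2 = -4 * b * g) (p : ℕ) :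
    ∀ s : ℕ, ((b + y2) ^ p * (4 * y1) ^ s + (b + y1) ^ p * (4 * y2) ^ s) / 2 = alg_G b g p s := by
  induction p with
  | zero =>
    have key : ∀ s : ℕ, (((b + y2) ^ 0 * (4 * y1) ^ s + (b + y1) ^ 0 * (4 * y2) ^ s) / 2 = alg_G b g 0 s) ∧
        (((b + y2) ^ 0 * (4 * y1) ^ (s + 1) + (b + y1) ^ 0 * (4 * y2) ^ (s + 1)) / 2 =
          alg_G b g 0 (s + 1)) := by
      intro s
      induction s with
      | zero =>
        constructor
        · unfold alg_G alg_c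
          simp only [pow_zero, add_zero, zero_add, sum_range_one, Nat.sub_zero, mul_one, one_mul]
          have e1 : 2 * ((0 : ℕ) : ℤ) - ((0 : ℕ) : ℤ) = ((0 : ℕ) : ℤ) := by norm_num
          rw [e1, alg_d_nat, ch_zero, alg_d_neg _ (by norm_num)]
          norm_num
        · unfold alg_G
          simp only [zero_add]
          rw [sum_range_succ, sum_range_one, alg_cz _ _ le_rfl]
          unfold alg_c
          have e1 : 2 * ((1 : ℕ) : ℤ) - ((1 : ℕ) : ℤ) = ((1 : ℕ) : ℤ) := by norm_num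
          have e2 : ((1 : ℕ) : ℤ) - 1 = ((0 : ℕ) : ℤ) := by norm_num
          rw [e1, e2, alg_d_nat, alg_d_nat, ch_zero]
          have e3 : (((1 : ℕ) : ℚ) - ((0 : ℕ) : ℚ) - 1) = ((0 : ℕ) : ℚ) := by norm_num
          rw [e3, ch_of_lt 0 1 (by norm_num)]
          push_cast
          simp only [Nat.sub_self, pow_zero, pow_one, one_mul]
          linear_combination 2 * h1
      | succ s ih =>
        refine ⟨ih.2, ?_⟩
        rw [alg_G2, ← ih.1, ← ih.2]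
        simp only [pow_zero, one_mul]
        have f1 : y1 ^ 2 = 4 * g * y1 + 4 * b * g := by linear_combination y1 * h1 - h2
        have f2 : y2 ^ 2 = 4 * g * y2 + 4 * b * g := by linear_combination y2 * h1 - h2
        have f3 : (4 * y1) ^ (s + 1 + 1) = (4 * y1) ^ s * 16 * y1 ^ 2 := by ring
        have f4 : (4 * y2) ^ (s + 1 + 1) = (4 * y2) ^ s * 16 * y2 ^ 2 := by ring
        rw [f3, f4, f1, f2]
        ring
    exact fun s => (key s).1
  | succ p ih =>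
    intro s
    rw [alg_G1, ← ih s, ← ih (s + 1)]
    have f1 : b + y2 = b + 4 * g - y1 := by linear_combination h1
    have f2 : b + y1 = b + 4 * g - y2 := by linear_combination h1
    have f3 : (b + y2) ^ (p + 1) = (b + y2) ^ p * (b + 4 * g - y1) := by rw [pow_succ, ← f1]
    have f4 : (b + y1) ^ (p + 1) = (b + y1) ^ p * (b + 4 * g - y2) := by rw [pow_succ, ← f2]
    rw [f3, f4]
    ring

theorem algU (N s : ℕ) (hs : 1 ≤ s) (hsN : s < N) (b g y1 y2 : ℂ) (h1 : y1 + y2 = 4 * g)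
    (h2 : y1 * y2 = -4 * b * g) :
    ((b + y2) ^ (N - s) * (4 * y1) ^ s + (b + y1) ^ (N - s) * (4 * y2) ^ s) / 2 =
      ∑ a ∈ Icc 1 (N - 1), ((U N a s : ℚ) : ℂ) * (b ^ (N - a) * g ^ a) := by
  obtain ⟨p, rfl⟩ : ∃ p : ℕ, N = p + s := ⟨N - s, by omega⟩
  rw [Nat.add_sub_cancel, alg_main b g y1 y2 h1 h2 p s]
  unfold alg_G
  rw [sum_range_succ, sum_range_eq_add_Ico _ (by omega : 0 < p + s), alg_cz p s hs,
    alg_top p s (p + s) (by omega) (by omega), Rat.cast_zero, zero_mul, zero_mul, zero_add, add_zero]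
  have e : Icc 1 (p + s - 1) = Ico 1 (p + s) := by
    ext a
    simp only [mem_Icc, mem_Ico]
    omega
  rw [e]
  refine sum_congr rfl fun a _ => ?_
  rw [alg_U]
end Pool.Agent.BZ
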