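import Pool.Agent.Lib.MP_06b9d2_bz.ChA
/-! # BZ.Dig: binary digit sums and valuations of binomial coefficients -/
set_option autoImplicit false
open Finset
namespace Pool.Agent.BZ
/-- sum of binary digits -/
def s2 (n : ℕ) : ℕ := (Nat.digits 2 n).sum

private theorem s2_rec {n : ℕ} (h : 0 < n) : s2 n = n % 2 + s2 (n / 2) := by
  unfold s2
  rw [Nat.digits_def' (by norm_num) h, List.sum_cons]

theorem s2_zero : s2 0 = 0 := by simp [s2]
theorem s2_two_mul (n : ℕ) : s2 (2 * n) = s2 n := by
  rcases Nat.eq_zero_or_pos n with rfl | h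
  · rfl
  · rw [s2_rec (by omega), Nat.mul_mod_right, Nat.mul_div_cancel_left _ (by norm_num), zero_add]
theorem s2_two_mul_add_one (n : ℕ) : s2 (2 * n + 1) = s2 n + 1 := by
  rw [s2_rec (by omega)]
  have h1 : (2 * n + 1) % 2 = 1 := by omega
  have h2 : (2 * n + 1) / 2 = n := by omega
  rw [h1, h2, add_comm]
theorem s2_pos {n : ℕ} (h : 0 < n) : 1 ≤ s2 n := by
  induction n using Nat.strong_induction_on with
  | _ n ih =>
    rcases Nat.even_or_odd' n with ⟨m, rfl | rfl⟩
    · rw [s2_two_mul]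
      exact ih m (by omega) (by omega)
    · rw [s2_two_mul_add_one]
      omega
theorem s2_le (n : ℕ) : s2 n ≤ Nat.log 2 n + 1 := by
  induction n using Nat.strong_induction_on with
  | _ n ih =>
    rcases Nat.lt_or_ge n 2 with h | h
    · interval_cases n
      · simp [s2]
      · simp [s2]
    · rw [s2_rec (by omega), Nat.log_of_one_lt_of_le (by norm_num) h]
      have h1 := ih (n / 2) (by omega)
      omega
theorem s2_le_self (n : ℕ) : s2 n ≤ n := Nat.digit_sum_le 2 n

/-- Legendre -/
theorem val_fac (n : ℕ) : padicValRat 2 (n.factorial : ℚ) = (n : ℤ) - s2 n := by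
  have h1 := sub_one_mul_padicValNat_factorial (p := 2) n
  have h2 : (Nat.digits 2 n).sum = s2 n := rfl
  rw [h2] at h1
  have h3 := s2_le_self n
  rw [padicValRat.of_nat]
  have h4 : padicValNat 2 n.factorial = n - s2 n := by
    simpa using h1
  rw [h4]
  omega

theorem s2_add_le (a b : ℕ) : s2 (a + b) ≤ s2 a + s2 b := by
  have h1 := val_fac a
  have h2 := val_fac b
  have h3 := val_fac (a + b)
  have h4 : a.factorial * b.factorial ∣ (a + b).factorial := Nat.factorial_mul_factorial_dvd_factorial_add a b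
  rw [padicValRat.of_nat] at h1 h2 h3
  have h5 : padicValNat 2 (a.factorial * b.factorial) ≤ padicValNat 2 (a + b).factorial :=
    (padicValNat_dvd_iff_le (Nat.factorial_ne_zero _)).1 (pow_padicValNat_dvd.trans h4)
  rw [padicValNat.mul (Nat.factorial_ne_zero _) (Nat.factorial_ne_zero _)] at h5
  omega

theorem s2_two_pow (w : ℕ) : s2 (2 ^ w) = 1 := by
  induction w with
  | zero => simp [s2]
  | succ w ih => rw [pow_succ, mul_comm, s2_two_mul, ih]
theorem s2_pow_add {w x : ℕ} (h : x < 2 ^ w) : s2 (2 ^ w + x) = 1 + s2 x := by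
  induction w generalizing x with
  | zero =>
    have : x = 0 := by simpa using h
    subst this
    simp [s2]
  | succ w ih =>
    rw [pow_succ] at h ⊢
    rcases Nat.even_or_odd' x with ⟨m, rfl | rfl⟩
    · have h1 : 2 ^ w * 2 + 2 * m = 2 * (2 ^ w + m) := by ring
      rw [h1, s2_two_mul, s2_two_mul]
      exact ih (by omega)
    · have h1 : 2 ^ w * 2 + (2 * m + 1) = 2 * (2 ^ w + m) + 1 := by ring
      rw [h1, s2_two_mul_add_one, s2_two_mul_add_one, ih (by omega)]
      omega
theorem s2_pow_sub {w x : ℕ} (h1 : 1 ≤ x) (h2 : x ≤ 2 ^ w) : s2 (2 ^ w - x) + s2 (x - 1) = w := by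
  induction w generalizing x with
  | zero =>
    have : x = 1 := by
      rw [pow_zero] at h2
      omega
    subst this
    simp [s2]
  | succ w ih =>
    rw [pow_succ] at h2 ⊢
    rcases Nat.even_or_odd' x with ⟨m, rfl | rfl⟩
    · have h3 : 2 ^ w * 2 - 2 * m = 2 * (2 ^ w - m) := by omega
      have h4 : 2 * m - 1 = 2 * (m - 1) + 1 := by omega
      have h5 := ih (x := m) (by omega) (by omega)
      rw [h3, h4, s2_two_mul, s2_two_mul_add_one]
      omega
    · have h3 : 2 ^ w * 2 - (2 * m + 1) = 2 * (2 ^ w - (m + 1)) + 1 := by omega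
      have h4 : 2 * m + 1 - 1 = 2 * m := by omega
      have h5 := ih (x := m + 1) (by omega) (by omega)
      rw [h3, h4, s2_two_mul, s2_two_mul_add_one]
      rw [Nat.add_sub_cancel] at h5
      omega
/-- Kummer -/
theorem val_choose {n k : ℕ} (h : k ≤ n) :
    padicValRat 2 (n.choose k : ℚ) = (s2 k : ℤ) + s2 (n - k) - s2 n := by
  have h1 := val_fac n
  have h2 := val_fac k
  have h3 := val_fac (n - k)
  have h4 := Nat.choose_mul_factorial_mul_factorial h
  have h5 : (n.factorial : ℚ) = (n.choose k : ℚ) * k.factorial * (n - k).factorial := by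
    rw [← h4]; push_cast; ring
  have c1 : (n.choose k : ℚ) ≠ 0 := by
    exact_mod_cast (Nat.choose_pos h).ne'
  have c2 : (k.factorial : ℚ) ≠ 0 := by exact_mod_cast k.factorial_ne_zero
  have c3 : ((n - k).factorial : ℚ) ≠ 0 := by exact_mod_cast (n - k).factorial_ne_zero
  rw [h5, padicValRat.mul (mul_ne_zero c1 c2) c3, padicValRat.mul c1 c2, h2, h3] at h1
  have h6 : ((n - k : ℕ) : ℤ) = n - k := by omega
  rw [h6] at h1
  linarith
/-- Kummer for `ch` -/
theorem val_ch {x : ℚ} {n k : ℕ} (hx : x = n) (h : k ≤ n) :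
    ch x k ≠ 0 ∧ padicValRat 2 (ch x k) = (s2 k : ℤ) + s2 (n - k) - s2 n := by
  rw [hx, ch_nat]
  exact ⟨by exact_mod_cast (Nat.choose_pos h).ne', val_choose h⟩
/-- `v(C(n,k)) ≤ log₂ n` -/
theorem val_ch_le {x : ℚ} {n k : ℕ} (hx : x = n) (h : k ≤ n) :
    padicValRat 2 (ch x k) ≤ Nat.log 2 n := by
  rw [hx, ch_nat, padicValRat.of_nat]
  have h1 : (n.choose k).factorization 2 ≤ Nat.log 2 n := Nat.factorization_choose_le_log
  rw [Nat.factorization_def _ Nat.prime_two] at h1
  exact_mod_cast h1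
end Pool.Agent.BZ
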