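import Pool.Agent.Lib.MP_06b9d2_bz.Val
import Pool.Agent.Lib.MP_06b9d2_bz.Dig
/-! # BZ.Lip: `C(x + 2^e y, k) - C(x, k)` is divisible by `2^(e - log₂ k)`
By Vandermonde (`ch_vand`) the difference is `∑_{j ≥ 1} C(2^e y, j) C(x, k-j)` and `j C(M,j) = M C(M-1,j-1)`. -/
set_option autoImplicit false
open Finset
namespace Pool.Agent.BZ
theorem Ge_ch (x : ℤ) (k : ℕ) : Ge 0 (ch (x : ℚ) k) := by
  obtain ⟨z, hz⟩ := ch_int x k
  rw [hz]
  exact Ge.int z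

private theorem lip_term (y : ℤ) (e k j : ℕ) (hj : j < k) :
    Ge ((e : ℤ) - Nat.log 2 k) (ch ((2 : ℚ) ^ e * y) (j + 1)) := by
  have h1 := ch_step' ((2 : ℚ) ^ e * y) j
  have h0 : ((j : ℚ) + 1) ≠ 0 := by positivity
  have h2 : ch ((2 : ℚ) ^ e * y) (j + 1) =
      (2 : ℚ) ^ e * y * ch ((2 : ℚ) ^ e * y - 1) j / (((j + 1 : ℕ) : ℤ) : ℚ) := by
    rw [eq_div_iff (by exact_mod_cast Nat.succ_ne_zero j)]
    push_cast
    rw [mul_comm]
    exact h1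
  rw [h2]
  have h3 : Ge ((e : ℤ) + 0 + 0) ((2 : ℚ) ^ e * y * ch ((2 : ℚ) ^ e * y - 1) j) := by
    refine ((Ge.pow2 e).mul (Ge.int y)).mul ?_
    have h4 : (2 : ℚ) ^ e * y - 1 = ((2 ^ e * y - 1 : ℤ) : ℚ) := by push_cast; ring
    rw [h4]
    exact Ge_ch _ j
  rw [add_zero, add_zero] at h3
  refine Ge.div h3 ?_
  have h5 : padicValRat 2 ((((j + 1 : ℕ) : ℤ) : ℚ)) = (padicValNat 2 (j + 1) : ℤ) := by
    rw [padicValRat.of_int]
    norm_cast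
  rw [h5]
  have h6 : padicValNat 2 (j + 1) ≤ Nat.log 2 (j + 1) := padicValNat_le_nat_log _
  have h7 : Nat.log 2 (j + 1) ≤ Nat.log 2 k := Nat.log_mono_right (by omega)
  exact_mod_cast h6.trans h7

theorem ch_lip (x y : ℤ) (e k : ℕ) :
    Ge ((e : ℤ) - Nat.log 2 k) (ch ((x : ℚ) + 2 ^ e * y) k - ch (x : ℚ) k) := by
  rw [ch_vand, Finset.sum_range_succ', ch_zero, Nat.sub_zero, one_mul, add_sub_cancel_right]
  refine Ge.sum _ _ fun j hj => ?_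
  have h1 := (lip_term y e k j (Finset.mem_range.1 hj)).mul (Ge_ch x (k - (j + 1)))
  rwa [add_zero] at h1

/-- the same, in the form used later -/
theorem ch_lip' {a b : ℚ} {x y : ℤ} {e : ℕ} (k : ℕ) (ha : a = x) (hb : b = y) (h : (2 ^ e : ℤ) ∣ x - y) :
    Ge ((e : ℤ) - Nat.log 2 k) (ch a k - ch b k) := by
  obtain ⟨z, hz⟩ := h
  have h1 : a = (y : ℚ) + 2 ^ e * z := by
    rw [ha]
    have : x = y + 2 ^ e * z := by linarith
    rw [this]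
    push_cast
    ring
  rw [h1, hb]
  exact ch_lip y z e k
end Pool.Agent.BZ
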