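import Pool.Agent.Lib.MP_06b9d2_bz.Defs
/-! # BZ.ParA: elementary facts about the parameters -/
set_option autoImplicit false
open Finset
namespace Pool.Agent.BZ
namespace Par
variable (P : Par)

private theorem para_lt (k : ℕ) : k < 2 ^ k := Nat.lt_two_pow_self

private theorem para_L : 1000 ≤ P.L := by
  have := P.hL
  omega

private theorem para_nL : P.n ≤ P.L := by
  have := P.hL
  nlinarith [P.hn3]

private theorem para_two {k : ℕ} (hk : 1 ≤ k) : ∃ j, 2 ^ k = 2 * j :=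
  ⟨2 ^ (k - 1), by rw [← pow_succ']; congr 1; omega⟩

theorem l_odd : Odd P.l := by
  obtain ⟨a, ha⟩ := P.hn
  have h3 := P.hn3
  obtain ⟨j, hj⟩ := para_two (by have := para_L P; omega : 1 ≤ P.L)
  refine ⟨a - 1 + j, ?_⟩
  unfold l
  omega
theorem l_gt : 2 ^ P.L < P.l := by
  have h3 := P.hn3
  unfold l
  omega
theorem l_lt : P.l < 2 ^ (P.L + 1) := by
  have h1 := para_nL P
  have h2 := para_lt P.L
  rw [pow_succ]
  unfold l
  omega
theorem l_eq : P.l + 2 = P.n + 2 ^ P.L := by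
  have h3 := P.hn3
  unfold l
  omega
theorem two_m : 2 * P.m + 1 = P.N0 := by
  obtain ⟨a, ha⟩ := l_odd P
  unfold m N0
  omega
theorem m_eq : 2 * P.m + 1 = 2 * P.s0 + P.l := by
  rw [two_m]
  rfl
theorem N0_odd : Odd P.N0 := by
  obtain ⟨a, ha⟩ := l_odd P
  exact ⟨P.s0 + a, by unfold N0; omega⟩
theorem h_le : P.h ≤ P.L := by
  have h1 := P.hL
  have h2 := P.hh2
  nlinarith [P.hn3]
private theorem para_hE : P.h ≤ P.E := by
  have h1 := h_le P
  unfold E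
  omega
theorem w_gt : P.E + 2 ^ P.L ≤ P.w := by
  have h1 := h_le P
  have h2 := para_lt P.L
  have h3 := l_gt P
  have h4 := para_hE P
  unfold w
  omega
theorem N_odd : Odd P.N := by
  obtain ⟨a, ha⟩ := N0_odd P
  have h1 := w_gt P
  have h2 := para_lt P.L
  obtain ⟨j, hj⟩ := para_two (by omega : 1 ≤ P.w)
  exact ⟨a + j, by unfold N; omega⟩
theorem big2 : 1000 * P.l ≤ 2 ^ P.E := by
  have h1 := l_lt P
  have h2 := para_L P
  have h3 : 2 ^ (P.L + 1) * 2 ^ 10 ≤ 2 ^ P.E := by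
    rw [← pow_add]
    exact Nat.pow_le_pow_right (by norm_num) (by unfold E; omega)
  have h4 : (2 : ℕ) ^ 10 = 1024 := by norm_num
  rw [h4] at h3
  omega
theorem N0_lt : P.N0 < 2 ^ (P.E + 2) := by
  have h1 := big2 P
  have h2 := para_lt P.E
  have h3 := para_L P
  have h4 : P.E = 100 * P.L := rfl
  rw [pow_add]
  unfold N0 s0
  norm_num
  omega
theorem N0_gt : 2 ^ (P.E + 1) < P.N0 := by
  rw [pow_succ]
  unfold N0 s0
  omega
theorem g_big : P.h * (P.n + 2) + 400 ≤ P.g := by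
  have h1 := P.hL
  have h2 := P.hh2
  have h3 := P.hn3
  unfold g
  rw [Nat.le_div_iff_mul_le (by norm_num)]
  have h4 : P.h * (P.n + 2) ≤ (4 * P.n) * (P.n + 2) := Nat.mul_le_mul_right _ (by omega)
  nlinarith
theorem n_le : 16 * P.n ^ 2 + 1000 ≤ P.L := P.hL
theorem w_eq : (P.w : ℤ) = 2 * P.l + 3 + P.E - P.h := by
  have h4 := para_hE P
  unfold w
  rw [Nat.cast_sub (by omega)]
  push_cast
  ring
theorem H_eq : (P.H : ℤ) = 2 * P.N0 - 1 := by
  have h1 := N0_gt P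
  have h2 : 0 < 2 ^ (P.E + 1) := by positivity
  unfold H
  omega
theorem H_eq' : (P.H : ℤ) = 4 * P.s0 + 2 * P.l - 1 := by
  rw [H_eq]
  unfold N0
  push_cast
  ring
/-- `2^L` is much larger than `L` -/
theorem big1 : 1000000 * P.L ≤ 2 ^ (P.L - 3) := by
  have h1 := para_L P
  have h2 := para_lt (P.L - 43)
  have h3 : 2 ^ (P.L - 3) = 2 ^ (P.L - 43) * 2 ^ 40 := by
    rw [← pow_add]
    congr 1
    omega
  have h4 : (2 : ℕ) ^ 40 = 1099511627776 := by norm_num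
  rw [h3, h4]
  omega
theorem big1' : 8 * 2 ^ (P.L - 3) = 2 ^ P.L := by
  have h1 := para_L P
  have h2 : (8 : ℕ) = 2 ^ 3 := by norm_num
  rw [h2, ← pow_add]
  congr 1
  omega
/-- `2^w` is much larger than `N0` -/
theorem big3 : 1000 * P.N0 ≤ 2 ^ P.w := by
  have h1 := N0_lt P
  have h2 := w_gt P
  have h3 := para_L P
  have h5 := para_lt P.L
  have h4 : 2 ^ (P.E + 2) * 2 ^ 10 ≤ 2 ^ P.w := by
    rw [← pow_add]
    exact Nat.pow_le_pow_right (by norm_num) (by omega)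
  have h6 : (2 : ℕ) ^ 10 = 1024 := by norm_num
  rw [h6] at h4
  omega
theorem N_big : 16 * P.N0 ≤ P.N := by
  have h1 := big3 P
  unfold N
  omega
end Par
theorem log_lt_of {a k : ℕ} (h : a < 2 ^ (k + 1)) : Nat.log 2 a ≤ k := by
  rcases Nat.eq_zero_or_pos a with h0 | h0
  · rw [h0, Nat.log_zero_right]
    exact Nat.zero_le _
  · exact Nat.lt_succ_iff.1 (Nat.log_lt_of_lt_pow h0.ne' h)
theorem log_mul_le (a b : ℕ) : Nat.log 2 (a * b) ≤ Nat.log 2 a + Nat.log 2 b + 1 := by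
  apply log_lt_of
  have h1 := Nat.lt_pow_succ_log_self (b := 2) (by norm_num) a
  have h2 := Nat.lt_pow_succ_log_self (b := 2) (by norm_num) b
  calc a * b < 2 ^ (Nat.log 2 a + 1) * 2 ^ (Nat.log 2 b + 1) := Nat.mul_lt_mul'' h1 h2
    _ = 2 ^ (Nat.log 2 a + Nat.log 2 b + 1 + 1) := by rw [← pow_add]; congr 1; omega
theorem log_add_le (a b : ℕ) (ha : 1 ≤ a) : Nat.log 2 (a + b) ≤ Nat.log 2 a + Nat.log 2 b + 1 := by
  have _ := ha
  apply log_lt_of
  have h1 : a < 2 ^ (Nat.log 2 a + 1) := Nat.lt_pow_succ_log_self (b := 2) (by norm_num) a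
  have h2 : b < 2 ^ (Nat.log 2 b + 1) := Nat.lt_pow_succ_log_self (b := 2) (by norm_num) b
  have h3 : 2 ^ (Nat.log 2 a + Nat.log 2 b + 1 + 1) =
      2 ^ (Nat.log 2 a + 1) * 2 ^ (Nat.log 2 b + 1) := by
    rw [← pow_add]; congr 1; omega
  rw [h3]
  have h4 : 2 ≤ 2 ^ (Nat.log 2 a + 1) := by
    rw [pow_succ]
    have : 0 < 2 ^ Nat.log 2 a := by positivity
    omega
  have h5 : 2 ≤ 2 ^ (Nat.log 2 b + 1) := by
    rw [pow_succ]
    have : 0 < 2 ^ Nat.log 2 b := by positivity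
    omega
  obtain ⟨u, hu⟩ : ∃ u, u = 2 ^ (Nat.log 2 a + 1) := ⟨_, rfl⟩
  obtain ⟨v, hv⟩ : ∃ v, v = 2 ^ (Nat.log 2 b + 1) := ⟨_, rfl⟩
  rw [← hu] at h1 h4 ⊢
  rw [← hv] at h2 h5 ⊢
  obtain ⟨c, rfl⟩ := Nat.exists_eq_add_of_le h4
  obtain ⟨d, rfl⟩ := Nat.exists_eq_add_of_le h5
  nlinarith [Nat.zero_le (c * d)]
theorem log_lin (x : ℕ) : 16 * Nat.log 2 x ≤ x + 64 := by
  rcases Nat.eq_zero_or_pos x with h0 | h0
  · rw [h0, Nat.log_zero_right]
    omega
  · have h1 := Nat.pow_log_le_self 2 h0.ne'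
    have h2 : ∀ k : ℕ, 16 * k ≤ 2 ^ k + 64 := by
      intro k
      induction k with
      | zero => norm_num
      | succ k ih =>
        rcases Nat.lt_or_ge k 4 with hk | hk
        · exact le_trans (by omega : 16 * (k + 1) ≤ 64) (Nat.le_add_left _ _)
        · have h3 : 2 ^ 4 ≤ 2 ^ k := Nat.pow_le_pow_right (by norm_num) hk
          rw [pow_succ]
          omega
    have h3 := h2 (Nat.log 2 x)
    omega
theorem log_mono {a b : ℕ} (h : a ≤ b) : Nat.log 2 a ≤ Nat.log 2 b := Nat.log_mono_right h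
end Pool.Agent.BZ
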