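import Pool.Agent.Lib.MP_06b9d2_bz.Val
import Pool.Agent.Lib.MP_06b9d2_bz.Dig
import Pool.Agent.Lib.MP_06b9d2_bz.Lip
import Pool.Agent.Lib.MP_06b9d2_bz.ParA
/-! # BZ.BAl: the valuation of `α_s(N)`, `N = N0 + 2^w`
Here `s ≤ s0 = 1 + 2^E`, `N0 = 2 s0 + l`.  `v(α_s) = 3s + v(s!) + v C(2N-2s-1, s) + v C(N-2s-1, s-1) - v C(N-s-1, s-1)` (`od` is a unit).
All arguments are naturals; the summand `2^w` (or `2^(w+1)`) only adds a digit (`s2_pow_add`), except in `C(2^w + x, s-1)`,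
`x = N0-2s-1 < s-1` (`3s > N0`), where `s2 (2^w - z) = w - s2 (z-1)`, `z = s-1-x`.
(1) `s = s0`: `v = 4 s0 - s2 s0 + 1 + (w - E) - 0 = 4 s0 - 1 + w - E = H + 3 - h`
   (`C(2s0+2l-1, s0)`: `s0 = 2^E + 1`, other part `2^E + 2l`, one carry as `2l+1 < 2^E`; `C(2^w + l - 1, 2^E)`: `w - E`;
    `C(2^E + l, 2^E)`: 0).
(2) `s < s0`, `i = s0 - s`, `3s > N0`:
 `v(α_s) - H = 3 - h - 4i + s2(2^E+2l+3i) + s2(3i+l-1) + s2(2^E+l+i) - s2(2^(E+1)+2l+2i+1) - s2(l+2i-1) - s2(l+2i)`,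
 where `s2(x + c 2^L) ≤ s2 x + 1..` and `s2 x ≤ log₂ x + 1` give the bound (slack ≥ 10 numerically).
(3) `3s ≤ N0`: `v(α_s) - H ≤ -4i - 2l + 1 + 3(E+3)`, much smaller (`ParA.big1`: `l > 2^L` is larger than `10^6 L`, `E = 100 L`). -/
set_option autoImplicit false
open Finset
namespace Pool.Agent.BZ
private theorem BAl_gen (N s : ℕ) (hs : 1 ≤ s) (hN : 4 * s ≤ N) (hodd : Odd N) :
    al (N : ℚ) s ≠ 0 ∧ padicValRat 2 (al (N : ℚ) s) =
      4 * (s : ℤ) + s2 (2 * N - 3 * s - 1) + s2 (N - 3 * s) - 2 * s2 (N - 2 * s) := by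
  have x1 : (2 * (N : ℚ) - 2 * s - 1) = ((2 * N - 2 * s - 1 : ℕ) : ℚ) := by
    rw [Nat.cast_sub (by omega), Nat.cast_sub (by omega)]
    push_cast
    ring
  have x2 : ((N : ℚ) - 2 * s - 1) = ((N - 2 * s - 1 : ℕ) : ℚ) := by
    rw [Nat.cast_sub (by omega), Nat.cast_sub (by omega)]
    push_cast
    ring
  have x3 : ((N : ℚ) - s - 1) = ((N - s - 1 : ℕ) : ℚ) := by
    rw [Nat.cast_sub (by omega), Nat.cast_sub (by omega)]
    push_cast
    ring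
  obtain ⟨a1, a2⟩ := val_ch (k := s) x1 (by omega)
  obtain ⟨b1, b2⟩ := val_ch (k := s - 1) x2 (by omega)
  obtain ⟨c1, c2⟩ := val_ch (k := s - 1) x3 (by omega)
  obtain ⟨d1, d2⟩ := od_val s
  have e1 := val_fac s
  have f1 : (s.factorial : ℚ) ≠ 0 := by exact_mod_cast s.factorial_ne_zero
  have g1 : ((-8 : ℚ)) ^ s ≠ 0 := pow_ne_zero _ (by norm_num)
  have g2 : padicValRat 2 ((-8 : ℚ) ^ s) = 3 * (s : ℤ) := by
    have h1 : padicValRat 2 (-8 : ℚ) = 3 := by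
      rw [padicValRat.neg, show (8 : ℚ) = ((2 ^ 3 : ℕ) : ℚ) by norm_num, padicValRat.of_nat,
        padicValNat.prime_pow]
      rfl
    rw [padicValRat.pow, h1]
    ring
  have y1 : 2 * N - 2 * s - 1 - s = 2 * N - 3 * s - 1 := by omega
  have y2 : N - 2 * s - 1 - (s - 1) = N - 3 * s := by omega
  have y3 : N - s - 1 - (s - 1) = N - 2 * s := by omega
  rw [y1] at a2
  rw [y2] at b2
  rw [y3] at c2
  obtain ⟨M, hM⟩ := hodd
  have z1 : s2 (2 * N - 2 * s - 1) = s2 (N - s - 1) + 1 := by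
    rw [← s2_two_mul_add_one]
    congr 1
    omega
  have z2 : s2 (N - 2 * s) = s2 (N - 2 * s - 1) + 1 := by
    have h1 : N - 2 * s = 2 * (M - s) + 1 := by omega
    have h2 : N - 2 * s - 1 = 2 * (M - s) := by omega
    rw [h2, h1, s2_two_mul_add_one, s2_two_mul]
  unfold al
  refine ⟨div_ne_zero (mul_ne_zero (mul_ne_zero (mul_ne_zero g1 f1) a1) b1)
    (mul_ne_zero d1 c1), ?_⟩
  rw [padicValRat.div (mul_ne_zero (mul_ne_zero (mul_ne_zero g1 f1) a1) b1) (mul_ne_zero d1 c1),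
    padicValRat.mul (mul_ne_zero (mul_ne_zero g1 f1) a1) b1,
    padicValRat.mul (mul_ne_zero g1 f1) a1, padicValRat.mul g1 f1, padicValRat.mul d1 c1,
    g2, e1, a2, b2, c2, d2, z1]
  rw [z2]
  push_cast
  ring

private theorem BAl_N (P : Par) (s : ℕ) (hs : 1 ≤ s) (hs' : s ≤ P.s0) :
    al P.N s ≠ 0 ∧ padicValRat 2 (al P.N s) = 4 * (s : ℤ) + s2 (2 * P.N0 - 3 * s - 1) +
      s2 (P.N - 3 * s) - 2 * s2 (P.N0 - 2 * s) - 1 := by
  have h1 := P.N_big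
  have h2 : P.N0 = 2 * P.s0 + P.l := rfl
  have h3 : P.N = P.N0 + 2 ^ P.w := rfl
  have h4 := P.big3
  have h5 := P.l_odd.pos
  obtain ⟨a1, a2⟩ := BAl_gen P.N s hs (by omega) P.N_odd
  refine ⟨a1, ?_⟩
  have e1 : s2 (2 * P.N - 3 * s - 1) = 1 + s2 (2 * P.N0 - 3 * s - 1) := by
    have : 2 * P.N - 3 * s - 1 = 2 ^ (P.w + 1) + (2 * P.N0 - 3 * s - 1) := by
      rw [pow_succ]
      omega
    rw [this, s2_pow_add]
    rw [pow_succ]
    omega
  have e2 : s2 (P.N - 2 * s) = 1 + s2 (P.N0 - 2 * s) := by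
    have : P.N - 2 * s = 2 ^ P.w + (P.N0 - 2 * s) := by omega
    rw [this, s2_pow_add]
    omega
  rw [a2, e1, e2]
  push_cast
  ring

/-- `s2 (2^k + x) ≤ 1 + s2 x` -/
private theorem BAl_add (k x : ℕ) : s2 (2 ^ k + x) ≤ 1 + s2 x := by
  have := s2_add_le (2 ^ k) x
  rwa [s2_two_pow] at this

theorem val_al_s0 (P : Par) : al P.N P.s0 ≠ 0 ∧ padicValRat 2 (al P.N P.s0) = (P.H : ℤ) + 3 - P.h := by
  have h2 : P.N0 = 2 * P.s0 + P.l := rfl
  have h3 : P.N = P.N0 + 2 ^ P.w := rfl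
  have h4 := P.big3
  have h5 := P.big2
  have h6 : P.s0 = 1 + 2 ^ P.E := rfl
  have h7 := P.w_eq
  have h8 := P.H_eq'
  have h9 := P.l_odd.pos
  obtain ⟨a1, a2⟩ := BAl_N P P.s0 (by omega) le_rfl
  refine ⟨a1, ?_⟩
  have e1 : s2 (2 * P.N0 - 3 * P.s0 - 1) = 1 + s2 P.l := by
    have : 2 * P.N0 - 3 * P.s0 - 1 = 2 ^ P.E + 2 * P.l := by omega
    rw [this, s2_pow_add (by omega), s2_two_mul]
  have e2 : s2 (P.N - 3 * P.s0) + s2 (2 ^ P.E - P.l) = P.w := by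
    have h : P.N - 3 * P.s0 = 2 ^ P.w - (P.s0 - P.l) := by omega
    have h' := s2_pow_sub (w := P.w) (x := P.s0 - P.l) (by omega) (by omega)
    rw [h]
    have h'' : P.s0 - P.l - 1 = 2 ^ P.E - P.l := by omega
    rwa [h''] at h'
  have e3 : s2 (2 ^ P.E - P.l) + s2 (P.l - 1) = P.E := s2_pow_sub (by omega) (by omega)
  have e4 : s2 P.l = s2 (P.l - 1) + 1 := by
    obtain ⟨k, hk⟩ := P.l_odd
    rw [hk, s2_two_mul_add_one, Nat.add_sub_cancel, s2_two_mul]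
  have e5 : P.N0 - 2 * P.s0 = P.l := by omega
  rw [a2, e1, e5]
  zify at e2 e3 e4
  push_cast
  linarith

theorem val_al_lo (P : Par) (s : ℕ) (hs : 1 ≤ s) (hs' : s < P.s0) : al P.N s ≠ 0 ∧
    padicValRat 2 (al P.N s) ≤ (P.H : ℤ) + 8 - P.h - 4 * ((P.s0 : ℤ) - s) +
      3 * Nat.log 2 (2 * P.n + 3 * (P.s0 - s)) := by
  have h2 : P.N0 = 2 * P.s0 + P.l := rfl
  have h3 : P.N = P.N0 + 2 ^ P.w := rfl
  have h4 := P.big3
  have h5 := P.big2
  have h6 : P.s0 = 1 + 2 ^ P.E := rfl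
  have h7 := P.w_eq
  have h8 := P.H_eq'
  have h9 := P.l_odd.pos
  have h10 : P.l = P.n - 2 + 2 ^ P.L := rfl
  have h11 := P.hn3
  obtain ⟨a1, a2⟩ := BAl_N P s hs hs'.le
  refine ⟨a1, ?_⟩
  rw [a2]
  have p1 : 1 ≤ s2 (P.N0 - 2 * s) := s2_pos (by omega)
  rcases Nat.lt_or_ge P.N0 (3 * s) with hc | hc
  · obtain ⟨i, hi⟩ : ∃ i, P.s0 = s + i := ⟨P.s0 - s, by omega⟩
    have hi' : P.s0 - s = i := by omega
    rw [hi']
    have e1 : s2 (2 * P.N0 - 3 * s - 1) ≤ 2 + s2 (2 * P.n + 3 * i - 4) := by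
      have q1 : 2 * P.N0 - 3 * s - 1 = 2 ^ P.E + (2 ^ (P.L + 1) + (2 * P.n + 3 * i - 4)) := by
        rw [pow_succ]
        omega
      rw [q1]
      have q2 := BAl_add P.E (2 ^ (P.L + 1) + (2 * P.n + 3 * i - 4))
      have q3 := BAl_add (P.L + 1) (2 * P.n + 3 * i - 4)
      omega
    have e2 : s2 (P.N - 3 * s) + s2 (2 ^ P.E - (3 * i + P.l)) = P.w := by
      have h : P.N - 3 * s = 2 ^ P.w - (3 * s - P.N0) := by omega
      have h' := s2_pow_sub (w := P.w) (x := 3 * s - P.N0) (by omega) (by omega)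
      rw [h]
      have h'' : 3 * s - P.N0 - 1 = 2 ^ P.E - (3 * i + P.l) := by omega
      rwa [h''] at h'
    have e3 : s2 (2 ^ P.E - (3 * i + P.l)) + s2 (3 * i + P.l - 1) = P.E :=
      s2_pow_sub (by omega) (by omega)
    have e4 : s2 (3 * i + P.l - 1) ≤ 1 + s2 (3 * i + P.n - 3) := by
      have q1 : 3 * i + P.l - 1 = 2 ^ P.L + (3 * i + P.n - 3) := by omega
      rw [q1]
      exact BAl_add _ _
    have l1 : s2 (2 * P.n + 3 * i - 4) ≤ Nat.log 2 (2 * P.n + 3 * i) + 1 :=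
      (s2_le _).trans (Nat.succ_le_succ (Nat.log_mono_right (by omega)))
    have l2 : s2 (3 * i + P.n - 3) ≤ Nat.log 2 (2 * P.n + 3 * i) + 1 :=
      (s2_le _).trans (Nat.succ_le_succ (Nat.log_mono_right (by omega)))
    zify at e1 e2 e3 e4 l1 l2 p1 hi
    have l3 : (0 : ℤ) ≤ (Nat.log 2 (2 * P.n + 3 * i) : ℤ) := Int.natCast_nonneg _
    linarith
  · have hN := P.N0_lt
    have hh := P.h_le
    have b1 := P.big1
    have b1' := P.big1'
    have hL := P.n_le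
    have hE : P.E = 100 * P.L := rfl
    have e1 : s2 (2 * P.N0 - 3 * s - 1) ≤ P.E + 3 := by
      refine (s2_le _).trans ?_
      have : Nat.log 2 (2 * P.N0 - 3 * s - 1) ≤ P.E + 2 := by
        refine log_lt_of ?_
        rw [pow_succ]
        omega
      omega
    have e2 : s2 (P.N - 3 * s) ≤ P.E + 3 := by
      have q1 : P.N - 3 * s = 2 ^ P.w + (P.N0 - 3 * s) := by omega
      rw [q1]
      have q2 := BAl_add P.w (P.N0 - 3 * s)
      have q3 := s2_le (P.N0 - 3 * s)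
      have q4 : Nat.log 2 (P.N0 - 3 * s) ≤ P.E + 1 := log_lt_of (by omega)
      omega
    have hfin : 2 * P.E + P.h ≤ 2 * P.l := by omega
    have hss : (s : ℤ) = P.s0 - ((P.s0 : ℤ) - s) := by ring
    have l3 : (0 : ℤ) ≤ (Nat.log 2 (2 * P.n + 3 * (P.s0 - s)) : ℤ) := Int.natCast_nonneg _
    zify at e1 e2 p1 hfin
    linarith

/-- consequence for `Dh s = α_s / 2^H` -/
theorem Dh_ne (P : Par) (s : ℕ) (hs : 1 ≤ s) (hs' : s < P.s0) : P.Dh s ≠ 0 :=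
  div_ne_zero (val_al_lo P s hs hs').1 (pow_ne_zero _ (by norm_num))

theorem Dh_inv (P : Par) (s : ℕ) (hs : 1 ≤ s) (hs' : s < P.s0) (n : ℤ) (q : ℚ) (hq : Ge n q) :
    Ge (n + P.h - 8 + 4 * ((P.s0 : ℤ) - s) - 3 * Nat.log 2 (2 * P.n + 3 * (P.s0 - s))) (q / P.Dh s) := by
  obtain ⟨h1, h2⟩ := val_al_lo P s hs hs'
  have h3 : padicValRat 2 ((2 : ℚ) ^ P.H) = P.H := by
    rw [padicValRat.pow]
    have : padicValRat 2 (2 : ℚ) = 1 := by
      have := padicValRat.self (p := 2) (by norm_num)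
      exact_mod_cast this
    rw [this, mul_one]
  have h4 : padicValRat 2 (P.Dh s) ≤ 8 - P.h - 4 * ((P.s0 : ℤ) - s) +
      3 * Nat.log 2 (2 * P.n + 3 * (P.s0 - s)) := by
    unfold Par.Dh
    rw [padicValRat.div h1 (pow_ne_zero _ (by norm_num)), h3]
    linarith
  refine (Ge.div hq h4).mono (le_of_eq ?_)
  ring
end Pool.Agent.BZ
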