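import Pool.Agent.Lib.MP_06b9d2_bz.Sym
/-! # BZ.BG: relations between `B, G, E₄, Δ`
From `Sym` (with `y0 = B(τ)`, `y1 = G(τ/2)/4`, `y2 = G((τ+1)/2)/4`: `y_i = (Z_i - E₄(τ))/15`) by algebra. `E₄(τ+1) = E₄(τ)`. -/
set_option autoImplicit false
open UpperHalfPlane hiding I
open Complex ModularForm EisensteinSeries Finset
open scoped Real MatrixGroups Manifold
namespace Pool.Agent.BZ

private theorem bg_coe {z : ℂ} (hz : 0 < z.im) : ((ofComplex z : ℍ) : ℂ) = z := by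
  rw [ofComplex_apply_of_im_pos hz]

private theorem bg_im2 (τ : ℍ) : 0 < (2 * (τ : ℂ)).im := by
  have h := τ.im_pos
  have h2 : (2 * (τ : ℂ)).im = 2 * τ.im := by simp
  rw [h2]
  linarith

private theorem bg_imh (τ : ℍ) : 0 < ((τ : ℂ) / 2).im := by
  have h := τ.im_pos
  have h2 : ((τ : ℂ) / 2).im = τ.im / 2 := by simp
  rw [h2]
  linarith

private theorem bg_imh1 (τ : ℍ) : 0 < (((τ : ℂ) + 1) / 2).im := by
  have h := τ.im_pos
  have h2 : (((τ : ℂ) + 1) / 2).im = τ.im / 2 := by simp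
  rw [h2]
  linarith

private theorem bg_per (τ : ℍ) : E₄ (ofComplex ((τ : ℂ) + 1)) = E₄ τ := by
  have h := SlashInvariantFormClass.periodic_comp_ofComplex E₄ one_mem_strictPeriods_SL
  have h2 := h (τ : ℂ)
  simp only [Function.comp_apply, ofComplex_apply] at h2
  simpa using h2

private theorem bg_a (τ : ℍ) : (ofComplex (2 * ((ofComplex ((τ : ℂ) / 2) : ℍ) : ℂ)) : ℍ) = τ := by
  rw [bg_coe (bg_imh τ), mul_div_cancel₀ _ (two_ne_zero), ofComplex_apply]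

private theorem bg_b (τ : ℍ) :
    E₄ (ofComplex (2 * ((ofComplex (((τ : ℂ) + 1) / 2) : ℍ) : ℂ)) : ℍ) = E₄ τ := by
  rw [bg_coe (bg_imh1 τ), mul_div_cancel₀ _ (two_ne_zero), bg_per]

private theorem bg_c (τ : ℍ) : (ofComplex (((ofComplex (2 * (τ : ℂ)) : ℍ) : ℂ) / 2) : ℍ) = τ := by
  rw [bg_coe (bg_im2 τ), mul_div_cancel_left₀ _ (two_ne_zero), ofComplex_apply]

theorem bg_e (τ : ℍ) : Bf τ + 4 * Gf τ = E₄ τ := by
  unfold Bf Gf
  ring

theorem bg_e2 (τ : ℍ) : Bf τ + Gf τ / 4 = E₄ (ofComplex (2 * (τ : ℂ))) := by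
  unfold Bf Gf
  ring

theorem bg_sum (τ : ℍ) : Gf (ofComplex ((τ : ℂ) / 2)) / 4 + Gf (ofComplex (((τ : ℂ) + 1) / 2)) / 4 =
    4 * Gf τ := by
  have h1 := sym1 τ
  unfold Gf
  rw [bg_a, bg_b]
  linear_combination h1 / 15

theorem bg_prod (τ : ℍ) : Gf (ofComplex ((τ : ℂ) / 2)) / 4 * (Gf (ofComplex (((τ : ℂ) + 1) / 2)) / 4) =
    -4 * Bf τ * Gf τ := by
  have h1 := sym1 τ
  have h2 := sym2 τ
  unfold Gf Bf
  rw [bg_a, bg_b]
  linear_combination h2 / 225 - (E₄ τ + 16 * E₄ (ofComplex (2 * (τ : ℂ)))) / 225 * h1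

theorem bg_half1 (τ : ℍ) : Bf (ofComplex ((τ : ℂ) / 2)) = Bf τ + Gf (ofComplex (((τ : ℂ) + 1) / 2)) / 4 := by
  have h1 := sym1 τ
  unfold Gf Bf
  rw [bg_a, bg_b]
  linear_combination -h1 / 15

theorem bg_half2 (τ : ℍ) : Bf (ofComplex (((τ : ℂ) + 1) / 2)) = Bf τ + Gf (ofComplex ((τ : ℂ) / 2)) / 4 := by
  have h1 := sym1 τ
  unfold Gf Bf
  rw [bg_a, bg_b]
  linear_combination -h1 / 15

theorem bg_del (τ : ℍ) : Bf τ ^ 2 * Gf τ = 64 * discriminant τ := by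
  have h1 := sym1 τ
  have h2 := sym2 τ
  have h3 := sym3 τ
  unfold Gf Bf
  generalize E₄ τ = e at *
  generalize E₄ (ofComplex (2 * (τ : ℂ))) = z at *
  generalize E₄ (ofComplex ((τ : ℂ) / 2)) = z1 at *
  generalize E₄ (ofComplex (((τ : ℂ) + 1) / 2)) = z2 at *
  generalize discriminant τ = d at *
  have h4 : z1 = 18 * e - 16 * z - z2 := by linear_combination h1
  subst h4
  linear_combination (16 * z * h2 - h3) / 13500

theorem bg_del2 (τ : ℍ) : Bf τ * Gf τ ^ 2 = 4096 * discriminant (ofComplex (2 * (τ : ℂ))) := by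
  have h1 := sym1 (ofComplex (2 * (τ : ℂ)))
  have h2 := sym2 (ofComplex (2 * (τ : ℂ)))
  have h3 := sym3 (ofComplex (2 * (τ : ℂ)))
  rw [bg_c] at h1 h2 h3
  unfold Gf Bf
  generalize E₄ τ = e at *
  generalize discriminant (ofComplex (2 * (τ : ℂ))) = d at *
  generalize E₄ (ofComplex ((((ofComplex (2 * (τ : ℂ)) : ℍ) : ℂ) + 1) / 2)) = z2 at *
  generalize E₄ (ofComplex (2 * ((ofComplex (2 * (τ : ℂ)) : ℍ) : ℂ))) = z0 at *
  generalize E₄ (ofComplex (2 * (τ : ℂ))) = z at *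
  have h4 : z2 = 18 * z - 16 * z0 - e := by linear_combination h1
  subst h4
  linear_combination (e * h2 - h3) * (16 / 3375)

end Pool.Agent.BZ
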