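import Pool.Agent.Lib.MP_06b9d2_bz.Val
import Pool.Agent.Lib.MP_06b9d2_bz.Dig
import Pool.Agent.Lib.MP_06b9d2_bz.Lip
import Pool.Agent.Lib.MP_06b9d2_bz.ParA
/-! # BZ.BRR: `RR N s q` for `s < s0`, `q > m` (zero if `q > 2s`)
`v(R_{s,s+j}) ≥ 2j + v C(s+j,2j) - v C(N-2s-1,j)`, `N - 2s - 1 = 2^w + l + 2i - 1`, `i = s0 - s`.
(1) `q + s < N0`, i.e. `j ≤ l+2i-1`: `v C(l+2i-1+2^w, j) ≤ log (l+2i-1) ≤ E+3`.
(2) `q + s ≥ N0`: `e = q + s - N0`, `j = l + 2i + e`, `v C(N-2s-1,j) = s2 j + w - s2 e - 1 - s2(l+2i-1)`;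
 `C(s+j,2j)` (`j ≤ s`): `s - j = 2^E - (i+j-1)`, `s + j = 2^E + (j+1-i)`: `v ≥ s2 j + E - s2(i+j-2) - 1 - s2(j+1-i)`; with
 `2j + E - w = h - 3 + 4i + 2e` the bound follows (`j = 2^L + (n-2+2i+e)`). -/
set_option autoImplicit false
open Finset
namespace Pool.Agent.BZ

private theorem brr_gen (N s q : ℕ) (hsq : s ≤ q) (A D : ℤ) (n' : ℕ)
    (hn' : (N : ℚ) - 2 * s - 1 = n')
    (h1 : Ge A (ch ((s : ℚ) + ((q - s : ℕ) : ℚ)) (2 * (q - s))))
    (h2 : padicValRat 2 (ch (n' : ℚ) (q - s)) ≤ D) (hne : ch (n' : ℚ) (q - s) ≠ 0) :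
    Ge (2 * ((q - s : ℕ) : ℤ) + A - D) (RR N s q) := by
  unfold RR
  rw [if_pos hsq]
  unfold Rq
  generalize q - s = j at h1 h2 hne ⊢
  rw [hn']
  have hp := val_prod_odd (range j) (fun i => 2 * (N : ℤ) - 2 * s - 1 - 2 * (i : ℤ))
    (fun i _ => ⟨(N : ℤ) - s - 1 - i, by ring⟩)
  have hp2 : (∏ i ∈ range j, (2 * (N : ℚ) - 2 * s - 1 - 2 * (i : ℚ))) =
      ∏ i ∈ range j, (((2 * (N : ℤ) - 2 * s - 1 - 2 * (i : ℤ) : ℤ)) : ℚ) := by
    refine Finset.prod_congr rfl (fun i _ => ?_)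
    push_cast
    ring
  rw [hp2]
  have hden : padicValRat 2 (ch (n' : ℚ) j *
      ∏ i ∈ range j, (((2 * (N : ℤ) - 2 * s - 1 - 2 * (i : ℤ) : ℤ)) : ℚ)) ≤ D := by
    rw [padicValRat.mul hne hp.1, hp.2, add_zero]
    exact h2
  refine Ge.div ?_ hden
  have hc : ∀ k : ℕ, Ge 0 (ch (2 * (N : ℚ) - 3 * s - 1) k) := by
    intro k
    have := Ge_ch (2 * (N : ℤ) - 3 * s - 1) k
    push_cast at this
    exact this
  have hb : Ge 0 (ch (2 * (N : ℚ) - 3 * s - 1) j -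
      2 * (if j = 0 then 0 else ch (2 * (N : ℚ) - 3 * s - 1) (j - 1))) := by
    refine (hc j).sub ?_
    split_ifs with hj
    · rw [mul_zero]
      exact Ge.zero 0
    · have := (Ge.nat 2).mul (hc (j - 1))
      simpa using this
  have h4 : Ge (2 * (j : ℤ)) ((-4 : ℚ) ^ j) := by
    have h5 := (Ge.pow2 (2 * j)).mul (Ge.int ((-1) ^ j))
    have h6 : ((2 : ℚ) ^ (2 * j) * (((-1) ^ j : ℤ) : ℚ)) = (-4 : ℚ) ^ j := by
      push_cast
      rw [pow_mul, ← mul_pow]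
      norm_num
    rw [h6] at h5
    refine h5.mono ?_
    push_cast
    omega
  have hod : Ge 0 (od j) := Ge.of_val (od_val j).2.ge
  have h7 := ((h4.mul hod).mul h1).mul hb
  exact h7.mono (by omega)

private theorem brr_cast {P : Par} {s : ℕ} (hs : s < P.s0) :
    (P.N : ℚ) - 2 * s - 1 = ((2 ^ P.w + (P.l + 2 * (P.s0 - s) - 1) : ℕ) : ℚ) := by
  have h1 : P.N = P.N0 + 2 ^ P.w := rfl
  have h2 : P.N0 = 2 * P.s0 + P.l := rfl
  have h3 : P.N = 2 ^ P.w + (P.l + 2 * (P.s0 - s) - 1) + 2 * s + 1 := by omega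
  rw [h3]
  push_cast
  ring

theorem RR_lo1 (P : Par) (s q : ℕ) (hs1 : 1 ≤ s) (hs : s < P.s0) (hq : P.m < q) (h : q + s < P.N0) :
    Ge (2 * ((q : ℤ) - s) - P.E - 3) (RR P.N s q) := by
  have hm := P.m_eq
  have hN0 : P.N0 = 2 * P.s0 + P.l := rfl
  have hs0 : P.s0 = 1 + 2 ^ P.E := rfl
  have hll := P.l_odd
  have hl1 : 1 ≤ P.l := hll.pos
  have hsq : s ≤ q := by omega
  have hbig := P.big3
  have hb2 := P.big2
  set M : ℕ := P.l + 2 * (P.s0 - s) - 1 with hM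
  have hMw : M < 2 ^ P.w := by omega
  have hjM : q - s ≤ M := by omega
  have hj : q - s ≤ 2 ^ P.w + M := by omega
  have hv := val_ch (x := ((2 ^ P.w + M : ℕ) : ℚ)) rfl hj
  have e1 : 2 ^ P.w + M - (q - s) = 2 ^ P.w + (M - (q - s)) := by omega
  rw [e1, s2_pow_add hMw, s2_pow_add (lt_of_le_of_lt (Nat.sub_le _ _) hMw)] at hv
  have hvM := val_choose hjM
  have hvl : padicValRat 2 (M.choose (q - s) : ℚ) ≤ Nat.log 2 M := by
    have := val_ch_le (x := (M : ℚ)) rfl hjM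
    rwa [ch_nat] at this
  have hlog : Nat.log 2 M ≤ P.E + 3 := by
    apply log_lt_of
    have h8 : 2 ^ (P.E + 3 + 1) = 16 * 2 ^ P.E := by
      rw [show P.E + 3 + 1 = P.E + 4 by ring, pow_add]
      ring
    rw [h8]
    omega
  have h0 : Ge 0 (ch ((s : ℚ) + ((q - s : ℕ) : ℚ)) (2 * (q - s))) := by
    have := Ge_ch ((s : ℤ) + ((q - s : ℕ) : ℤ)) (2 * (q - s))
    push_cast at this
    exact this
  have hD : padicValRat 2 (ch (((2 ^ P.w + M : ℕ)) : ℚ) (q - s)) ≤ (P.E : ℤ) + 3 := by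
    rw [hv.2]
    push_cast
    have : ((Nat.log 2 M : ℕ) : ℤ) ≤ (P.E : ℤ) + 3 := by exact_mod_cast hlog
    omega
  have h9 := brr_gen P.N s q hsq 0 ((P.E : ℤ) + 3) (2 ^ P.w + M) (brr_cast hs) h0 hD hv.1
  refine h9.mono ?_
  push_cast [Nat.cast_sub hsq]
  omega

theorem RR_lo2 (P : Par) (s q : ℕ) (hs1 : 1 ≤ s) (hs : s < P.s0) (hq : q < P.N0) (h : P.N0 ≤ q + s) :
    Ge ((P.h : ℤ) - 7 + 4 * ((P.s0 : ℤ) - s) + 2 * ((q : ℤ) + s - P.N0) -
      2 * Nat.log 2 (P.n + 3 * (P.s0 - s) + (q + s - P.N0))) (RR P.N s q) := by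
  have hN0 : P.N0 = 2 * P.s0 + P.l := rfl
  have hs0 : P.s0 = 1 + 2 ^ P.E := rfl
  have hll := P.l_odd
  have hl1 : 1 ≤ P.l := hll.pos
  have hleq := P.l_eq
  have hn3 := P.hn3
  have hsq : s ≤ q := by omega
  have hbig := P.big3
  have hb2 := P.big2
  have hw := P.w_eq
  obtain ⟨i, hi⟩ : ∃ i, P.s0 - s = i := ⟨_, rfl⟩
  obtain ⟨e, he⟩ : ∃ e, q + s - P.N0 = e := ⟨_, rfl⟩
  have hi1 : 1 ≤ i := by omega
  have hj : q - s = P.l + 2 * i + e := by omega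
  have hes : e < s := by omega
  by_cases hjs : q - s ≤ s
  swap
  · -- the binomial coefficient vanishes
    have hz : ch ((s : ℚ) + ((q - s : ℕ) : ℚ)) (2 * (q - s)) = 0 := by
      have := ch_of_lt (s + (q - s)) (2 * (q - s)) (by omega)
      push_cast at this
      exact this
    left
    unfold RR
    rw [if_pos hsq]
    unfold Rq
    rw [hz]
    simp
  · have hMw : P.l + 2 * i - 1 < 2 ^ P.w := by omega
    have hjn : q - s ≤ 2 ^ P.w + (P.l + 2 * i - 1) := by omega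
    have hv := val_ch (x := ((2 ^ P.w + (P.l + 2 * i - 1) : ℕ) : ℚ)) rfl hjn
    have e1 : 2 ^ P.w + (P.l + 2 * i - 1) - (q - s) = 2 ^ P.w - (e + 1) := by omega
    have e2 := s2_pow_sub (w := P.w) (x := e + 1) (by omega) (by omega)
    rw [Nat.add_sub_cancel] at e2
    rw [e1, s2_pow_add hMw] at hv
    have hc := val_ch (x := (((s + (q - s) : ℕ)) : ℚ)) (k := 2 * (q - s)) rfl (by omega)
    rw [s2_two_mul] at hc
    have e3 : s + (q - s) - 2 * (q - s) = 2 ^ P.E - (i + (q - s) - 1) := by omega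
    have e4 := s2_pow_sub (w := P.E) (x := i + (q - s) - 1) (by omega) (by omega)
    rw [e3] at hc
    have e5 : s + (q - s) = 2 ^ P.E + ((q - s) + 1 - i) := by omega
    have e6 : s2 (s + (q - s)) ≤ 1 + s2 ((q - s) + 1 - i) := by
      rw [e5]
      have := s2_add_le (2 ^ P.E) ((q - s) + 1 - i)
      rwa [s2_two_pow] at this
    have hL : ∀ x, x ≤ P.n + 3 * i + e → s2 (2 ^ P.L + x) ≤ 2 + Nat.log 2 (P.n + 3 * i + e) := by
      intro x hx
      have h1 := s2_add_le (2 ^ P.L) x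
      rw [s2_two_pow] at h1
      have h2 := s2_le x
      have h3 : Nat.log 2 x ≤ Nat.log 2 (P.n + 3 * i + e) := Nat.log_mono_right hx
      omega
    have e7 : s2 (i + (q - s) - 1 - 1) ≤ 2 + Nat.log 2 (P.n + 3 * i + e) := by
      have h1 : i + (q - s) - 1 - 1 = 2 ^ P.L + (P.n + 3 * i + e - 4) := by omega
      rw [h1]
      exact hL _ (by omega)
    have e8 : s2 ((q - s) + 1 - i) ≤ 2 + Nat.log 2 (P.n + 3 * i + e) := by
      have h1 : (q - s) + 1 - i = 2 ^ P.L + (P.n + i + e - 1) := by omega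
      rw [h1]
      exact hL _ (by omega)
    have h0 : Ge ((s2 (q - s) : ℤ) + s2 (2 ^ P.E - (i + (q - s) - 1)) - s2 (s + (q - s)))
        (ch ((s : ℚ) + ((q - s : ℕ) : ℚ)) (2 * (q - s))) := by
      have h1 := Ge.of_val hc.2.ge
      rw [Nat.cast_add] at h1
      exact h1
    have hcast := brr_cast hs
    rw [hi] at hcast
    have h9 := brr_gen P.N s q hsq _ _ (2 ^ P.w + (P.l + 2 * i - 1)) hcast h0 hv.2.le hv.1
    refine h9.mono ?_
    rw [hi, he]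
    have hq' : (q : ℤ) + s - P.N0 = e := by omega
    have hs' : (P.s0 : ℤ) - s = i := by omega
    have hj' : ((q - s : ℕ) : ℤ) = P.l + 2 * i + e := by omega
    rw [hq', hs']
    generalize Nat.log 2 (P.n + 3 * i + e) = lg at e7 e8 ⊢
    push_cast
    omega

end Pool.Agent.BZ
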