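import Pool.Agent.Lib.MP_06b9d2_bz.Val
import Pool.Agent.Lib.MP_06b9d2_bz.Dig
import Pool.Agent.Lib.MP_06b9d2_bz.Lip
import Pool.Agent.Lib.MP_06b9d2_bz.ParA
/-! # BZ.BRh: bounds for `rr`, `ll`, `LL`, `RR` at high positions `s = s0 + τ`, `τ ≤ (l-1)/2`
As in `BRl`; `N - 2s = 2^w + l - 2τ`, `s2(l - 2τ) ≤ L + 2`.  For `rr N t s`, `t < s0 ≤ s` (`k = s - t > τ`) moreover
`C(s+k-1, 2k)`, `s + k - 1 = 2^E + τ + k`: `v = s2 k + s2 (2^E - (k-τ)) - s2 (2^E + τ + k) ≥ E - s2(k-τ-1) - s2(τ+k) - 1 + s2 k`.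
`LL N s u`, `RR N u s`, `s0 ≤ u ≤ s ≤ m`: `v ≥ 2j - v C(N-2u-1, j)`, `j = s-u`, `N-2u-1 = 2^w + l - 2τ_u - 1`, `j ≤ l - 2τ_u - 1`. -/
set_option autoImplicit false
open Finset
namespace Pool.Agent.BZ

private theorem BRh_four (k : ℕ) : Ge (2 * (k : ℤ)) ((4 : ℚ) ^ k) := by
  have h := Ge.pow2 (2 * k)
  rw [pow_mul] at h
  have e : ((2 : ℚ) ^ 2) = 4 := by norm_num
  rw [e] at h
  exact h.mono (by push_cast; exact le_refl _)

private theorem BRh_four' (k : ℕ) : Ge (2 * (k : ℤ)) ((-4 : ℚ) ^ k) := by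
  rw [neg_pow]
  have h1 : Ge 0 ((-1 : ℚ) ^ k) := by
    have := Ge.int ((-1) ^ k)
    push_cast at this
    exact this
  have h := h1.mul (BRh_four k)
  rwa [zero_add] at h

private theorem BRh_od (k : ℕ) : Ge 0 (od k) := Ge.of_val (od_val k).2.ge

private theorem BRh_rq {N b : ℚ} {k : ℕ} {γ β x M : ℤ} (hx : 2 * N - 3 * b + k - 1 = x)
    (hM : 2 * N - 2 * b + 1 = 2 * (M : ℚ) + 1) (h1 : Ge γ (ch (b + k - 1) (2 * k)))
    (h2 : padicValRat 2 (ch (N - 2 * b + k) k) ≤ β) : Ge (2 * (k : ℤ) + γ - β) (rq N b k) := by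
  unfold rq
  have ho := val_prod_odd (range k) (fun i => 2 * (M + (i : ℤ)) + 1) (fun i _ => ⟨M + (i : ℤ), rfl⟩)
  have ho' : (∏ i ∈ range k, (2 * N - 2 * b + 1 + 2 * (i : ℚ))) =
      ∏ i ∈ range k, (((2 * (M + (i : ℤ)) + 1 : ℤ)) : ℚ) := by
    refine Finset.prod_congr rfl (fun i _ => ?_)
    rw [hM]
    push_cast
    ring
  rw [div_mul_eq_div_div_swap, ho', hx]
  have h5 := (((BRh_four k).mul (BRh_od k)).mul h1).mul (Ge_ch x k)
  exact ((h5.div ho.2.le).div h2).mono (by omega)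

private theorem BRh_Rq {N a : ℚ} {j : ℕ} {β x y M : ℤ} (hx : 2 * N - 3 * a - 1 = x)
    (hy : a + j = y) (hM : 2 * N - 2 * a - 1 = 2 * (M : ℚ) + 1)
    (h2 : padicValRat 2 (ch (N - 2 * a - 1) j) ≤ β) : Ge (2 * (j : ℤ) - β) (Rq N a j) := by
  unfold Rq
  have ho := val_prod_odd (range j) (fun i => 2 * (M - (i : ℤ)) + 1) (fun i _ => ⟨M - (i : ℤ), rfl⟩)
  have ho' : (∏ i ∈ range j, (2 * N - 2 * a - 1 - 2 * (i : ℚ))) =
      ∏ i ∈ range j, (((2 * (M - (i : ℤ)) + 1 : ℤ)) : ℚ) := by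
    refine Finset.prod_congr rfl (fun i _ => ?_)
    rw [hM]
    push_cast
    ring
  rw [div_mul_eq_div_div_swap, ho', hx, hy]
  have h3 : Ge 0 (ch (x : ℚ) j - 2 * (if j = 0 then 0 else ch (x : ℚ) (j - 1))) := by
    refine (Ge_ch x j).sub ?_
    have h4 : Ge 0 ((2 : ℚ)) := by simpa using Ge.nat 2
    have h5 : Ge 0 (if j = 0 then 0 else ch (x : ℚ) (j - 1)) := by
      split_ifs
      · exact Ge.zero 0
      · exact Ge_ch x _
    have := h4.mul h5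
    rwa [add_zero] at this
  have h5 := (((BRh_four' j).mul (BRh_od j)).mul (Ge_ch y (2 * j))).mul h3
  exact ((h5.div ho.2.le).div h2).mono (by omega)

private theorem BRh_d1 {q : ℚ} {x k w : ℕ} (hx : 1 ≤ x) (hw : x + k < 2 ^ w)
    (hq : q = ((2 ^ w + x + k : ℕ) : ℚ)) : padicValRat 2 (ch q k) ≤ (s2 k : ℤ) + s2 x - 1 := by
  have h := (val_ch hq (by omega : k ≤ 2 ^ w + x + k)).2
  have e1 : 2 ^ w + x + k - k = 2 ^ w + x := by omega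
  have e2 : 2 ^ w + x + k = 2 ^ w + (x + k) := by omega
  rw [e1, s2_pow_add (by omega : x < 2 ^ w), e2, s2_pow_add hw] at h
  have h3 := s2_pos (by omega : 0 < x + k)
  rw [h]
  push_cast
  omega

private theorem BRh_d2 {q : ℚ} {y k w : ℕ} (hk : k ≤ y) (hw : y < 2 ^ w)
    (hq : q = ((2 ^ w + y : ℕ) : ℚ)) : padicValRat 2 (ch q k) ≤ Nat.log 2 y := by
  have h := (val_ch hq (by omega : k ≤ 2 ^ w + y)).2
  have e1 : 2 ^ w + y - k = 2 ^ w + (y - k) := by omega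
  rw [e1, s2_pow_add (by omega : y - k < 2 ^ w), s2_pow_add hw] at h
  have h3 := val_ch_le (x := (y : ℚ)) rfl hk
  have h4 := (val_ch (x := (y : ℚ)) rfl hk).2
  rw [h]
  rw [h4] at h3
  push_cast
  omega

private theorem BRh_neg {x : ℚ} (k : ℕ) : padicValRat 2 (ch (-x) k) = padicValRat 2 (ch (x + k - 1) k) := by
  rw [ch_neg]
  rcases neg_one_pow_eq_or ℚ k with h | h
  · rw [h, one_mul]
  · rw [h, neg_one_mul, padicValRat.neg]

private theorem BRh_s2k (k : ℕ) : (s2 k : ℤ) ≤ Nat.log 2 k + 1 := by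
  exact_mod_cast s2_le k

/-- facts on the parameters -/
private theorem BRh_par (P : Par) (s : ℕ) (hs0 : P.s0 ≤ s) (hs : s ≤ P.m) :
    ∃ x : ℕ, 1 ≤ x ∧ x + 2 * s = P.N0 ∧ x ≤ P.l ∧ (s2 x : ℤ) ≤ P.L + 1 ∧ P.N = 2 ^ P.w + x + 2 * s ∧
      P.N0 < 2 ^ P.w := by
  have h1 := P.two_m
  have h2 := P.m_eq
  have h3 := P.big3
  have h5 : 0 < P.N0 := by omega
  refine ⟨P.N0 - 2 * s, by omega, by omega, by omega, ?_, ?_, by omega⟩
  · have h6 := s2_le (P.N0 - 2 * s)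
    have h7 : Nat.log 2 (P.N0 - 2 * s) ≤ P.L := log_lt_of (lt_of_le_of_lt (by omega) P.l_lt)
    omega
  · show P.N0 + 2 ^ P.w = _
    omega

theorem rr_hi (P : Par) (s t : ℕ) (ht : 1 ≤ t) (hts : t ≤ s) (hs0 : P.s0 ≤ s) (hs : s ≤ P.m) :
    Ge (2 * ((s : ℤ) - t) - Nat.log 2 (s - t) - P.L - 3) (rr P.N t s) := by
  obtain ⟨x, hx1, hx2, hxl, hx3, hN, hw⟩ := BRh_par P s hs0 hs
  obtain ⟨k, rfl⟩ : ∃ k, s = t + k := ⟨s - t, by omega⟩
  have hk : t + k - t = k := by omega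
  unfold rr
  rw [if_pos hts, hk]
  have hNq : (P.N : ℚ) = 2 ^ P.w + x + 2 * (t + k) := by rw [hN]; push_cast; ring
  have h2 : padicValRat 2 (ch ((P.N : ℚ) - 2 * ((t + k : ℕ) : ℚ) + k) k) ≤ (s2 k : ℤ) + s2 x - 1 := by
    refine BRh_d1 hx1 (by omega : x + k < 2 ^ P.w) ?_
    rw [hNq]
    push_cast
    ring
  have h1 : Ge 0 (ch (((t + k : ℕ) : ℚ) + k - 1) (2 * k)) := by
    have := Ge_ch ((t : ℤ) + k + k - 1) (2 * k)
    push_cast at this ⊢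
    exact this
  have h := BRh_rq (N := (P.N : ℚ)) (b := ((t + k : ℕ) : ℚ)) (k := k)
    (x := 2 * (P.N : ℤ) - 3 * ((t : ℤ) + k) + k - 1) (M := (P.N : ℤ) - (t + k))
    (by push_cast; ring) (by push_cast; ring) h1 h2
  refine h.mono ?_
  have h5 := BRh_s2k k
  push_cast
  omega

theorem ll_hi (P : Par) (s t : ℕ) (ht : 1 ≤ t) (hts : t ≤ s) (hs0 : P.s0 ≤ s) (hs : s ≤ P.m) :
    Ge (2 * ((s : ℤ) - t) - Nat.log 2 (s - t) - P.L - 3) (ll P.N s t) := by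
  obtain ⟨x, hx1, hx2, hxl, hx3, hN, hw⟩ := BRh_par P s hs0 hs
  obtain ⟨k, rfl⟩ : ∃ k, s = t + k := ⟨s - t, by omega⟩
  have hk : t + k - t = k := by omega
  unfold ll
  rw [if_pos hts, hk]
  have hNq : (P.N : ℚ) = 2 ^ P.w + x + 2 * (t + k) := by rw [hN]; push_cast; ring
  have h2 : padicValRat 2 (ch ((P.N : ℚ) - 2 * ((P.N : ℚ) - ((t + k : ℕ) : ℚ)) - 1) k) ≤
      (s2 k : ℤ) + s2 x - 1 := by
    have e : (P.N : ℚ) - 2 * ((P.N : ℚ) - ((t + k : ℕ) : ℚ)) - 1 =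
        -((P.N : ℚ) - 2 * ((t + k : ℕ) : ℚ) + 1) := by ring
    rw [e, BRh_neg]
    refine BRh_d1 hx1 (by omega : x + k < 2 ^ P.w) ?_
    rw [hNq]
    push_cast
    ring
  have h := BRh_Rq (N := (P.N : ℚ)) (a := (P.N : ℚ) - ((t + k : ℕ) : ℚ)) (j := k)
    (x := 2 * (P.N : ℤ) - 3 * ((P.N : ℤ) - (t + k)) - 1) (y := (P.N : ℤ) - (t + k) + k)
    (M := (t : ℤ) + k - 1)
    (by push_cast; ring) (by push_cast; ring) (by push_cast; ring) h2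
  refine h.mono ?_
  have h5 := BRh_s2k k
  push_cast
  omega

theorem rr_cross (P : Par) (s t : ℕ) (ht : 1 ≤ t) (hts : t < P.s0) (hs0 : P.s0 ≤ s) (hs : s ≤ P.m) :
    Ge (2 * ((s : ℤ) - t) + P.E - P.L - 8 - 3 * Nat.log 2 (P.l + (s - t))) (rr P.N t s) := by
  obtain ⟨x, hx1, hx2, hxl, hx3, hN, hw⟩ := BRh_par P s hs0 hs
  obtain ⟨k, rfl⟩ : ∃ k, s = t + k := ⟨s - t, by omega⟩
  have hk : t + k - t = k := by omega
  obtain ⟨τ, hτ⟩ : ∃ τ, t + k = P.s0 + τ := ⟨t + k - P.s0, by omega⟩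
  have hsE : P.s0 = 1 + 2 ^ P.E := rfl
  have hNs : P.N0 = 2 * P.s0 + P.l := rfl
  have hτl : τ ≤ P.l := by omega
  have hkτ : τ < k := by omega
  have hkE : k ≤ 2 ^ P.E + τ := by omega
  unfold rr
  rw [if_pos (by omega), hk]
  have hNq : (P.N : ℚ) = 2 ^ P.w + x + 2 * (t + k) := by rw [hN]; push_cast; ring
  have h2 : padicValRat 2 (ch ((P.N : ℚ) - 2 * ((t + k : ℕ) : ℚ) + k) k) ≤ (s2 k : ℤ) + s2 x - 1 := by
    refine BRh_d1 hx1 (by omega : x + k < 2 ^ P.w) ?_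
    rw [hNq]
    push_cast
    ring
  have hb : ((t + k : ℕ) : ℚ) + k - 1 = ((2 ^ P.E + τ + k : ℕ) : ℚ) := by
    rw [hτ, hsE]
    push_cast
    ring
  have h1v := (val_ch hb (by omega : 2 * k ≤ 2 ^ P.E + τ + k)).2
  have e1 : 2 ^ P.E + τ + k - 2 * k = 2 ^ P.E - (k - τ) := by omega
  have e2 : 2 ^ P.E + τ + k = 2 ^ P.E + (τ + k) := by omega
  have e3 := s2_pow_sub (w := P.E) (x := k - τ) (by omega) (by omega)
  have e4 := s2_add_le (2 ^ P.E) (τ + k)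
  rw [s2_two_pow] at e4
  have e5 := s2_le (k - τ - 1)
  have e6 := s2_le (τ + k)
  have e7 : Nat.log 2 (k - τ - 1) ≤ Nat.log 2 (P.l + k) := log_mono (by omega)
  have e8 : Nat.log 2 (τ + k) ≤ Nat.log 2 (P.l + k) := log_mono (by omega)
  rw [e1, s2_two_mul, e2] at h1v
  have h1 : Ge ((s2 k : ℤ) + P.E - (Nat.log 2 (P.l + k) + 1) - (1 + (Nat.log 2 (P.l + k) + 1)))
      (ch (((t + k : ℕ) : ℚ) + k - 1) (2 * k)) := by
    refine Ge.of_val ?_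
    rw [h1v]
    omega
  have h := BRh_rq (N := (P.N : ℚ)) (b := ((t + k : ℕ) : ℚ)) (k := k)
    (x := 2 * (P.N : ℤ) - 3 * ((t : ℤ) + k) + k - 1) (M := (P.N : ℤ) - (t + k))
    (by push_cast; ring) (by push_cast; ring) h1 h2
  refine h.mono ?_
  push_cast
  omega

theorem LL_hi (P : Par) (s u : ℕ) (hu : P.s0 ≤ u) (hus : u ≤ s) (hs : s ≤ P.m) :
    Ge (2 * ((s : ℤ) - u) - P.L - 1) (LL P.N s u) := by
  obtain ⟨x, hx1, hx2, hxl, hx3, hN, hw⟩ := BRh_par P u hu (hus.trans hs)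
  have hm := P.two_m
  obtain ⟨k, rfl⟩ : ∃ k, s = u + k := ⟨s - u, by omega⟩
  have hk : u + k - u = k := by omega
  unfold LL
  rw [if_pos hus, hk]
  have hNq : (P.N : ℚ) = 2 ^ P.w + x + 2 * u := by rw [hN]; push_cast; ring
  have hlog : Nat.log 2 (x - 1) ≤ P.L := log_lt_of (lt_of_le_of_lt (by omega) P.l_lt)
  have h2 : padicValRat 2 (ch ((P.N : ℚ) - 2 * ((P.N : ℚ) - (u : ℚ)) + k) k) ≤ P.L := by
    have e : (P.N : ℚ) - 2 * ((P.N : ℚ) - (u : ℚ)) + k = -((P.N : ℚ) - 2 * (u : ℚ) - k) := by ring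
    rw [e, BRh_neg]
    refine (BRh_d2 (y := x - 1) (w := P.w) (by omega) (by omega) ?_).trans (by exact_mod_cast hlog)
    rw [hNq, Nat.cast_add, Nat.cast_sub hx1]
    push_cast
    ring
  have h1 : Ge 0 (ch (((P.N : ℚ) - (u : ℚ)) + k - 1) (2 * k)) := by
    have := Ge_ch ((P.N : ℤ) - u + k - 1) (2 * k)
    push_cast at this ⊢
    exact this
  have h := BRh_rq (N := (P.N : ℚ)) (b := (P.N : ℚ) - (u : ℚ)) (k := k)
    (x := 2 * (P.N : ℤ) - 3 * ((P.N : ℤ) - u) + k - 1) (M := (u : ℤ))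
    (by push_cast; ring) (by push_cast; ring) h1 h2
  refine h.mono ?_
  push_cast
  omega

theorem RR_hi (P : Par) (s u : ℕ) (hu : P.s0 ≤ u) (hus : u ≤ s) (hs : s ≤ P.m) :
    Ge (2 * ((s : ℤ) - u) - P.L - 1) (RR P.N u s) := by
  obtain ⟨x, hx1, hx2, hxl, hx3, hN, hw⟩ := BRh_par P u hu (hus.trans hs)
  have hm := P.two_m
  obtain ⟨k, rfl⟩ : ∃ k, s = u + k := ⟨s - u, by omega⟩
  have hk : u + k - u = k := by omega
  unfold RR
  rw [if_pos hus, hk]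
  have hNq : (P.N : ℚ) = 2 ^ P.w + x + 2 * u := by rw [hN]; push_cast; ring
  have hlog : Nat.log 2 (x - 1) ≤ P.L := log_lt_of (lt_of_le_of_lt (by omega) P.l_lt)
  have h2 : padicValRat 2 (ch ((P.N : ℚ) - 2 * (u : ℚ) - 1) k) ≤ P.L := by
    refine (BRh_d2 (y := x - 1) (w := P.w) (by omega) (by omega) ?_).trans (by exact_mod_cast hlog)
    rw [hNq, Nat.cast_add, Nat.cast_sub hx1]
    push_cast
    ring
  have h := BRh_Rq (N := (P.N : ℚ)) (a := (u : ℚ)) (j := k)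
    (x := 2 * (P.N : ℤ) - 3 * u - 1) (y := (u : ℤ) + k) (M := (P.N : ℤ) - u - 1)
    (by push_cast; ring) (by push_cast; ring) (by push_cast; ring) h2
  refine h.mono ?_
  push_cast
  omega

end Pool.Agent.BZ
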