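import Pool.Agent.Lib.MP_06b9d2_bz.Val
import Pool.Agent.Lib.MP_06b9d2_bz.Dig
import Pool.Agent.Lib.MP_06b9d2_bz.Lip
import Pool.Agent.Lib.MP_06b9d2_bz.ParA
/-! # BZ.BRl: bounds for `rr`, `ll` at low positions
`rq N b k = 4^k · unit · C(b+k-1,2k) C(2N-3b+k-1,k) / C(N-2b+k,k)` (integral numerators), so `v ≥ 2k - v C(N-2s+k, k)`;
`N - 2s = 2^w + l + 2i`, `v C(.., k) = s2 k + s2(l+2i) - s2(l+2i+k) ≤ (log k + 1) + (1 + log(n+2i) + 1) - 1`
(`l + 2i = 2^L + (n-2+2i)`), for `k ≥ 1`; `k = 0`: the value is 1.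
`ll N s (s-k) = Rq N (N-s) k`: `ch (N-2(N-s)-1) k = ± C(N-2s+k, k)`, numerators integral
(`C(-x-1,k) - 2 C(-x-1,k-1)`, `x = N - 3s`). -/
set_option autoImplicit false
open Finset
namespace Pool.Agent.BZ
/-- the denominator -/
private theorem den_val (P : Par) (s t : ℕ) (ht : 1 ≤ t) (hts : t ≤ s) (hs : s < P.s0) (x : ℚ)
    (hx : x = (P.N : ℚ) - 2 * s + (s - t : ℕ)) :
    ch x (s - t) ≠ 0 ∧ padicValRat 2 (ch x (s - t)) ≤
      2 + Nat.log 2 (s - t) + Nat.log 2 (P.n + 2 * (P.s0 - s)) := by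
  obtain ⟨k, rfl⟩ : ∃ k, s = t + k := ⟨s - t, by omega⟩
  obtain ⟨i, hi⟩ : ∃ i, P.s0 = t + k + i := ⟨P.s0 - (t + k), by omega⟩
  have hi1 : 1 ≤ i := by omega
  have e1 : t + k - t = k := by omega
  have e2 : P.s0 - (t + k) = i := by omega
  rw [e1] at hx ⊢
  rw [e2]
  have hl := P.l_eq
  have h3 := P.big3
  have hN0 : P.N0 = 2 * P.s0 + P.l := rfl
  have hN : P.N = P.N0 + 2 ^ P.w := rfl
  have hxn : x = ((2 ^ P.w + (P.l + 2 * i + k) : ℕ) : ℚ) := by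
    rw [hx, hN, hN0, hi]
    push_cast
    ring
  have hv := val_ch (k := k) hxn (by omega)
  refine ⟨hv.1, ?_⟩
  rw [hv.2]
  have e3 : 2 ^ P.w + (P.l + 2 * i + k) - k = 2 ^ P.w + (P.l + 2 * i) := by omega
  rw [e3, s2_pow_add (by omega), s2_pow_add (by omega)]
  have a1 : s2 k ≤ Nat.log 2 k + 1 := s2_le k
  have a2 : s2 (P.l + 2 * i) ≤ 2 + Nat.log 2 (P.n + 2 * i) := by
    have hn3 := P.hn3
    have e4 : P.l + 2 * i = 2 ^ P.L + (P.n - 2 + 2 * i) := by omega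
    rw [e4]
    have b1 := s2_add_le (2 ^ P.L) (P.n - 2 + 2 * i)
    rw [s2_two_pow] at b1
    have b2 := s2_le (P.n - 2 + 2 * i)
    have b3 : Nat.log 2 (P.n - 2 + 2 * i) ≤ Nat.log 2 (P.n + 2 * i) := Nat.log_mono_right (by omega)
    omega
  have a3 : 1 ≤ s2 (P.l + 2 * i + k) := s2_pos (by omega)
  push_cast
  omega

private theorem div_ge {a b c : ℚ} {m v : ℤ} (ha : Ge m a) (hb : b ≠ 0)
    (hbv : padicValRat 2 b ≤ v) (hc : c ≠ 0) (hcv : padicValRat 2 c = 0) :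
    Ge (m - v) (a / (b * c)) := by
  apply Ge.div ha
  rw [padicValRat.mul hb hc, hcv]
  simpa using hbv

private theorem od_ge (j : ℕ) : Ge 0 (od j) := Ge.of_val (od_val j).2.ge

theorem rr_lo (P : Par) (s t : ℕ) (ht : 1 ≤ t) (hts : t ≤ s) (hs : s < P.s0) :
    Ge (2 * ((s : ℤ) - t) - 2 - Nat.log 2 (s - t) - Nat.log 2 (P.n + 2 * (P.s0 - s))) (rr P.N t s) := by
  obtain ⟨h0, hv⟩ := den_val P s t ht hts hs _ rfl
  unfold rr
  rw [if_pos hts]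
  unfold rq
  have hprod := val_prod_odd (range (s - t)) (fun i => 2 * (P.N : ℤ) - 2 * s + 1 + 2 * (i : ℤ))
    (fun i _ => ⟨(P.N : ℤ) - s + i, by ring⟩)
  have hpe : (∏ i ∈ range (s - t), (2 * (P.N : ℚ) - 2 * s + 1 + 2 * (i : ℚ))) =
      ∏ i ∈ range (s - t), (((2 * (P.N : ℤ) - 2 * s + 1 + 2 * (i : ℤ) : ℤ)) : ℚ) := by
    apply Finset.prod_congr rfl
    intro i _
    push_cast
    ring
  have hnum : Ge (2 * ((s : ℤ) - t)) (4 ^ (s - t) * od (s - t) *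
      ch ((s : ℚ) + (s - t : ℕ) - 1) (2 * (s - t)) *
      ch (2 * (P.N : ℚ) - 3 * s + (s - t : ℕ) - 1) (s - t)) := by
    have g1 : Ge (2 * ((s : ℤ) - t)) ((4 : ℚ) ^ (s - t)) := by
      have h := Ge.pow2 (2 * (s - t))
      rw [pow_mul] at h
      norm_num at h
      convert h using 1
      push_cast [Nat.cast_sub hts]
      ring
    have g2 : Ge 0 (ch ((s : ℚ) + (s - t : ℕ) - 1) (2 * (s - t))) := by
      have h := Ge_ch ((s : ℤ) + (s - t : ℕ) - 1) (2 * (s - t))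
      push_cast at h ⊢
      exact h
    have g3 : Ge 0 (ch (2 * (P.N : ℚ) - 3 * s + (s - t : ℕ) - 1) (s - t)) := by
      have h := Ge_ch (2 * (P.N : ℤ) - 3 * s + (s - t : ℕ) - 1) (s - t)
      push_cast at h ⊢
      exact h
    have h := ((g1.mul (od_ge (s - t))).mul g2).mul g3
    simpa using h
  have hfin := div_ge hnum h0 hv (hpe ▸ hprod.1) (hpe ▸ hprod.2)
  refine Ge.mono hfin ?_
  omega

theorem ll_lo (P : Par) (s t : ℕ) (ht : 1 ≤ t) (hts : t ≤ s) (hs : s < P.s0) :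
    Ge (2 * ((s : ℤ) - t) - 2 - Nat.log 2 (s - t) - Nat.log 2 (P.n + 2 * (P.s0 - s))) (ll P.N s t) := by
  obtain ⟨h0, hv⟩ := den_val P s t ht hts hs _ rfl
  unfold ll
  rw [if_pos hts]
  unfold Rq
  have hch : ch ((P.N : ℚ) - 2 * ((P.N : ℚ) - s) - 1) (s - t) =
      (-1) ^ (s - t) * ch ((P.N : ℚ) - 2 * s + (s - t : ℕ)) (s - t) := by
    have e : (P.N : ℚ) - 2 * ((P.N : ℚ) - s) - 1 = -((P.N : ℚ) - 2 * s + 1) := by ring
    rw [e, ch_neg]
    congr 2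
    ring
  have hneg1 : ((-1 : ℚ) ^ (s - t)) ≠ 0 := pow_ne_zero _ (by norm_num)
  have hneg2 : padicValRat 2 ((-1 : ℚ) ^ (s - t)) = 0 := by
    rcases neg_one_pow_eq_or ℚ (s - t) with h | h <;> rw [h] <;> simp
  have h0' : ch ((P.N : ℚ) - 2 * ((P.N : ℚ) - s) - 1) (s - t) ≠ 0 := by
    rw [hch]
    exact mul_ne_zero hneg1 h0
  have hv' : padicValRat 2 (ch ((P.N : ℚ) - 2 * ((P.N : ℚ) - s) - 1) (s - t)) ≤
      2 + Nat.log 2 (s - t) + Nat.log 2 (P.n + 2 * (P.s0 - s)) := by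
    rw [hch, padicValRat.mul hneg1 h0, hneg2, zero_add]
    exact hv
  have hprod := val_prod_odd (range (s - t)) (fun i => 2 * (s : ℤ) - 1 - 2 * (i : ℤ))
    (fun i _ => ⟨(s : ℤ) - 1 - i, by ring⟩)
  have hpe : (∏ i ∈ range (s - t), (2 * (P.N : ℚ) - 2 * ((P.N : ℚ) - s) - 1 - 2 * (i : ℚ))) =
      ∏ i ∈ range (s - t), (((2 * (s : ℤ) - 1 - 2 * (i : ℤ) : ℤ)) : ℚ) := by
    apply Finset.prod_congr rfl
    intro i _
    push_cast
    ring
  have hnum : Ge (2 * ((s : ℤ) - t)) ((-4) ^ (s - t) * od (s - t) *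
      ch ((P.N : ℚ) - s + (s - t : ℕ)) (2 * (s - t)) *
      (ch (2 * (P.N : ℚ) - 3 * ((P.N : ℚ) - s) - 1) (s - t) -
        2 * (if s - t = 0 then 0 else ch (2 * (P.N : ℚ) - 3 * ((P.N : ℚ) - s) - 1) (s - t - 1)))) := by
    have g1 : Ge (2 * ((s : ℤ) - t)) ((-4 : ℚ) ^ (s - t)) := by
      have h := Ge.pow2 (2 * (s - t))
      rw [pow_mul] at h
      norm_num at h
      have e : ((-4 : ℚ)) ^ (s - t) = (-1) ^ (s - t) * 4 ^ (s - t) := by
        rw [← mul_pow]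
        norm_num
      rw [e]
      have h2 := (Ge.of_val hneg2.ge).mul h
      convert h2 using 1
      push_cast [Nat.cast_sub hts]
      ring
    have g2 : Ge 0 (ch ((P.N : ℚ) - s + (s - t : ℕ)) (2 * (s - t))) := by
      have h := Ge_ch ((P.N : ℤ) - s + (s - t : ℕ)) (2 * (s - t))
      push_cast at h ⊢
      exact h
    have g3 : ∀ k : ℕ, Ge 0 (ch (2 * (P.N : ℚ) - 3 * ((P.N : ℚ) - s) - 1) k) := by
      intro k
      have h := Ge_ch (2 * (P.N : ℤ) - 3 * ((P.N : ℤ) - s) - 1) k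
      push_cast at h ⊢
      exact h
    have g4 : Ge 0 (2 * (if s - t = 0 then 0 else
        ch (2 * (P.N : ℚ) - 3 * ((P.N : ℚ) - s) - 1) (s - t - 1))) := by
      have h2 : Ge 0 (2 : ℚ) := by simpa using Ge.nat 2
      have h := h2.mul (show Ge 0 (if s - t = 0 then 0 else
        ch (2 * (P.N : ℚ) - 3 * ((P.N : ℚ) - s) - 1) (s - t - 1)) by
          split_ifs
          · exact Ge.zero 0
          · exact g3 _)
      simpa using h
    have h := ((g1.mul (od_ge (s - t))).mul g2).mul ((g3 (s - t)).sub g4)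
    simpa using h
  have hfin := div_ge hnum h0' hv' (hpe ▸ hprod.1) (hpe ▸ hprod.2)
  refine Ge.mono hfin ?_
  omega

end Pool.Agent.BZ
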