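import Pool.Agent.Lib.MP_06b9d2_bz.Defs
/-! # BZ.ChA: binomial coefficients `ch x k` -/
set_option autoImplicit false
open Finset
namespace Pool.Agent.BZ

private theorem cha_fac (k : ℕ) : (k.factorial : ℚ) ≠ 0 := Nat.cast_ne_zero.mpr k.factorial_ne_zero

private theorem cha_prod (x : ℚ) (k : ℕ) :
    (k.factorial : ℚ) * ch x k = ∏ i ∈ range k, (x - i) := by
  unfold ch
  rw [mul_div_cancel₀ _ (cha_fac k)]

private theorem cha_inj {k : ℕ} {a b : ℚ} (h : (k.factorial : ℚ) * a = k.factorial * b) : a = b :=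
  mul_left_cancel₀ (cha_fac k) h

private theorem cha_sme (x : ℚ) (k : ℕ) :
    (descPochhammer ℤ k).smeval x = ∏ i ∈ range k, (x - i) := by
  induction k with
  | zero => simp
  | succ k ih =>
    rw [descPochhammer_succ_right, Polynomial.smeval_mul, ih, prod_range_succ,
      Polynomial.smeval_sub, Polynomial.smeval_X, Polynomial.smeval_natCast, pow_one, pow_zero]
    simp

private theorem cha_choose (x : ℚ) (k : ℕ) : ch x k = Ring.choose x k := by
  have h := Ring.choose_eq_smul (R := ℚ) (a := x) (n := k)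
  rw [h, cha_sme]
  unfold ch
  rw [smul_eq_mul, div_eq_inv_mul]

theorem ch_nat (n k : ℕ) : ch (n : ℚ) k = (n.choose k : ℚ) := by
  rw [cha_choose, Ring.choose_natCast]

/-- `(k+1) C(x,k+1) = (x-k) C(x,k)` -/
theorem ch_step (x : ℚ) (k : ℕ) : (k + 1) * ch x (k + 1) = (x - k) * ch x k := by
  apply cha_inj (k := k)
  have h1 := cha_prod x k
  have h2 := cha_prod x (k + 1)
  rw [prod_range_succ, ← h1, Nat.factorial_succ, Nat.cast_mul, Nat.cast_add, Nat.cast_one] at h2
  linear_combination h2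

/-- `(k+1) C(x,k+1) = x C(x-1,k)` -/
theorem ch_step' (x : ℚ) (k : ℕ) : (k + 1) * ch x (k + 1) = x * ch (x - 1) k := by
  apply cha_inj (k := k)
  have h1 := cha_prod (x - 1) k
  have h2 := cha_prod x (k + 1)
  rw [prod_range_succ', Nat.factorial_succ, Nat.cast_mul, Nat.cast_add, Nat.cast_one] at h2
  have h3 : ∏ i ∈ range k, (x - ((i + 1 : ℕ) : ℚ)) = ∏ i ∈ range k, (x - 1 - i) := by
    apply prod_congr rfl
    intro i _
    push_cast
    ring
  rw [h3, ← h1, Nat.cast_zero, sub_zero] at h2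
  linear_combination h2

/-- `(x-k) C(x,k) = x C(x-1,k)` -/
theorem ch_step'' (x : ℚ) (k : ℕ) : (x - k) * ch x k = x * ch (x - 1) k := by
  rw [← ch_step, ch_step']

theorem ch_pascal (x : ℚ) (k : ℕ) : ch (x + 1) (k + 1) = ch x (k + 1) + ch x k := by
  have hk : ((k : ℚ) + 1) ≠ 0 := by positivity
  apply mul_left_cancel₀ hk
  have h1 := ch_step' (x + 1) k
  have h2 := ch_step x k
  rw [add_sub_cancel_right] at h1
  linear_combination h1 - h2

theorem ch_zero (x : ℚ) : ch x 0 = 1 := by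
  unfold ch
  simp

theorem ch_of_lt (n k : ℕ) (h : n < k) : ch (n : ℚ) k = 0 := by
  rw [ch_nat, Nat.choose_eq_zero_of_lt h, Nat.cast_zero]

theorem ch_neg (x : ℚ) (k : ℕ) : ch (-x) k = (-1) ^ k * ch (x + k - 1) k := by
  apply cha_inj (k := k)
  rw [cha_prod, ← mul_assoc, mul_comm _ ((-1 : ℚ) ^ k), mul_assoc, cha_prod]
  rw [← prod_range_reflect (fun i : ℕ => (x + k - 1 - (i : ℚ))) k]
  have h1 : ((-1 : ℚ)) ^ k = ∏ _i ∈ range k, (-1 : ℚ) := by
    rw [prod_const, card_range]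
  rw [h1, ← prod_mul_distrib]
  apply prod_congr rfl
  intro i hi
  have hi' : i < k := mem_range.mp hi
  have h2 : (((k - 1 - i : ℕ)) : ℚ) = k - 1 - i := by
    rw [Nat.cast_sub (by omega), Nat.cast_sub (by omega), Nat.cast_one]
  rw [h2]
  ring

theorem ch_int (x : ℤ) (k : ℕ) : ∃ z : ℤ, ch (x : ℚ) k = z := by
  rcases x with n | n
  · exact ⟨(n.choose k : ℤ), by
      rw [Int.ofNat_eq_natCast, Int.cast_natCast, ch_nat, Int.cast_natCast]⟩
  · refine ⟨(-1) ^ k * ((n + k).choose k : ℤ), ?_⟩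
    have h1 : ((Int.negSucc n : ℤ) : ℚ) = -((n : ℚ) + 1) := by
      rw [Int.cast_negSucc]
      push_cast
      ring
    have h2 : ((n : ℚ) + 1 + k - 1) = ((n + k : ℕ) : ℚ) := by
      push_cast
      ring
    rw [h1, ch_neg, h2, ch_nat]
    push_cast
    rfl

/-- Vandermonde -/
theorem ch_vand (x y : ℚ) (k : ℕ) : ch (x + y) k = ∑ j ∈ range (k + 1), ch y j * ch x (k - j) := by
  rw [add_comm x y, cha_choose, Ring.add_choose_eq k (Commute.all y x),
    Finset.Nat.sum_antidiagonal_eq_sum_range_succ (fun i j => Ring.choose y i * Ring.choose x j) k]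
  apply sum_congr rfl
  intro j _
  rw [cha_choose, cha_choose]

theorem ch_prod (x : ℚ) (k : ℕ) : (k.factorial : ℚ) * ch x k = ∏ i ∈ range k, (x - i) :=
  cha_prod x k

theorem ch_ne_zero {x : ℚ} {k : ℕ} (h : ∀ i < k, x ≠ i) : ch x k ≠ 0 := by
  unfold ch
  apply div_ne_zero _ (cha_fac k)
  rw [prod_ne_zero_iff]
  intro i hi
  exact sub_ne_zero.mpr (h i (mem_range.mp hi))

end Pool.Agent.BZ
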