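import Pool.Agent.Lib.MP_06b9d2_bz.Defs
/-! # BZ.Root: roots of polynomials near a point -/
set_option autoImplicit false
open Finset
namespace Pool.Agent.BZ
variable {K : Type*} [NormedField K] [IsUltrametricDist K] [IsAlgClosed K]

omit [IsAlgClosed K] in
private theorem Root_lt {x y : K} (h : ‖y‖ < ‖x‖) : ‖x + y‖ = ‖x‖ := by
  rw [IsUltrametricDist.norm_add_eq_max_of_norm_ne_norm h.ne', max_eq_left h.le]

omit [IsUltrametricDist K] in
private theorem Root_eval (G : Polynomial K) (x : K) :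
    ‖G.eval x‖ = ‖G.leadingCoeff‖ * (G.roots.map fun a => ‖x - a‖).prod := by
  have h1 : G = Polynomial.C G.leadingCoeff * (G.roots.map fun a => Polynomial.X - Polynomial.C a).prod :=
    (IsAlgClosed.splits G).eq_prod_roots
  have h2 : G.eval x = G.leadingCoeff * (G.roots.map fun a => x - a).prod := by
    conv_lhs => rw [h1]
    rw [Polynomial.eval_mul, Polynomial.eval_C, Polynomial.eval_multiset_prod, Multiset.map_map]
    congr 2
    refine Multiset.map_congr rfl fun a _ => ?_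
    simp
  rw [h2, norm_mul]
  congr 1
  have h3 : ∀ s : Multiset K, ‖(s.map fun a => x - a).prod‖ = (s.map fun a => ‖x - a‖).prod := by
    intro s
    induction s using Multiset.induction_on with
    | empty => simp
    | cons a s ih => rw [Multiset.map_cons, Multiset.prod_cons, norm_mul, ih, Multiset.map_cons,
        Multiset.prod_cons]
  exact h3 _

/-- if `G` has no root in the open unit disc about `x0` then `‖G‖` is constant there -/
theorem root_near (G : Polynomial K) (x0 x1 : K) (h1 : ‖x1 - x0‖ < 1)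
    (h : ‖G.eval x0‖ < ‖G.eval x1‖) : ∃ r, G.eval r = 0 ∧ ‖r - x0‖ < 1 := by
  by_contra hcon
  push Not at hcon
  have h2 : ∀ a ∈ G.roots, ‖x1 - a‖ = ‖x0 - a‖ := by
    intro a ha
    have h3 := hcon a (Polynomial.mem_roots'.1 ha).2
    rw [norm_sub_rev] at h3
    have h4 : x1 - a = (x0 - a) + (x1 - x0) := by ring
    rw [h4]
    exact Root_lt (lt_of_lt_of_le h1 h3)
  rw [Root_eval, Root_eval, Multiset.map_congr rfl h2] at h
  exact lt_irrefl _ h

/-- a point near `z0` where a polynomial with leading coefficient of norm one is not small: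
`z1 = z0 + π`, `‖π‖ = 2^(-1/M)` for a large `M` with `‖π‖` different from all `‖root - z0‖` -/
theorem far_point (h2 : ‖(2 : K)‖ = 1 / 2) (Ψ : Polynomial K) (hΨ : ‖Ψ.leadingCoeff‖ = 1) (z0 : K) :
    ∃ z1, ‖z1 - z0‖ < 1 ∧ 1 / 2 < ‖Ψ.eval z1‖ := by
  classical
  have hfin : {M : ℕ | 0 < M ∧ ∃ r ∈ Ψ.roots.toFinset, ‖r - z0‖ ^ M = 1 / 2}.Finite := by
    have h3 : {M : ℕ | 0 < M ∧ ∃ r ∈ Ψ.roots.toFinset, ‖r - z0‖ ^ M = 1 / 2} ⊆
        ⋃ r ∈ Ψ.roots.toFinset, {M : ℕ | 0 < M ∧ ‖r - z0‖ ^ M = 1 / 2} := by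
      rintro M ⟨hM, r, hr, h⟩
      exact Set.mem_biUnion hr ⟨hM, h⟩
    refine Set.Finite.subset (Set.Finite.biUnion (Finset.finite_toSet _) fun r _ => ?_) h3
    refine Set.Subsingleton.finite ?_
    rintro M ⟨hM, h⟩ M' ⟨hM', h'⟩
    have hx0 : 0 ≤ ‖r - z0‖ := norm_nonneg _
    have hx1 : ‖r - z0‖ < 1 := by
      by_contra hc
      have := one_le_pow₀ (not_lt.1 hc) (n := M)
      linarith
    have hx2 : 0 < ‖r - z0‖ := by
      rcases hx0.lt_or_eq with h4 | h4
      · exact h4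
      · rw [← h4, zero_pow hM.ne'] at h
        norm_num at h
    exact (pow_right_injective₀ hx2 hx1.ne) (h.trans h'.symm)
  obtain ⟨M, hM1, hM2⟩ := ((Set.Ioi_infinite (Multiset.card Ψ.roots)).sdiff hfin).nonempty
  have hM0 : 0 < M := lt_of_le_of_lt (Nat.zero_le _) hM1
  obtain ⟨π, hπ⟩ := IsAlgClosed.exists_pow_nat_eq (2 : K) hM0
  have hπM : ‖π‖ ^ M = 1 / 2 := by rw [← norm_pow, hπ, h2]
  have hπ1 : ‖π‖ < 1 := by
    by_contra hc
    have := one_le_pow₀ (not_lt.1 hc) (n := M)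
    linarith
  have hπ0 : 0 < ‖π‖ := by
    rcases (norm_nonneg π).lt_or_eq with h4 | h4
    · exact h4
    · rw [← h4, zero_pow hM0.ne'] at hπM
      norm_num at hπM
  refine ⟨z0 + π, by rwa [add_sub_cancel_left], ?_⟩
  rw [Root_eval, hΨ, one_mul]
  have h5 : ∀ a ∈ Ψ.roots, ‖π‖ ≤ ‖z0 + π - a‖ := by
    intro a ha
    have h6 : ‖a - z0‖ ≠ ‖π‖ := by
      intro he
      apply hM2
      refine ⟨hM0, a, Multiset.mem_toFinset.2 ha, ?_⟩
      rw [he, hπM]
    rcases lt_or_gt_of_ne h6 with h8 | h8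
    · have h7 : z0 + π - a = π + -(a - z0) := by ring
      rw [h7, Root_lt (by rwa [norm_neg])]
    · have h7 : z0 + π - a = -(a - z0) + π := by ring
      rw [h7, Root_lt (by rwa [norm_neg]), norm_neg]
      exact h8.le
  have h8 : ∀ s : Multiset K, (∀ a ∈ s, ‖π‖ ≤ ‖z0 + π - a‖) →
      ‖π‖ ^ (Multiset.card s) ≤ (s.map fun a => ‖z0 + π - a‖).prod := by
    intro s
    induction s using Multiset.induction_on with
    | empty => intro _; simp
    | cons a s ih =>
      intro hs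
      rw [Multiset.card_cons, pow_succ', Multiset.map_cons, Multiset.prod_cons]
      exact mul_le_mul (hs a (Multiset.mem_cons_self _ _))
        (ih fun b hb => hs b (Multiset.mem_cons_of_mem hb)) (by positivity) (norm_nonneg _)
  refine lt_of_lt_of_le ?_ (h8 _ h5)
  rw [← hπM]
  exact pow_lt_pow_right_of_lt_one₀ hπ0 hπ1 hM1

/-- solving `x' - 1/x' = ζ` near `x` -/
theorem near_preimage (x ζ : K) (hx : ‖x‖ = 1) (h : ‖x - x⁻¹ - ζ‖ < 1) :
    ∃ x', ‖x'‖ = 1 ∧ x' - x'⁻¹ = ζ ∧ ‖x' - x‖ < 1 := by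
  have hx0 : x ≠ 0 := by
    rintro rfl
    rw [norm_zero] at hx
    exact zero_ne_one hx
  have hd : (Polynomial.C ζ * Polynomial.X + 1 : Polynomial K).degree < (2 : ℕ) := by
    refine lt_of_le_of_lt (Polynomial.degree_add_le _ _) (max_lt ?_ ?_)
    · refine lt_of_le_of_lt (Polynomial.degree_C_mul_X_le ζ) ?_
      exact_mod_cast (by norm_num : (1 : ℕ) < 2)
    · rw [Polynomial.degree_one]
      exact_mod_cast (by norm_num : (0 : ℕ) < 2)
  have hmon : (Polynomial.X ^ 2 - (Polynomial.C ζ * Polynomial.X + 1) : Polynomial K).Monic :=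
    Polynomial.monic_X_pow_sub hd
  have hev : ∀ z : K, (Polynomial.X ^ 2 - (Polynomial.C ζ * Polynomial.X + 1) : Polynomial K).eval z =
      z ^ 2 - (ζ * z + 1) := by
    intro z
    simp
  have h1 : ‖(Polynomial.X ^ 2 - (Polynomial.C ζ * Polynomial.X + 1) : Polynomial K).eval x‖ < 1 := by
    rw [hev]
    have h2 : x ^ 2 - (ζ * x + 1) = x * (x - x⁻¹ - ζ) := by
      field_simp
      ring
    rw [h2, norm_mul, hx, one_mul]
    exact h
  rw [Root_eval, hmon.leadingCoeff, norm_one, one_mul] at h1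
  obtain ⟨r, hr, hr1⟩ : ∃ r ∈ (Polynomial.X ^ 2 - (Polynomial.C ζ * Polynomial.X + 1) : Polynomial K).roots,
      ‖x - r‖ < 1 := by
    by_contra hcon
    push Not at hcon
    have h8 : ∀ s : Multiset K, (∀ a ∈ s, 1 ≤ ‖x - a‖) → 1 ≤ (s.map fun a => ‖x - a‖).prod := by
      intro s
      induction s using Multiset.induction_on with
      | empty => intro _; simp
      | cons a s ih =>
        intro hs
        rw [Multiset.map_cons, Multiset.prod_cons]
        exact one_le_mul_of_one_le_of_one_le (hs a (Multiset.mem_cons_self _ _))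
          (ih fun b hb => hs b (Multiset.mem_cons_of_mem hb))
    exact absurd (h8 _ hcon) (not_le.2 h1)
  have h3 := (Polynomial.mem_roots'.1 hr).2
  rw [Polynomial.IsRoot, hev] at h3
  have h4 : r ≠ 0 := by
    rintro rfl
    norm_num at h3
  have hn : ‖r‖ = 1 := by
    have h5 : r = x + -(x - r) := by ring
    rw [h5, Root_lt (by rw [hx, norm_neg]; exact hr1), hx]
  refine ⟨r, hn, ?_, by rw [norm_sub_rev]; exact hr1⟩
  have h6 : r - r⁻¹ - ζ = (r ^ 2 - (ζ * r + 1)) / r := by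
    field_simp
    ring
  rw [h3, zero_div] at h6
  exact sub_eq_zero.1 h6

end Pool.Agent.BZ
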