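import Pool.Agent.Lib.MP_06b9d2_bz.Core
import Pool.Agent.Lib.MP_06b9d2_bz.Root
/-! # BZ.Clo: the set of residues is closed under preimages of `x ↦ x + 1/x` -/
set_option autoImplicit false
open Finset
namespace Pool.Agent.BZ
/-- `x` is congruent to the unit part of an eigenvalue of `U_2` in some admissible weight -/
def Rch (x : PadicAlgCl 2) : Prop :=
  ∃ (n h : ℕ) (u : PadicAlgCl 2), Good n h ∧ IsEig n u ∧ ‖u‖ = (2 : ℝ) ^ (-(h : ℤ)) ∧ ‖u / 2 ^ h - x‖ < 1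
/-- the same, with a slope smaller than that of the newforms -/
def Rcn (x : PadicAlgCl 2) : Prop :=
  ∃ (n h : ℕ) (u : PadicAlgCl 2), Good n h ∧ h + 1 < 2 * n ∧ IsEig n u ∧ ‖u‖ = (2 : ℝ) ^ (-(h : ℤ)) ∧
    ‖u / 2 ^ h - x‖ < 1

private theorem val_choose_even {m b : ℕ} (h : 2 * b ≤ m) :
    padicValNat 2 (m.choose (2 * b)) = padicValNat 2 ((m / 2).choose b) := by
  have hb : b ≤ m / 2 := by omega
  have h1 := Nat.choose_mul_factorial_mul_factorial h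
  have h2 := Nat.choose_mul_factorial_mul_factorial hb
  have e1 := congrArg (padicValNat 2) h1
  have e2 := congrArg (padicValNat 2) h2
  have n1 : m.choose (2 * b) ≠ 0 := (Nat.choose_pos h).ne'
  have n2 : (m / 2).choose b ≠ 0 := (Nat.choose_pos hb).ne'
  rw [padicValNat.mul (mul_ne_zero n1 (Nat.factorial_ne_zero _)) (Nat.factorial_ne_zero _),
    padicValNat.mul n1 (Nat.factorial_ne_zero _)] at e1
  rw [padicValNat.mul (mul_ne_zero n2 (Nat.factorial_ne_zero _)) (Nat.factorial_ne_zero _),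
    padicValNat.mul n2 (Nat.factorial_ne_zero _)] at e2
  have f1 : padicValNat 2 m.factorial = padicValNat 2 (m / 2).factorial + m / 2 := by
    rw [← padicValNat_mul_div_factorial, padicValNat_factorial_mul]
  have f2 : padicValNat 2 (2 * b).factorial = padicValNat 2 b.factorial + b :=
    padicValNat_factorial_mul b
  have f3 : padicValNat 2 (m - 2 * b).factorial =
      padicValNat 2 (m / 2 - b).factorial + (m / 2 - b) := by
    have h3 : (m - 2 * b) / 2 = m / 2 - b := by omega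
    rw [← padicValNat_mul_div_factorial (p := 2) (m - 2 * b), padicValNat_factorial_mul, h3]
  omega

private theorem val_choose_pow (E : ℕ) : ∀ m : ℕ, 2 ^ E ≤ m →
    padicValNat 2 (m.choose (2 ^ E)) = padicValNat 2 (m / 2 ^ E) := by
  induction E with
  | zero =>
    intro m _
    simp
  | succ E ih =>
    intro m hm
    have h1 : 2 ^ (E + 1) = 2 * 2 ^ E := by ring
    rw [h1] at hm ⊢
    rw [val_choose_even hm, ih (m / 2) (by omega), Nat.div_div_eq_div_mul]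

private theorem val_fac_pow (E : ℕ) : padicValNat 2 (2 ^ E).factorial + 1 = 2 ^ E := by
  induction E with
  | zero => simp
  | succ E ih =>
    have h1 : 2 ^ (E + 1) = 2 * 2 ^ E := by ring
    rw [h1, padicValNat_factorial_mul]
    omega

private theorem clo_val_odd {m : ℕ} (h : m % 2 = 1) : padicValNat 2 m = 0 :=
  padicValNat.eq_zero_of_not_dvd (by omega)

private theorem clo_ch_nat {m k : ℕ} (h : k ≤ m) : ch (m : ℚ) k = ((m.choose k : ℕ) : ℚ) := by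
  have hk : (k.factorial : ℚ) ≠ 0 := by exact_mod_cast Nat.factorial_ne_zero k
  rw [ch, div_eq_iff hk]
  have h1 : ((m.choose k : ℕ) : ℚ) * (k.factorial : ℚ) = ((m.descFactorial k : ℕ) : ℚ) := by
    rw [Nat.descFactorial_eq_factorial_mul_choose]
    push_cast
    ring
  rw [h1, Nat.descFactorial_eq_prod_range, Nat.cast_prod]
  refine Finset.prod_congr rfl fun i hi => ?_
  have := Finset.mem_range.1 hi
  rw [Nat.cast_sub (by omega)]

private theorem od_nat (j : ℕ) : ∃ m : ℕ, m % 2 = 1 ∧ od j = (m : ℚ) := by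
  induction j with
  | zero => exact ⟨1, rfl, by simp [od]⟩
  | succ j ih =>
    obtain ⟨m, hm, he⟩ := ih
    refine ⟨m * (2 * j + 1), ?_, ?_⟩
    · rw [Nat.mul_mod, hm]
      omega
    · rw [od, Finset.prod_range_succ, ← od, he]
      push_cast
      ring

private theorem val_choose_succ {m E : ℕ} (hE : 1 ≤ E) (hm : m % 2 = 1) (h : 2 ^ E + 1 ≤ m) :
    padicValNat 2 (m.choose (1 + 2 ^ E)) = padicValNat 2 (m / 2 ^ E) := by
  rw [← val_choose_pow E m (by omega)]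
  have h2 : 2 ∣ 2 ^ E := dvd_pow_self 2 (by omega)
  have h1 := Nat.choose_succ_right_eq m (2 ^ E)
  have e1 := congrArg (padicValNat 2) h1
  rw [padicValNat.mul (Nat.choose_pos (by omega)).ne' (by omega),
    padicValNat.mul (Nat.choose_pos (by omega)).ne' (by omega), clo_val_odd (m := 2 ^ E + 1) (by omega),
    clo_val_odd (m := m - 2 ^ E) (by omega)] at e1
  rw [add_comm 1 (2 ^ E)]
  omega


namespace Par

private theorem facts (P : Par) : ∃ w' : ℕ, P.w = P.E + w' ∧ w' + P.h = 2 * P.l + 3 ∧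
    P.h ≤ P.l ∧ 1 ≤ P.l ∧ P.l % 2 = 1 ∧ 2 * P.l + 2 ≤ 2 ^ (P.L + 2) ∧ 2 ^ (P.L + 2) ≤ 2 ^ P.E ∧
    P.L < 2 ^ P.L ∧ 1000 ≤ P.L := by
  have hn3 := P.hn3
  have hh2 := P.hh2
  have hL := P.hL
  have hn := P.hn
  have h1 : P.L < 2 ^ P.L := Nat.lt_two_pow_self
  have h2 : P.n ≤ P.n ^ 2 := by nlinarith
  have h3 : 2 ∣ 2 ^ P.L := dvd_pow_self 2 (by omega)
  have h4 : P.l = P.n - 2 + 2 ^ P.L := rfl
  have h5 : 2 ^ (P.L + 2) = 4 * 2 ^ P.L := by ring
  have h6 : P.w = 2 * P.l + 3 + P.E - P.h := rfl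
  obtain ⟨r, hr⟩ := hn
  refine ⟨2 * P.l + 3 - P.h, ?_, ?_, ?_, ?_, ?_, ?_, ?_, h1, ?_⟩
  · omega
  · omega
  · omega
  · omega
  · omega
  · omega
  · refine Nat.pow_le_pow_right (by norm_num) ?_
    show P.L + 2 ≤ 100 * P.L
    omega
  · omega

end Par

/-- the new parameters -/
theorem good_next (P : Par) : Good P.N P.H ∧ P.H + 1 < 2 * P.N := by
  obtain ⟨w', hw, hwh, hhl, hl1, hlo, hl2, hE, hLL, hL1000⟩ := P.facts
  have hs0 : P.s0 = 1 + 2 ^ P.E := rfl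
  have hN0 : P.N0 = 2 * P.s0 + P.l := rfl
  have hH : P.H = 2 * P.N0 - 1 := rfl
  have hN : P.N = P.N0 + 2 ^ P.w := rfl
  have hw1 : 1 ≤ P.w := by omega
  have h2w : 2 ∣ 2 ^ P.w := dvd_pow_self 2 (by omega)
  have hwpos : 0 < 2 ^ P.w := by positivity
  have hEE : P.E = 100 * P.L := rfl
  refine ⟨⟨?_, ?_, ?_, ?_⟩, ?_⟩
  · rw [Nat.odd_iff]
    omega
  · omega
  · -- the logarithm
    have h1 : P.N < 2 ^ (P.w + 1) := by
      have h2 : 2 ^ (P.w + 1) = 2 * 2 ^ P.w := by ring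
      have h3 : 2 ^ (P.E + 3) ≤ 2 ^ P.w := Nat.pow_le_pow_right (by norm_num) (by omega)
      have h4 : 2 ^ (P.E + 3) = 8 * 2 ^ P.E := by ring
      omega
    have h2 : Nat.log 2 P.N < P.w + 1 := Nat.log_lt_of_lt_pow (by omega) h1
    have h3 : 1000 * 2 ^ (P.L + 2) ≤ 2 ^ P.E := by
      have h4 : 2 ^ (P.L + 12) ≤ 2 ^ P.E := Nat.pow_le_pow_right (by norm_num) (by omega)
      have h5 : 2 ^ (P.L + 12) = 1024 * 2 ^ (P.L + 2) := by ring
      have h6 : 0 < 2 ^ (P.L + 2) := by positivity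
      omega
    have h5 : 2 ^ (P.L + 2) = 4 * 2 ^ P.L := by ring
    have h6 : 4000 * P.L ≤ 2 ^ P.E := by omega
    omega
  · omega
  · omega

/-- `c0` has valuation `-h` -/
theorem c0_val (P : Par) : P.c0 ≠ 0 ∧ padicValRat 2 P.c0 = -(P.h : ℤ) := by
  obtain ⟨w', hw, hwh, hhl, hl1, hlo, hl2, hE, hLL, hL1000⟩ := P.facts
  have hs0 : P.s0 = 1 + 2 ^ P.E := rfl
  have hN0 : P.N0 = 2 * P.s0 + P.l := rfl
  have hH : P.H = 2 * P.N0 - 1 := rfl
  have hN : P.N = P.N0 + 2 ^ P.w := rfl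
  have hEE : P.E = 100 * P.L := rfl
  have hE1 : 1 ≤ P.E := by omega
  have hEpos : 0 < 2 ^ P.E := by positivity
  have h2E : 2 ∣ 2 ^ P.E := dvd_pow_self 2 (by omega)
  have h2w' : 2 ∣ 2 ^ w' := dvd_pow_self 2 (by omega)
  have hww : 2 ^ P.w = 2 ^ P.E * 2 ^ w' := by rw [hw, pow_add]
  have hw'pos : 0 < 2 ^ w' := by positivity
  -- the factors
  obtain ⟨O, hO, hOe⟩ := od_nat P.s0
  set M1 : ℕ := 2 ^ P.E * (2 * (2 ^ w' + 1)) + (2 * P.l + 1) with hM1
  set M2 : ℕ := 2 ^ P.E * 2 ^ w' + (P.l - 1) with hM2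
  set M3 : ℕ := 2 ^ P.E * (2 ^ w' + 1) + P.l with hM3
  set T : ℕ := 2 * (P.l + 2 ^ P.w) + 1 with hT
  have e1 : 2 * (P.N : ℚ) - 2 * (P.s0 : ℚ) - 1 = (M1 : ℚ) := by
    have h1 : 2 * P.N = M1 + 2 * P.s0 + 1 := by
      rw [hM1, hN, hN0, hs0, hww]
      ring
    have h2 : (2 : ℚ) * (P.N : ℚ) = M1 + 2 * P.s0 + 1 := by exact_mod_cast h1
    rw [h2]
    ring
  have e2 : (P.N : ℚ) - 2 * (P.s0 : ℚ) - 1 = (M2 : ℚ) := by
    have h1 : P.N = M2 + 2 * P.s0 + 1 := by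
      rw [hM2, hN, hN0, hs0, hww]
      omega
    have h2 : (P.N : ℚ) = M2 + 2 * P.s0 + 1 := by exact_mod_cast h1
    rw [h2]
    ring
  have e3 : (P.N : ℚ) - (P.s0 : ℚ) - 1 = (M3 : ℚ) := by
    have h1 : P.N = M3 + P.s0 + 1 := by
      rw [hM3, hN, hN0, hs0, hww]
      ring
    have h2 : (P.N : ℚ) = M3 + P.s0 + 1 := by exact_mod_cast h1
    rw [h2]
    ring
  have e4 : 2 * ((P.N : ℚ) - 2 * (P.s0 : ℚ) + 2) - 3 = (T : ℚ) := by
    have h1 : 2 * P.N = T + 4 * P.s0 - 1 := by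
      rw [hT, hN, hN0]
      omega
    have h2 : 2 * P.N + 1 = T + 4 * P.s0 := by omega
    have h3 : (2 : ℚ) * (P.N : ℚ) + 1 = T + 4 * P.s0 := by exact_mod_cast h2
    linarith
  have e5 : P.s0 - 1 = 2 ^ P.E := by omega
  have hmE : 2 ^ P.E * 1 ≤ 2 ^ P.E * 2 ^ w' := Nat.mul_le_mul_left _ hw'pos
  have hX1 : M1 = 2 * (2 ^ P.E * 2 ^ w') + 2 * 2 ^ P.E + (2 * P.l + 1) := by
    rw [hM1]
    ring
  have hX3 : M3 = 2 ^ P.E * 2 ^ w' + 2 ^ P.E + P.l := by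
    rw [hM3]
    ring
  have hK1 : P.s0 ≤ M1 := by omega
  have hK1' : 2 ^ P.E + 1 ≤ M1 := by omega
  have hK1o : M1 % 2 = 1 := by omega
  have hK2 : 2 ^ P.E ≤ M2 := by omega
  have hK3 : 2 ^ P.E ≤ M3 := by omega
  have hD1 : M1 / 2 ^ P.E = 2 * (2 ^ w' + 1) := by
    rw [hM1, Nat.mul_add_div hEpos, Nat.div_eq_of_lt (by omega), add_zero]
  have hD2 : M2 / 2 ^ P.E = 2 ^ w' := by
    rw [hM2, Nat.mul_add_div hEpos, Nat.div_eq_of_lt (by omega), add_zero]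
  have hD3 : M3 / 2 ^ P.E = 2 ^ w' + 1 := by
    rw [hM3, Nat.mul_add_div hEpos, Nat.div_eq_of_lt (by omega), add_zero]
  have c1 : ch (M1 : ℚ) P.s0 = ((M1.choose P.s0 : ℕ) : ℚ) := clo_ch_nat hK1
  have c2 : ch (M2 : ℚ) (2 ^ P.E) = ((M2.choose (2 ^ P.E) : ℕ) : ℚ) := clo_ch_nat hK2
  have c3 : ch (M3 : ℚ) (2 ^ P.E) = ((M3.choose (2 ^ P.E) : ℕ) : ℚ) := clo_ch_nat hK3
  have hc0 : P.c0 = (-8) ^ P.s0 * ((P.s0.factorial : ℕ) : ℚ) * ((M1.choose P.s0 : ℕ) : ℚ) *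
      ((M2.choose (2 ^ P.E) : ℕ) : ℚ) / ((O : ℚ) * ((M3.choose (2 ^ P.E) : ℕ) : ℚ)) / 2 ^ P.H /
        (-8 * (T : ℚ)) := by
    rw [Par.c0, al, e1, e2, e3, e4, e5, c1, c2, c3, hOe]
  -- valuations
  have v1 : padicValNat 2 (M1.choose P.s0) = 1 := by
    rw [hs0, val_choose_succ hE1 hK1o hK1', hD1, padicValNat.mul (by norm_num)
      (by omega), clo_val_odd (m := 2 ^ w' + 1) (by omega)]
    simp
  have v2 : padicValNat 2 (M2.choose (2 ^ P.E)) = w' := by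
    rw [val_choose_pow _ _ hK2, hD2]
    exact padicValNat.prime_pow w'
  have v3 : padicValNat 2 (M3.choose (2 ^ P.E)) = 0 := by
    rw [val_choose_pow _ _ hK3, hD3, clo_val_odd (by omega)]
  have v4 : padicValNat 2 P.s0.factorial + 1 = 2 ^ P.E := by
    rw [← val_fac_pow P.E]
    have h1 : P.s0 = 2 * 2 ^ (P.E - 1) + 1 := by
      rw [hs0]
      have : 2 ^ P.E = 2 * 2 ^ (P.E - 1) := by
        rw [← pow_succ']
        congr 1
        omega
      omega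
    have h2 : 2 ^ P.E = 2 * 2 ^ (P.E - 1) := by
      rw [← pow_succ']
      congr 1
      omega
    rw [h1, padicValNat_factorial_mul_add _ (by norm_num), ← h2]
  have n1 : ((P.s0.factorial : ℕ) : ℚ) ≠ 0 := by exact_mod_cast Nat.factorial_ne_zero _
  have n2 : ((M1.choose P.s0 : ℕ) : ℚ) ≠ 0 := by
    have : 0 < M1.choose P.s0 := Nat.choose_pos hK1
    exact_mod_cast this.ne'
  have n3 : ((M2.choose (2 ^ P.E) : ℕ) : ℚ) ≠ 0 := by
    have : 0 < M2.choose (2 ^ P.E) := Nat.choose_pos hK2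
    exact_mod_cast this.ne'
  have n4 : ((M3.choose (2 ^ P.E) : ℕ) : ℚ) ≠ 0 := by
    have : 0 < M3.choose (2 ^ P.E) := Nat.choose_pos hK3
    exact_mod_cast this.ne'
  have n5 : (O : ℚ) ≠ 0 := by
    have : O ≠ 0 := by omega
    exact_mod_cast this
  have n6 : (T : ℚ) ≠ 0 := by
    have : T ≠ 0 := by omega
    exact_mod_cast this
  have n7 : ((-8 : ℚ)) ^ P.s0 ≠ 0 := pow_ne_zero _ (by norm_num)
  have n8 : (2 : ℚ) ^ P.H ≠ 0 := pow_ne_zero _ (by norm_num)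
  have v8 : padicValRat 2 (-8 : ℚ) = 3 := by
    rw [padicValRat.neg]
    have h1 : (8 : ℚ) = (2 : ℚ) ^ 3 := by norm_num
    rw [h1, padicValRat.pow]
    have h2 : padicValRat 2 (2 : ℚ) = 1 := by
      have := padicValRat.self (p := 2) (by norm_num)
      exact_mod_cast this
    rw [h2]
    norm_num
  have v2' : padicValRat 2 (2 : ℚ) = 1 := by
    have := padicValRat.self (p := 2) (by norm_num)
    exact_mod_cast this
  refine ⟨?_, ?_⟩
  · rw [hc0]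
    refine div_ne_zero (div_ne_zero (div_ne_zero ?_ (mul_ne_zero n5 n4)) n8)
      (mul_ne_zero (by norm_num) n6)
    exact mul_ne_zero (mul_ne_zero (mul_ne_zero n7 n1) n2) n3
  · have q1 : (-8 : ℚ) ^ P.s0 * ((P.s0.factorial : ℕ) : ℚ) ≠ 0 := mul_ne_zero n7 n1
    have q2 := mul_ne_zero q1 n2
    have q3 := mul_ne_zero q2 n3
    have q4 := mul_ne_zero n5 n4
    have q5 := div_ne_zero q3 q4
    have q6 := div_ne_zero q5 n8
    have q7 : (-8 * (T : ℚ)) ≠ 0 := mul_ne_zero (by norm_num) n6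
    rw [hc0, padicValRat.div q6 q7, padicValRat.div q5 n8, padicValRat.div q3 q4,
      padicValRat.mul q2 n3, padicValRat.mul q1 n2, padicValRat.mul n7 n1,
      padicValRat.mul n5 n4, padicValRat.mul (by norm_num) n6, padicValRat.pow,
      padicValRat.pow, v8, v2', padicValRat.of_nat, padicValRat.of_nat,
      padicValRat.of_nat, padicValRat.of_nat, padicValRat.of_nat, padicValRat.of_nat, v1, v2, v3,
      clo_val_odd hO, clo_val_odd (m := T) (by omega)]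
    have hH' : (P.H : ℤ) = 4 * P.s0 + 2 * P.l - 1 := by omega
    have v4' : (padicValNat 2 P.s0.factorial : ℤ) = (2 : ℤ) ^ P.E - 1 := by
      have h9 := congrArg (fun a : ℕ => (a : ℤ)) v4
      simp only [Nat.cast_add, Nat.cast_one, Nat.cast_pow, Nat.cast_ofNat] at h9
      linarith
    have hs0' : (P.s0 : ℤ) = 1 + 2 ^ P.E := by
      rw [hs0]
      push_cast
      ring
    have hwh' : (w' : ℤ) = 2 * P.l + 3 - P.h := by omega
    rw [v4', hH', hs0', hwh']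
    push_cast
    ring


private theorem norm_ratCast (q : ℚ) : ‖(q : PadicAlgCl 2)‖ = (padicNorm 2 q : ℝ) := by
  have h1 : ((q : ℚ_[2]) : PadicAlgCl 2) = (q : PadicAlgCl 2) := by
    exact map_ratCast (algebraMap ℚ_[2] (PadicAlgCl 2)) q
  rw [← h1, PadicAlgCl.norm_extends, Padic.eq_padicNorm]

private theorem norm_two : ‖(2 : PadicAlgCl 2)‖ = 1 / 2 := by
  have h1 := norm_ratCast 2
  have h2 : padicNorm 2 (2 : ℚ) = 1 / 2 := by
    have := padicNorm.padicNorm_p (p := 2) (by norm_num)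
    simpa using this
  rw [h2] at h1
  simpa using h1

/-- two-sided ultrametric inequality -/
private theorem lt_one_trans {a b c : PadicAlgCl 2} (h1 : ‖a - b‖ < 1) (h2 : ‖b - c‖ < 1) :
    ‖a - c‖ < 1 := by
  have h3 : a - c = (a - b) + (b - c) := by ring
  rw [h3]
  exact (IsUltrametricDist.norm_add_le_max _ _).trans_lt (max_lt h1 h2)

private theorem norm_one_of {a b : PadicAlgCl 2} (h1 : ‖a - b‖ < 1) (h2 : ‖b‖ = 1) : ‖a‖ = 1 := by
  have h3 : a = (a - b) + b := by ring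
  have h4 : ‖a - b‖ ≠ ‖b‖ := by
    rw [h2]
    exact h1.ne
  rw [h3, IsUltrametricDist.norm_add_eq_max_of_norm_ne_norm h4, h2]
  exact max_eq_right h1.le

/-- `c0 2^h` is congruent to one -/
private theorem c0_cong (P : Par) : ‖(P.c0 : PadicAlgCl 2) * 2 ^ P.h - 1‖ < 1 := by
  obtain ⟨h0, hv⟩ := c0_val P
  -- a rational of valuation zero is a quotient of odd numbers
  set q : ℚ := P.c0 * 2 ^ P.h with hq
  have hq0 : q ≠ 0 := mul_ne_zero h0 (pow_ne_zero _ (by norm_num))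
  have hqv : padicValRat 2 q = 0 := by
    have v2' : padicValRat 2 (2 : ℚ) = 1 := by
      have := padicValRat.self (p := 2) (by norm_num)
      exact_mod_cast this
    rw [hq, padicValRat.mul h0 (pow_ne_zero _ (by norm_num)), hv, padicValRat.pow, v2']
    ring
  have hqn : ‖((q : ℚ_[2]))‖ = 1 := by
    rw [Padic.eq_padicNorm, padicNorm.eq_zpow_of_nonzero hq0, hqv]
    norm_num
  have hcast : (P.c0 : PadicAlgCl 2) * 2 ^ P.h - 1 = (((q - 1 : ℚ)) : PadicAlgCl 2) := by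
    rw [hq]
    push_cast
    ring
  rw [hcast, norm_ratCast, ← Padic.eq_padicNorm]
  let Q : ℤ_[2] := ⟨(q : ℚ_[2]), hqn.le⟩
  have h3 : ((q - 1 : ℚ) : ℚ_[2]) = ((Q - 1 : ℤ_[2]) : ℚ_[2]) := by
    push_cast
    rfl
  rw [h3, PadicInt.padic_norm_e_of_padicInt]
  rw [← PadicInt.mem_nonunits]
  have hu : IsUnit Q := PadicInt.isUnit_iff.2 hqn
  have hmax : Q - 1 ∈ RingHom.ker (PadicInt.toZMod (p := 2)) := by
    rw [RingHom.mem_ker, map_sub, map_one]
    have h4 : IsUnit (PadicInt.toZMod (p := 2) Q) := hu.map _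
    have h5 : ∀ a : ZMod 2, IsUnit a → a = 1 := by decide
    rw [h5 _ h4, sub_self]
  rw [PadicInt.ker_toZMod] at hmax
  exact hmax

/-- Step: `n, h, u` given with `u / 2^h` near `z`; `P = ⟨n, h, 16 n^2 + 1000, ..⟩`, `c0 · 2^h ≡ 1`, `ζ0 = c0 u`, `x0` with `x0 - 1/x0 = ζ0` near `x`
(`near_preimage`); `G(X) = det (UM P.N - 2^H X)`, `Ψ(ζ) = det (c0 UM n - ζ)` (leading coefficient `±1`), `core`, `far_point` at `ζ0`,
`near_preimage` again, `root_near`.  The new triple is `(P.N, P.H, 2^H r)`. -/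
theorem closure {x z : PadicAlgCl 2} (hz : Rch z) (hzn : ‖z‖ = 1) (hx : ‖x‖ = 1)
    (h : ‖x + x⁻¹ - z‖ < 1) : Rcn x := by
  obtain ⟨n, h', u, hgood, hu, hun, huz⟩ := hz
  obtain ⟨hn, hn3, hh1, hh2⟩ := hgood
  set P : Par := ⟨n, h', 16 * n ^ 2 + 1000, hn, hn3, hh1, hh2, le_rfl⟩ with hP
  have h2 := norm_two
  have hg := good_next P
  have hc := c0_cong P
  have hPh : P.h = h' := rfl
  have hPn : P.n = n := rfl
  rw [hPh] at hc
  set c : PadicAlgCl 2 := (P.c0 : PadicAlgCl 2) with hcd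
  have h2ne : (2 : PadicAlgCl 2) ≠ 0 := by norm_num
  have hc0 : c ≠ 0 := by
    have := (c0_val P).1
    rw [hcd]
    exact_mod_cast this
  -- `ζ0`
  have hunit : ‖u / 2 ^ h'‖ = 1 := norm_one_of huz hzn
  set ζ0 : PadicAlgCl 2 := c * u with hζ0
  have hζ1 : ‖ζ0 - u / 2 ^ h'‖ < 1 := by
    have e : ζ0 - u / 2 ^ h' = (c * 2 ^ h' - 1) * (u / 2 ^ h') := by
      rw [hζ0]
      field_simp
    rw [e, norm_mul, hunit, mul_one]
    exact hc
  have hζz : ‖ζ0 - z‖ < 1 := lt_one_trans hζ1 huz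
  have hxx : ‖(x - x⁻¹) - (x + x⁻¹)‖ < 1 := by
    have e : (x - x⁻¹) - (x + x⁻¹) = -(2 * x⁻¹) := by ring
    rw [e, norm_neg, norm_mul, norm_inv, hx, h2]
    norm_num
  have hxz : ‖x - x⁻¹ - z‖ < 1 := lt_one_trans hxx h
  have hzζ : ‖z - ζ0‖ < 1 := by rwa [norm_sub_rev]
  obtain ⟨x0, hx0, hx0e, hx0x⟩ := near_preimage x ζ0 hx (lt_one_trans hxz hzζ)
  -- the polynomial `Ψ`
  set Ψ : Polynomial (PadicAlgCl 2) :=
    Polynomial.C ((-1) ^ Fintype.card (Fin (n - 1))) * (c • UM (PadicAlgCl 2) n).charpoly with hΨ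
  have hΨe : ∀ ζ, Ψ.eval ζ = (c • UM (PadicAlgCl 2) n - ζ • (1 : Matrix _ _ (PadicAlgCl 2))).det := by
    intro ζ
    rw [hΨ, Polynomial.eval_mul, Polynomial.eval_C, Matrix.eval_charpoly, ← Matrix.det_neg,
      neg_sub, Matrix.smul_one_eq_diagonal]
    rfl
  have hΨl : ‖Ψ.leadingCoeff‖ = 1 := by
    rw [hΨ, Polynomial.leadingCoeff_mul, Polynomial.leadingCoeff_C,
      (Matrix.charpoly_monic _).leadingCoeff, mul_one, norm_pow, norm_neg, norm_one, one_pow]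
  have hΨ0 : Ψ.eval ζ0 = 0 := by
    rw [hΨe, hζ0]
    have e : c • UM (PadicAlgCl 2) n - (c * u) • (1 : Matrix _ _ (PadicAlgCl 2)) =
        c • (UM (PadicAlgCl 2) n - u • (1 : Matrix _ _ (PadicAlgCl 2))) := by
      rw [smul_sub, smul_smul]
    have hu' : (UM (PadicAlgCl 2) n - u • (1 : Matrix _ _ (PadicAlgCl 2))).det = 0 := hu
    rw [e, Matrix.det_smul, hu', mul_zero]
  obtain ⟨z1, hz1, hz1b⟩ := far_point h2 Ψ hΨl ζ0
  have hζz1 : ‖ζ0 - z1‖ < 1 := by rwa [norm_sub_rev]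
  obtain ⟨x1, hx1, hx1e, hx1x⟩ :=
    near_preimage x z1 hx (lt_one_trans (lt_one_trans hxz hzζ) hζz1)
  -- the polynomial `G`
  obtain ⟨C0, hC0, hcore⟩ := core (K := PadicAlgCl 2) P h2
  set G : Polynomial (PadicAlgCl 2) :=
    Polynomial.C ((-1) ^ Fintype.card (Fin (P.N - 1))) *
      (UM (PadicAlgCl 2) P.N).charpoly.comp (Polynomial.C (2 ^ P.H) * Polynomial.X) with hG
  have hGe : ∀ y, G.eval y =
      (UM (PadicAlgCl 2) P.N - ((2 : PadicAlgCl 2) ^ P.H * y) •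
        (1 : Matrix _ _ (PadicAlgCl 2))).det := by
    intro y
    rw [hG, Polynomial.eval_mul, Polynomial.eval_C, Polynomial.eval_comp, Polynomial.eval_mul,
      Polynomial.eval_C, Polynomial.eval_X, Matrix.eval_charpoly, ← Matrix.det_neg,
      neg_sub, Matrix.smul_one_eq_diagonal]
    rfl
  have hζn : ‖ζ0‖ = 1 := norm_one_of hζz hzn
  have hz1n : ‖z1‖ = 1 := norm_one_of hz1 hζn
  have hG0 : ‖G.eval x0‖ ≤ C0 * (1 / 2) := by
    obtain ⟨κ, e, he1, he2, he3⟩ := hcore x0 hx0 (by rw [hx0e]; exact hζn)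
    rw [hGe, he1, hx0e]
    have h5 : ((P.c0 : PadicAlgCl 2) • UM (PadicAlgCl 2) P.n - ζ0 •
        (1 : Matrix _ _ (PadicAlgCl 2))).det = 0 := by
      rw [← hΨe ζ0]
      exact hΨ0
    rw [h5, zero_add, norm_mul, he2]
    exact mul_le_mul_of_nonneg_left he3 hC0.le
  have hG1 : C0 * (1 / 2) < ‖G.eval x1‖ := by
    obtain ⟨κ, e, he1, he2, he3⟩ := hcore x1 hx1 (by rw [hx1e]; exact hz1n)
    rw [hGe, he1, hx1e]
    have h5 : ((P.c0 : PadicAlgCl 2) • UM (PadicAlgCl 2) P.n - z1 •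
        (1 : Matrix _ _ (PadicAlgCl 2))).det = Ψ.eval z1 := (hΨe z1).symm
    have hne : ‖Ψ.eval z1‖ ≠ ‖e‖ := (he3.trans_lt hz1b).ne'
    rw [h5, norm_mul, he2, IsUltrametricDist.norm_add_eq_max_of_norm_ne_norm hne]
    exact mul_lt_mul_of_pos_left (lt_max_of_lt_left hz1b) hC0
  have hx10 : ‖x1 - x0‖ < 1 := lt_one_trans hx1x (by rwa [norm_sub_rev])
  obtain ⟨r, hr0, hrx⟩ := root_near G x0 x1 hx10 (hG0.trans_lt hG1)
  have hrn : ‖r‖ = 1 := norm_one_of hrx hx0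
  refine ⟨P.N, P.H, 2 ^ P.H * r, hg.1, hg.2, ?_, ?_, ?_⟩
  · show (UM (PadicAlgCl 2) P.N - ((2 : PadicAlgCl 2) ^ P.H * r) •
        (1 : Matrix _ _ (PadicAlgCl 2))).det = 0
    rw [← hGe]
    exact hr0
  · rw [norm_mul, hrn, mul_one, norm_pow, h2, one_div, inv_pow, zpow_neg, zpow_natCast]
  · have e : (2 : PadicAlgCl 2) ^ P.H * r / 2 ^ P.H = r := by
      field_simp
    rw [e]
    exact lt_one_trans hrx hx0x

end Pool.Agent.BZ
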