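import Pool.Agent.Lib.MP_06b9d2_bz.Val
import Pool.Agent.Lib.MP_06b9d2_bz.Dig
import Pool.Agent.Lib.MP_06b9d2_bz.Lip
import Pool.Agent.Lib.MP_06b9d2_bz.ParA
/-! # BZ.Cls: `rr`, `ll` at `N = N0 + 2^w` and at `N0` are close
`ch_lip'` (`e = w`) for the numerators and denominators, `Ge.div_sub`; the denominators `C(N-2s+k,k)`, `C(N0-2s+k,k)` have valuation `≤ log (N0-2s+k)
≤ E + 2`; the odd products differ by multiples of `2^w`. (Numerically the loss is about `E + 4`.) -/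
set_option autoImplicit false
open Finset
namespace Pool.Agent.BZ
private theorem cls_ch {a : ℚ} (x : ℤ) (k : ℕ) (h : a = x) : Ge 0 (ch a k) := by
  rw [h]; exact Ge_ch x k

private theorem cls_four (k : ℕ) : Ge (2 * (k : ℤ)) ((4 : ℚ) ^ k) := by
  have h4 : (4 : ℚ) ^ k = 2 ^ (2 * k) := by rw [pow_mul]; norm_num
  rw [h4]
  have h1 := Ge.pow2 (2 * k)
  push_cast at h1
  exact h1

private theorem cls_four' (k : ℕ) : Ge (2 * (k : ℤ)) ((-4 : ℚ) ^ k) := by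
  have h4 : (-4 : ℚ) ^ k = 4 ^ k * (((-1) ^ k : ℤ) : ℚ) := by
    push_cast
    rw [← mul_pow]
    norm_num
  rw [h4]
  have h1 := (cls_four k).mul (Ge.int ((-1) ^ k))
  rwa [add_zero] at h1

private theorem cls_od (k : ℕ) : Ge 0 (od k) := Ge.of_val (by rw [(od_val k).2])

/-- products of integers which are congruent modulo `2 ^ w` -/
private theorem cls_prod (w : ℕ) (f g : ℕ → ℤ) (h : ∀ i, (2 ^ w : ℤ) ∣ f i - g i) (k : ℕ) :
    (2 ^ w : ℤ) ∣ ∏ i ∈ range k, f i - ∏ i ∈ range k, g i := by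
  induction k with
  | zero => simp
  | succ k ih =>
    rw [prod_range_succ, prod_range_succ]
    have h1 : (∏ i ∈ range k, f i) * f k - (∏ i ∈ range k, g i) * g k =
        (∏ i ∈ range k, f i - ∏ i ∈ range k, g i) * f k + (∏ i ∈ range k, g i) * (f k - g k) := by
      ring
    rw [h1]
    exact dvd_add (Dvd.dvd.mul_right ih _) (Dvd.dvd.mul_left (h k) _)

private theorem cls_ge_dvd {w : ℕ} {z : ℤ} (h : (2 ^ w : ℤ) ∣ z) : Ge (w : ℤ) (z : ℚ) := by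
  obtain ⟨c, hc⟩ := h
  rw [hc]
  push_cast
  have h1 := (Ge.pow2 w).mul (Ge.int c)
  rwa [add_zero] at h1

/-- same valuation for close numbers -/
private theorem cls_val {a a' : ℚ} {β e : ℤ} (h : Ge e (a - a')) (ha' : a' ≠ 0)
    (hv : padicValRat 2 a' ≤ β) (he : β + 1 ≤ e) : padicValRat 2 a ≤ β := by
  by_contra hc
  push Not at hc
  have h1 : Ge (β + 1) a := Or.inr (by omega)
  have h2 : Ge (β + 1) a' := by
    have h3 := h1.sub (h.mono he)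
    have h4 : a - (a - a') = a' := by ring
    rwa [h4] at h3
  have := h2.le_val ha'
  omega

/-- the bounds for the denominators -/
private theorem cls_beta (P : Par) (s t : ℕ) (ht : 1 ≤ t) (hts : t ≤ s) (hs : s ≤ P.m) :
    ∃ β : ℤ, (ch ((P.N0 : ℚ) - 2 * s + ((s - t : ℕ) : ℚ)) (s - t) ≠ 0 ∧
        padicValRat 2 (ch ((P.N0 : ℚ) - 2 * s + ((s - t : ℕ) : ℚ)) (s - t)) ≤ β) ∧
      (ch ((P.N : ℚ) - 2 * s + ((s - t : ℕ) : ℚ)) (s - t) ≠ 0 ∧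
        padicValRat 2 (ch ((P.N : ℚ) - 2 * s + ((s - t : ℕ) : ℚ)) (s - t)) ≤ β) ∧
      Ge ((P.w : ℤ) - Nat.log 2 (s - t)) (ch ((P.N : ℚ) - 2 * s + ((s - t : ℕ) : ℚ)) (s - t) -
        ch ((P.N0 : ℚ) - 2 * s + ((s - t : ℕ) : ℚ)) (s - t)) ∧
      (Nat.log 2 (s - t) : ℤ) + 2 * β ≤ 3 * P.E ∧ 0 ≤ β ∧ β ≤ P.E + 1 ∧
      (Nat.log 2 (s - t) : ℤ) ≤ P.E := by
  obtain ⟨k, hk⟩ : ∃ k, k = s - t := ⟨_, rfl⟩
  rw [← hk]
  have hm := P.two_m
  have hN0 : P.N0 = 2 * P.s0 + P.l := rfl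
  have hs0 : P.s0 = 1 + 2 ^ P.E := rfl
  have hE : P.E = 100 * P.L := rfl
  have hL := P.hL
  have hlt := P.N0_lt
  have hb2 := P.big2
  have hl := P.l_gt
  have hl1 : 1 ≤ P.l := by
    have : 0 < 2 ^ P.L := by positivity
    omega
  have hp1 : 2 ^ (P.E + 1) = 2 * 2 ^ P.E := by rw [pow_succ]; ring
  have hp2 : 2 ^ (P.E + 2) = 4 * 2 ^ P.E := by rw [pow_succ, pow_succ]; ring
  have hlogk : Nat.log 2 k ≤ P.E := by
    apply log_lt_of
    omega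
  have hw : 2 * P.E + 4 ≤ P.w := by
    have h1 := P.w_gt
    have h2 := P.big1
    have h3 := P.big1'
    omega
  obtain ⟨n0, hn0⟩ : ∃ n0, n0 = P.N0 - 2 * s + k := ⟨_, rfl⟩
  have hq0 : (P.N0 : ℚ) - 2 * s + (k : ℚ) = (n0 : ℚ) := by
    rw [hn0, Nat.cast_add, Nat.cast_sub (by omega)]
    push_cast
    ring
  have hq1 : (P.N : ℚ) - 2 * s + (k : ℚ) = ((P.N - 2 * s + k : ℕ) : ℚ) := by
    have hNN : P.N = P.N0 + 2 ^ P.w := rfl
    have hpw : 0 < 2 ^ P.w := by positivity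
    rw [Nat.cast_add, Nat.cast_sub (by omega)]
    push_cast
    ring
  have hdiff : Ge ((P.w : ℤ) - Nat.log 2 k) (ch ((P.N : ℚ) - 2 * s + (k : ℚ)) k -
        ch ((P.N0 : ℚ) - 2 * s + (k : ℚ)) k) := by
    refine ch_lip' (x := (P.N : ℤ) - 2 * s + k) (y := (P.N0 : ℤ) - 2 * s + k) k
      (by push_cast; ring) (by push_cast; ring) ?_
    have hNN : (P.N : ℤ) = P.N0 + 2 ^ P.w := by
      have : P.N = P.N0 + 2 ^ P.w := rfl
      rw [this]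
      push_cast
      ring
    rw [hNN]
    exact ⟨1, by ring⟩
  have hne0 : ch ((P.N0 : ℚ) - 2 * s + (k : ℚ)) k ≠ 0 := (val_ch hq0 (by omega)).1
  have hne1 : ch ((P.N : ℚ) - 2 * s + (k : ℚ)) k ≠ 0 := (val_ch hq1 (by omega)).1
  have hv0 : padicValRat 2 (ch ((P.N0 : ℚ) - 2 * s + (k : ℚ)) k) ≤ Nat.log 2 n0 :=
    val_ch_le hq0 (by omega)
  obtain ⟨β, hβ0, hβ1, hβ2, hβ3⟩ : ∃ β : ℤ, (Nat.log 2 n0 : ℤ) ≤ β ∧
      (Nat.log 2 k : ℤ) + 2 * β ≤ 3 * P.E ∧ 0 ≤ β ∧ β ≤ P.E + 1 := by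
    by_cases hc : n0 < 2 ^ (P.E + 1)
    · refine ⟨P.E, ?_, by omega, by omega, by omega⟩
      exact_mod_cast log_lt_of hc
    · have h1 : Nat.log 2 n0 ≤ P.E + 1 := by
        apply log_lt_of
        have : n0 < 2 ^ (P.E + 2) := by omega
        exact this
      have h2 : Nat.log 2 k ≤ P.E - 2 := by
        apply log_lt_of
        have h3 : P.E - 2 + 1 = P.E - 1 := by omega
        rw [h3]
        have h4 : 2 ^ P.E = 2 * 2 ^ (P.E - 1) := by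
          have h5 : P.E = (P.E - 1) + 1 := by omega
          conv_lhs => rw [h5]
          rw [pow_succ]
          ring
        omega
      exact ⟨(P.E : ℤ) + 1, by exact_mod_cast h1, by omega, by omega, by omega⟩
  refine ⟨β, ⟨hne0, hv0.trans hβ0⟩, ⟨hne1, ?_⟩, hdiff, hβ1, hβ2, hβ3, by exact_mod_cast hlogk⟩
  exact cls_val hdiff hne0 (hv0.trans hβ0) (by omega)

theorem rr_close (P : Par) (s t : ℕ) (ht : 1 ≤ t) (hts : t ≤ s) (hs : s ≤ P.m) :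
    Ge (2 * ((s : ℤ) - t) + P.w - 3 * P.E) (rr P.N t s - rr P.N0 t s) := by
  obtain ⟨β, ⟨n1, v1⟩, ⟨n2, v2⟩, hdf, b1, b2, b3, b4⟩ := cls_beta P s t ht hts hs
  obtain ⟨k, hk⟩ : ∃ k, k = s - t := ⟨_, rfl⟩
  have hkz : (k : ℤ) = (s : ℤ) - t := by omega
  have e : ∀ x : ℚ, rr x t s = (4 ^ k * od k * ch ((s : ℚ) + k - 1) (2 * k) *
      ch (2 * x - 3 * s + k - 1) k) /
      (ch (x - 2 * s + k) k * ∏ i ∈ range k, (2 * x - 2 * s + 1 + 2 * (i : ℚ))) := by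
    intro x
    unfold rr rq
    rw [if_pos hts, ← hk]
  rw [← hk] at n1 v1 n2 v2 hdf b1 b4
  have hNN : (P.N : ℤ) = P.N0 + 2 ^ P.w := by
    have : P.N = P.N0 + 2 ^ P.w := rfl
    rw [this]
    push_cast
    ring
  have hod : ∀ M : ℕ, (∏ i ∈ range k, (2 * (M : ℚ) - 2 * s + 1 + 2 * (i : ℚ))) =
      ∏ i ∈ range k, (((2 * (M : ℤ) - 2 * s + 1 + 2 * (i : ℤ) : ℤ)) : ℚ) := by
    intro M
    refine Finset.prod_congr rfl fun i _ => ?_
    push_cast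
    ring
  have hoddv : ∀ M : ℕ, (∏ i ∈ range k, (2 * (M : ℚ) - 2 * s + 1 + 2 * (i : ℚ))) ≠ 0 ∧
      padicValRat 2 (∏ i ∈ range k, (2 * (M : ℚ) - 2 * s + 1 + 2 * (i : ℚ))) = 0 := by
    intro M
    rw [hod M]
    exact val_prod_odd _ _ fun i _ => ⟨(M : ℤ) - s + i, by ring⟩
  have hpd : Ge (P.w : ℤ) ((∏ i ∈ range k, (2 * (P.N : ℚ) - 2 * s + 1 + 2 * (i : ℚ))) -
      ∏ i ∈ range k, (2 * (P.N0 : ℚ) - 2 * s + 1 + 2 * (i : ℚ))) := by
    rw [hod, hod, ← Int.cast_prod, ← Int.cast_prod, ← Int.cast_sub]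
    refine cls_ge_dvd (cls_prod _ _ _ (fun i => ?_) k)
    rw [hNN]
    exact ⟨2, by ring⟩
  have hA : Ge (2 * (k : ℤ)) (4 ^ k * od k * ch ((s : ℚ) + k - 1) (2 * k)) := by
    have h1 := ((cls_four k).mul (cls_od k)).mul (cls_ch (a := (s : ℚ) + k - 1) ((s : ℤ) + k - 1) (2 * k)
      (by push_cast; ring))
    rwa [add_zero, add_zero] at h1
  have hX : Ge ((P.w : ℤ) - Nat.log 2 k) (ch (2 * (P.N : ℚ) - 3 * s + k - 1) k -
      ch (2 * (P.N0 : ℚ) - 3 * s + k - 1) k) := by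
    refine ch_lip' (x := 2 * (P.N : ℤ) - 3 * s + k - 1) (y := 2 * (P.N0 : ℤ) - 3 * s + k - 1) k
      (by push_cast; ring) (by push_cast; ring) ?_
    rw [hNN]
    exact ⟨2, by ring⟩
  rw [e, e]
  refine (Ge.div_sub (p := 2 * (k : ℤ) + ((P.w : ℤ) - Nat.log 2 k)) (q := 2 * (k : ℤ))
    (r := (P.w : ℤ) - Nat.log 2 k) (β := β) (β' := β)
    (mul_ne_zero n2 (hoddv P.N).1) (mul_ne_zero n1 (hoddv P.N0).1) ?_ ?_ ?_ ?_ ?_).mono ?_
  · rw [padicValRat.mul n2 (hoddv P.N).1, (hoddv P.N).2, add_zero]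
    exact v2
  · rw [padicValRat.mul n1 (hoddv P.N0).1, (hoddv P.N0).2, add_zero]
    exact v1
  · rw [← mul_sub]
    exact hA.mul hX
  · have h1 := hA.mul (cls_ch (a := 2 * (P.N0 : ℚ) - 3 * s + k - 1) (2 * (P.N0 : ℤ) - 3 * s + k - 1) k
      (by push_cast; ring))
    rwa [add_zero] at h1
  · have h1 : ch ((P.N : ℚ) - 2 * s + k) k * (∏ i ∈ range k, (2 * (P.N : ℚ) - 2 * s + 1 + 2 * (i : ℚ))) -
        ch ((P.N0 : ℚ) - 2 * s + k) k * (∏ i ∈ range k, (2 * (P.N0 : ℚ) - 2 * s + 1 + 2 * (i : ℚ))) =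
        (ch ((P.N : ℚ) - 2 * s + k) k - ch ((P.N0 : ℚ) - 2 * s + k) k) *
          (∏ i ∈ range k, (2 * (P.N : ℚ) - 2 * s + 1 + 2 * (i : ℚ))) +
        ch ((P.N0 : ℚ) - 2 * s + k) k * ((∏ i ∈ range k, (2 * (P.N : ℚ) - 2 * s + 1 + 2 * (i : ℚ))) -
          ∏ i ∈ range k, (2 * (P.N0 : ℚ) - 2 * s + 1 + 2 * (i : ℚ))) := by ring
    rw [h1]
    have h2 := hdf.mul (Ge.of_val (by rw [(hoddv P.N).2] : (0 : ℤ) ≤
      padicValRat 2 (∏ i ∈ range k, (2 * (P.N : ℚ) - 2 * s + 1 + 2 * (i : ℚ)))))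
    have h3 := (cls_ch (a := (P.N0 : ℚ) - 2 * s + k) ((P.N0 : ℤ) - 2 * s + k) k
      (by push_cast; ring)).mul hpd
    rw [add_zero] at h2
    rw [zero_add] at h3
    exact h2.add (h3.mono (by omega))
  · rw [le_min_iff]
    constructor <;> omega
theorem ll_close (P : Par) (s t : ℕ) (ht : 1 ≤ t) (hts : t ≤ s) (hs : s ≤ P.m) :
    Ge (2 * ((s : ℤ) - t) + P.w - 3 * P.E) (ll P.N s t - ll P.N0 s t) := by
  obtain ⟨β, ⟨n1, v1⟩, ⟨n2, v2⟩, hdf, b1, b2, b3, b4⟩ := cls_beta P s t ht hts hs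
  obtain ⟨k, hk⟩ : ∃ k, k = s - t := ⟨_, rfl⟩
  have hkz : (k : ℤ) = (s : ℤ) - t := by omega
  have hE1 : 1 ≤ P.E := by
    have h1 : P.E = 100 * P.L := rfl
    have h2 := P.hL
    omega
  have hk0 : ∀ y : ℚ, (if k = 0 then (0 : ℚ) else y) = y * (if k = 0 then 0 else 1) := by
    intro y
    split_ifs <;> simp
  have e : ∀ x : ℚ, ll x s t = ((-4) ^ k * od k * (ch (x - s + k) (2 * k) *
      (ch (3 * s - 1 - x) k - 2 * (ch (3 * s - 1 - x) (k - 1) * (if k = 0 then 0 else 1))))) /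
      (((-1) ^ k * ch (x - 2 * s + k) k) * ∏ i ∈ range k, (2 * (s : ℚ) - 1 - 2 * (i : ℚ))) := by
    intro x
    unfold ll Rq
    rw [if_pos hts, ← hk, hk0]
    have h1 : 2 * x - 3 * (x - s) - 1 = 3 * s - 1 - x := by ring
    have h2 : x - 2 * (x - s) - 1 = -(x - 2 * s + 1) := by ring
    have h3 : x - 2 * s + 1 + (k : ℚ) - 1 = x - 2 * s + k := by ring
    have h4 : ∏ i ∈ range k, (2 * x - 2 * (x - s) - 1 - 2 * (i : ℚ)) =
        ∏ i ∈ range k, (2 * (s : ℚ) - 1 - 2 * (i : ℚ)) :=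
      Finset.prod_congr rfl fun i _ => by ring
    rw [h1, h2, ch_neg, h3, h4]
    congr 1
    ring
  rw [← hk] at n1 v1 n2 v2 hdf b1 b4
  have hNN : (P.N : ℤ) = P.N0 + 2 ^ P.w := by
    have : P.N = P.N0 + 2 ^ P.w := rfl
    rw [this]
    push_cast
    ring
  have hoddv : (∏ i ∈ range k, (2 * (s : ℚ) - 1 - 2 * (i : ℚ))) ≠ 0 ∧
      padicValRat 2 (∏ i ∈ range k, (2 * (s : ℚ) - 1 - 2 * (i : ℚ))) = 0 := by
    have h1 : (∏ i ∈ range k, (2 * (s : ℚ) - 1 - 2 * (i : ℚ))) =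
        ∏ i ∈ range k, (((2 * (s : ℤ) - 1 - 2 * (i : ℤ) : ℤ)) : ℚ) := by
      refine Finset.prod_congr rfl fun i _ => ?_
      push_cast
      ring
    rw [h1]
    exact val_prod_odd _ _ fun i _ => ⟨(s : ℤ) - 1 - i, by ring⟩
  have hsgn : ((-1 : ℚ) ^ k) ≠ 0 ∧ padicValRat 2 ((-1 : ℚ) ^ k) = 0 := by
    have h1 := val_odd (z := (-1) ^ k) (Odd.pow (by decide))
    push_cast at h1
    exact h1
  have hA : Ge (2 * (k : ℤ)) ((-4) ^ k * od k) := by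
    have h1 := (cls_four' k).mul (cls_od k)
    rwa [add_zero] at h1
  have hlog2 : (Nat.log 2 (2 * k) : ℤ) ≤ Nat.log 2 k + 1 := by
    rcases Nat.eq_zero_or_pos k with h0 | h0
    · rw [h0]
      simp
    · have h1 := Nat.log_mul_base (b := 2) (n := k) (by norm_num) (by omega)
      rw [mul_comm, h1]
      push_cast
      exact le_refl _
  have hlog1 : (Nat.log 2 (k - 1) : ℤ) ≤ Nat.log 2 k := by
    exact_mod_cast log_mono (Nat.sub_le k 1)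
  have hY : Ge ((P.w : ℤ) - Nat.log 2 k - 1) (ch ((P.N : ℚ) - s + k) (2 * k) -
      ch ((P.N0 : ℚ) - s + k) (2 * k)) := by
    refine (ch_lip' (x := (P.N : ℤ) - s + k) (y := (P.N0 : ℤ) - s + k) (e := P.w) (2 * k)
      (by push_cast; ring) (by push_cast; ring) ?_).mono (by omega)
    rw [hNN]
    exact ⟨1, by ring⟩
  have hZ : ∀ j : ℕ, (Nat.log 2 j : ℤ) ≤ Nat.log 2 k → Ge ((P.w : ℤ) - Nat.log 2 k)
      (ch (3 * (s : ℚ) - 1 - P.N) j - ch (3 * (s : ℚ) - 1 - P.N0) j) := by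
    intro j hj
    refine (ch_lip' (x := 3 * (s : ℤ) - 1 - P.N) (y := 3 * (s : ℤ) - 1 - P.N0) (e := P.w) j
      (by push_cast; ring) (by push_cast; ring) ?_).mono (by omega)
    rw [hNN]
    exact ⟨-1, by ring⟩
  have hit : Ge 0 (if k = 0 then (0 : ℚ) else 1) := by
    split_ifs
    · exact Ge.zero 0
    · have := Ge.nat 1
      simpa using this
  have h2i : Ge 0 (2 : ℚ) := by
    have := Ge.nat 2
    simpa using this
  have hZi : ∀ M : ℕ, ∀ j : ℕ, Ge 0 (ch (3 * (s : ℚ) - 1 - M) j) := fun M j =>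
    cls_ch (3 * (s : ℤ) - 1 - M) j (by push_cast; ring)
  have hYi : ∀ M : ℕ, Ge 0 (ch ((M : ℚ) - s + k) (2 * k)) := fun M =>
    cls_ch ((M : ℤ) - s + k) (2 * k) (by push_cast; ring)
  have hZZ : Ge ((P.w : ℤ) - Nat.log 2 k)
      ((ch (3 * (s : ℚ) - 1 - P.N) k - 2 * (ch (3 * (s : ℚ) - 1 - P.N) (k - 1) * (if k = 0 then 0 else 1))) -
      (ch (3 * (s : ℚ) - 1 - P.N0) k -
        2 * (ch (3 * (s : ℚ) - 1 - P.N0) (k - 1) * (if k = 0 then 0 else 1)))) := by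
    have h1 : (ch (3 * (s : ℚ) - 1 - P.N) k -
        2 * (ch (3 * (s : ℚ) - 1 - P.N) (k - 1) * (if k = 0 then 0 else 1))) -
      (ch (3 * (s : ℚ) - 1 - P.N0) k -
        2 * (ch (3 * (s : ℚ) - 1 - P.N0) (k - 1) * (if k = 0 then 0 else 1))) =
      (ch (3 * (s : ℚ) - 1 - P.N) k - ch (3 * (s : ℚ) - 1 - P.N0) k) -
        2 * ((ch (3 * (s : ℚ) - 1 - P.N) (k - 1) - ch (3 * (s : ℚ) - 1 - P.N0) (k - 1)) *
          (if k = 0 then 0 else 1)) := by ring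
    rw [h1]
    have h2 := h2i.mul ((hZ (k - 1) hlog1).mul hit)
    rw [add_zero, zero_add] at h2
    exact (hZ k le_rfl).sub h2
  have hZZi : ∀ M : ℕ, Ge 0 (ch (3 * (s : ℚ) - 1 - M) k -
      2 * (ch (3 * (s : ℚ) - 1 - M) (k - 1) * (if k = 0 then 0 else 1))) := by
    intro M
    have h2 := h2i.mul ((hZi M (k - 1)).mul hit)
    rw [add_zero, zero_add] at h2
    exact (hZi M k).sub h2
  rw [e, e]
  refine (Ge.div_sub (p := 2 * (k : ℤ) + ((P.w : ℤ) - Nat.log 2 k - 1)) (q := 2 * (k : ℤ))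
    (r := (P.w : ℤ) - Nat.log 2 k) (β := β) (β' := β)
    (mul_ne_zero (mul_ne_zero hsgn.1 n2) hoddv.1) (mul_ne_zero (mul_ne_zero hsgn.1 n1) hoddv.1)
    ?_ ?_ ?_ ?_ ?_).mono ?_
  · rw [padicValRat.mul (mul_ne_zero hsgn.1 n2) hoddv.1, padicValRat.mul hsgn.1 n2, hsgn.2, hoddv.2,
      add_zero, zero_add]
    exact v2
  · rw [padicValRat.mul (mul_ne_zero hsgn.1 n1) hoddv.1, padicValRat.mul hsgn.1 n1, hsgn.2, hoddv.2,
      add_zero, zero_add]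
    exact v1
  · rw [← mul_sub]
    refine hA.mul ?_
    have h1 : ∀ a b a' b' : ℚ, a * b - a' * b' = (a - a') * b + a' * (b - b') := by
      intro a b a' b'
      ring
    rw [h1]
    have h2 := hY.mul (hZZi P.N)
    have h3 := (hYi P.N0).mul hZZ
    rw [add_zero] at h2
    rw [zero_add] at h3
    exact h2.add (h3.mono (by omega))
  · have h1 := hA.mul ((hYi P.N0).mul (hZZi P.N0))
    rwa [add_zero, add_zero] at h1
  · have h1 : (-1) ^ k * ch ((P.N : ℚ) - 2 * s + k) k * (∏ i ∈ range k, (2 * (s : ℚ) - 1 - 2 * (i : ℚ))) -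
        (-1) ^ k * ch ((P.N0 : ℚ) - 2 * s + k) k * (∏ i ∈ range k, (2 * (s : ℚ) - 1 - 2 * (i : ℚ))) =
        (ch ((P.N : ℚ) - 2 * s + k) k - ch ((P.N0 : ℚ) - 2 * s + k) k) *
          ((-1) ^ k * (∏ i ∈ range k, (2 * (s : ℚ) - 1 - 2 * (i : ℚ)))) := by ring
    rw [h1]
    have h2 := hdf.mul ((Ge.of_val (by rw [hsgn.2] : (0 : ℤ) ≤ padicValRat 2 ((-1 : ℚ) ^ k))).mul
      (Ge.of_val (by rw [hoddv.2] : (0 : ℤ) ≤
        padicValRat 2 (∏ i ∈ range k, (2 * (s : ℚ) - 1 - 2 * (i : ℚ))))))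
    rw [add_zero, add_zero] at h2
    exact h2
  · rw [le_min_iff]
    constructor <;> omega
end Pool.Agent.BZ
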