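import Pool.Agent.Lib.MP_06b9d2_bz.Defs
import Pool.Agent.Lib.MP_06b9d2_bz.ParA
/-! # BZ.CoA: the transformed matrix over a field, and its determinant
`A1` (lower triangular), `B1` (upper triangular) have 1 on the diagonal on the positions `1..N-1` (`Rq, rq` at index 0 are 1), so determinant 1; the
row operation `row_s ← row_s - x⁻¹ row_{N0-s}` for the high `s` (`N0 - s > m`) is upper unitriangular. -/
set_option autoImplicit false
open Finset
namespace Pool.Agent.BZ
variable {K : Type*} [Field K] [CharZero K]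
/-- `X1 - x X0` -/
noncomputable def MX (P : Par) (x : K) (s q : ℕ) : K := ((P.X1 s q : ℚ) : K) - x * ((P.X0 s q : ℚ) : K)
noncomputable def MM (P : Par) (x : K) (s q : ℕ) : K :=
  if P.s0 ≤ s ∧ s ≤ P.m then MX P x s q - x⁻¹ * MX P x (P.N0 - s) q else MX P x s q

private theorem CoA_Rq0 (N a : ℚ) : Rq N a 0 = 1 := by simp [Rq, od, ch]

private theorem CoA_rq0 (N b : ℚ) : rq N b 0 = 1 := by simp [rq, od, ch]

private theorem CoA_A1_zero (P : Par) (s t : ℕ) (h : s < t) : P.A1 s t = 0 := by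
  unfold Par.A1
  split_ifs with h1 h2 h3
  · rw [ll, if_neg (by omega)]
  · refine Finset.sum_eq_zero fun u hu => ?_
    rw [mem_Icc] at hu
    rw [ll, if_neg (by omega), mul_zero]
  · omega
  · rfl

private theorem CoA_A1_diag (P : Par) (s : ℕ) : P.A1 s s = 1 := by
  unfold Par.A1
  split_ifs with h1 h2
  · rw [ll, if_pos le_rfl, Nat.sub_self, CoA_Rq0]
  · rw [Finset.sum_eq_single s]
    · rw [LL, ll, if_pos le_rfl, if_pos le_rfl, Nat.sub_self, CoA_Rq0, CoA_rq0, mul_one]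
    · intro u hu hus
      rw [mem_Icc] at hu
      rw [ll, if_neg (by omega), mul_zero]
    · intro hs
      exact absurd (mem_Icc.2 ⟨by omega, le_rfl⟩) hs
  · rfl
  · omega

private theorem CoA_B1_zero (P : Par) (t s : ℕ) (h : s < t) : P.B1 t s = 0 := by
  unfold Par.B1
  split_ifs with h1 h2 h3
  · rw [rr, if_neg (by omega)]
  · refine Finset.sum_eq_zero fun u hu => ?_
    rw [mem_Icc] at hu
    rw [rr, if_neg (by omega), zero_mul]
  · omega
  · rfl

private theorem CoA_B1_diag (P : Par) (s : ℕ) : P.B1 s s = 1 := by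
  unfold Par.B1
  split_ifs with h1 h2
  · rw [rr, if_pos le_rfl, Nat.sub_self, CoA_rq0]
  · rw [Finset.sum_eq_single s]
    · rw [RR, rr, if_pos le_rfl, if_pos le_rfl, Nat.sub_self, CoA_Rq0, CoA_rq0, mul_one]
    · intro u hu hus
      rw [mem_Icc] at hu
      rw [rr, if_neg (by omega), zero_mul]
    · intro hs
      exact absurd (mem_Icc.2 ⟨by omega, le_rfl⟩) hs
  · rfl
  · omega

private theorem CoA_sum {M : Type*} [AddCommMonoid M] (D : ℕ) (f : ℕ → M) :
    ∑ t ∈ Icc 1 D, f t = ∑ j : Fin D, f ((j : ℕ) + 1) := by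
  rw [Fin.sum_univ_eq_sum_range (fun j => f (j + 1)) D, range_eq_Ico, Finset.sum_Ico_add' f 0 D 1]
  rfl

theorem det_MM (P : Par) (x : K) : (UM K P.N - ((2 : K) ^ P.H * x) • (1 : Matrix _ _ K)).det =
    2 ^ (P.H * (P.N - 1)) * (Matrix.of fun i j : Fin (P.N - 1) => MM P x (i + 1) (j + 1)).det := by
  set D := P.N - 1 with hD
  let A : Matrix (Fin D) (Fin D) K := Matrix.of fun i j => ((P.A1 (i + 1) (j + 1) : ℚ) : K)
  let B : Matrix (Fin D) (Fin D) K := Matrix.of fun i j => ((P.B1 (i + 1) (j + 1) : ℚ) : K)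
  let V : Matrix (Fin D) (Fin D) K := Matrix.of fun i j => ((U P.N (i + 1) (j + 1) / 2 ^ P.H : ℚ) : K)
  let X : Matrix (Fin D) (Fin D) K := Matrix.of fun i j => MX P x (i + 1) (j + 1)
  have hA : A.det = 1 := by
    rw [Matrix.det_of_isLowerTriangular]
    · refine Finset.prod_eq_one fun i _ => ?_
      show ((P.A1 (i + 1) (i + 1) : ℚ) : K) = 1
      rw [CoA_A1_diag, Rat.cast_one]
    · intro i j hij
      have h1 : (i : ℕ) < j := hij
      show ((P.A1 (i + 1) (j + 1) : ℚ) : K) = 0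
      rw [CoA_A1_zero P _ _ (by omega), Rat.cast_zero]
  have hB : B.det = 1 := by
    rw [Matrix.det_of_isUpperTriangular]
    · refine Finset.prod_eq_one fun i _ => ?_
      show ((P.B1 (i + 1) (i + 1) : ℚ) : K) = 1
      rw [CoA_B1_diag, Rat.cast_one]
    · intro i j hij
      have h1 : (j : ℕ) < i := hij
      show ((P.B1 (i + 1) (j + 1) : ℚ) : K) = 0
      rw [CoA_B1_zero P _ _ (by omega), Rat.cast_zero]
  have hX : X = A * (V - x • (1 : Matrix _ _ K)) * B := by
    have h1 : X = A * V * B - x • (A * B) := by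
      ext i j
      have e0 : ((P.X0 (i + 1) (j + 1) : ℚ) : K) = (A * B) i j := by
        rw [Matrix.mul_apply, Par.X0, CoA_sum, Rat.cast_sum]
        refine Finset.sum_congr rfl fun t _ => ?_
        rw [Rat.cast_mul]
        rfl
      have e1 : ((P.X1 (i + 1) (j + 1) : ℚ) : K) = (A * V * B) i j := by
        rw [Matrix.mul_apply, Par.X1, CoA_sum, Rat.cast_sum]
        have e2 : ∀ t : Fin D, (((∑ u ∈ Icc 1 (P.N - 1),
            P.A1 (i + 1) ((t : ℕ) + 1) * (U P.N ((t : ℕ) + 1) u / 2 ^ P.H) * P.B1 u (j + 1) : ℚ)) : K) =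
            ∑ u : Fin D, A i t * V t u * B u j := by
          intro t
          rw [CoA_sum, Rat.cast_sum]
          refine Finset.sum_congr rfl fun u _ => ?_
          rw [Rat.cast_mul, Rat.cast_mul]
          rfl
        rw [Finset.sum_congr rfl fun t _ => e2 t, Finset.sum_comm]
        refine Finset.sum_congr rfl fun u _ => ?_
        rw [Matrix.mul_apply, Finset.sum_mul]
      show MX P x (i + 1) (j + 1) = (A * V * B) i j - x • (A * B) i j
      rw [MX, e0, e1, smul_eq_mul]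
    rw [h1, mul_sub, sub_mul, mul_smul_comm, mul_one, smul_mul_assoc]
  have hV : UM K P.N - ((2 : K) ^ P.H * x) • (1 : Matrix _ _ K) =
      ((2 : K) ^ P.H) • (V - x • (1 : Matrix _ _ K)) := by
    have h1 : UM K P.N = ((2 : K) ^ P.H) • V := by
      ext i j
      show ((U P.N (i + 1) (j + 1) : ℚ) : K) = (2 : K) ^ P.H * ((U P.N (i + 1) (j + 1) / 2 ^ P.H : ℚ) : K)
      rw [Rat.cast_div, Rat.cast_pow, Rat.cast_ofNat]
      field_simp
    rw [h1, smul_sub, smul_smul]
  -- the row operation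
  let Q : Matrix (Fin D) (Fin D) K := Matrix.of fun i j =>
    (if i = j then 1 else 0) -
      if P.s0 ≤ (i : ℕ) + 1 ∧ (i : ℕ) + 1 ≤ P.m ∧ (j : ℕ) + 1 = P.N0 - ((i : ℕ) + 1) then x⁻¹ else 0
  have h2m := P.two_m
  have hNb := P.N_big
  have hQ : Q.det = 1 := by
    rw [Matrix.det_of_isUpperTriangular]
    · refine Finset.prod_eq_one fun i _ => ?_
      show ((if i = i then (1 : K) else 0) - if P.s0 ≤ (i : ℕ) + 1 ∧ (i : ℕ) + 1 ≤ P.m ∧
        (i : ℕ) + 1 = P.N0 - ((i : ℕ) + 1) then x⁻¹ else 0) = 1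
      rw [if_pos rfl, if_neg (by omega), sub_zero]
    · intro i j hij
      have h1 : (j : ℕ) < i := hij
      show ((if i = j then (1 : K) else 0) - if P.s0 ≤ (i : ℕ) + 1 ∧ (i : ℕ) + 1 ≤ P.m ∧
        (j : ℕ) + 1 = P.N0 - ((i : ℕ) + 1) then x⁻¹ else 0) = 0
      rw [if_neg (by rintro rfl; exact lt_irrefl _ h1), if_neg (by omega), sub_zero]
  have hMM : (Matrix.of fun i j : Fin D => MM P x (i + 1) (j + 1)) = Q * X := by
    ext i j
    rw [Matrix.mul_apply]
    have h1 : ∀ t : Fin D, Q i t * X t j = (if i = t then X t j else 0) -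
        if P.s0 ≤ (i : ℕ) + 1 ∧ (i : ℕ) + 1 ≤ P.m ∧ (t : ℕ) + 1 = P.N0 - ((i : ℕ) + 1) then
          x⁻¹ * X t j else 0 := by
      intro t
      show ((if i = t then (1 : K) else 0) - if P.s0 ≤ (i : ℕ) + 1 ∧ (i : ℕ) + 1 ≤ P.m ∧
        (t : ℕ) + 1 = P.N0 - ((i : ℕ) + 1) then x⁻¹ else 0) * X t j = _
      rw [sub_mul, ite_mul, ite_mul, one_mul, zero_mul]
    rw [Finset.sum_congr rfl fun t _ => h1 t, Finset.sum_sub_distrib, Finset.sum_ite_eq,
      if_pos (mem_univ i)]
    show MM P x (i + 1) (j + 1) = _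
    unfold MM
    by_cases hs : P.s0 ≤ (i : ℕ) + 1 ∧ (i : ℕ) + 1 ≤ P.m
    · rw [if_pos hs]
      have hlt : P.N0 - ((i : ℕ) + 1) - 1 < D := by omega
      rw [Finset.sum_eq_single (⟨P.N0 - ((i : ℕ) + 1) - 1, hlt⟩ : Fin D)]
      · rw [if_pos ⟨hs.1, hs.2, by simp only; omega⟩]
        have e3 : P.N0 - ((i : ℕ) + 1) - 1 + 1 = P.N0 - ((i : ℕ) + 1) := by omega
        show MX P x (i + 1) (j + 1) - x⁻¹ * MX P x (P.N0 - ((i : ℕ) + 1)) (j + 1) =
          MX P x (i + 1) (j + 1) - x⁻¹ * MX P x (P.N0 - ((i : ℕ) + 1) - 1 + 1) (j + 1)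
        rw [e3]
      · intro t _ ht
        rw [if_neg]
        rintro ⟨-, -, h3⟩
        apply ht
        apply Fin.ext
        show (t : ℕ) = P.N0 - ((i : ℕ) + 1) - 1
        omega
      · intro h
        exact absurd (mem_univ _) h
    · rw [if_neg hs, Finset.sum_eq_zero, sub_zero]
      · rfl
      · intro t _
        rw [if_neg]
        rintro ⟨h3, h4, -⟩
        exact hs ⟨h3, h4⟩
  rw [hMM, Matrix.det_mul, hQ, one_mul, hX, Matrix.det_mul, Matrix.det_mul, hA, hB, one_mul, mul_one,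
    hV, Matrix.det_smul, Fintype.card_fin, ← pow_mul]

end Pool.Agent.BZ
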