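import Pool.Agent.Lib.MP_06b9d2_bz.XFa
import Pool.Agent.Lib.MP_06b9d2_bz.BAl
import Pool.Agent.Lib.MP_06b9d2_bz.BRl
import Pool.Agent.Lib.MP_06b9d2_bz.BRh
/-! # BZ.FA: bounds for `X0`, low rows
`i = s0 - s`, `y s = 30 L + 2 i + 3 l [2s ≤ m]`.
F1: `X0_ll`, terms `v = s - k = q - k'`: `ll_lo + rr_lo + Dh_inv`; with `x = i + k = i' + k'` one needs
`h - 13 + 4x - 3 log(2n+3x) - 2 log(n+2x) - 2 log x ≥ 3 l [2s ≤ m]` (`log_add_le`, `log_lin`, `h ≥ 100 + 20 log n`; if `2s ≤ m` then `4x ≥ 4i ≥ 2^E`, `big2`).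
F2: `X0_lh`: `ll_lo + rr_cross + RR_hi + Dh_inv`; `E = 100 L`, `g = L/2`. -/
set_option autoImplicit false
open Finset
namespace Pool.Agent.BZ

private theorem fa_log2 {x : ℕ} (hx : 1 ≤ x) : Nat.log 2 (2 * x) = Nat.log 2 x + 1 := by
  rw [mul_comm, Nat.log_mul_base (by norm_num) (by omega)]

private theorem fa_logs {n x i k : ℕ} (hn : 1 ≤ n) (hx : 1 ≤ x) (hi : i ≤ x) (hk : k ≤ x) :
    Nat.log 2 k ≤ Nat.log 2 x ∧ Nat.log 2 (n + 2 * i) ≤ Nat.log 2 n + Nat.log 2 x + 2 ∧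
    Nat.log 2 (2 * n + 3 * i) ≤ Nat.log 2 n + Nat.log 2 x + 4 := by
  refine ⟨log_mono hk, ?_, ?_⟩
  · have h1 : Nat.log 2 (n + 2 * i) ≤ Nat.log 2 (n + 2 * x) := log_mono (by omega)
    have h2 := log_add_le n (2 * x) hn
    rw [fa_log2 hx] at h2
    omega
  · have h1 : Nat.log 2 (2 * n + 3 * i) ≤ Nat.log 2 (2 * n + 2 * (2 * x)) := log_mono (by omega)
    have h2 := log_add_le (2 * n) (2 * (2 * x)) (by omega)
    rw [fa_log2 hn, fa_log2 (by omega : 1 ≤ 2 * x), fa_log2 hx] at h2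
    omega

private theorem fa_big (P : Par) {s : ℕ} (h : 2 * s ≤ P.m) : 400 * P.l ≤ P.s0 - s := by
  have h1 := P.big2
  have h2 := P.m_eq
  have h3 : P.s0 = 1 + 2 ^ P.E := rfl
  omega

theorem F1 (P : Par) (s q : ℕ) (hs : 1 ≤ s) (hs' : s < P.s0) (hq : 1 ≤ q) (hq' : q < P.s0) :
    Ge (1 + P.y s - P.y q) (P.X0 s q / P.Dh s) := by
  rw [X0_ll P s q hs hs' hq hq', Finset.sum_div]
  refine Ge.sum _ _ fun v hv => ?_
  rw [mem_Icc, le_min_iff] at hv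
  obtain ⟨hv1, hv2, hv3⟩ := hv
  have h1 := Dh_inv P s hs hs' _ _ (Ge.mul (ll_lo P s v hv1 hv2 hs') (rr_lo P q v hv1 hv3 hq'))
  refine Ge.mono h1 ?_
  have hn1 : 1 ≤ P.n := by have := P.hn3; omega
  have hx1 : 1 ≤ P.s0 - v := by omega
  obtain ⟨a1, a2, a3⟩ := fa_logs (n := P.n) (x := P.s0 - v) (i := P.s0 - s) (k := s - v) hn1 hx1
    (by omega) (by omega)
  obtain ⟨b1, b2, -⟩ := fa_logs (n := P.n) (x := P.s0 - v) (i := P.s0 - q) (k := q - v) hn1 hx1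
    (by omega) (by omega)
  have hlin := log_lin (P.s0 - v)
  have hh := P.hh1
  have hys : P.y s = 30 * P.L + 2 * ((P.s0 : ℤ) - s) + (if 2 * s ≤ P.m then 3 * (P.l : ℤ) else 0) := by
    unfold Par.y
    rw [if_pos hs']
    split_ifs <;> push_cast <;> ring
  have hyq : P.y q = 30 * P.L + 2 * ((P.s0 : ℤ) - q) + (if 2 * q ≤ P.m then 3 * (P.l : ℤ) else 0) := by
    unfold Par.y
    rw [if_pos hq']
    split_ifs <;> push_cast <;> ring
  have hyq0 : (0 : ℤ) ≤ (if 2 * q ≤ P.m then 3 * (P.l : ℤ) else 0) := by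
    split_ifs
    · positivity
    · exact le_rfl
  have hys0 : (if 2 * s ≤ P.m then 3 * (P.l : ℤ) else 0) ≤ (P.s0 : ℤ) - v := by
    split_ifs with h
    · have := fa_big P h
      omega
    · omega
  rw [hys, hyq]
  have hv0 : (v : ℤ) < P.s0 := by omega
  zify at a1 a2 a3 b1 b2 hh
  have hlin' : 16 * (Nat.log 2 (P.s0 - v) : ℤ) ≤ ((P.s0 : ℤ) - v) + 64 := by omega
  linarith

theorem F2 (P : Par) (s q : ℕ) (hs : 1 ≤ s) (hs' : s < P.s0) (hq : P.s0 ≤ q) (hq' : q ≤ P.m) :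
    Ge (P.g + P.y s) (P.X0 s q / P.Dh s) := by
  rw [X0_lh P s q hs hs' hq hq', Finset.sum_div]
  refine Ge.sum _ _ fun u hu => ?_
  rw [mem_Icc] at hu
  obtain ⟨hu1, hu2⟩ := hu
  rw [Finset.sum_mul, Finset.sum_div]
  refine Ge.sum _ _ fun v hv => ?_
  rw [mem_Icc] at hv
  obtain ⟨hv1, hv2⟩ := hv
  have h1 := Dh_inv P s hs hs' _ _ (Ge.mul (Ge.mul (ll_lo P s v hv1 hv2 hs')
    (rr_cross P u v hv1 (by omega) hu1 (by omega))) (RR_hi P q u hu1 hu2 hq'))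
  refine Ge.mono h1 ?_
  have hn1 : 1 ≤ P.n := by have := P.hn3; omega
  have hx1 : 1 ≤ P.s0 - v := by omega
  obtain ⟨a1, a2, a3⟩ := fa_logs (n := P.n) (x := P.s0 - v) (i := P.s0 - s) (k := s - v) hn1 hx1
    (by omega) (by omega)
  have hlin := log_lin (P.s0 - v)
  have hh := P.hh1
  have hlL : P.l < 2 ^ (P.L + 1) := P.l_lt
  have hm := P.m_eq
  have hlog : Nat.log 2 (P.l + (u - v)) ≤ P.L + Nat.log 2 (P.s0 - v) + 2 := by
    have c1 : P.l + (u - v) = (P.l + (u - P.s0)) + (P.s0 - v) := by omega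
    have c2 : Nat.log 2 (P.l + (u - P.s0)) ≤ P.L + 1 := by
      apply log_lt_of
      have c3 : 2 ^ (P.L + 1 + 1) = 2 * 2 ^ (P.L + 1) := by rw [pow_succ]; ring
      omega
    have c4 := log_add_le (P.l + (u - P.s0)) (P.s0 - v) (by
      have := P.l_gt
      have : 0 < 2 ^ P.L := by positivity
      omega)
    rw [c1]
    omega
  have hys : P.y s = 30 * P.L + 2 * ((P.s0 : ℤ) - s) + (if 2 * s ≤ P.m then 3 * (P.l : ℤ) else 0) := by
    unfold Par.y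
    rw [if_pos hs']
    split_ifs <;> push_cast <;> ring
  have hys0 : (if 2 * s ≤ P.m then 3 * (P.l : ℤ) else 0) ≤ (P.s0 : ℤ) - v := by
    split_ifs with h
    · have := fa_big P h
      omega
    · omega
  rw [hys]
  have hE : (P.E : ℤ) = 100 * P.L := by
    unfold Par.E
    push_cast
    ring
  have hg : (P.g : ℤ) ≤ P.L := by
    unfold Par.g
    omega
  rw [hE]
  have hu3 : (P.s0 : ℤ) ≤ u := by exact_mod_cast hu1
  have hu4 : (u : ℤ) ≤ q := by exact_mod_cast hu2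
  zify at a1 a2 a3 hh hlog
  have hlin' : 16 * (Nat.log 2 (P.s0 - v) : ℤ) ≤ ((P.s0 : ℤ) - v) + 64 := by omega
  have hL0 : (0 : ℤ) ≤ P.L := Int.natCast_nonneg _
  have hln0 : (0 : ℤ) ≤ Nat.log 2 P.n := Int.natCast_nonneg _
  linarith

end Pool.Agent.BZ
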