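import Pool.Agent.Lib.MP_06b9d2_bz.XFa
import Pool.Agent.Lib.MP_06b9d2_bz.BRl
import Pool.Agent.Lib.MP_06b9d2_bz.BRh
/-! # BZ.FB: bounds for `X0`, high rows
F5: `X0_hl`: `LL_hi + ll_hi + rr_lo ≥ -2L - 6 - log(n+2i) + ..`, against `2 - y q = 2 - 30 L - 2i - ..` (`i = s0 - q`).
F6d: `X0_hh`: `LL_hi + ll_hi + rr_cross + RR_hi ≥ E - 7L - 30`. -/
set_option autoImplicit false
open Finset
namespace Pool.Agent.BZ

private theorem fb_nL (P : Par) : P.n + 1000 ≤ P.L := by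
  have h1 := P.n_le
  have h2 := P.hn3
  have h3 : P.n ≤ 16 * P.n ^ 2 := by nlinarith
  omega

theorem F5 (P : Par) (s q : ℕ) (hs : P.s0 ≤ s) (hs' : s ≤ P.m) (hq : 1 ≤ q) (hq' : q < P.s0) :
    Ge (2 - P.y q) (P.X0 s q) := by
  rw [X0_hl P s q hs hs' hq hq']
  refine Ge.sum _ _ fun u hu => ?_
  rw [mem_Icc] at hu
  obtain ⟨hu1, hu2⟩ := hu
  rw [Finset.mul_sum]
  refine Ge.sum _ _ fun v hv => ?_
  rw [mem_Icc] at hv
  obtain ⟨hv1, hv2⟩ := hv
  have h1 := (LL_hi P s u hu1 hu2 hs').mul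
    ((ll_hi P u v hv1 (by omega) hu1 (by omega)).mul (rr_lo P q v hv1 hv2 hq'))
  refine h1.mono ?_
  have hyq : (30 : ℤ) * P.L + 2 * ((P.s0 : ℤ) - q) ≤ P.y q := by
    unfold Par.y
    rw [if_pos hq']
    split_ifs
    · push_cast; omega
    · push_cast; omega
  have a1 := log_lin (u - v)
  have a2 := log_lin (q - v)
  have a3 := log_lin (P.n + 2 * (P.s0 - q))
  have a4 := fb_nL P
  omega

theorem F6d (P : Par) (s q : ℕ) (hs : P.s0 ≤ s) (hs' : s ≤ P.m) (hq : P.s0 ≤ q) (hq' : q ≤ P.m) :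
    Ge (P.g + 1) (P.X0 s q - if s = q then 1 else 0) := by
  rw [X0_hh P s q hs hs' hq hq', add_sub_cancel_left]
  refine Ge.sum _ _ fun u hu => ?_
  rw [mem_Icc] at hu
  obtain ⟨hu1, hu2⟩ := hu
  refine Ge.sum _ _ fun v hv => ?_
  rw [mem_Icc] at hv
  obtain ⟨hv1, hv2⟩ := hv
  rw [Finset.mul_sum, Finset.sum_mul]
  refine Ge.sum _ _ fun t ht => ?_
  rw [mem_Icc] at ht
  obtain ⟨ht1, ht2⟩ := ht
  have ht3 : t < P.s0 := by
    have h : 1 ≤ P.s0 := by unfold Par.s0; exact Nat.le_add_right _ _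
    omega
  have h1 := ((LL_hi P s u hu1 hu2 hs').mul
    ((ll_hi P u t ht1 (by omega) hu1 (by omega)).mul
      (rr_cross P v t ht1 ht3 hv1 (by omega)))).mul (RR_hi P q v hv1 hv2 hq')
  refine h1.mono ?_
  have a1 := log_lin (u - t)
  have a2 := log_lin (v - t)
  have a3 := fb_nL P
  have a4 : Nat.log 2 P.l ≤ P.L := log_lt_of P.l_lt
  have a5 := log_add_le P.l (v - t) (by
    have := P.l_gt
    have : 0 < 2 ^ P.L := by positivity
    omega)
  have hE : P.E = 100 * P.L := rfl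
  have hg : 2 * P.g ≤ P.L := by
    unfold Par.g
    omega
  omega

end Pool.Agent.BZ
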