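import Pool.Agent.Lib.MP_06b9d2_bz.XFb
import Pool.Agent.Lib.MP_06b9d2_bz.BAl
import Pool.Agent.Lib.MP_06b9d2_bz.BRR
/-! # BZ.FC: `X1 s q / Dh s = RR N s q`, `s < s0`, `q > m`
`2s ≤ m`: zero (`RR_zero`).  F3 (`q > N0 - s0`; `1 + y s - y q = 9 + 2i + log n`): `RR_lo1` if `q + s < N0` (`q - s ≥ l + 1 + i`), else `RR_lo2`.
F4 (`m < q ≤ N0 - s0`): `RR_lo1`, `2(q-s) ≥ l + 1 + 2i`, `l > 2^L = 8 · 2^(L-3)`, `big1`. -/
set_option autoImplicit false
open Finset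
namespace Pool.Agent.BZ
private theorem fc_eq (P : Par) (s q : ℕ) (hs : 1 ≤ s) (hs' : s < P.s0) (hq : P.m < q) (hqN : q < P.N) :
    P.X1 s q / P.Dh s = RR P.N s q := by
  rw [X1_lR P s q hs hs' hq hqN]
  exact mul_div_cancel_left₀ _ (Dh_ne P s hs hs')
private theorem fc_ys (P : Par) (s : ℕ) (hs' : s < P.s0) (h : ¬ 2 * s ≤ P.m) :
    P.y s = 30 * P.L + 2 * ((P.s0 : ℤ) - s) := by
  unfold Par.y
  rw [if_pos hs', if_neg h, Nat.cast_zero, add_zero]
private theorem fc_yq (P : Par) (q : ℕ) (h : P.N0 < q + P.s0) :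
    P.y q = 30 * P.L - Nat.log 2 P.n - 8 := by
  have h1 := P.two_m
  have h2 := P.m_eq
  have h3 := P.l_gt
  have h4 : 0 < 2 ^ P.L := by positivity
  have h5 : ¬ q < P.s0 := by omega
  have h6 : ¬ q ≤ P.m := by omega
  unfold Par.y
  rw [if_neg h5, if_neg h6, if_pos h]
private theorem fc_n (P : Par) : Nat.log 2 P.n ≤ P.L := by
  have h1 := P.n_le
  have h2 := Nat.log_le_self 2 P.n
  nlinarith [P.hn3]
theorem F3 (P : Par) (s q : ℕ) (hs : 1 ≤ s) (hs' : s < P.s0) (hq : P.N0 < q + P.s0) (hqN : q < P.N) :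
    Ge (1 + P.y s - P.y q) (P.X1 s q / P.Dh s) := by
  have hm2 := P.two_m
  have hme := P.m_eq
  have hlg := P.l_gt
  have hb1 := P.big1
  have hb1' := P.big1'
  have hlog := fc_n P
  have hL1 : 1000 ≤ P.L := le_trans (Nat.le_add_left 1000 _) P.hL
  have hNN := P.N_big
  have hn3 := P.hn3
  have hh1 := P.hh1
  rw [fc_eq P s q hs hs' (by omega) hqN]
  by_cases h2s : 2 * s ≤ P.m
  · rw [RR_zero P.N s q hs (by omega)]
    exact Ge.zero _
  by_cases hq2 : 2 * s < q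
  · rw [RR_zero P.N s q hs hq2]
    exact Ge.zero _
  rw [fc_ys P s hs' h2s, fc_yq P q hq]
  have hE : P.E = 100 * P.L := rfl
  by_cases hlt : q + s < P.N0
  · refine (RR_lo1 P s q hs hs' (by omega) hlt).mono ?_
    rw [hE]
    push_cast
    omega
  · push Not at hlt
    refine (RR_lo2 P s q hs hs' (by omega) hlt).mono ?_
    have h1 := log_add_le P.n (3 * (P.s0 - s) + (q + s - P.N0)) (by omega)
    have h2 := log_lin (3 * (P.s0 - s) + (q + s - P.N0))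
    rw [← add_assoc] at h1
    omega
theorem F4 (P : Par) (s q : ℕ) (hs : 1 ≤ s) (hs' : s < P.s0) (hq : P.m < q) (hq' : q + P.s0 ≤ P.N0) :
    Ge (1 + P.y s + 2 ^ (P.L - 3)) (P.X1 s q / P.Dh s) := by
  have hm2 := P.two_m
  have hme := P.m_eq
  have hlg := P.l_gt
  have hb1 := P.big1
  have hb1' := P.big1'
  have hNN := P.N_big
  have hL1 : 1000 ≤ P.L := le_trans (Nat.le_add_left 1000 _) P.hL
  rw [fc_eq P s q hs hs' hq (by omega)]
  by_cases h2s : 2 * s ≤ P.m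
  · rw [RR_zero P.N s q hs (by omega)]
    exact Ge.zero _
  rw [fc_ys P s hs' h2s]
  have hE : P.E = 100 * P.L := rfl
  refine (RR_lo1 P s q hs hs' hq (by omega)).mono ?_
  rw [hE]
  have h8 : ((2 : ℤ) ^ (P.L - 3)) = ((2 ^ (P.L - 3) : ℕ) : ℤ) := by push_cast; rfl
  rw [h8]
  push_cast
  omega
end Pool.Agent.BZ
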