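import Pool.Agent.Lib.MP_06b9d2_bz.ChA
/-! # BZ.UrA: `U rr = LL diag(al)`
Induction on `s`: from `(s, a, N)` to `(s+1, a, N+1)` (`a` fixed).  Put
`E(k) = U N a (s-k) * rq N s k`, `E'(k) = U (N+1) a (s+1-k) * rq (N+1) (s+1) k`, and
`ρ = -4 (a-s) (2N-3s-1) (N-2s-a) / ((N-2s+a-1) (N-a) (N-2s))`.  Then
`E'(k) - ρ E(k) = G(k+1) - G(k)` with `G(0) = 0` and
`G(K+1) = -4 (2N-3s-1) / ((N-2s+a-1)(N-a)(N-2s)) * (s+K)(N+a-2s+2K)(N-3s+a+K)/(2N-3s+3K) * E(K)`
(`E(k) = 0` for `k ≥ s`, as `C(s+k-1,2k) = 0`).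
Also `al (N+1) (s+1) * LL (N+1) a (s+1) = ρ * al N s * LL N a s` for `a ≥ s`.
Useful: for `1 ≤ σ < 2a` (`σ = s-k`), `U N a σ = (-1)^σ 4^(a+σ) (2N-3σ)/(2(2a-σ)) C(N+a-2σ-1, 2a-σ-1)`. -/
set_option autoImplicit false
open Finset
namespace Pool.Agent.BZ

private theorem U_closed (N : ℚ) (a σ m : ℕ) (h : 2 * a = σ + m + 1) :
    U N a σ = (-1) ^ (m + 1) * 4 ^ (a + σ) * ((2 * N - 3 * σ) / (2 * (m + 1))) *
      ch (N + a - 2 * σ - 1) m := by
  have hc : (2 : ℚ) * a = σ + m + 1 := by exact_mod_cast h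
  have h1 : 2 * a - σ = m + 1 := by omega
  have h2 : 2 * a - σ - 1 = m := by omega
  have e1 : ch (a + σ - N - 1) (m + 1) = (-1) ^ (m + 1) * ch (N + a - 2 * σ) (m + 1) := by
    have := ch_neg (-(a + σ - N - 1)) (m + 1)
    rw [neg_neg] at this
    rw [this]
    congr 2
    push_cast
    linear_combination -hc
  have e2 : ch (a + σ - N - 1) m = (-1) ^ m * ch (N + a - 2 * σ - 1) m := by
    have := ch_neg (-(a + σ - N - 1)) m
    rw [neg_neg] at this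
    rw [this]
    congr 2
    linear_combination -hc
  have e3 := ch_step' (N + a - 2 * σ) m
  unfold U
  rw [if_pos (by omega), if_pos (by omega), h1, Nat.add_sub_cancel, e1, e2]
  have hm : (m : ℚ) + 1 ≠ 0 := by positivity
  have e4 : ch (N + a - 2 * σ) (m + 1) = (N + a - 2 * σ) * ch (N + a - 2 * σ - 1) m / (m + 1) := by
    rw [eq_div_iff hm, mul_comm]
    exact e3
  rw [e4, pow_succ]
  field_simp
  linear_combination -(ch (N + a - 2 * σ - 1) m) * hc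

private theorem U_top (N : ℚ) (a : ℕ) : U N a (2 * a) = 4 ^ (a + 2 * a) := by
  unfold U
  rw [if_pos le_rfl, if_neg (lt_irrefl _), Nat.sub_self, ch_zero]
  ring

private theorem U_big (N : ℚ) (a σ : ℕ) (h : 2 * a < σ) : U N a σ = 0 := by
  unfold U
  rw [if_neg (by omega)]

private theorem U_R1 (N : ℚ) (a σ : ℕ) :
    (2 * N - 3 * σ) * (N + a - 2 * σ - 1) * U (N + 1) a (σ + 1) =
      -4 * (2 * N - 3 * σ - 1) * (2 * a - σ) * U N a σ := by
  rcases lt_trichotomy (σ + 1) (2 * a) with h | h | h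
  · obtain ⟨m, hm⟩ : ∃ m, 2 * a = σ + (m + 1) + 1 := ⟨2 * a - σ - 2, by omega⟩
    have hc : (2 : ℚ) * a = σ + (m + 1) + 1 := by exact_mod_cast hm
    rw [U_closed N a σ (m + 1) hm, U_closed (N + 1) a (σ + 1) m (by omega)]
    have e := ch_step' (N + a - 2 * σ - 1) m
    have hm1 : (m : ℚ) + 1 ≠ 0 := by positivity
    have hm2 : (m : ℚ) + 1 + 1 ≠ 0 := by positivity
    have e4 : ch (N + a - 2 * σ - 1) (m + 1) =
        (N + a - 2 * σ - 1) * ch (N + a - 2 * σ - 1 - 1) m / (m + 1) := by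
      rw [eq_div_iff hm1, mul_comm]
      exact e
    have e5 : N + 1 + a - 2 * ((σ + 1 : ℕ) : ℚ) - 1 = N + a - 2 * σ - 1 - 1 := by
      push_cast; ring
    rw [e4, e5, hc]
    push_cast
    field_simp
    ring
  · have h1 : U (N + 1) a (σ + 1) = 4 ^ (a + (σ + 1)) := by
      rw [h]
      exact U_top _ _
    have hc : (2 : ℚ) * a = σ + 1 := by exact_mod_cast h.symm
    rw [h1, U_closed N a σ 0 (by omega), ch_zero]
    have ha : (a : ℚ) = (σ + 1) / 2 := by linear_combination hc / 2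
    rw [ha]
    push_cast
    ring
  · rw [U_big _ _ _ h, mul_zero]
    rcases Nat.lt_or_ge (2 * a) σ with h2 | h2
    · rw [U_big _ _ _ h2, mul_zero]
    · have h3 : σ = 2 * a := by omega
      have h4 : (2 : ℚ) * a - σ = 0 := by
        rw [h3]
        push_cast
        ring
      rw [h4]
      ring

private theorem U_R2 (N : ℚ) (a σ : ℕ) :
    (2 * N - 3 * σ - 3) * (N - a - σ) * U (N + 1) a (σ + 1) =
      (2 * N - 3 * σ - 1) * (N + a - 2 * σ - 2) * U N a (σ + 1) := by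
  rcases lt_trichotomy (σ + 1) (2 * a) with h | h | h
  · obtain ⟨m, hm⟩ : ∃ m, 2 * a = σ + 1 + m + 1 := ⟨2 * a - σ - 2, by omega⟩
    have hc : (2 : ℚ) * a = σ + 1 + m + 1 := by exact_mod_cast hm
    rw [U_closed N a (σ + 1) m hm, U_closed (N + 1) a (σ + 1) m hm]
    have e := ch_step'' (N + a - 2 * σ - 2) m
    have hm1 : (m : ℚ) + 1 ≠ 0 := by positivity
    have e5 : N + 1 + a - 2 * ((σ + 1 : ℕ) : ℚ) - 1 = N + a - 2 * σ - 2 := by
      push_cast; ring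
    have e6 : N + a - 2 * ((σ + 1 : ℕ) : ℚ) - 1 = N + a - 2 * σ - 2 - 1 := by
      push_cast; ring
    rw [e5, e6]
    have e7 : N - a - σ = N + a - 2 * σ - 2 - m := by linear_combination -hc
    rw [e7]
    push_cast
    field_simp
    linear_combination (2 * N - 3 * σ - 3) * (2 * N - 3 * σ - 1) * e
  · have h1 : U (N + 1) a (σ + 1) = 4 ^ (a + (σ + 1)) := by
      rw [h]
      exact U_top _ _
    have h2 : U N a (σ + 1) = 4 ^ (a + (σ + 1)) := by
      rw [h]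
      exact U_top _ _
    have hc : (2 : ℚ) * a = σ + 1 := by exact_mod_cast h.symm
    have ha : (a : ℚ) = (σ + 1) / 2 := by linear_combination hc / 2
    rw [h1, h2, ha]
    ring
  · rw [U_big _ _ _ h, U_big _ _ _ h]
    ring

private theorem od_succ (k : ℕ) : od (k + 1) = od k * (2 * k + 1) := by
  unfold od
  rw [prod_range_succ]

private theorem cc (b : ℚ) (k : ℕ) :
    (2 * k + 2) * (2 * k + 1) * ch (b + k) (2 * k + 2) = (b + k) * (b - k - 1) * ch (b + k - 1) (2 * k) := by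
  have h1 := ch_step' (b + k) (2 * k + 1)
  have h2 := ch_step (b + k - 1) (2 * k)
  push_cast at h1 h2
  linear_combination (2 * k + 1) * h1 + (b + k) * h2

/-- `r_k -> r_{k+1}` -/
private theorem rq_succ (N b : ℚ) (k : ℕ) (n1 : N - 2 * b + k + 1 ≠ 0) :
    rq N b (k + 1) = 2 * (b + k) * (b - k - 1) * (2 * N - 3 * b + k) /
      ((k + 1) * (N - 2 * b + k + 1) * (2 * N - 2 * b + 2 * k + 1)) * rq N b k := by
  have hk1 : (k : ℚ) + 1 ≠ 0 := by positivity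
  have hk2 : (2 * (k : ℚ) + 1) ≠ 0 := by positivity
  have hk3 : (2 * (k : ℚ) + 2) ≠ 0 := by positivity
  have c1 : ch (b + (k + 1 : ℕ) - 1) (2 * (k + 1)) =
      (b + k) * (b - k - 1) / ((2 * k + 2) * (2 * k + 1)) * ch (b + k - 1) (2 * k) := by
    have h := cc b k
    have e : b + ((k + 1 : ℕ) : ℚ) - 1 = b + k := by push_cast; ring
    rw [e, show 2 * (k + 1) = 2 * k + 2 by ring, div_mul_eq_mul_div, eq_div_iff (mul_ne_zero hk3 hk2)]
    linear_combination h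
  have c2 : ch (2 * N - 3 * b + (k + 1 : ℕ) - 1) (k + 1) =
      (2 * N - 3 * b + k) / (k + 1) * ch (2 * N - 3 * b + k - 1) k := by
    have h := ch_step' (2 * N - 3 * b + k) k
    have e : 2 * N - 3 * b + ((k + 1 : ℕ) : ℚ) - 1 = 2 * N - 3 * b + k := by push_cast; ring
    rw [e, div_mul_eq_mul_div, eq_div_iff hk1]
    linear_combination h
  have c3 : ch (N - 2 * b + (k + 1 : ℕ)) (k + 1) =
      (N - 2 * b + k + 1) / (k + 1) * ch (N - 2 * b + k) k := by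
    have h := ch_step' (N - 2 * b + k + 1) k
    have e : N - 2 * b + ((k + 1 : ℕ) : ℚ) = N - 2 * b + k + 1 := by push_cast; ring
    have e2 : N - 2 * b + k + 1 - 1 = N - 2 * b + k := by ring
    rw [e2] at h
    rw [e, div_mul_eq_mul_div, eq_div_iff hk1]
    linear_combination h
  unfold rq
  rw [c1, c2, c3, prod_range_succ, od_succ, pow_succ]
  generalize ch (b + k - 1) (2 * k) = X1
  generalize ch (2 * N - 3 * b + k - 1) k = X2
  generalize ch (N - 2 * b + k) k = X3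
  generalize ∏ i ∈ range k, (2 * N - 2 * b + 1 + 2 * (i : ℚ)) = Y
  generalize od k = o
  have e1 : 2 * N - 2 * b + 1 + 2 * (k : ℚ) = 2 * N - 2 * b + 2 * k + 1 := by ring
  rw [e1]
  have a1 : 4 ^ k * 4 * (o * (2 * (k : ℚ) + 1)) *
      ((b + k) * (b - k - 1) / ((2 * k + 2) * (2 * k + 1)) * X1) *
      ((2 * N - 3 * b + k) / (k + 1) * X2) = (4 * (2 * k + 1) *
      ((b + k) * (b - k - 1) / ((2 * k + 2) * (2 * k + 1))) * ((2 * N - 3 * b + k) / (k + 1))) *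
      (4 ^ k * o * X1 * X2) := by ring
  have a2 : (N - 2 * b + k + 1) / (k + 1) * X3 * (Y * (2 * N - 2 * b + 2 * k + 1)) =
      ((N - 2 * b + k + 1) / (k + 1) * (2 * N - 2 * b + 2 * k + 1)) * (X3 * Y) := by ring
  rw [a1, a2, mul_div_mul_comm]
  congr 1
  field_simp
  ring

/-- `(N, b, k) -> (N + 1, b + 1, k + 1)` -/
private theorem rq_diag (N b : ℚ) (k : ℕ) (n1 : N - 2 * b ≠ 0) :
    rq (N + 1) (b + 1) (k + 1) = 2 * (b + k + 1) * (b + k) * (2 * N - 3 * b - 1) /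
      ((N - 2 * b) * (k + 1) * (2 * N - 2 * b + 2 * k + 1)) * rq N b k := by
  have hk1 : (k : ℚ) + 1 ≠ 0 := by positivity
  have hk2 : (2 * (k : ℚ) + 1) ≠ 0 := by positivity
  have hk3 : (2 * (k : ℚ) + 2) ≠ 0 := by positivity
  have c1 : ch (b + 1 + (k + 1 : ℕ) - 1) (2 * (k + 1)) =
      (b + k + 1) * (b + k) / ((2 * k + 2) * (2 * k + 1)) * ch (b + k - 1) (2 * k) := by
    have h1 := ch_step' (b + k + 1) (2 * k + 1)
    have h2 := ch_step' (b + k) (2 * k)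
    have e : b + 1 + ((k + 1 : ℕ) : ℚ) - 1 = b + k + 1 := by push_cast; ring
    have e2 : b + k + 1 - 1 = b + k := by ring
    rw [e2] at h1
    push_cast at h1 h2
    rw [e, show 2 * (k + 1) = 2 * k + 1 + 1 by ring, div_mul_eq_mul_div,
      eq_div_iff (mul_ne_zero hk3 hk2)]
    linear_combination (2 * k + 1) * h1 + (b + k + 1) * h2
  have c2 : ch (2 * (N + 1) - 3 * (b + 1) + (k + 1 : ℕ) - 1) (k + 1) =
      (2 * N - 3 * b - 1) / (k + 1) * ch (2 * N - 3 * b + k - 1) k := by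
    have h := ch_step (2 * N - 3 * b + k - 1) k
    have e : 2 * (N + 1) - 3 * (b + 1) + ((k + 1 : ℕ) : ℚ) - 1 = 2 * N - 3 * b + k - 1 := by
      push_cast; ring
    rw [e, div_mul_eq_mul_div, eq_div_iff hk1]
    linear_combination h
  have c3 : ch (N + 1 - 2 * (b + 1) + (k + 1 : ℕ)) (k + 1) =
      (N - 2 * b) / (k + 1) * ch (N - 2 * b + k) k := by
    have h := ch_step (N - 2 * b + k) k
    have e : N + 1 - 2 * (b + 1) + ((k + 1 : ℕ) : ℚ) = N - 2 * b + k := by push_cast; ring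
    rw [e, div_mul_eq_mul_div, eq_div_iff hk1]
    linear_combination h
  have c4 : ∏ i ∈ range (k + 1), (2 * (N + 1) - 2 * (b + 1) + 1 + 2 * (i : ℚ)) =
      (∏ i ∈ range k, (2 * N - 2 * b + 1 + 2 * (i : ℚ))) * (2 * N - 2 * b + 2 * k + 1) := by
    rw [prod_range_succ]
    congr 1
    · apply prod_congr rfl
      intro i _
      ring
    · ring
  unfold rq
  rw [c1, c2, c3, c4, od_succ, pow_succ]
  generalize ch (b + k - 1) (2 * k) = X1
  generalize ch (2 * N - 3 * b + k - 1) k = X2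
  generalize ch (N - 2 * b + k) k = X3
  generalize ∏ i ∈ range k, (2 * N - 2 * b + 1 + 2 * (i : ℚ)) = Y
  generalize od k = o
  have a1 : 4 ^ k * 4 * (o * (2 * (k : ℚ) + 1)) *
      ((b + k + 1) * (b + k) / ((2 * k + 2) * (2 * k + 1)) * X1) *
      ((2 * N - 3 * b - 1) / (k + 1) * X2) = (4 * (2 * k + 1) *
      ((b + k + 1) * (b + k) / ((2 * k + 2) * (2 * k + 1))) * ((2 * N - 3 * b - 1) / (k + 1))) *
      (4 ^ k * o * X1 * X2) := by ring
  have a2 : (N - 2 * b) / (k + 1) * X3 * (Y * (2 * N - 2 * b + 2 * k + 1)) =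
      ((N - 2 * b) / (k + 1) * (2 * N - 2 * b + 2 * k + 1)) * (X3 * Y) := by ring
  rw [a1, a2, mul_div_mul_comm]
  congr 1
  field_simp
  ring

private theorem chA (x : ℚ) (k : ℕ) :
    x * ((k + 1) * ch (x - 1) (k + 1)) = (x - 1 - k) * (x - k) * ch x k := by
  have h1 := ch_step (x - 1) k
  have h2 := ch_step'' x k
  linear_combination x * h1 - (x - 1 - k) * h2

/-- `(N + 1, b, k) -> (N, b, k + 1)` -/
private theorem rq_shift (N b : ℚ) (k : ℕ) (n0 : 2 * N - 3 * b + k + 1 ≠ 0)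
    (n1 : N - 2 * b + 1 ≠ 0) :
    rq N b (k + 1) = 2 * (b + k) * (b - k - 1) * (2 * N - 3 * b) * (2 * N - 3 * b + 1) /
      ((k + 1) * (N - 2 * b + 1) * (2 * N - 2 * b + 1) * (2 * N - 3 * b + k + 1)) *
        rq (N + 1) b k := by
  have hk1 : (k : ℚ) + 1 ≠ 0 := by positivity
  have hk2 : (2 * (k : ℚ) + 1) ≠ 0 := by positivity
  have hk3 : (2 * (k : ℚ) + 2) ≠ 0 := by positivity
  have c1 : ch (b + (k + 1 : ℕ) - 1) (2 * (k + 1)) =
      (b + k) * (b - k - 1) / ((2 * k + 2) * (2 * k + 1)) * ch (b + k - 1) (2 * k) := by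
    have h := cc b k
    have e : b + ((k + 1 : ℕ) : ℚ) - 1 = b + k := by push_cast; ring
    rw [e, show 2 * (k + 1) = 2 * k + 2 by ring, div_mul_eq_mul_div, eq_div_iff (mul_ne_zero hk3 hk2)]
    linear_combination h
  have e0 : 2 * (N + 1) - 3 * b + (k : ℚ) - 1 = 2 * N - 3 * b + k + 1 := by ring
  have c2 : ch (2 * N - 3 * b + (k + 1 : ℕ) - 1) (k + 1) =
      (2 * N - 3 * b) * (2 * N - 3 * b + 1) / ((k + 1) * (2 * N - 3 * b + k + 1)) *
        ch (2 * N - 3 * b + k + 1) k := by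
    have h := chA (2 * N - 3 * b + k + 1) k
    have e : 2 * N - 3 * b + ((k + 1 : ℕ) : ℚ) - 1 = 2 * N - 3 * b + k + 1 - 1 := by
      push_cast; ring
    rw [e, div_mul_eq_mul_div, eq_div_iff (mul_ne_zero hk1 n0)]
    linear_combination h
  have e00 : N + 1 - 2 * b + (k : ℚ) = N - 2 * b + k + 1 := by ring
  have c3 : ch (N - 2 * b + (k + 1 : ℕ)) (k + 1) =
      (N - 2 * b + 1) / (k + 1) * ch (N - 2 * b + k + 1) k := by
    have h := ch_step (N - 2 * b + k + 1) k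
    have e : N - 2 * b + ((k + 1 : ℕ) : ℚ) = N - 2 * b + k + 1 := by push_cast; ring
    rw [e, div_mul_eq_mul_div, eq_div_iff hk1]
    linear_combination h
  have c4 : ∏ i ∈ range (k + 1), (2 * N - 2 * b + 1 + 2 * (i : ℚ)) =
      (∏ i ∈ range k, (2 * (N + 1) - 2 * b + 1 + 2 * (i : ℚ))) * (2 * N - 2 * b + 1) := by
    rw [prod_range_succ']
    congr 1
    · apply prod_congr rfl
      intro i _
      push_cast
      ring
    · push_cast
      ring
  unfold rq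
  rw [c1, c2, c3, c4, od_succ, pow_succ, e0, e00]
  generalize ch (b + k - 1) (2 * k) = X1
  generalize ch (2 * N - 3 * b + k + 1) k = X2
  generalize ch (N - 2 * b + k + 1) k = X3
  generalize ∏ i ∈ range k, (2 * (N + 1) - 2 * b + 1 + 2 * (i : ℚ)) = Y
  generalize od k = o
  have a1 : 4 ^ k * 4 * (o * (2 * (k : ℚ) + 1)) *
      ((b + k) * (b - k - 1) / ((2 * k + 2) * (2 * k + 1)) * X1) *
      ((2 * N - 3 * b) * (2 * N - 3 * b + 1) / ((k + 1) * (2 * N - 3 * b + k + 1)) * X2) =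
      (4 * (2 * k + 1) *
      ((b + k) * (b - k - 1) / ((2 * k + 2) * (2 * k + 1))) *
      ((2 * N - 3 * b) * (2 * N - 3 * b + 1) / ((k + 1) * (2 * N - 3 * b + k + 1)))) *
      (4 ^ k * o * X1 * X2) := by ring
  have a2 : (N - 2 * b + 1) / (k + 1) * X3 * (Y * (2 * N - 2 * b + 1)) =
      ((N - 2 * b + 1) / (k + 1) * (2 * N - 2 * b + 1)) * (X3 * Y) := by ring
  rw [a1, a2, mul_div_mul_comm]
  congr 1
  field_simp
  ring

private theorem al_succ (N : ℚ) (r : ℕ) (n0 : N - 2 * (r + 1 : ℕ) - 1 ≠ 0) :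
    al (N + 1) (r + 1 + 1) = -8 * (2 * N - 3 * (r + 1 : ℕ) - 1) * (N - 3 * (r + 1 : ℕ)) *
      (N - 3 * (r + 1 : ℕ) - 1) / ((N - 2 * (r + 1 : ℕ) - 1) * (2 * (r + 1 : ℕ) + 1) *
        (N - 2 * (r + 1 : ℕ))) * al N (r + 1) := by
  have hr1 : (r : ℚ) + 1 ≠ 0 := by positivity
  have hr2 : (r : ℚ) + 1 + 1 ≠ 0 := by positivity
  have hr3 : (2 * ((r : ℚ) + 1) + 1) ≠ 0 := by positivity
  have c1 : ch (2 * (N + 1) - 2 * (r + 1 + 1 : ℕ) - 1) (r + 1 + 1) =
      (2 * N - 3 * (r + 1 : ℕ) - 1) / (r + 1 + 1) * ch (2 * N - 2 * (r + 1 : ℕ) - 1) (r + 1) := by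
    have h := ch_step (2 * N - 2 * (r + 1 : ℕ) - 1) (r + 1)
    have e : 2 * (N + 1) - 2 * ((r + 1 + 1 : ℕ) : ℚ) - 1 = 2 * N - 2 * (r + 1 : ℕ) - 1 := by
      push_cast; ring
    rw [e, div_mul_eq_mul_div, eq_div_iff hr2]
    push_cast at h ⊢
    linear_combination h
  have c2 : ch (N + 1 - 2 * (r + 1 + 1 : ℕ) - 1) (r + 1 + 1 - 1) =
      (N - 3 * (r + 1 : ℕ)) * (N - 3 * (r + 1 : ℕ) - 1) / ((r + 1) * (N - 2 * (r + 1 : ℕ) - 1)) *
        ch (N - 2 * (r + 1 : ℕ) - 1) (r + 1 - 1) := by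
    have h := chA (N - 2 * (r + 1 : ℕ) - 1) r
    have e : N + 1 - 2 * ((r + 1 + 1 : ℕ) : ℚ) - 1 = N - 2 * (r + 1 : ℕ) - 1 - 1 := by
      push_cast; ring
    rw [e, Nat.add_sub_cancel, Nat.add_sub_cancel, div_mul_eq_mul_div,
      eq_div_iff (mul_ne_zero hr1 n0)]
    push_cast at h ⊢
    linear_combination h
  have c3 : ch (N + 1 - (r + 1 + 1 : ℕ) - 1) (r + 1 + 1 - 1) =
      (N - 2 * (r + 1 : ℕ)) / (r + 1) * ch (N - (r + 1 : ℕ) - 1) (r + 1 - 1) := by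
    have h := ch_step (N - (r + 1 : ℕ) - 1) r
    have e : N + 1 - ((r + 1 + 1 : ℕ) : ℚ) - 1 = N - (r + 1 : ℕ) - 1 := by
      push_cast; ring
    rw [e, Nat.add_sub_cancel, Nat.add_sub_cancel, div_mul_eq_mul_div, eq_div_iff hr1]
    push_cast at h ⊢
    linear_combination h
  have c4 : (((r + 1 + 1).factorial : ℕ) : ℚ) = (r + 1 + 1) * ((r + 1).factorial : ℚ) := by
    rw [Nat.factorial_succ (r + 1)]
    push_cast
    ring
  have c5 := od_succ (r + 1)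
  unfold al
  rw [c1, c2, c3, c4, c5, pow_succ (-8 : ℚ) (r + 1)]
  generalize ch (2 * N - 2 * (r + 1 : ℕ) - 1) (r + 1) = X1
  generalize ch (N - 2 * (r + 1 : ℕ) - 1) (r + 1 - 1) = X2
  generalize ch (N - (r + 1 : ℕ) - 1) (r + 1 - 1) = X3
  generalize od (r + 1) = o
  generalize ((r + 1).factorial : ℚ) = F
  push_cast at n0 ⊢
  have a1 : (-8) ^ (r + 1) * -8 * (((r : ℚ) + 1 + 1) * F) *
      ((2 * N - 3 * (r + 1) - 1) / (r + 1 + 1) * X1) *
      ((N - 3 * (r + 1)) * (N - 3 * (r + 1) - 1) / ((r + 1) * (N - 2 * (r + 1) - 1)) * X2) =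
      (-8 * (r + 1 + 1) * ((2 * N - 3 * (r + 1) - 1) / (r + 1 + 1)) *
      ((N - 3 * (r + 1)) * (N - 3 * (r + 1) - 1) / ((r + 1) * (N - 2 * (r + 1) - 1)))) *
      ((-8) ^ (r + 1) * F * X1 * X2) := by ring
  have a2 : o * (2 * ((r : ℚ) + 1) + 1) * ((N - 2 * (r + 1)) / (r + 1) * X3) =
      ((2 * ((r : ℚ) + 1) + 1) * ((N - 2 * (r + 1)) / (r + 1))) * (o * X3) := by ring
  rw [a1, a2, mul_div_mul_comm]
  congr 1
  field_simp

/-- the certificate -/
private noncomputable def GG (N a s : ℚ) (K : ℕ) (x : ℚ) : ℚ :=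
  -4 * (2 * N - 3 * s - 1) / ((N - 2 * s + a - 1) * (N - a) * (N - 2 * s)) *
    ((s + K) * (N + a - 2 * s + 2 * K) * (N - 3 * s + a + K) / (2 * N - 3 * s + 3 * K)) * x

private noncomputable def rho (N a s : ℚ) : ℚ :=
  -4 * (a - s) * (2 * N - 3 * s - 1) * (N - 2 * s - a) / ((N - 2 * s + a - 1) * (N - a) * (N - 2 * s))

private theorem rq_zero (N b : ℚ) : rq N b 0 = 1 := by
  unfold rq
  simp [ch_zero, od]

private theorem rq_self (N : ℚ) (s : ℕ) (hs : 1 ≤ s) : rq N s s = 0 := by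
  unfold rq
  have e : (s : ℚ) + s - 1 = ((2 * s - 1 : ℕ) : ℚ) := by
    rw [Nat.cast_sub (by omega)]
    push_cast
    ring
  rw [e, ch_of_lt _ _ (by omega)]
  ring

private theorem step0 (N a s : ℕ) (hs : 1 ≤ s) (ha : 1 ≤ a) (hN : 4 * (s + a) ≤ N) :
    U ((N : ℚ) + 1) a (s + 1 - 0) * rq ((N : ℚ) + 1) (s + 1 : ℕ) 0 =
      rho N a s * (U N a (s - 0) * rq N s 0) + GG N a s 0 (U N a (s - 0) * rq N s 0) := by
  have h := U_R1 (N : ℚ) a s
  have hNq : (4 : ℚ) * (s + a) ≤ N := by exact_mod_cast hN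
  have hsq : (1 : ℚ) ≤ s := by exact_mod_cast hs
  have haq : (1 : ℚ) ≤ a := by exact_mod_cast ha
  rw [rq_zero, rq_zero, Nat.sub_zero, Nat.sub_zero, mul_one, mul_one]
  have p1 : (2 * (N : ℚ) - 3 * s) ≠ 0 := by apply ne_of_gt; linarith
  have p2 : ((N : ℚ) + a - 2 * s - 1) ≠ 0 := by apply ne_of_gt; linarith
  have p3 : ((N : ℚ) - 2 * s + a - 1) ≠ 0 := by apply ne_of_gt; linarith
  have p4 : ((N : ℚ) - a) ≠ 0 := by apply ne_of_gt; linarith
  have p5 : ((N : ℚ) - 2 * s) ≠ 0 := by apply ne_of_gt; linarith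
  have hU : U ((N : ℚ) + 1) a (s + 1) =
      -4 * (2 * N - 3 * s - 1) * (2 * a - s) / ((2 * (N : ℚ) - 3 * s) * ((N : ℚ) + a - 2 * s - 1)) *
        U N a s := by
    rw [div_mul_eq_mul_div, eq_div_iff (mul_ne_zero p1 p2)]
    linear_combination h
  rw [hU]
  unfold rho GG
  push_cast
  have p6 : (2 * (N : ℚ) - 3 * s + 3 * 0) ≠ 0 := by simpa using p1
  field_simp
  ring

private theorem keyid (N a s j : ℚ) :
    2 * (2 * N - 3 * s + 3 * j + 2) * (2 * a - s + j + 1) * (s + j + 1) * (N - 2 * s + j + 1) *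
      (N - 2 * s + a - 1) * (N - a) =
    2 * (N + a - 2 * s + 2 * j + 1) * (s - j - 1) * (2 * N - 3 * s + j) *
      ((2 * N - 3 * s + 3 * j + 3) * ((a - s) * (N - 2 * s - a)) +
        (s + j + 1) * (N + a - 2 * s + 2 * j + 2) * (N - 3 * s + a + j + 1)) +
    4 * (j + 1) * (2 * N - 2 * s + 2 * j + 1) * (N - 2 * s + j + 1) * (2 * a - s + j + 1) *
      (N - 3 * s + a + j) * (N - a - s + j + 1) := by
  ring

private theorem stepalg (N a s j V r A B C D Q P5 P6 P8 P9 P11 J : ℚ)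
    (hA : A = 2 * N - 3 * s + 3 * j + 3) (hB : B = N + a - 2 * s + 2 * j + 1)
    (hC : C = 2 * N - 3 * s + 3 * j + 2) (hQ : Q = 2 * N - 2 * s + 2 * j + 1)
    (hP6 : P6 = N - 2 * s + j + 1) (hP8 : P8 = N - 2 * s + a - 1) (hP9 : P9 = N - a)
    (hJ : J = j + 1)
    (zA : A ≠ 0) (zB : B ≠ 0) (zC : C ≠ 0) (zD : D ≠ 0) (zQ : Q ≠ 0) (z5 : P5 ≠ 0) (z6 : P6 ≠ 0)
    (z8 : P8 ≠ 0) (z9 : P9 ≠ 0) (z11 : P11 ≠ 0) (zJ : J ≠ 0) :
    (-4 * C * (2 * a - s + j + 1) / (A * B) * V) *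
      (2 * (s + j + 1) * (s + j) * (2 * N - 3 * s - 1) / (P5 * J * Q) * r) =
    (-4 * (a - s) * (2 * N - 3 * s - 1) * (N - 2 * s - a) / (P8 * P9 * P5)) *
      (V * (2 * (s + j) * (s - j - 1) * (2 * N - 3 * s + j) / (J * P6 * Q) * r)) +
    ((-4 * (2 * N - 3 * s - 1) / (P8 * P9 * P5) *
      ((s + (j + 1)) * (N + a - 2 * s + 2 * (j + 1)) * (N - 3 * s + a + (j + 1)) / A) *
      (V * (2 * (s + j) * (s - j - 1) * (2 * N - 3 * s + j) / (J * P6 * Q) * r))) -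
    (-4 * (2 * N - 3 * s - 1) / (P8 * P9 * P5) *
      ((s + j) * D * (N - 3 * s + a + j) / P11) *
      ((P11 * (N - a - s + j + 1) / (C * D) * (-4 * C * (2 * a - s + j + 1) / (A * B) * V)) * r))) := by
  obtain ⟨w6, hw6⟩ : ∃ w6, w6 = N - a - s + j + 1 := ⟨_, rfl⟩
  have key := keyid N a s j
  rw [← hw6] at key ⊢
  rw [← hA, ← hB, ← hC, ← hQ, ← hP6, ← hP8, ← hP9, ← hJ] at key
  have e1 : (P11 * w6 / (C * D) * (-4 * C * (2 * a - s + j + 1) / (A * B) * V)) =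
      P11 / D * (w6 * (-4 * (2 * a - s + j + 1) / (A * B) * V)) := by
    field_simp
  rw [e1]
  have e2 : (-4 * (2 * N - 3 * s - 1) / (P8 * P9 * P5) *
      ((s + j) * D * (N - 3 * s + a + j) / P11) *
      ((P11 / D * (w6 * (-4 * (2 * a - s + j + 1) / (A * B) * V))) * r)) =
      (-4 * (2 * N - 3 * s - 1) / (P8 * P9 * P5)) * ((s + j) * (N - 3 * s + a + j)) *
      ((w6 * (-4 * (2 * a - s + j + 1) / (A * B) * V)) * r) := by
    field_simp
  rw [e2]
  have e3 : C * (2 * a - s + j + 1) / (A * B) * (2 * (s + j + 1) / (J * Q)) =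
      (((a - s) * (N - 2 * s - a)) * (2 * (s - j - 1) * (2 * N - 3 * s + j) / (J * P6 * Q)) +
      ((s + j + 1) * (N + a - 2 * s + 2 * j + 2) * (N - 3 * s + a + j + 1) / A) *
        (2 * (s - j - 1) * (2 * N - 3 * s + j) / (J * P6 * Q)) +
      (N - 3 * s + a + j) * w6 * (4 * (2 * a - s + j + 1) / (A * B))) /
        (P8 * P9) := by
    generalize N - 2 * s - a = w1 at key ⊢
    generalize 2 * a - s + j + 1 = w2 at key ⊢
    generalize N + a - 2 * s + 2 * j + 2 = w3 at key ⊢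
    generalize N - 3 * s + a + j + 1 = w4 at key ⊢
    generalize N - 3 * s + a + j = w5 at key ⊢
    generalize s - j - 1 = w7 at key ⊢
    generalize 2 * N - 3 * s + j = w8 at key ⊢
    generalize s + j + 1 = w9 at key ⊢
    generalize a - s = w10 at key ⊢
    clear hA hB hC hQ hP6 hP8 hP9 hJ e1 e2 hw6
    field_simp
    linear_combination key
  have e4 : (-4 * C * (2 * a - s + j + 1) / (A * B) * V) *
      (2 * (s + j + 1) * (s + j) * (2 * N - 3 * s - 1) / (P5 * J * Q) * r) =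
      (-4 * (2 * N - 3 * s - 1) * (s + j) / P5 * V * r) *
      (C * (2 * a - s + j + 1) / (A * B) * (2 * (s + j + 1) / (J * Q))) := by
    ring
  rw [e4, e3]
  ring

private theorem stepk (N a s σ j : ℕ) (hσ : s = σ + (j + 1)) (ha : 1 ≤ a)
    (hN : 4 * (s + a) ≤ N) :
    U ((N : ℚ) + 1) a (σ + 1) * rq ((N : ℚ) + 1) (s + 1 : ℕ) (j + 1) =
      rho N a s * (U N a σ * rq N s (j + 1)) + (GG N a s (j + 1) (U N a σ * rq N s (j + 1)) -
        GG N a s j (U N a (σ + 1) * rq N s j)) := by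
  have h1 := U_R1 (N : ℚ) a σ
  have h2 := U_R2 (N : ℚ) a σ
  have hNq : (4 : ℚ) * (s + a) ≤ N := by exact_mod_cast hN
  have haq : (1 : ℚ) ≤ a := by exact_mod_cast ha
  have hjq : (0 : ℚ) ≤ j := Nat.cast_nonneg j
  have hσq : (0 : ℚ) ≤ σ := Nat.cast_nonneg σ
  have hsq : (s : ℚ) = σ + (j + 1) := by exact_mod_cast hσ
  have hσe : (σ : ℚ) = s - j - 1 := by linear_combination -hsq
  have p1 : (2 * (N : ℚ) - 3 * σ) ≠ 0 := by apply ne_of_gt; linarith
  have p2 : ((N : ℚ) + a - 2 * σ - 1) ≠ 0 := by apply ne_of_gt; linarith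
  have p3 : (2 * (N : ℚ) - 3 * σ - 1) ≠ 0 := by apply ne_of_gt; linarith
  have p4 : ((N : ℚ) + a - 2 * σ - 2) ≠ 0 := by apply ne_of_gt; linarith
  have p5 : ((N : ℚ) - 2 * s) ≠ 0 := by apply ne_of_gt; linarith
  have p6 : ((N : ℚ) - 2 * s + j + 1) ≠ 0 := by apply ne_of_gt; linarith
  have p7 : (2 * (N : ℚ) - 2 * s + 2 * j + 1) ≠ 0 := by apply ne_of_gt; linarith
  have p8 : ((N : ℚ) - 2 * s + a - 1) ≠ 0 := by apply ne_of_gt; linarith
  have p9 : ((N : ℚ) - a) ≠ 0 := by apply ne_of_gt; linarith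
  have p10 : (2 * (N : ℚ) - 3 * s + 3 * (j + 1)) ≠ 0 := by apply ne_of_gt; linarith
  have p11 : (2 * (N : ℚ) - 3 * s + 3 * j) ≠ 0 := by apply ne_of_gt; linarith
  have p12 : (j : ℚ) + 1 ≠ 0 := by positivity
  have hU1 : U ((N : ℚ) + 1) a (σ + 1) =
      -4 * (2 * N - 3 * σ - 1) * (2 * a - σ) / ((2 * (N : ℚ) - 3 * σ) * ((N : ℚ) + a - 2 * σ - 1)) *
        U N a σ := by
    rw [div_mul_eq_mul_div, eq_div_iff (mul_ne_zero p1 p2)]
    linear_combination h1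
  have hU2 : U (N : ℚ) a (σ + 1) =
      (2 * N - 3 * σ - 3) * (N - a - σ) / ((2 * (N : ℚ) - 3 * σ - 1) * ((N : ℚ) + a - 2 * σ - 2)) *
        U ((N : ℚ) + 1) a (σ + 1) := by
    rw [div_mul_eq_mul_div, eq_div_iff (mul_ne_zero p3 p4)]
    linear_combination -h2
  have hr1 := rq_succ (N : ℚ) s j p6
  have hr2 := rq_diag (N : ℚ) s j p5
  rw [hU2, hU1, hr1]
  push_cast
  rw [hr2]
  unfold rho GG
  push_cast
  generalize U (N : ℚ) a σ = V
  generalize rq (N : ℚ) s j = r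
  rw [hσe] at p1 p2 p3 p4 ⊢
  have w1 : 2 * (N : ℚ) - 3 * (s - j - 1) = 2 * (N : ℚ) - 3 * s + 3 * j + 3 := by ring
  have w2 : (N : ℚ) + a - 2 * (s - j - 1) - 1 = N + a - 2 * s + 2 * j + 1 := by ring
  have w3 : 2 * (N : ℚ) - 3 * (s - j - 1) - 1 = 2 * N - 3 * s + 3 * j + 2 := by ring
  have w4 : (N : ℚ) + a - 2 * (s - j - 1) - 2 = N + a - 2 * s + 2 * j := by ring
  have w5 : 2 * (a : ℚ) - (s - j - 1) = 2 * a - s + j + 1 := by ring
  have w6 : 2 * (N : ℚ) - 3 * (s - j - 1) - 3 = 2 * N - 3 * s + 3 * j := by ring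
  have w7 : (N : ℚ) - a - (s - j - 1) = N - a - s + j + 1 := by ring
  have w8 : 2 * (N : ℚ) - 3 * s + 3 * (j + 1) = 2 * (N : ℚ) - 3 * s + 3 * j + 3 := by ring
  rw [w3] at p3
  rw [w2] at p2
  rw [w1] at p1
  rw [w4] at p4
  rw [w3, w6, w2, w4, w1, w5, w7, w8]
  exact stepalg N a s j V r _ _ _ _ _ _ _ _ _ _ _ rfl rfl rfl rfl rfl rfl rfl rfl
    p1 p2 p3 p4 p7 p5 p6 p8 p9 p11 p12

private theorem alLL (N a r : ℕ) (ha : r + 1 + 1 ≤ a) (hN : 4 * (r + 1 + a) ≤ N) :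
    al ((N : ℚ) + 1) (r + 1 + 1) * LL ((N : ℚ) + 1) a (r + 1 + 1) =
      rho N a (r + 1 : ℕ) * (al N (r + 1) * LL N a (r + 1)) := by
  obtain ⟨j, hj⟩ : ∃ j, a = r + 1 + (j + 1) := ⟨a - (r + 1 + 1), by omega⟩
  have hNq : (4 : ℚ) * (r + 1 + a) ≤ N := by exact_mod_cast hN
  have hjq : (0 : ℚ) ≤ j := Nat.cast_nonneg j
  have hrq : (0 : ℚ) ≤ r := Nat.cast_nonneg r
  have haq : (a : ℚ) = r + 1 + (j + 1) := by exact_mod_cast hj
  have hL1 : LL ((N : ℚ) + 1) a (r + 1 + 1) = rq ((N : ℚ) + 1) ((N : ℚ) - (r + 1 : ℕ)) j := by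
    unfold LL
    rw [if_pos ha]
    have e1 : a - (r + 1 + 1) = j := by omega
    have e2 : (N : ℚ) + 1 - ((r + 1 + 1 : ℕ) : ℚ) = (N : ℚ) - (r + 1 : ℕ) := by
      push_cast; ring
    rw [e1, e2]
  have hL2 : LL (N : ℚ) a (r + 1) = rq (N : ℚ) ((N : ℚ) - (r + 1 : ℕ)) (j + 1) := by
    unfold LL
    rw [if_pos (by omega)]
    have e1 : a - (r + 1) = j + 1 := by omega
    rw [e1]
  have q0 : 2 * (N : ℚ) - 3 * ((N : ℚ) - (r + 1 : ℕ)) + j + 1 ≠ 0 := by
    push_cast; apply ne_of_lt; linarith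
  have q1 : (N : ℚ) - 2 * ((N : ℚ) - (r + 1 : ℕ)) + 1 ≠ 0 := by
    push_cast; apply ne_of_lt; linarith
  have n0 : (N : ℚ) - 2 * (r + 1 : ℕ) - 1 ≠ 0 := by
    push_cast; apply ne_of_gt; linarith
  have hr := rq_shift (N : ℚ) ((N : ℚ) - (r + 1 : ℕ)) j q0 q1
  have hal := al_succ (N : ℚ) r n0
  rw [hL1, hL2, hr, hal]
  unfold rho
  generalize rq ((N : ℚ) + 1) ((N : ℚ) - (r + 1 : ℕ)) j = x
  generalize al (N : ℚ) (r + 1) = y
  push_cast at q0 q1 n0 ⊢
  have z1 : (j : ℚ) + 1 ≠ 0 := by positivity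
  have z2 : (2 * ((r : ℚ) + 1) + 1) ≠ 0 := by positivity
  have z3 : (N : ℚ) - 2 * (r + 1) ≠ 0 := by apply ne_of_gt; linarith
  have z4 : (N : ℚ) - 2 * (r + 1) - a ≠ 0 := by apply ne_of_gt; linarith
  have z5 : (N : ℚ) - 2 * (r + 1) + a - 1 ≠ 0 := by apply ne_of_gt; linarith
  have z6 : (N : ℚ) - a ≠ 0 := by apply ne_of_gt; linarith
  have z7 : (N : ℚ) - 2 * (r + 1) - 1 ≠ 0 := n0
  have w0 : (j : ℚ) = a - r - 2 := by linear_combination -haq
  have w1 : 2 * (N : ℚ) - 3 * ((N : ℚ) - (r + 1)) + j + 1 = -(N - 2 * (r + 1) - a) := by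
    rw [w0]; ring
  have w2 : (N : ℚ) - 2 * ((N : ℚ) - (r + 1)) + 1 = -(N - 2 * (r + 1) - 1) := by ring
  have w3 : 2 * (N : ℚ) - 2 * ((N : ℚ) - (r + 1)) + 1 = 2 * (r + 1) + 1 := by ring
  have w4 : (N : ℚ) - (r + 1) + j = N - 2 * (r + 1) + a - 1 := by rw [w0]; ring
  have w5 : (N : ℚ) - (r + 1) - j - 1 = N - a := by rw [w0]; ring
  have w6 : 2 * (N : ℚ) - 3 * ((N : ℚ) - (r + 1)) + 1 = -(N - 3 * (r + 1) - 1) := by ring
  have w7 : 2 * (N : ℚ) - 3 * ((N : ℚ) - (r + 1)) = -(N - 3 * (r + 1)) := by ring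
  have w8 : (a : ℚ) - (r + 1) = j + 1 := by rw [w0]; ring
  rw [w1, w2, w3, w4, w5, w6, w7, w8]
  generalize (N : ℚ) - 2 * (r + 1) - a = u1 at z4 ⊢
  generalize (N : ℚ) - 2 * (r + 1) - 1 = u2 at z7 ⊢
  generalize (N : ℚ) - 2 * (r + 1) + a - 1 = u3 at z5 ⊢
  generalize (N : ℚ) - a = u4 at z6 ⊢
  generalize (N : ℚ) - 2 * (r + 1) = u5 at z3 ⊢
  generalize (N : ℚ) - 3 * (r + 1) = u6
  generalize 2 * ((r : ℚ) + 1) + 1 = u7 at z2 ⊢
  generalize (j : ℚ) + 1 = u8 at z1 ⊢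
  field_simp
  ring

private theorem base1 (N a : ℕ) (ha : 1 ≤ a) (hN : 4 * (1 + a) ≤ N) :
    U N a 1 = al N 1 * LL N a 1 := by
  obtain ⟨c, rfl⟩ : ∃ c, a = c + 1 := ⟨a - 1, by omega⟩
  have hNq : (4 : ℚ) * (1 + (c + 1)) ≤ N := by exact_mod_cast hN
  have hcq : (0 : ℚ) ≤ c := Nat.cast_nonneg c
  have h1 := U_closed (N : ℚ) (c + 1) 1 (2 * c) (by omega)
  have h2 : al (N : ℚ) 1 = -8 * (2 * N - 3) := by
    unfold al
    have e1 := ch_step (2 * (N : ℚ) - 2 * (1 : ℕ) - 1) 0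
    rw [ch_zero] at e1
    simp only [Nat.cast_zero, zero_add, one_mul, mul_one, sub_zero] at e1
    rw [e1]
    simp only [Nat.sub_self, ch_zero, od, prod_range_succ, prod_range_zero, Nat.factorial_one]
    push_cast
    ring
  have h3 : LL (N : ℚ) (c + 1) 1 = 4 ^ c * ch ((N : ℚ) + c - 2) (2 * c) / (2 * c + 1) := by
    unfold LL
    rw [if_pos (by omega), Nat.add_sub_cancel]
    unfold rq
    have e1 : (N : ℚ) - (1 : ℕ) + c - 1 = N + c - 2 := by push_cast; ring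
    have e2 : 2 * (N : ℚ) - 3 * ((N : ℚ) - (1 : ℕ)) + c - 1 = -N + c + 2 := by push_cast; ring
    have e3 : (N : ℚ) - 2 * ((N : ℚ) - (1 : ℕ)) + c = -N + c + 2 := by push_cast; ring
    have e4 : ∏ i ∈ range c, (2 * (N : ℚ) - 2 * ((N : ℚ) - (1 : ℕ)) + 1 + 2 * (i : ℚ)) =
        od c * (2 * c + 1) := by
      rw [← od_succ]
      unfold od
      rw [prod_range_succ']
      simp only [Nat.cast_zero, mul_zero, zero_add, mul_one]
      apply prod_congr rfl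
      intro i _
      push_cast
      ring
    rw [e1, e2, e3, e4]
    have e5 : ch (-(N : ℚ) + c + 2) c ≠ 0 := by
      apply ch_ne_zero
      intro i _
      have : (0 : ℚ) ≤ i := Nat.cast_nonneg i
      apply ne_of_lt
      linarith
    have e6 : od c ≠ 0 := by
      unfold od
      rw [prod_ne_zero_iff]
      intro i _
      positivity
    have e7 : (2 * (c : ℚ) + 1) ≠ 0 := by positivity
    field_simp
  rw [h1, h2, h3]
  have e1 : (N : ℚ) + ((c + 1 : ℕ) : ℚ) - 2 * ((1 : ℕ) : ℚ) - 1 = N + c - 2 := by push_cast; ring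
  rw [e1]
  generalize ch ((N : ℚ) + c - 2) (2 * c) = X
  have e2 : (-1 : ℚ) ^ (2 * c + 1) = -1 := by
    rw [pow_succ, pow_mul]
    norm_num
  have e7 : (2 * (c : ℚ) + 1) ≠ 0 := by positivity
  rw [e2]
  push_cast
  field_simp
  ring

theorem Ur_eq (N a s : ℕ) (hs : 1 ≤ s) (ha : 1 ≤ a) (hN : 4 * (s + a) ≤ N) :
    ∑ k ∈ range s, U N a (s - k) * rq N s k = al N s * LL N a s := by
  induction s, hs using Nat.le_induction generalizing N with
  | base =>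
    rw [sum_range_one, rq_zero, mul_one, Nat.sub_zero]
    exact base1 N a ha hN
  | succ s hs ih =>
    obtain ⟨M, rfl⟩ : ∃ M, N = M + 1 := ⟨N - 1, by omega⟩
    have hM : 4 * (s + a) ≤ M := by omega
    have ihM := ih M hM
    have key : ∑ k ∈ range (s + 1), U ((M + 1 : ℕ) : ℚ) a (s + 1 - k) *
        rq ((M + 1 : ℕ) : ℚ) (s + 1 : ℕ) k =
        rho M a s * ∑ k ∈ range s, U M a (s - k) * rq M s k := by
      have hz : U (M : ℚ) a (s - s) * rq (M : ℚ) s s = 0 := by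
        rw [rq_self _ _ hs, mul_zero]
      have hext : ∑ k ∈ range s, U (M : ℚ) a (s - k) * rq (M : ℚ) s k =
          ∑ k ∈ range (s + 1), U (M : ℚ) a (s - k) * rq (M : ℚ) s k := by
        rw [sum_range_succ, hz, add_zero]
      rw [hext, sum_range_succ', sum_range_succ' (fun k => U (M : ℚ) a (s - k) * rq (M : ℚ) s k)]
      push_cast
      have h0 := step0 M a s hs ha hM
      push_cast at h0
      have hk : ∀ j ∈ range s, U ((M : ℚ) + 1) a (s - j) *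
          rq ((M : ℚ) + 1) ((s : ℚ) + 1) (j + 1) =
          rho M a s * (U M a (s - (j + 1)) * rq M s (j + 1)) +
          (GG M a s (j + 1) (U M a (s - (j + 1)) * rq M s (j + 1)) -
            GG M a s j (U M a (s - j) * rq M s j)) := by
        intro j hj
        have hj' : j < s := mem_range.1 hj
        have h := stepk M a s (s - (j + 1)) j (by omega) ha hM
        have e2 : s - j = s - (j + 1) + 1 := by omega
        rw [e2]
        push_cast at h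
        exact h
      rw [sum_congr rfl hk, sum_add_distrib, ← mul_sum,
        sum_range_sub (fun j => GG (M : ℚ) a s j (U (M : ℚ) a (s - j) * rq (M : ℚ) s j))]
      have h00 : GG (M : ℚ) a s s (U (M : ℚ) a (s - s) * rq (M : ℚ) s s) = 0 := by
        rw [hz]
        unfold GG
        ring
      rw [h00, h0]
      ring
    rw [key, ihM]
    push_cast
    rcases lt_trichotomy s a with h | h | h
    · obtain ⟨r, rfl⟩ : ∃ r, s = r + 1 := ⟨s - 1, by omega⟩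
      exact (alLL M a r h hM).symm
    · have e1 : LL ((M : ℚ) + 1) a (s + 1) = 0 := by
        unfold LL
        rw [if_neg (by omega)]
      rw [e1, h]
      unfold rho
      ring
    · have e1 : LL ((M : ℚ) + 1) a (s + 1) = 0 := by
        unfold LL
        rw [if_neg (by omega)]
      have e2 : LL (M : ℚ) a s = 0 := by
        unfold LL
        rw [if_neg (by omega)]
      rw [e1, e2]
      ring
end Pool.Agent.BZ
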