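import Pool.Agent.Lib.MP_06b9d2_bz.Inv
import Pool.Agent.Lib.MP_06b9d2_bz.UrA
/-! # BZ.LDU: matrix identities on the positions `1..n`, `8 n ≤ N` -/
set_option autoImplicit false
open Finset
namespace Pool.Agent.BZ

private theorem LDU_comm {n : ℕ} {f g : ℕ → ℕ → ℚ}
    (h : ∀ a ∈ Icc 1 n, ∀ b ∈ Icc 1 n, ∑ t ∈ Icc 1 n, f a t * g t b = if a = b then 1 else 0) :
    ∀ a ∈ Icc 1 n, ∀ b ∈ Icc 1 n, ∑ t ∈ Icc 1 n, g a t * f t b = if a = b then 1 else 0 := by
  classical
  let A : Matrix (Icc 1 n) (Icc 1 n) ℚ := Matrix.of fun i j => f i j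
  let B : Matrix (Icc 1 n) (Icc 1 n) ℚ := Matrix.of fun i j => g i j
  have h1 : A * B = 1 := by
    ext i j
    rw [Matrix.mul_apply, Matrix.one_apply]
    have h2 := h i i.2 j j.2
    rw [← Finset.sum_coe_sort (Icc 1 n) (fun t => f i t * g t j)] at h2
    simp only [Subtype.ext_iff]
    exact h2
  have h3 : B * A = 1 := mul_eq_one_comm.1 h1
  intro a ha b hb
  have h4 := congrFun (congrFun h3 ⟨a, ha⟩) ⟨b, hb⟩
  rw [Matrix.mul_apply, Matrix.one_apply] at h4
  rw [← Finset.sum_coe_sort (Icc 1 n) (fun t => g a t * f t b)]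
  simp only [Subtype.ext_iff] at h4
  exact h4

private theorem LDU_q0 (N b : ℚ) : rq N b 0 = 1 := by
  simp [rq, od, ch]

private theorem LDU_Q0 (N b : ℚ) : Rq N b 0 = 1 := by
  simp [Rq, od, ch]

private theorem LDU_one {N n : ℕ} (hN : 8 * n ≤ N) {a b : ℕ} (ha : 1 ≤ a) (han : a ≤ n) (hbn : b ≤ n) :
    ∑ t ∈ Icc 1 n, RR N a t * rr N t b = if a = b then 1 else 0 := by
  rcases Nat.lt_trichotomy a b with h | h | h
  · rw [if_neg h.ne]
    have hsub : Icc a b ⊆ Icc 1 n := Icc_subset_Icc ha hbn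
    rw [← Finset.sum_subset hsub]
    · obtain ⟨m, rfl⟩ : ∃ m, b = a + m := ⟨b - a, by omega⟩
      have hm : 0 < m := by omega
      have h1 := inv1 (N : ℤ) (a : ℤ) m hm (by intro c hc1 hc2; omega)
      rw [← h1]
      have hI : Icc a (a + m) = (range (m + 1)).image (fun j => a + j) := by
        ext t
        simp only [mem_Icc, mem_image, mem_range]
        constructor
        · rintro ⟨h2, h3⟩
          exact ⟨t - a, by omega, by omega⟩
        · rintro ⟨j, hj, rfl⟩
          omega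
      rw [hI, Finset.sum_image (fun x _ y _ hxy => by simpa using hxy)]
      refine Finset.sum_congr rfl fun j hj => ?_
      have hj' : j ≤ m := Nat.lt_succ_iff.1 (mem_range.1 hj)
      rw [RR, rr, if_pos (by omega), if_pos (by omega), show a + j - a = j by omega,
        show a + m - (a + j) = m - j by omega]
      push_cast
      rfl
    · intro t _ ht
      rw [mem_Icc, not_and_or, not_le, not_le] at ht
      rcases ht with ht | ht
      · rw [RR, if_neg (by omega), zero_mul]
      · rw [rr, if_neg (by omega), mul_zero]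
  · subst h
    rw [if_pos rfl, Finset.sum_eq_single a]
    · rw [RR, rr, if_pos le_rfl, if_pos le_rfl, Nat.sub_self, LDU_q0, LDU_Q0, one_mul]
    · intro t _ ht
      rcases Nat.lt_or_gt_of_ne ht with h1 | h1
      · rw [RR, if_neg (by omega), zero_mul]
      · rw [rr, if_neg (by omega), mul_zero]
    · intro h1
      exact absurd (mem_Icc.2 ⟨ha, han⟩) h1
  · rw [if_neg h.ne']
    refine Finset.sum_eq_zero fun t _ => ?_
    by_cases h1 : a ≤ t
    · rw [rr, if_neg (by omega), mul_zero]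
    · rw [RR, if_neg h1, zero_mul]

private theorem LDU_two {N n : ℕ} (hN : 8 * n ≤ N) {a b : ℕ} (ha : 1 ≤ a) (han : a ≤ n) (hb : 1 ≤ b) :
    ∑ t ∈ Icc 1 n, ll N a t * LL N t b = if a = b then 1 else 0 := by
  rcases Nat.lt_trichotomy a b with h | h | h
  · rw [if_neg h.ne]
    refine Finset.sum_eq_zero fun t _ => ?_
    by_cases h1 : t ≤ a
    · rw [LL, if_neg (by omega), mul_zero]
    · rw [ll, if_neg h1, zero_mul]
  · subst h
    rw [if_pos rfl, Finset.sum_eq_single a]
    · rw [ll, LL, if_pos le_rfl, if_pos le_rfl, Nat.sub_self, LDU_q0, LDU_Q0, one_mul]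
    · intro t _ ht
      rcases Nat.lt_or_gt_of_ne ht with h1 | h1
      · rw [LL, if_neg (by omega), mul_zero]
      · rw [ll, if_neg (by omega), zero_mul]
    · intro h1
      exact absurd (mem_Icc.2 ⟨ha, han⟩) h1
  · rw [if_neg h.ne']
    have hsub : Icc b a ⊆ Icc 1 n := Icc_subset_Icc hb han
    rw [← Finset.sum_subset hsub]
    · obtain ⟨m, rfl⟩ : ∃ m, a = b + m := ⟨a - b, by omega⟩
      have hm : 0 < m := by omega
      have h1 := inv1 (N : ℤ) ((N : ℤ) - (b + m : ℕ)) m hm (by intro c hc1 hc2; omega)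
      rw [← h1]
      have hI : Icc b (b + m) = (range (m + 1)).image (fun j => b + m - j) := by
        ext t
        simp only [mem_Icc, mem_image, mem_range]
        constructor
        · rintro ⟨h2, h3⟩
          exact ⟨b + m - t, by omega, by omega⟩
        · rintro ⟨j, hj, rfl⟩
          omega
      rw [hI, Finset.sum_image (fun x hx y hy hxy => by
        have hx' := mem_range.1 hx
        have hy' := mem_range.1 hy
        have hxy' : b + m - x = b + m - y := hxy
        omega)]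
      refine Finset.sum_congr rfl fun j hj => ?_
      have hj' : j ≤ m := Nat.lt_succ_iff.1 (mem_range.1 hj)
      rw [ll, LL, if_pos (by omega), if_pos (by omega), show b + m - (b + m - j) = j by omega,
        show b + m - j - b = m - j by omega]
      push_cast
      have e1 : (N : ℚ) - (b + m) + m = N - b := by ring
      rw [e1]
    · intro t _ ht
      rw [mem_Icc, not_and_or, not_le, not_le] at ht
      rcases ht with ht | ht
      · rw [LL, if_neg (by omega), mul_zero]
      · rw [ll, if_neg (by omega), zero_mul]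

variable {N n : ℕ} (hN : 8 * n ≤ N) {a b : ℕ} (ha : 1 ≤ a) (han : a ≤ n) (hb : 1 ≤ b) (hbn : b ≤ n)
include hN ha han hb hbn
theorem RR_rr : ∑ t ∈ Icc 1 n, RR N a t * rr N t b = if a = b then 1 else 0 := LDU_one hN ha han hbn
theorem rr_RR : ∑ t ∈ Icc 1 n, rr N a t * RR N t b = if a = b then 1 else 0 :=
  LDU_comm (f := fun a b => RR N a b) (g := fun a b => rr N a b)
    (fun _ h1 _ h2 => LDU_one hN (mem_Icc.1 h1).1 (mem_Icc.1 h1).2 (mem_Icc.1 h2).2) a
    (mem_Icc.2 ⟨ha, han⟩) b (mem_Icc.2 ⟨hb, hbn⟩)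
theorem ll_LL : ∑ t ∈ Icc 1 n, ll N a t * LL N t b = if a = b then 1 else 0 := LDU_two hN ha han hb
theorem LL_ll : ∑ t ∈ Icc 1 n, LL N a t * ll N t b = if a = b then 1 else 0 :=
  LDU_comm (f := fun a b => ll N a b) (g := fun a b => LL N a b)
    (fun _ h1 _ h2 => LDU_two hN (mem_Icc.1 h1).1 (mem_Icc.1 h1).2 (mem_Icc.1 h2).1) a
    (mem_Icc.2 ⟨ha, han⟩) b (mem_Icc.2 ⟨hb, hbn⟩)
theorem U_rr : ∑ t ∈ Icc 1 n, U N a t * rr N t b = al N b * LL N a b := by
  rw [← Ur_eq N a b hb ha (by omega)]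
  have hsub : Icc 1 b ⊆ Icc 1 n := Icc_subset_Icc le_rfl hbn
  rw [← Finset.sum_subset hsub]
  · have hI : Icc 1 b = (range b).image (fun k => b - k) := by
      ext t
      simp only [mem_Icc, mem_image, mem_range]
      constructor
      · rintro ⟨h2, h3⟩
        exact ⟨b - t, by omega, by omega⟩
      · rintro ⟨j, hj, rfl⟩
        omega
    rw [hI, Finset.sum_image (fun x hx y hy hxy => by
      have hx' := mem_range.1 hx
      have hy' := mem_range.1 hy
      have hxy' : b - x = b - y := hxy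
      omega)]
    refine Finset.sum_congr rfl fun k hk => ?_
    have hk' := mem_range.1 hk
    rw [rr, if_pos (by omega), show b - (b - k) = k by omega]
  · intro t ht1 ht2
    have h1 := (mem_Icc.1 ht1).1
    rw [mem_Icc, not_and_or, not_le, not_le] at ht2
    rw [rr, if_neg (by omega), mul_zero]
theorem U_LDU : U N a b = ∑ t ∈ Icc 1 n, LL N a t * al N t * RR N t b := by
  have h1 : ∀ t ∈ Icc 1 n, LL N a t * al N t * RR N t b =
      ∑ u ∈ Icc 1 n, U N a u * (rr N u t * RR N t b) := by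
    intro t ht
    rw [mul_comm (LL (N : ℚ) a t), ← U_rr hN ha han (mem_Icc.1 ht).1 (mem_Icc.1 ht).2, Finset.sum_mul]
    refine Finset.sum_congr rfl fun u _ => ?_
    ring
  rw [Finset.sum_congr rfl h1, Finset.sum_comm]
  have h2 : ∀ u ∈ Icc 1 n, ∑ t ∈ Icc 1 n, U N a u * (rr N u t * RR N t b) =
      if u = b then U N a b else 0 := by
    intro u hu
    rw [← Finset.mul_sum, rr_RR hN (mem_Icc.1 hu).1 (mem_Icc.1 hu).2 hb hbn]
    split_ifs with h3
    · rw [h3, mul_one]
    · rw [mul_zero]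
  rw [Finset.sum_congr rfl h2, Finset.sum_ite_eq', if_pos (mem_Icc.2 ⟨hb, hbn⟩)]
theorem ll_U : ∑ t ∈ Icc 1 n, ll N a t * U N t b = al N a * RR N a b := by
  have h1 : ∀ t ∈ Icc 1 n, ll N a t * U N t b =
      ∑ u ∈ Icc 1 n, (ll N a t * LL N t u) * (al N u * RR N u b) := by
    intro t ht
    rw [U_LDU hN (mem_Icc.1 ht).1 (mem_Icc.1 ht).2 hb hbn, Finset.mul_sum]
    refine Finset.sum_congr rfl fun u _ => ?_
    ring
  rw [Finset.sum_congr rfl h1, Finset.sum_comm]
  have h2 : ∀ u ∈ Icc 1 n, ∑ t ∈ Icc 1 n, (ll N a t * LL N t u) * (al N u * RR N u b) =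
      if a = u then al N u * RR N u b else 0 := by
    intro u hu
    rw [← Finset.sum_mul, ll_LL hN ha han (mem_Icc.1 hu).1 (mem_Icc.1 hu).2]
    split_ifs with h3
    · rw [one_mul]
    · rw [zero_mul]
  rw [Finset.sum_congr rfl h2, Finset.sum_ite_eq, if_pos (mem_Icc.2 ⟨ha, han⟩)]
end Pool.Agent.BZ
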