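import Pool.Agent.Lib.MP_06b9d2_bz.GSim
import Pool.Agent.Lib.MP_06b9d2_bz.LDU
/-! # BZ.GSm2: self-similarity, assembled (see the header of GSim) -/
set_option autoImplicit false
open Finset
namespace Pool.Agent.BZ

private theorem gsm2_pow (k : ℕ) : padicValRat 2 ((2 : ℚ) ^ k) = k := by
  have h : padicValRat 2 ((2 : ℚ) ^ (k : ℤ)) = k * padicValRat 2 (2 : ℚ) :=
    padicValRat.zpow (p := 2) (2 : ℚ)
  have h2 : padicValRat 2 (2 : ℚ) = 1 := by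
    have := padicValRat.self (p := 2) (by norm_num)
    exact_mod_cast this
  rw [zpow_natCast] at h
  rw [h, h2, mul_one]

private theorem gsm2_N2 (P : Par) : ∃ N2 : ℕ, (N2 : ℚ) = (P.N : ℚ) - 2 * P.s0 + 2 ∧
    4 * (P.l + 1) ≤ N2 ∧ 4 * (P.s0 + P.l + 1) ≤ P.N := by
  have h1 := P.N_big
  have h2 : P.N0 = 2 * P.s0 + P.l := rfl
  have h3 : 1 ≤ P.s0 := Nat.le_add_right 1 (2 ^ P.E)
  refine ⟨P.N + 2 - 2 * P.s0, ?_, by omega, by omega⟩
  rw [Nat.cast_sub (by omega)]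
  push_cast
  ring

private theorem gsm2_K (P : Par) : Ge (3 - (P.h : ℤ)) (al P.N P.s0 / 2 ^ P.H) := by
  obtain ⟨h1, h2⟩ := val_al_s0 P
  have h3 := Ge.div (q := (2 : ℚ) ^ P.H) (b := P.H) (Ge.of_val h2.ge) (by
    rw [gsm2_pow])
  exact h3.mono (by omega)

private theorem gsm2_term (P : Par) (a b t : ℕ) (ht : 1 ≤ t) (hta : t ≤ a) (htb : t ≤ b)
    (ha : 2 * a ≤ P.l + 1) (hb : 2 * b ≤ P.l + 1) :
    Ge (2 * ((a : ℤ) + b) + P.E - 7 * P.L - 18)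
      (LL P.N (P.s0 + a - 1) (P.s0 + t - 1) * rho P.N P.s0 (t - 1) *
          RR P.N (P.s0 + t - 1) (P.s0 + b - 1) -
        LL ((P.N : ℚ) - 2 * P.s0 + 2) a t * rho ((P.N : ℚ) - 2 * P.s0 + 2) 1 (t - 1) *
          RR ((P.N : ℚ) - 2 * P.s0 + 2) t b) := by
  obtain ⟨l1, l2⟩ := LL_sim P a t ht hta ha
  obtain ⟨r1, r2⟩ := RR_sim P b t ht htb hb
  obtain ⟨p1, p2⟩ := rho_sim P (t - 1) (by omega)
  have hE : P.E = 100 * P.L := rfl
  have hL : 1000 ≤ P.L := by have := P.hL; omega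
  have hcast : ((t - 1 : ℕ) : ℤ) = (t : ℤ) - 1 := by omega
  rw [hcast] at p1 p2
  set A := LL P.N (P.s0 + a - 1) (P.s0 + t - 1)
  set A' := LL ((P.N : ℚ) - 2 * P.s0 + 2) a t
  set B := rho P.N P.s0 (t - 1)
  set B' := rho ((P.N : ℚ) - 2 * P.s0 + 2) 1 (t - 1)
  set C := RR P.N (P.s0 + t - 1) (P.s0 + b - 1)
  set C' := RR ((P.N : ℚ) - 2 * P.s0 + 2) t b
  have b1 : Ge (4 * ((t : ℤ) - 1) - 4 * P.L - 8) B := by
    have := (p1.mono (show 4 * ((t : ℤ) - 1) - 4 * P.L - 8 ≤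
      4 * ((t : ℤ) - 1) + P.E - 5 * P.L - 12 by omega)).add p2
    rwa [sub_add_cancel] at this
  have c1 : Ge (2 * ((b : ℤ) - t) - P.L - 1) C := by
    have := (r1.mono (show 2 * ((b : ℤ) - t) - P.L - 1 ≤
      2 * ((b : ℤ) - t) + P.E - 2 * P.L - 4 by omega)).add r2
    rwa [sub_add_cancel] at this
  have e : A * B * C - A' * B' * C' = (A - A') * B * C + A' * (B - B') * C + A' * B' * (C - C') := by
    ring
  rw [e]
  refine ((((l1.mul b1).mul c1).mono ?_).add (((l2.mul p1).mul c1).mono ?_)).add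
    (((l2.mul p2).mul r1).mono ?_)
  all_goals omega

theorem X_sim (P : Par) (s q : ℕ) (hs0 : P.s0 ≤ s) (hsm : s ≤ P.m) (hq0 : P.s0 ≤ q) (hqm : q ≤ P.m) :
    Ge (2 * ((s : ℤ) + q - 2 * P.s0) - P.h + P.E - 20 * P.L)
      ((∑ u ∈ Icc P.s0 (min s q), LL P.N s u * al P.N u * RR P.N u q) / 2 ^ P.H -
        P.c0 * U ((P.N : ℚ) - 2 * P.s0 + 2) (s - P.s0 + 1) (q - P.s0 + 1)) := by
  obtain ⟨N2, hN2, hN2l, hNl⟩ := gsm2_N2 P
  have hm := P.m_eq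
  have hs1 : 1 ≤ P.s0 := Nat.le_add_right 1 (2 ^ P.E)
  obtain ⟨a, ha⟩ : ∃ a, a = s - P.s0 + 1 := ⟨_, rfl⟩
  obtain ⟨b, hb⟩ : ∃ b, b = q - P.s0 + 1 := ⟨_, rfl⟩
  have hL : 1000 ≤ P.L := by have := P.hL; omega
  have hsa : P.s0 + a - 1 = s := by omega
  have hqb : P.s0 + b - 1 = q := by omega
  have ha2 : 2 * a ≤ P.l + 1 := by omega
  have hb2 : 2 * b ≤ P.l + 1 := by omega
  rw [← ha, ← hb]
  -- the right hand side
  have hU : U ((P.N : ℚ) - 2 * P.s0 + 2) a b = ∑ t ∈ Icc 1 (min a b),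
      LL ((P.N : ℚ) - 2 * P.s0 + 2) a t * al ((P.N : ℚ) - 2 * P.s0 + 2) t *
        RR ((P.N : ℚ) - 2 * P.s0 + 2) t b := by
    rw [← hN2, U_LDU (N := N2) (n := (P.l + 1) / 2) (by omega) (by omega) (by omega) (by omega)
      (by omega)]
    symm
    apply Finset.sum_subset (Icc_subset_Icc le_rfl (by omega))
    intro t ht1 ht2
    rw [mem_Icc] at ht1 ht2
    by_cases h1 : t ≤ a
    · have h2 : ¬ t ≤ b := fun h => ht2 ⟨ht1.1, le_min h1 h⟩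
      rw [RR, if_neg h2, mul_zero]
    · rw [LL, if_neg h1, zero_mul, zero_mul]
  -- the left hand side
  have hX : ∑ u ∈ Icc P.s0 (min s q), LL P.N s u * al P.N u * RR P.N u q =
      ∑ t ∈ Icc 1 (min a b), LL P.N (P.s0 + a - 1) (P.s0 + t - 1) * al P.N (P.s0 + t - 1) *
        RR P.N (P.s0 + t - 1) (P.s0 + b - 1) := by
    have hI : Icc P.s0 (min s q) = (Icc 1 (min a b)).image (fun t => P.s0 + t - 1) := by
      ext u
      simp only [mem_Icc, mem_image]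
      constructor
      · rintro ⟨h1, h2⟩
        refine ⟨u - P.s0 + 1, ⟨by omega, ?_⟩, by omega⟩
        have h3 := le_min_iff.1 h2
        exact le_min (by omega) (by omega)
      · rintro ⟨t, ⟨h1, h2⟩, rfl⟩
        have h3 := le_min_iff.1 h2
        exact ⟨by omega, le_min (by omega) (by omega)⟩
    rw [hI, Finset.sum_image, hsa, hqb]
    intro x hx y hy hxy
    have hx' := (mem_Icc.1 hx).1
    have hy' := (mem_Icc.1 hy).1
    have hxy' : P.s0 + x - 1 = P.s0 + y - 1 := hxy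
    omega
  have hne : (-8 * (2 * ((P.N : ℚ) - 2 * P.s0 + 2) - 3)) ≠ 0 := by
    rw [← hN2]
    have h1 : (1 : ℚ) ≤ N2 := by exact_mod_cast (by omega : 1 ≤ N2)
    have h2 : (4 : ℚ) ≤ N2 := by exact_mod_cast (by omega : 4 ≤ N2)
    have : (0 : ℚ) < 2 * N2 - 3 := by linarith
    nlinarith
  have hc : ∀ t ∈ Icc 1 (min a b), P.c0 * al ((P.N : ℚ) - 2 * P.s0 + 2) t =
      al P.N P.s0 / 2 ^ P.H * rho ((P.N : ℚ) - 2 * P.s0 + 2) 1 (t - 1) := by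
    intro t ht
    rw [mem_Icc] at ht
    have h3 := le_min_iff.1 ht.2
    have h1 : al ((P.N : ℚ) - 2 * P.s0 + 2) t =
        al ((P.N : ℚ) - 2 * P.s0 + 2) 1 * rho ((P.N : ℚ) - 2 * P.s0 + 2) 1 (t - 1) := by
      rw [← hN2]
      have := al_ratio N2 1 (t - 1) le_rfl (by omega)
      rwa [show 1 + (t - 1) = t by omega] at this
    rw [h1, al_one, Par.c0, ← mul_assoc, div_mul_cancel₀ _ hne]
  have hK := gsm2_K P
  have key : (∑ u ∈ Icc P.s0 (min s q), LL P.N s u * al P.N u * RR P.N u q) / 2 ^ P.H -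
      P.c0 * U ((P.N : ℚ) - 2 * P.s0 + 2) a b = ∑ t ∈ Icc 1 (min a b),
      al P.N P.s0 / 2 ^ P.H * (LL P.N (P.s0 + a - 1) (P.s0 + t - 1) * rho P.N P.s0 (t - 1) *
          RR P.N (P.s0 + t - 1) (P.s0 + b - 1) -
        LL ((P.N : ℚ) - 2 * P.s0 + 2) a t * rho ((P.N : ℚ) - 2 * P.s0 + 2) 1 (t - 1) *
          RR ((P.N : ℚ) - 2 * P.s0 + 2) t b) := by
    rw [hX, hU, Finset.sum_div, Finset.mul_sum, ← Finset.sum_sub_distrib]
    refine Finset.sum_congr rfl fun t ht => ?_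
    have h1 := hc t ht
    rw [mem_Icc] at ht
    have h3 := le_min_iff.1 ht.2
    have h2 : al P.N (P.s0 + t - 1) = al P.N P.s0 * rho P.N P.s0 (t - 1) := by
      have := al_ratio P.N P.s0 (t - 1) hs1 (by omega)
      rwa [show P.s0 + (t - 1) = P.s0 + t - 1 by omega] at this
    rw [h2]
    have h4 : P.c0 * (LL ((P.N : ℚ) - 2 * P.s0 + 2) a t * al ((P.N : ℚ) - 2 * P.s0 + 2) t *
        RR ((P.N : ℚ) - 2 * P.s0 + 2) t b) =
        LL ((P.N : ℚ) - 2 * P.s0 + 2) a t * (P.c0 * al ((P.N : ℚ) - 2 * P.s0 + 2) t) *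
        RR ((P.N : ℚ) - 2 * P.s0 + 2) t b := by ring
    rw [h4, h1]
    ring
  rw [key]
  refine Ge.sum _ _ fun t ht => ?_
  rw [mem_Icc] at ht
  have h3 := le_min_iff.1 ht.2
  refine (hK.mul (gsm2_term P a b t ht.1 h3.1 h3.2 ha2 hb2)).mono ?_
  omega

/-- `c0` has valuation `-h` -/
theorem c0_ge (P : Par) : Ge (-(P.h : ℤ)) P.c0 := by
  obtain ⟨N2, hN2, hN2l, _⟩ := gsm2_N2 P
  have hK := gsm2_K P
  unfold Par.c0
  rw [← hN2]
  have h1 : (-8 * (2 * (N2 : ℚ) - 3)) = (2 : ℚ) ^ 3 * ((-(2 * (N2 : ℤ) - 3) : ℤ) : ℚ) := by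
    push_cast
    ring
  have h2 := val_odd (z := -(2 * (N2 : ℤ) - 3)) ⟨-(N2 : ℤ) + 1, by ring⟩
  have h3 : padicValRat 2 (-8 * (2 * (N2 : ℚ) - 3)) ≤ 3 := by
    rw [h1, padicValRat.mul (by norm_num) h2.1, h2.2, gsm2_pow]
    norm_num
  exact (hK.div h3).mono (by omega)
end Pool.Agent.BZ
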