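import Pool.Agent.Lib.MP_06b9d2_bz.XFb
import Pool.Agent.Lib.MP_06b9d2_bz.GSm2
/-! # BZ.FD: `X1` on the high block
`X1_hh`, `X_sim`, `c0_ge`, `U_int` (`N''` is an integer), `U_nn`, `U_zero`.  With `a = s - s0 + 1`, `b = q - s0 + 1`:
`X1 = c0 U N'' a b + err`, `v(c0 U N'' a b) ≥ -h + 2(a+b) - 1`, `err ≥ 2(a+b-2) - h + E - 20 L`. F6b: `a, b ≥ n`, `h + 2 ≤ 4n`.
F6c: `U n a b = 0`, `v ≥ -h + 2(a+b) - 1 + L - log(2a)`. -/
set_option autoImplicit false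
open Finset
namespace Pool.Agent.BZ

/-- the error term, uniformly -/
private theorem FD_err (P : Par) (s q : ℕ) (hs : P.s0 ≤ s) (hs' : s ≤ P.m) (hq : P.s0 ≤ q) (hq' : q ≤ P.m) :
    Ge (-(P.h : ℤ) + 80 * P.L)
      (P.X1 s q - P.c0 * U ((P.N : ℚ) - 2 * P.s0 + 2) (s - P.s0 + 1) (q - P.s0 + 1)) := by
  have h1 := X_sim P s q hs hs' hq hq'
  rw [← X1_hh P s q hs hs' hq hq'] at h1
  refine h1.mono ?_
  have hE : P.E = 100 * P.L := rfl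
  rw [hE]
  push_cast
  omega

private theorem FD_int (P : Par) (a b : ℕ) :
    Ge (2 * ((a : ℤ) + b) - 1) (U ((P.N : ℚ) - 2 * P.s0 + 2) a b) := by
  have h1 := U_int ((P.N : ℤ) - 2 * P.s0 + 2) a b
  have e : (((P.N : ℤ) - 2 * P.s0 + 2 : ℤ) : ℚ) = (P.N : ℚ) - 2 * P.s0 + 2 := by push_cast; ring
  rwa [e] at h1

private theorem FD_log (a : ℕ) (ha : 1 ≤ a) : (Nat.log 2 (2 * a) : ℤ) ≤ 2 * a - 1 := by
  have h1 : Nat.log 2 (2 * a) < 2 * a := Nat.log_lt_self 2 (by omega)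
  omega

/-- difference between `N''` and `n` -/
private theorem FD_dif (P : Par) (a b : ℕ) (ha : 1 ≤ a) (hb : 1 ≤ b) :
    Ge ((P.g : ℤ) + 1)
      (P.c0 * (U ((P.N : ℚ) - 2 * P.s0 + 2) a b - U P.n a b)) := by
  refine ((c0_ge P).mul (U_nn P a b ha)).mono ?_
  have h1 := FD_log a ha
  have h2 := P.g_big
  have h3 : P.g = P.L / 2 := rfl
  have h4 : 2 * P.g ≤ P.L := by omega
  have h5 : P.h ≤ P.h * (P.n + 2) := Nat.le_mul_of_pos_right _ (by omega)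
  omega

variable (P : Par) (s q : ℕ) (hs : P.s0 ≤ s) (hs' : s ≤ P.m) (hq : P.s0 ≤ q) (hq' : q ≤ P.m)
include hs hs' hq hq'
theorem F6a : Ge (-(P.h : ℤ)) (P.X1 s q) := by
  have h1 := FD_err P s q hs hs' hq hq'
  have h2 := (c0_ge P).mul (FD_int P (s - P.s0 + 1) (q - P.s0 + 1))
  have h3 : Ge (-(P.h : ℤ)) (P.X1 s q - P.c0 * U ((P.N : ℚ) - 2 * P.s0 + 2) (s - P.s0 + 1) (q - P.s0 + 1)) :=
    h1.mono (by omega)
  have h4 : Ge (-(P.h : ℤ)) (P.c0 * U ((P.N : ℚ) - 2 * P.s0 + 2) (s - P.s0 + 1) (q - P.s0 + 1)) :=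
    h2.mono (by push_cast; omega)
  have h5 := h3.add h4
  rwa [sub_add_cancel] at h5
theorem F6b (h1 : P.s0 + P.n ≤ s + 1) (h2 : P.s0 + P.n ≤ q + 1) : Ge 1 (P.X1 s q) := by
  have h3 := FD_err P s q hs hs' hq hq'
  have h4 := (c0_ge P).mul (FD_int P (s - P.s0 + 1) (q - P.s0 + 1))
  have h5 := P.h_le
  have h6 := P.hh2
  have h7 := P.hL
  have h8 : Ge 1 (P.X1 s q - P.c0 * U ((P.N : ℚ) - 2 * P.s0 + 2) (s - P.s0 + 1) (q - P.s0 + 1)) :=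
    h3.mono (by omega)
  have h9 : Ge 1 (P.c0 * U ((P.N : ℚ) - 2 * P.s0 + 2) (s - P.s0 + 1) (q - P.s0 + 1)) :=
    h4.mono (by push_cast; omega)
  have h10 := h8.add h9
  rwa [sub_add_cancel] at h10
theorem F6c (h1 : P.s0 + P.n ≤ s + 1) (h2 : q + 1 < P.s0 + P.n) : Ge (P.g + 1) (P.X1 s q) := by
  have h3 := FD_err P s q hs hs' hq hq'
  have h4 := FD_dif P (s - P.s0 + 1) (q - P.s0 + 1) (by omega) (by omega)
  rw [U_zero P.n (s - P.s0 + 1) (q - P.s0 + 1) (by omega) (by omega) (by omega), sub_zero] at h4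
  have h5 := P.h_le
  have h6 : P.g = P.L / 2 := rfl
  have h7 := P.hL
  have h8 : Ge ((P.g : ℤ) + 1) (P.X1 s q - P.c0 * U ((P.N : ℚ) - 2 * P.s0 + 2) (s - P.s0 + 1) (q - P.s0 + 1)) :=
    h3.mono (by omega)
  have h10 := h8.add h4
  rwa [sub_add_cancel] at h10
theorem F6e (h1 : s + 1 < P.s0 + P.n) (h2 : q + 1 < P.s0 + P.n) :
    Ge P.g (P.X1 s q - P.c0 * U P.n (s - P.s0 + 1) (q - P.s0 + 1)) := by
  have h3 := FD_err P s q hs hs' hq hq'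
  have h4 := FD_dif P (s - P.s0 + 1) (q - P.s0 + 1) (by omega) (by omega)
  have h5 := P.h_le
  have h6 : P.g = P.L / 2 := rfl
  have h7 := P.hL
  have h8 : Ge ((P.g : ℤ) + 1) (P.X1 s q - P.c0 * U ((P.N : ℚ) - 2 * P.s0 + 2) (s - P.s0 + 1) (q - P.s0 + 1)) :=
    h3.mono (by omega)
  have h10 := (h8.add h4).mono (show (P.g : ℤ) ≤ P.g + 1 by omega)
  have e : P.X1 s q - P.c0 * U ((P.N : ℚ) - 2 * P.s0 + 2) (s - P.s0 + 1) (q - P.s0 + 1) +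
      P.c0 * (U ((P.N : ℚ) - 2 * P.s0 + 2) (s - P.s0 + 1) (q - P.s0 + 1) -
        U P.n (s - P.s0 + 1) (q - P.s0 + 1)) =
      P.X1 s q - P.c0 * U P.n (s - P.s0 + 1) (q - P.s0 + 1) := by ring
  rwa [e] at h10
end Pool.Agent.BZ
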