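import Pool.Agent.Lib.MP_06b9d2_bz.ChA
/-! # BZ.DRfA: pole free forms of `α_s R_{s,s+j}` (`j ≤ s-1`, and `j = s`), and their values at `N = N0`, `N0/3 < s < N0/2` -/
set_option autoImplicit false
open Finset
namespace Pool.Agent.BZ

private theorem dr_chf (n k : ℕ) :
    ch ((n : ℚ) + k) k = ((n + k).factorial : ℚ) / (k.factorial * n.factorial) := by
  rw [← Nat.cast_add, ch_nat, Nat.cast_choose ℚ (Nat.le_add_left k n), Nat.add_sub_cancel]

private theorem dr_ch (x : ℚ) (m n k : ℕ) (h : x = (n : ℚ) + k) (hm : m = n + k) :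
    ch x k = (m.factorial : ℚ) / (k.factorial * n.factorial) := by
  rw [h, hm, dr_chf]

private theorem dr_od_succ (m : ℕ) : od (m + 1) = od m * (2 * m + 1) := by
  unfold od
  rw [prod_range_succ]

private theorem dr_od_pos (m : ℕ) : 0 < od m := by
  unfold od
  exact prod_pos fun i _ => by positivity

private theorem dr_od_prod (m j : ℕ) :
    od (m + j) = od m * ∏ u ∈ range j, (2 * ((m : ℚ) + j) - 1 - 2 * (u : ℚ)) := by
  induction j with
  | zero => simp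
  | succ j ih =>
    rw [← add_assoc, dr_od_succ, ih, prod_range_succ']
    have : ∏ u ∈ range j, (2 * ((m : ℚ) + (j + 1 : ℕ)) - 1 - 2 * ((u + 1 : ℕ) : ℚ)) =
        ∏ u ∈ range j, (2 * ((m : ℚ) + j) - 1 - 2 * (u : ℚ)) := by
      refine prod_congr rfl fun u _ => ?_
      push_cast
      ring
    rw [this]
    push_cast
    ring

private theorem dr_od_fact (n : ℕ) : ((2 * n).factorial : ℚ) = od n * (2 ^ n * n.factorial) := by
  induction n with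
  | zero => simp [od]
  | succ n ih =>
    rw [show 2 * (n + 1) = (2 * n + 1) + 1 by ring, Nat.factorial_succ, Nat.factorial_succ (2 * n),
      dr_od_succ, Nat.factorial_succ n]
    push_cast
    rw [ih]
    ring

/-- `(2n+1)! = od (n+1) 2^n n!` -/
private theorem dr_od_fact' (n : ℕ) :
    ((2 * n + 1).factorial : ℚ) = od (n + 1) * (2 ^ n * n.factorial) := by
  rw [Nat.factorial_succ, dr_od_succ]
  push_cast
  rw [dr_od_fact]
  ring

/-- the product in the denominator -/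
private theorem dr_prod (x : ℚ) (m j : ℕ) (h : x = 2 * ((m : ℚ) + j) - 1) :
    ∏ i ∈ range j, (x - 2 * (i : ℚ)) = od (m + j) / od m := by
  rw [dr_od_prod, mul_div_cancel_left₀ _ (dr_od_pos m).ne', h]

/-- the bracket -/
private theorem dr_brk (x : ℚ) (n j : ℕ) (h : x = (n : ℚ) + j) :
    ch x j - 2 * (if j = 0 then 0 else ch x (j - 1)) = ch x j * ((n : ℚ) + 1 - 2 * j) / (n + 1) := by
  have hn : (n : ℚ) + 1 ≠ 0 := by positivity
  rcases Nat.eq_zero_or_pos j with rfl | hj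
  · simp
    field_simp
  · obtain ⟨j, rfl⟩ : ∃ i, j = i + 1 := ⟨j - 1, by omega⟩
    rw [if_neg (by omega), Nat.add_sub_cancel]
    have h1 := ch_step x j
    have h2 : ch x j = (j + 1) * ch x (j + 1) / (n + 1) := by
      rw [h1, h]
      push_cast
      field_simp
      ring
    rw [h2]
    push_cast
    field_simp

private theorem dr_ne (n : ℕ) : (n.factorial : ℚ) ≠ 0 := by
  exact_mod_cast Nat.factorial_ne_zero n

/-- `C(x,b) C(b,j) = C(x,j) C(x-j,b-j)` -/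
private theorem dr_sub (x : ℚ) (j i : ℕ) :
    ch x (j + i) * ((j + i).choose j : ℚ) = ch x j * ch (x - j) i := by
  have h1 := ch_prod x (j + i)
  have h2 := ch_prod x j
  have h3 := ch_prod (x - j) i
  have h4 : ∏ u ∈ range (j + i), (x - (u : ℚ)) =
      (∏ u ∈ range j, (x - (u : ℚ))) * ∏ u ∈ range i, (x - j - (u : ℚ)) := by
    rw [prod_range_add]
    congr 1
    refine prod_congr rfl fun u _ => ?_
    push_cast
    ring
  have h5 : (((j + i).choose j : ℕ) : ℚ) = ((j + i).factorial : ℚ) / (j.factorial * i.factorial) := by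
    rw [Nat.cast_choose ℚ (Nat.le_add_right j i), Nat.add_sub_cancel_left]
  have hj := dr_ne j
  have hi := dr_ne i
  rw [h5]
  have h6 : (j.factorial : ℚ) * i.factorial * (ch x j * ch (x - j) i) =
      ((j + i).factorial : ℚ) * ch x (j + i) := by
    rw [h1, h4, ← h2, ← h3]
    ring
  field_simp
  linear_combination (-1 : ℚ) * h6

theorem al_RR (N s j : ℕ) (hs : 1 ≤ s) (hj : j + 1 ≤ s) (hN : 8 * s ≤ N) :
    al N s * RR N s (s + j) = DRf N s j := by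
  obtain ⟨i, rfl⟩ : ∃ i, s = j + i + 1 := ⟨s - 1 - j, by omega⟩
  obtain ⟨M, rfl⟩ : ∃ M, N = 8 * (j + i + 1) + M := ⟨N - 8 * (j + i + 1), by omega⟩
  unfold al RR Rq DRf
  rw [if_pos (Nat.le_add_right _ _), Nat.add_sub_cancel_left, Nat.add_sub_cancel,
    Nat.add_sub_cancel_left]
  have h1 := dr_sub ((8 * (j + i + 1) + M : ℕ) - 2 * ((j + i + 1 : ℕ) : ℚ) - 1) j i
  have h2 : ch ((8 * (j + i + 1) + M : ℕ) - 2 * ((j + i + 1 : ℕ) : ℚ) - 1) j ≠ 0 := by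
    refine ch_ne_zero fun u hu hh => ?_
    push_cast at hh
    have : (u : ℚ) < j := by exact_mod_cast hu
    have h3 : (0 : ℚ) ≤ i := by positivity
    have h4 : (0 : ℚ) ≤ M := by positivity
    have h5 : (0 : ℚ) ≤ j := by positivity
    linarith
  have h3 : (((j + i).choose j : ℕ) : ℚ) ≠ 0 := by
    exact_mod_cast (Nat.choose_pos (Nat.le_add_right j i)).ne'
  have h4 : ch ((8 * (j + i + 1) + M : ℕ) - 2 * ((j + i + 1 : ℕ) : ℚ) - 1) (j + i) =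
      ch ((8 * (j + i + 1) + M : ℕ) - 2 * ((j + i + 1 : ℕ) : ℚ) - 1) j *
      ch ((8 * (j + i + 1) + M : ℕ) - 2 * ((j + i + 1 : ℕ) : ℚ) - 1 - j) i /
        (((j + i).choose j : ℕ) : ℚ) := by
    rw [← h1, mul_div_cancel_right₀ _ h3]
  rw [h4]
  generalize ch ((8 * (j + i + 1) + M : ℕ) - 2 * ((j + i + 1 : ℕ) : ℚ) - 1) j = a at *
  generalize ch ((8 * (j + i + 1) + M : ℕ) - 2 * ((j + i + 1 : ℕ) : ℚ) - 1 - j) i = b at *
  generalize (((j + i).choose j : ℕ) : ℚ) = c at *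
  generalize ch ((8 * (j + i + 1) + M : ℕ) - ((j + i + 1 : ℕ) : ℚ) - 1) (j + i) = e at *
  generalize (∏ i_1 ∈ range j, (2 * ((8 * (j + i + 1) + M : ℕ) : ℚ) -
    2 * ((j + i + 1 : ℕ) : ℚ) - 1 - 2 * (i_1 : ℚ))) = f at *
  generalize (ch (2 * ((8 * (j + i + 1) + M : ℕ) : ℚ) - 3 * ((j + i + 1 : ℕ) : ℚ) - 1) j -
    2 * (if j = 0 then 0 else ch (2 * ((8 * (j + i + 1) + M : ℕ) : ℚ) -
      3 * ((j + i + 1 : ℕ) : ℚ) - 1) (j - 1))) = g at *
  generalize ch (2 * ((8 * (j + i + 1) + M : ℕ) : ℚ) - 2 * ((j + i + 1 : ℕ) : ℚ) - 1)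
    (j + i + 1) = q at *
  generalize ch (((j + i + 1 : ℕ) : ℚ) + j) (2 * j) = r at *
  rcases eq_or_ne e 0 with rfl | he
  · simp
  rcases eq_or_ne f 0 with rfl | hf
  · simp
  have := (dr_od_pos (j + i + 1)).ne'
  field_simp

theorem al_RRs (N s : ℕ) (hs : 1 ≤ s) (hN : 8 * s ≤ N) : al N s * RR N s (2 * s) = DRs N s := by
  obtain ⟨s, rfl⟩ : ∃ i, s = i + 1 := ⟨s - 1, by omega⟩
  obtain ⟨M, rfl⟩ : ∃ M, N = 8 * (s + 1) + M := ⟨N - 8 * (s + 1), by omega⟩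
  unfold al RR Rq DRs
  rw [if_pos (by omega), show 2 * (s + 1) - (s + 1) = s + 1 by omega, Nat.add_sub_cancel]
  have hr : ch (((s + 1 : ℕ) : ℚ) + ((s + 1 : ℕ) : ℚ)) (2 * (s + 1)) = 1 := by
    rw [← two_mul]
    have := ch_nat (2 * (s + 1)) (2 * (s + 1))
    rw [Nat.choose_self] at this
    push_cast at this ⊢
    exact this
  have hb := dr_brk (2 * ((8 * (s + 1) + M : ℕ) : ℚ) - 3 * ((s + 1 : ℕ) : ℚ) - 1)
    (12 * s + 11 + 2 * M) (s + 1) (by push_cast; ring)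
  rw [if_neg (by omega), Nat.add_sub_cancel] at hb
  have hst := ch_step (2 * ((8 * (s + 1) + M : ℕ) : ℚ) - 3 * ((s + 1 : ℕ) : ℚ) - 1) s
  have hst2 := ch_step ((8 * (s + 1) + M : ℕ) - 2 * ((s + 1 : ℕ) : ℚ) - 1) s
  have hs0 : (0 : ℚ) ≤ s := by positivity
  have hM0 : (0 : ℚ) ≤ M := by positivity
  have h2 : ch ((8 * (s + 1) + M : ℕ) - 2 * ((s + 1 : ℕ) : ℚ) - 1) s ≠ 0 := by
    refine ch_ne_zero fun u hu hh => ?_
    push_cast at hh
    have : (u : ℚ) < s := by exact_mod_cast hu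
    linarith
  have h3 : ch ((8 * (s + 1) + M : ℕ) - 2 * ((s + 1 : ℕ) : ℚ) - 1) (s + 1) ≠ 0 := by
    refine ch_ne_zero fun u hu hh => ?_
    push_cast at hh
    have : (u : ℚ) < s + 1 := by exact_mod_cast hu
    linarith
  rw [if_neg (by omega), hr]
  rw [Nat.cast_add s 1, Nat.cast_one] at *
  generalize ch ((8 * (s + 1) + M : ℕ) - 2 * ((s : ℚ) + 1) - 1) s = a at *
  generalize ch ((8 * (s + 1) + M : ℕ) - 2 * ((s : ℚ) + 1) - 1) (s + 1) = b at *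
  generalize ch (2 * ((8 * (s + 1) + M : ℕ) : ℚ) - 3 * ((s : ℚ) + 1) - 1) (s + 1) = c at *
  generalize ch (2 * ((8 * (s + 1) + M : ℕ) : ℚ) - 3 * ((s : ℚ) + 1) - 1) s = e at *
  generalize ch ((8 * (s + 1) + M : ℕ) - ((s : ℚ) + 1) - 1) s = f at *
  generalize ch (2 * ((8 * (s + 1) + M : ℕ) : ℚ) - 2 * ((s : ℚ) + 1) - 1) (s + 1) = g at *
  generalize (∏ i ∈ range (s + 1), (2 * ((8 * (s + 1) + M : ℕ) : ℚ) -
    2 * ((s : ℚ) + 1) - 1 - 2 * (i : ℚ))) = p at *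
  push_cast at hst hst2
  have hc : c = (2 * (8 * ((s : ℚ) + 1) + M) - 3 * (s + 1) - 1 - s) * e / (s + 1) := by
    rw [← hst]
    field_simp
  have hbb : b = (8 * ((s : ℚ) + 1) + M - 2 * (s + 1) - 1 - s) * a / (s + 1) := by
    rw [← hst2]
    field_simp
  have h5 : (8 * ((s : ℚ) + 1) + M - 2 * (s + 1) - 1 - s) ≠ 0 := by
    have : (8 * ((s : ℚ) + 1) + M - 2 * (s + 1) - 1 - s) = 5 * s + 5 + M := by ring
    rw [this]
    positivity
  rcases eq_or_ne f 0 with rfl | he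
  · simp
  rcases eq_or_ne p 0 with rfl | hf
  · simp
  have := (dr_od_pos (s + 1)).ne'
  rw [hc, hbb]
  have e1 : (32 : ℚ) ^ (s + 1) = (-8) ^ (s + 1) * (-4) ^ (s + 1) := by
    rw [← mul_pow]
    norm_num
  rw [e1]
  field_simp
  ring

theorem RR_zero (N s t : ℕ) (hs : 1 ≤ s) (ht : 2 * s < t) : RR N s t = 0 := by
  unfold RR Rq
  rw [if_pos (by omega)]
  have h1 : ch ((s : ℚ) + ((t - s : ℕ) : ℚ)) (2 * (t - s)) = 0 := by
    rw [← Nat.cast_add]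
    exact ch_of_lt _ _ (by omega)
  rw [h1]
  simp

private theorem dr_PI2 (l i k : ℕ) (hl : 1 ≤ l) :
    DRf ((2 * (l + i + k + 1) + l : ℕ) : ℚ) (l + i + k + 1) (l + i) =
      -2 ^ (2 * (2 * (l + i + k + 1) + l) - 1) *
        ll ((2 * (l + i + k + 1) + l : ℕ) : ℚ) (l + i + k + 1) (l + k + 1) := by
  have a1 : ch (2 * ((2 * (l + i + k + 1) + l : ℕ) : ℚ) - 2 * ((l + i + k + 1 : ℕ) : ℚ) - 1)
      (l + i + k + 1) = ((2 * (2 * l + i + k) + 1).factorial : ℚ) /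
        ((l + i + k + 1).factorial * (3 * l + i + k).factorial) :=
    dr_ch _ _ _ _ (by push_cast; ring) (by ring)
  have a2 : ch (((2 * (l + i + k + 1) + l : ℕ) : ℚ) - 2 * ((l + i + k + 1 : ℕ) : ℚ) - 1 -
      ((l + i : ℕ) : ℚ)) k = (-1) ^ k * (((i + k).factorial : ℚ) / (k.factorial * i.factorial)) := by
    have : (((2 * (l + i + k + 1) + l : ℕ) : ℚ) - 2 * ((l + i + k + 1 : ℕ) : ℚ) - 1 -
      ((l + i : ℕ) : ℚ)) = -((i : ℚ) + 1) := by push_cast; ring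
    rw [this, ch_neg, dr_ch _ _ i k (by ring) rfl]
  have a3 : ch (((l + i + k + 1 : ℕ) : ℚ) + ((l + i : ℕ) : ℚ)) (2 * (l + i)) =
      ((2 * l + 2 * i + k + 1).factorial : ℚ) / ((2 * (l + i)).factorial * (k + 1).factorial) :=
    dr_ch _ _ _ _ (by push_cast; ring) (by ring)
  have a4 : ch (2 * ((2 * (l + i + k + 1) + l : ℕ) : ℚ) - 3 * ((l + i + k + 1 : ℕ) : ℚ) - 1)
      (l + i) = ((3 * l + i + k).factorial : ℚ) / ((l + i).factorial * (2 * l + k).factorial) :=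
    dr_ch _ _ _ _ (by push_cast; ring) (by ring)
  have a5 := dr_brk (2 * ((2 * (l + i + k + 1) + l : ℕ) : ℚ) - 3 * ((l + i + k + 1 : ℕ) : ℚ) - 1)
    (2 * l + k) (l + i) (by push_cast; ring)
  have a6 : ch (((2 * (l + i + k + 1) + l : ℕ) : ℚ) - ((l + i + k + 1 : ℕ) : ℚ) - 1)
      (l + i + k) = ((2 * l + i + k).factorial : ℚ) / ((l + i + k).factorial * l.factorial) :=
    dr_ch _ _ _ _ (by push_cast; ring) (by ring)
  have a7 : (((l + i + k).choose (l + i) : ℕ) : ℚ) =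
      ((l + i + k).factorial : ℚ) / ((l + i).factorial * k.factorial) := by
    rw [Nat.cast_choose ℚ (Nat.le_add_right _ k), Nat.add_sub_cancel_left]
  have a8 := dr_prod (2 * ((2 * (l + i + k + 1) + l : ℕ) : ℚ) - 2 * ((l + i + k + 1 : ℕ) : ℚ) - 1)
    (l + k + 1) (l + i) (by push_cast; ring)
  -- the other side
  have b1 : ch (((2 * (l + i + k + 1) + l : ℕ) : ℚ) - ((l + i + k + 1 : ℕ) : ℚ) + (i : ℚ)) (2 * i) =
      ((2 * l + 2 * i + k + 1).factorial : ℚ) / ((2 * i).factorial * (2 * l + k + 1).factorial) :=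
    dr_ch _ _ _ _ (by push_cast; ring) (by ring)
  have b2 : ch (2 * ((2 * (l + i + k + 1) + l : ℕ) : ℚ) -
      3 * (((2 * (l + i + k + 1) + l : ℕ) : ℚ) - ((l + i + k + 1 : ℕ) : ℚ)) - 1) i =
        ((i + k).factorial : ℚ) / (i.factorial * k.factorial) :=
    dr_ch _ _ _ _ (by push_cast; ring) (by ring)
  have b3 := dr_brk (2 * ((2 * (l + i + k + 1) + l : ℕ) : ℚ) -
      3 * (((2 * (l + i + k + 1) + l : ℕ) : ℚ) - ((l + i + k + 1 : ℕ) : ℚ)) - 1)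
    k i (by push_cast; ring)
  have b4 : ch (((2 * (l + i + k + 1) + l : ℕ) : ℚ) -
      2 * (((2 * (l + i + k + 1) + l : ℕ) : ℚ) - ((l + i + k + 1 : ℕ) : ℚ)) - 1) i =
        (-1) ^ i * (((l + i).factorial : ℚ) / (i.factorial * l.factorial)) := by
    have : (((2 * (l + i + k + 1) + l : ℕ) : ℚ) -
      2 * (((2 * (l + i + k + 1) + l : ℕ) : ℚ) - ((l + i + k + 1 : ℕ) : ℚ)) - 1) =
        -((l : ℚ) + 1) := by push_cast; ring
    rw [this, ch_neg, dr_ch _ _ l i (by ring) rfl]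
  have b5 := dr_prod (2 * ((2 * (l + i + k + 1) + l : ℕ) : ℚ) -
    2 * (((2 * (l + i + k + 1) + l : ℕ) : ℚ) - ((l + i + k + 1 : ℕ) : ℚ)) - 1)
    (l + k + 1) i (by push_cast; ring)
  unfold DRf ll Rq
  rw [if_pos (show l + k + 1 ≤ l + i + k + 1 by omega), show l + i + k + 1 - (l + k + 1) = i by omega,
    show l + i + k + 1 - 1 - (l + i) = k by omega, show l + i + k + 1 - 1 = l + i + k by omega]
  rw [a1, a2, a3, a5, a4, a6, a7, a8, b1, b3, b2, b4, b5]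
  have c1 := dr_od_fact' (2 * l + i + k)
  have c2 := dr_od_fact (l + i)
  have c3 := dr_od_fact i
  rw [c1, c2, c3, Nat.factorial_succ (l + i + k), Nat.factorial_succ (2 * l + k),
    Nat.factorial_succ k, show l + k + 1 + (l + i) = 2 * l + i + k + 1 by ring,
    show l + k + 1 + i = l + i + k + 1 by ring]
  have n1 := dr_ne (l + i + k)
  have n2 := dr_ne (2 * l + k)
  have n3 := dr_ne k
  have n4 := dr_ne i
  have n5 := dr_ne l
  have n6 := dr_ne (l + i)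
  have n7 := dr_ne (2 * l + i + k)
  have n8 := dr_ne (3 * l + i + k)
  have n9 := dr_ne (2 * l + 2 * i + k + 1)
  have n10 := dr_ne (i + k)
  have o1 := (dr_od_pos (2 * l + i + k + 1)).ne'
  have o2 := (dr_od_pos (l + i)).ne'
  have o3 := (dr_od_pos i).ne'
  have o4 := (dr_od_pos (l + i + k + 1)).ne'
  have o5 := (dr_od_pos (l + k + 1)).ne'
  have p1 : (2 : ℚ) ^ (2 * (2 * (l + i + k + 1) + l) - 1) =
      2 ^ (4 * i + 4 * k + 6 * l + 3) := by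
    congr 1
    omega
  rw [p1]
  push_cast
  field_simp
  have p2 : (-8 : ℚ) ^ (l + i + k + 1) = -((-1) ^ (l + i) * (-1) ^ k * 2 ^ (3 * (l + i + k + 1))) := by
    rw [pow_mul, show (-8 : ℚ) = -1 * 2 ^ 3 by norm_num, mul_pow, ← pow_add, pow_succ]
    ring
  have p3 : (-4 : ℚ) ^ (l + i) = (-1) ^ (l + i) * 2 ^ (2 * (l + i)) := by
    rw [pow_mul, show (-4 : ℚ) = -1 * 2 ^ 2 by norm_num, mul_pow]
  have p4 : (-4 : ℚ) ^ i = (-1) ^ i * 2 ^ (2 * i) := by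
    rw [pow_mul, show (-4 : ℚ) = -1 * 2 ^ 2 by norm_num, mul_pow]
  rw [p2, p3, p4]
  have q1 : ((-1 : ℚ) ^ (l + i)) * (-1) ^ (l + i) = 1 := by
    rw [← mul_pow]; norm_num
  have q2 : ((-1 : ℚ) ^ k) * (-1) ^ k = 1 := by
    rw [← mul_pow]; norm_num
  generalize (-1 : ℚ) ^ (l + i) = A at *
  generalize (-1 : ℚ) ^ k = B at *
  generalize (-1 : ℚ) ^ i = C at *
  have q3 : (2 : ℚ) ^ (3 * (l + i + k + 1)) * 2 ^ (2 * l + i + k) * 2 ^ (2 * (l + i)) * 2 ^ i =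
      2 ^ (l + i) * 2 ^ (4 * i + 4 * k + 6 * l + 3) * 2 ^ (2 * i) := by ring
  calc _ = -((A * A) * (B * B) * (2 ^ (3 * (l + i + k + 1)) * 2 ^ (2 * l + i + k) *
        2 ^ (2 * (l + i)) * 2 ^ i) * C * ((k : ℚ) + 1 - i * 2)) := by ring
    _ = _ := by
      rw [q1, q2, q3]
      ring

theorem PI2 (N0 s j : ℕ) (hs : 1 ≤ s) (h3 : N0 < 3 * s) (h2 : 2 * s < N0) (hj : j + 1 ≤ s)
    (hj2 : N0 ≤ 2 * s + j) : DRf N0 s j = -2 ^ (2 * N0 - 1) * ll N0 s (N0 - s - j) := by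
  obtain ⟨l, rfl⟩ : ∃ l, N0 = 2 * s + l := ⟨N0 - 2 * s, by omega⟩
  obtain ⟨i, rfl⟩ : ∃ i, j = l + i := ⟨j - l, by omega⟩
  obtain ⟨k, rfl⟩ : ∃ k, s = l + i + k + 1 := ⟨s - 1 - (l + i), by omega⟩
  have := dr_PI2 l i k (by omega)
  rw [this]
  congr 2
  omega

private theorem dr_PI2s (l i : ℕ) :
    DRs ((2 * (l + i + 1) + l : ℕ) : ℚ) (l + i + 1) =
      -2 ^ (2 * (2 * (l + i + 1) + l) - 1) * ll ((2 * (l + i + 1) + l : ℕ) : ℚ) (l + i + 1) l := by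
  have a1 : ch (2 * ((2 * (l + i + 1) + l : ℕ) : ℚ) - 2 * ((l + i + 1 : ℕ) : ℚ) - 1)
      (l + i + 1) = ((2 * (2 * l + i) + 1).factorial : ℚ) /
        ((l + i + 1).factorial * (3 * l + i).factorial) :=
    dr_ch _ _ _ _ (by push_cast; ring) (by ring)
  have a2 : ch (2 * ((2 * (l + i + 1) + l : ℕ) : ℚ) - 3 * ((l + i + 1 : ℕ) : ℚ) - 1)
      (l + i) = ((3 * l + i).factorial : ℚ) / ((l + i).factorial * (2 * l).factorial) :=
    dr_ch _ _ _ _ (by push_cast; ring) (by ring)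
  have a3 : ch (((2 * (l + i + 1) + l : ℕ) : ℚ) - ((l + i + 1 : ℕ) : ℚ) - 1)
      (l + i) = ((2 * l + i).factorial : ℚ) / ((l + i).factorial * l.factorial) :=
    dr_ch _ _ _ _ (by push_cast; ring) (by ring)
  have a4 := dr_prod (2 * ((2 * (l + i + 1) + l : ℕ) : ℚ) - 2 * ((l + i + 1 : ℕ) : ℚ) - 1)
    l (l + i + 1) (by push_cast; ring)
  have b1 : ch (((2 * (l + i + 1) + l : ℕ) : ℚ) - ((l + i + 1 : ℕ) : ℚ) + ((i + 1 : ℕ) : ℚ))
      (2 * (i + 1)) = ((2 * (l + i + 1)).factorial : ℚ) /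
        ((2 * (i + 1)).factorial * (2 * l).factorial) :=
    dr_ch _ _ _ _ (by push_cast; ring) (by ring)
  have b2 : ch (2 * ((2 * (l + i + 1) + l : ℕ) : ℚ) -
      3 * (((2 * (l + i + 1) + l : ℕ) : ℚ) - ((l + i + 1 : ℕ) : ℚ)) - 1) (i + 1) = 0 := by
    have : (2 * ((2 * (l + i + 1) + l : ℕ) : ℚ) -
      3 * (((2 * (l + i + 1) + l : ℕ) : ℚ) - ((l + i + 1 : ℕ) : ℚ)) - 1) = (i : ℚ) := by
      push_cast
      ring
    rw [this]
    exact ch_of_lt _ _ (by omega)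
  have b3 : ch (2 * ((2 * (l + i + 1) + l : ℕ) : ℚ) -
      3 * (((2 * (l + i + 1) + l : ℕ) : ℚ) - ((l + i + 1 : ℕ) : ℚ)) - 1) i = 1 := by
    have : (2 * ((2 * (l + i + 1) + l : ℕ) : ℚ) -
      3 * (((2 * (l + i + 1) + l : ℕ) : ℚ) - ((l + i + 1 : ℕ) : ℚ)) - 1) = (i : ℚ) := by
      push_cast
      ring
    rw [this, ch_nat, Nat.choose_self, Nat.cast_one]
  have b4 : ch (((2 * (l + i + 1) + l : ℕ) : ℚ) -
      2 * (((2 * (l + i + 1) + l : ℕ) : ℚ) - ((l + i + 1 : ℕ) : ℚ)) - 1) (i + 1) =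
        (-1) ^ (i + 1) * (((l + i + 1).factorial : ℚ) / ((i + 1).factorial * l.factorial)) := by
    have : (((2 * (l + i + 1) + l : ℕ) : ℚ) -
      2 * (((2 * (l + i + 1) + l : ℕ) : ℚ) - ((l + i + 1 : ℕ) : ℚ)) - 1) =
        -((l : ℚ) + 1) := by push_cast; ring
    rw [this, ch_neg, dr_ch _ (l + i + 1) l (i + 1) (by push_cast; ring) (add_assoc l i 1)]
  have b5 := dr_prod (2 * ((2 * (l + i + 1) + l : ℕ) : ℚ) -
    2 * (((2 * (l + i + 1) + l : ℕ) : ℚ) - ((l + i + 1 : ℕ) : ℚ)) - 1)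
    l (i + 1) (by push_cast; ring)
  unfold DRs ll Rq
  rw [if_pos (show l ≤ l + i + 1 by omega), show l + i + 1 - l = i + 1 by omega,
    if_neg (show ¬ (i + 1 = 0) by omega), Nat.add_sub_cancel, Nat.add_sub_cancel]
  rw [a1, a2, a3, a4, b1, b2, b3, b4, b5]
  have c1 := dr_od_fact' (2 * l + i)
  have c2 := dr_od_fact (l + i + 1)
  have c3 := dr_od_fact (i + 1)
  have c4 := dr_od_fact l
  rw [c1, c2, c3, c4, show l + (l + i + 1) = 2 * l + i + 1 by ring,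
    show l + (i + 1) = l + i + 1 by ring]
  have n1 := dr_ne (l + i + 1)
  have n2 := dr_ne (i + 1)
  have n5 := dr_ne l
  have n6 := dr_ne (l + i)
  have n7 := dr_ne (2 * l + i)
  have n8 := dr_ne (3 * l + i)
  have o1 := (dr_od_pos (2 * l + i + 1)).ne'
  have o2 := (dr_od_pos (l + i + 1)).ne'
  have o3 := (dr_od_pos (i + 1)).ne'
  have o4 := (dr_od_pos l).ne'
  have p1 : (2 : ℚ) ^ (2 * (2 * (l + i + 1) + l) - 1) = 2 ^ (4 * i + 6 * l + 3) := by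
    congr 1
    omega
  rw [p1]
  field_simp
  have p3 : (-4 : ℚ) ^ (i + 1) = (-1) ^ (i + 1) * 2 ^ (2 * (i + 1)) := by
    rw [pow_mul, show (-4 : ℚ) = -1 * 2 ^ 2 by norm_num, mul_pow]
  have p4 : (32 : ℚ) ^ (l + i + 1) = 2 ^ (5 * (l + i + 1)) := by
    rw [pow_mul]
    norm_num
  rw [p3, p4]
  generalize (-1 : ℚ) ^ (i + 1) = A at *
  ring

theorem PI2s (N0 s : ℕ) (hs : 1 ≤ s) (h3 : N0 < 3 * s) (h2 : 2 * s < N0) :
    DRs N0 s = -2 ^ (2 * N0 - 1) * ll N0 s (N0 - 2 * s) := by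
  obtain ⟨l, rfl⟩ : ∃ l, N0 = 2 * s + l := ⟨N0 - 2 * s, by omega⟩
  obtain ⟨i, rfl⟩ : ∃ i, s = l + i + 1 := ⟨s - l - 1, by omega⟩
  have := dr_PI2s l i
  rw [this, show 2 * (l + i + 1) + l - 2 * (l + i + 1) = l by omega]

theorem DRf_zero (N0 s j : ℕ) (hs : 1 ≤ s) (h3 : N0 < 3 * s) (hj : 2 * s + j < N0) :
    DRf N0 s j = 0 := by
  unfold DRf
  have h1 : ch ((N0 : ℚ) - 2 * s - 1 - j) (s - 1 - j) = 0 := by
    have : (N0 : ℚ) - 2 * s - 1 - j = ((N0 - 2 * s - 1 - j : ℕ) : ℚ) := by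
      obtain ⟨x, rfl⟩ : ∃ x, N0 = 2 * s + j + 1 + x := ⟨N0 - (2 * s + j + 1), by omega⟩
      rw [show 2 * s + j + 1 + x - 2 * s - 1 - j = x by omega]
      push_cast
      ring
    rw [this]
    exact ch_of_lt _ _ (by omega)
  rw [h1]
  simp
end Pool.Agent.BZ
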