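import Pool.Agent.Lib.MP_06b9d2_bz.Cls
import Pool.Agent.Lib.MP_06b9d2_bz.DRfA
/-! # BZ.GL: `α_s R_{s,q} / 2^H` for `s0 ≤ s ≤ m < q < N0`
`q = s + j`. `j ≤ s-1`: `al_RR`, compare `DRf N s j` with `DRf N0 s j` (`ch_lip'`, `Ge.div_sub`; note `3 s > N0 > 2 s`;
`v = 3s + v(s!) + 2j - v C(s-1,j) + v C(s+j,2j) - ..`, i.e. `4s + 2j = 2(s+q)` up to `O(E)`), `PI2` / `DRf_zero`, `ll_close`.
`j = s`: the same with `DRs`, `al_RRs`, `PI2s`.  `q > 2s`: the left term is 0 (`RR_zero`), and `ll N0 s (N0 - q) = 0`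
(`C(x+k,k)` with `0 ≤ x + k < k`, `x = N0 - 3s < 0`), `ll_close`. -/
set_option autoImplicit false
open Finset
namespace Pool.Agent.BZ
/-- the numerator with the two binomials -/
private theorem gl_t_int (x : ℤ) {a : ℚ} (ha : a = x) (j : ℕ) :
    Ge 0 (ch a j - 2 * (if j = 0 then 0 else ch a (j - 1))) := by
  rw [ha]
  have h4 : Ge 0 (if j = 0 then 0 else ch (x : ℚ) (j - 1)) := by
    split_ifs
    · exact Ge.zero 0
    · exact Ge_ch x (j - 1)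
  have h5 := (Ge.nat 2).mul h4
  rw [add_zero] at h5
  push_cast at h5
  exact (Ge_ch x j).sub h5

private theorem gl_t_lip {x y : ℤ} {a b : ℚ} {e : ℕ} (j : ℕ) (ha : a = x) (hb : b = y)
    (h : (2 ^ e : ℤ) ∣ x - y) :
    Ge ((e : ℤ) - Nat.log 2 j) ((ch a j - 2 * (if j = 0 then 0 else ch a (j - 1))) -
      (ch b j - 2 * (if j = 0 then 0 else ch b (j - 1)))) := by
  have h1 := ch_lip' j ha hb h
  have h2 : Ge ((e : ℤ) - Nat.log 2 j) ((if j = 0 then 0 else ch a (j - 1)) -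
      (if j = 0 then 0 else ch b (j - 1))) := by
    split_ifs with hj
    · rw [sub_zero]
      exact Ge.zero _
    · refine (ch_lip' (j - 1) ha hb h).mono ?_
      have h3 : Nat.log 2 (j - 1) ≤ Nat.log 2 j := Nat.log_mono_right (by omega)
      omega
  have h5 := (Ge.nat 2).mul h2
  rw [zero_add] at h5
  push_cast at h5
  have e1 : (ch a j - 2 * (if j = 0 then 0 else ch a (j - 1))) -
      (ch b j - 2 * (if j = 0 then 0 else ch b (j - 1))) = (ch a j - ch b j) -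
      2 * ((if j = 0 then 0 else ch a (j - 1)) - (if j = 0 then 0 else ch b (j - 1))) := by ring
  rw [e1]
  exact h1.sub h5

/-- products of integers which are congruent modulo `2 ^ w` -/
private theorem gl_prod (w : ℕ) (f g : ℕ → ℤ) (h : ∀ i, (2 ^ w : ℤ) ∣ f i - g i) (k : ℕ) :
    (2 ^ w : ℤ) ∣ ∏ i ∈ range k, f i - ∏ i ∈ range k, g i := by
  induction k with
  | zero => simp
  | succ k ih =>
    rw [prod_range_succ, prod_range_succ]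
    have h1 : (∏ i ∈ range k, f i) * f k - (∏ i ∈ range k, g i) * g k =
        (∏ i ∈ range k, f i - ∏ i ∈ range k, g i) * f k + (∏ i ∈ range k, g i) * (f k - g k) := by
      ring
    rw [h1]
    exact dvd_add (Dvd.dvd.mul_right ih _) (Dvd.dvd.mul_left (h k) _)

private theorem gl_ge_dvd {w : ℕ} {z : ℤ} (h : (2 ^ w : ℤ) ∣ z) : Ge (w : ℤ) (z : ℚ) := by
  obtain ⟨c, hc⟩ := h
  rw [hc]
  push_cast
  have h1 := (Ge.pow2 w).mul (Ge.int c)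
  rwa [add_zero] at h1

private theorem gl_odd (M : ℤ) (s k : ℕ) :
    (∏ i ∈ range k, (2 * (M : ℚ) - 2 * s - 1 - 2 * (i : ℚ))) ≠ 0 ∧
      padicValRat 2 (∏ i ∈ range k, (2 * (M : ℚ) - 2 * s - 1 - 2 * (i : ℚ))) = 0 := by
  have h := val_prod_odd (range k) (fun i => 2 * M - 2 * s - 1 - 2 * (i : ℤ))
    (fun i _ => ⟨M - s - 1 - i, by ring⟩)
  push_cast at h
  exact h

private theorem gl_N (P : Par) : (P.N : ℤ) = P.N0 + 2 ^ P.w := by
  unfold Par.N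
  push_cast
  ring

private theorem gl_odd_sub (P : Par) (s k : ℕ) :
    Ge (P.w : ℤ) (∏ i ∈ range k, (2 * (P.N : ℚ) - 2 * s - 1 - 2 * (i : ℚ)) -
      ∏ i ∈ range k, (2 * (P.N0 : ℚ) - 2 * s - 1 - 2 * (i : ℚ))) := by
  have h := gl_ge_dvd (gl_prod P.w (fun i => 2 * (P.N : ℤ) - 2 * s - 1 - 2 * (i : ℤ))
    (fun i => 2 * (P.N0 : ℤ) - 2 * s - 1 - 2 * (i : ℤ))
    (fun i => ⟨2, by rw [gl_N]; ring⟩) k)
  push_cast at h
  exact h

/-- the sizes of the parameters -/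
private theorem gl_par (P : Par) (s : ℕ) (hs0 : P.s0 ≤ s) (hsm : s ≤ P.m) :
    1 ≤ s ∧ 2 * P.m + 1 = P.N0 ∧ P.N0 < 3 * s ∧ 2 * s < P.N0 ∧ s2 s ≤ P.L + 2 ∧
      Nat.log 2 s ≤ P.E ∧ Nat.log 2 (s - 1) ≤ P.E ∧ 1000 ≤ P.L ∧ P.E = 100 * P.L ∧
      3 * P.E + 10 ≤ P.w ∧ 8 * s ≤ P.N := by
  have hm := P.two_m
  have hl := P.N0_lt
  have hN0 : P.N0 = 2 * P.s0 + P.l := rfl
  have hs00 : P.s0 = 1 + 2 ^ P.E := rfl
  have hE : P.E = 100 * P.L := rfl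
  have hn := P.n_le
  have hb2 := P.big2
  have hl2 := P.l_lt
  have hB := P.N_big
  have hw1 := P.w_gt
  have hw2 := P.big1
  have hw3 := P.big1'
  have hp2 : 2 ^ (P.E + 2) = 4 * 2 ^ P.E := by rw [pow_succ, pow_succ]; ring
  have hp1 : 2 ^ (P.E + 1) = 2 * 2 ^ P.E := by rw [pow_succ]; ring
  have hlog : Nat.log 2 s ≤ P.E := log_lt_of (by omega)
  have hx : s - 2 ^ P.E < 2 ^ P.E := by omega
  have hx2 : s - 2 ^ P.E < 2 ^ (P.L + 1) := by omega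
  have h1 := s2_pow_add hx
  have h2 : 2 ^ P.E + (s - 2 ^ P.E) = s := by omega
  rw [h2] at h1
  have h3 := s2_le (s - 2 ^ P.E)
  have h4 : Nat.log 2 (s - 2 ^ P.E) ≤ P.L := log_lt_of hx2
  refine ⟨by omega, hm, by omega, by omega, by omega, hlog, ?_, by omega, hE, by omega, by omega⟩
  exact le_trans (Nat.log_mono_right (by omega)) hlog

private theorem gl_pow2 (H : ℕ) : padicValRat 2 ((2 : ℚ) ^ H) ≤ (H : ℤ) := by
  have h2 : padicValRat 2 ((2 : ℚ) ^ H) = H * padicValRat 2 (2 : ℚ) := padicValRat.pow (p := 2) (2 : ℚ)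
  have h3 : padicValRat 2 ((2 : ℕ) : ℚ) = 1 := padicValRat.self (by norm_num)
  rw [Nat.cast_ofNat] at h3
  rw [h2, h3, mul_one]

private theorem gl_sgn (k : ℕ) : Ge 0 ((-1 : ℚ) ^ k) := by
  have := Ge.int ((-1) ^ k)
  push_cast at this
  exact this

private theorem gl_four (k : ℕ) : Ge (2 * (k : ℤ)) ((-4 : ℚ) ^ k) := by
  have h4 : (-4 : ℚ) ^ k = 2 ^ (2 * k) * (-1) ^ k := by
    rw [pow_mul, ← mul_pow]
    norm_num
  rw [h4]
  have h1 := (Ge.pow2 (2 * k)).mul (gl_sgn k)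
  rw [add_zero] at h1
  push_cast at h1
  exact h1

private theorem gl_eight (k : ℕ) : Ge (3 * (k : ℤ)) ((-8 : ℚ) ^ k) := by
  have h4 : (-8 : ℚ) ^ k = 2 ^ (3 * k) * (-1) ^ k := by
    rw [pow_mul, ← mul_pow]
    norm_num
  rw [h4]
  have h1 := (Ge.pow2 (3 * k)).mul (gl_sgn k)
  rw [add_zero] at h1
  push_cast at h1
  exact h1

private theorem gl_thirty (k : ℕ) : Ge (5 * (k : ℤ)) ((32 : ℚ) ^ k) := by
  have h4 : (32 : ℚ) ^ k = 2 ^ (5 * k) := by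
    rw [pow_mul]
    norm_num
  rw [h4]
  have h1 := Ge.pow2 (5 * k)
  push_cast at h1
  exact h1

/-- comparison of two quotients -/
private theorem gl_quot {w E : ℤ} (hE : 0 ≤ E) (hw : 2 * E + 4 ≤ w) {A B a4 b4 o o' : ℚ}
    (hAB : Ge (w - E) (A - B)) (hB : Ge 0 B) (n4 : b4 ≠ 0) (v4 : padicValRat 2 b4 ≤ E + 1)
    (g4 : Ge 0 b4) (n4' : a4 ≠ 0) (d4 : Ge (w - E) (a4 - b4)) (ho : o ≠ 0 ∧ padicValRat 2 o = 0)
    (ho' : o' ≠ 0 ∧ padicValRat 2 o' = 0) (hoo : Ge w (o - o')) :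
    Ge (w - 3 * E - 2) (A / (a4 * o) - B / (b4 * o')) := by
  have v4b : padicValRat 2 a4 ≤ E + 1 := by
    by_contra hcon
    rw [not_le] at hcon
    have h3 : Ge (E + 2) a4 := Ge.of_val (by omega)
    have h4 : Ge (E + 2) (a4 - b4) := d4.mono (by omega)
    have h5 := h3.sub h4
    rw [sub_sub_cancel] at h5
    have := h5.le_val n4
    omega
  have e1 : padicValRat 2 (a4 * o) ≤ E + 1 := by
    rw [padicValRat.mul n4' ho.1, ho.2, add_zero]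
    exact v4b
  have e2 : padicValRat 2 (b4 * o') ≤ E + 1 := by
    rw [padicValRat.mul n4 ho'.1, ho'.2, add_zero]
    exact v4
  have e3 : Ge (w - E) (a4 * o - b4 * o') := by
    have h1 : a4 * o - b4 * o' = (a4 - b4) * o + b4 * (o - o') := by ring
    rw [h1]
    have h2 : Ge 0 o := Ge.of_val (by rw [ho.2])
    have h3 := d4.mul h2
    rw [add_zero] at h3
    have h4 := g4.mul hoo
    rw [zero_add] at h4
    exact h3.add (h4.mono (by omega))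
  refine (Ge.div_sub (mul_ne_zero n4' ho.1) (mul_ne_zero n4 ho'.1) e1 e2 hAB hB e3).mono ?_
  refine le_min ?_ ?_ <;> omega

/-- the denominators -/
private theorem gl_den (P : Par) (s : ℕ) (hs0 : P.s0 ≤ s) (hsm : s ≤ P.m) :
    ch ((P.N0 : ℚ) - s - 1) (s - 1) ≠ 0 ∧ padicValRat 2 (ch ((P.N0 : ℚ) - s - 1) (s - 1)) ≤ (P.E : ℤ) + 1 ∧
      Ge 0 (ch ((P.N0 : ℚ) - s - 1) (s - 1)) ∧ ch ((P.N : ℚ) - s - 1) (s - 1) ≠ 0 ∧
      Ge ((P.w : ℤ) - P.E) (ch ((P.N : ℚ) - s - 1) (s - 1) - ch ((P.N0 : ℚ) - s - 1) (s - 1)) := by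
  obtain ⟨p1, p2, p3, p4, p5, p6, p7, p8, p9, p10, p11⟩ := gl_par P s hs0 hsm
  have hl := P.N0_lt
  have hN := gl_N P
  have hB := P.N_big
  have v4 := val_ch_le (x := (P.N0 : ℚ) - s - 1) (n := P.N0 - s - 1) (k := s - 1)
    (by rw [Nat.cast_sub (by omega), Nat.cast_sub (by omega)]; norm_num) (by omega)
  have n4 := (val_ch (x := (P.N0 : ℚ) - s - 1) (n := P.N0 - s - 1) (k := s - 1)
    (by rw [Nat.cast_sub (by omega), Nat.cast_sub (by omega)]; norm_num) (by omega)).1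
  have n4' := (val_ch (x := (P.N : ℚ) - s - 1) (n := P.N - s - 1) (k := s - 1)
    (by rw [Nat.cast_sub (by omega), Nat.cast_sub (by omega)]; norm_num) (by omega)).1
  have l4 : Nat.log 2 (P.N0 - s - 1) ≤ P.E + 1 := log_lt_of (lt_of_le_of_lt (by omega) hl)
  have d4 := (ch_lip' (a := (P.N : ℚ) - s - 1) (b := (P.N0 : ℚ) - s - 1)
    (x := (P.N : ℤ) - s - 1) (y := (P.N0 : ℤ) - s - 1) (e := P.w) (s - 1)
    (by push_cast; ring) (by push_cast; ring) ⟨1, by rw [hN]; ring⟩)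
  have g4 : Ge 0 (ch ((P.N0 : ℚ) - s - 1) (s - 1)) := by
    have := Ge_ch ((P.N0 : ℤ) - s - 1) (s - 1)
    push_cast at this
    exact this
  exact ⟨n4, by omega, g4, n4', d4.mono (by omega)⟩

private theorem gl_b1 (P : Par) (s : ℕ) (hs0 : P.s0 ≤ s) (hsm : s ≤ P.m) :
    Ge ((P.w : ℤ) - P.E) (ch (2 * (P.N : ℚ) - 2 * s - 1) s - ch (2 * (P.N0 : ℚ) - 2 * s - 1) s) ∧
      Ge 0 (ch (2 * (P.N : ℚ) - 2 * s - 1) s) ∧ Ge 0 (ch (2 * (P.N0 : ℚ) - 2 * s - 1) s) := by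
  obtain ⟨p1, p2, p3, p4, p5, p6, p7, p8, p9, p10, p11⟩ := gl_par P s hs0 hsm
  have hN := gl_N P
  have d1 := (ch_lip' (a := 2 * (P.N : ℚ) - 2 * s - 1) (b := 2 * (P.N0 : ℚ) - 2 * s - 1)
    (x := 2 * (P.N : ℤ) - 2 * s - 1) (y := 2 * (P.N0 : ℤ) - 2 * s - 1) (e := P.w) s
    (by push_cast; ring) (by push_cast; ring) ⟨2, by rw [hN]; ring⟩)
  have g1 := Ge_ch (2 * (P.N : ℤ) - 2 * s - 1) s
  have g2 := Ge_ch (2 * (P.N0 : ℤ) - 2 * s - 1) s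
  push_cast at g1 g2
  exact ⟨d1.mono (by omega), g1, g2⟩

private theorem gl_facA (M : ℚ) (s j H : ℕ) : DRf M s j / 2 ^ H =
    ((-8) ^ s * s.factorial * (-4) ^ j * od j * ch ((s : ℚ) + j) (2 * j) / 2 ^ H / od s /
      ((s - 1).choose j : ℚ)) *
    (ch (2 * M - 2 * s - 1) s * ch (M - 2 * s - 1 - j) (s - 1 - j) *
      (ch (2 * M - 3 * s - 1) j - 2 * (if j = 0 then 0 else ch (2 * M - 3 * s - 1) (j - 1))) /
      (ch (M - s - 1) (s - 1) * ∏ i ∈ range j, (2 * M - 2 * s - 1 - 2 * (i : ℚ)))) := by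
  unfold DRf
  rw [div_div, div_div, div_div, div_mul_div_comm]
  congr 1 <;> ring

private theorem gl_KA (P : Par) (s j : ℕ) (hs0 : P.s0 ≤ s) (hsm : s ≤ P.m) (hj : j + 1 ≤ s) :
    Ge (2 * (2 * (s : ℤ) + j - P.N0) - P.E - P.L - 1)
      ((-8) ^ s * s.factorial * (-4) ^ j * od j * ch ((s : ℚ) + j) (2 * j) / 2 ^ P.H / od s /
      ((s - 1).choose j : ℚ)) := by
  obtain ⟨p1, p2, p3, p4, p5, p6, p7, p8, p9, p10, p11⟩ := gl_par P s hs0 hsm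
  have hH := P.H_eq
  have k1 := gl_eight s
  have k2 : Ge ((s : ℤ) - s2 s) (s.factorial : ℚ) := Ge.of_val (by rw [val_fac])
  have k3 := gl_four j
  have k4 : Ge 0 (od j) := Ge.of_val (by rw [(od_val j).2])
  have k5 : Ge 0 (ch ((s : ℚ) + j) (2 * j)) := by
    have := Ge_ch ((s : ℤ) + j) (2 * j)
    push_cast at this
    exact this
  have k6 := gl_pow2 P.H
  have k7 : padicValRat 2 (od s) ≤ 0 := by rw [(od_val s).2]
  have k8 : padicValRat 2 ((s - 1).choose j : ℚ) ≤ Nat.log 2 (s - 1) := by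
    have h1 := val_ch_le (x := ((s - 1 : ℕ) : ℚ)) (n := s - 1) (k := j) rfl (by omega)
    rwa [ch_nat] at h1
  have h := (((((((k1.mul k2).mul k3).mul k4).mul k5).div k6).div k7).div k8)
  exact h.mono (by omega)

/-- the main comparison for `q = s + j`, `j < s` -/
private theorem gl_A (P : Par) (s j : ℕ) (hs0 : P.s0 ≤ s) (hsm : s ≤ P.m) (hj : j + 1 ≤ s) :
    Ge (2 * (2 * (s : ℤ) + j - P.N0) + P.w - 5 * P.E)
      (DRf P.N s j / 2 ^ P.H - DRf P.N0 s j / 2 ^ P.H) := by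
  obtain ⟨p1, p2, p3, p4, p5, p6, p7, p8, p9, p10, p11⟩ := gl_par P s hs0 hsm
  obtain ⟨c1, c2, c3, c4, c5⟩ := gl_den P s hs0 hsm
  obtain ⟨b1, b2, b3⟩ := gl_b1 P s hs0 hsm
  have hN := gl_N P
  have lj : Nat.log 2 j ≤ P.E := le_trans (Nat.log_mono_right (by omega)) p6
  have lsj : Nat.log 2 (s - 1 - j) ≤ P.E := le_trans (Nat.log_mono_right (by omega)) p6
  have d2 := (ch_lip' (a := (P.N : ℚ) - 2 * s - 1 - j) (b := (P.N0 : ℚ) - 2 * s - 1 - j)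
    (x := (P.N : ℤ) - 2 * s - 1 - j) (y := (P.N0 : ℤ) - 2 * s - 1 - j) (e := P.w) (s - 1 - j)
    (by push_cast; ring) (by push_cast; ring) ⟨1, by rw [hN]; ring⟩)
  have d3 := gl_t_lip (a := 2 * (P.N : ℚ) - 3 * s - 1) (b := 2 * (P.N0 : ℚ) - 3 * s - 1)
    (x := 2 * (P.N : ℤ) - 3 * s - 1) (y := 2 * (P.N0 : ℤ) - 3 * s - 1) (e := P.w) j
    (by push_cast; ring) (by push_cast; ring) ⟨2, by rw [hN]; ring⟩
  have g2 := Ge_ch ((P.N0 : ℤ) - 2 * s - 1 - j) (s - 1 - j)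
  have g2' := Ge_ch ((P.N : ℤ) - 2 * s - 1 - j) (s - 1 - j)
  push_cast at g2 g2'
  have g3 := gl_t_int (2 * (P.N0 : ℤ) - 3 * s - 1) (a := 2 * (P.N0 : ℚ) - 3 * s - 1)
    (by push_cast; ring) j
  have g3' := gl_t_int (2 * (P.N : ℤ) - 3 * s - 1) (a := 2 * (P.N : ℚ) - 3 * s - 1)
    (by push_cast; ring) j
  have o1 := gl_odd (P.N : ℤ) s j
  have o2 := gl_odd (P.N0 : ℤ) s j
  have o3 := gl_odd_sub P s j
  have hK := gl_KA P s j hs0 hsm hj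
  rw [gl_facA, gl_facA, ← mul_sub]
  push_cast at o1 o2
  refine (hK.mul (gl_quot (w := P.w) (E := P.E) (by omega) (by omega) ?_ ?_ c1 c2 c3 c4 c5 o1 o2 o3)).mono
    (by omega)
  · obtain ⟨a1, ha1⟩ : ∃ a1, a1 = ch (2 * (P.N : ℚ) - 2 * s - 1) s := ⟨_, rfl⟩
    obtain ⟨a2, ha2⟩ : ∃ a2, a2 = ch ((P.N : ℚ) - 2 * s - 1 - j) (s - 1 - j) := ⟨_, rfl⟩
    obtain ⟨a3, ha3⟩ : ∃ a3, a3 = (ch (2 * (P.N : ℚ) - 3 * s - 1) j -
      2 * (if j = 0 then 0 else ch (2 * (P.N : ℚ) - 3 * s - 1) (j - 1))) := ⟨_, rfl⟩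
    obtain ⟨e1, he1⟩ : ∃ a1, a1 = ch (2 * (P.N0 : ℚ) - 2 * s - 1) s := ⟨_, rfl⟩
    obtain ⟨e2, he2⟩ : ∃ a2, a2 = ch ((P.N0 : ℚ) - 2 * s - 1 - j) (s - 1 - j) := ⟨_, rfl⟩
    obtain ⟨e3, he3⟩ : ∃ a3, a3 = (ch (2 * (P.N0 : ℚ) - 3 * s - 1) j -
      2 * (if j = 0 then 0 else ch (2 * (P.N0 : ℚ) - 3 * s - 1) (j - 1))) := ⟨_, rfl⟩
    rw [← ha1, ← ha2, ← ha3, ← he1, ← he2, ← he3]
    rw [← ha1, ← he1] at b1
    rw [← he1] at b3
    rw [← ha2, ← he2] at d2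
    rw [← ha3, ← he3] at d3
    rw [← ha2] at g2'
    rw [← he2] at g2
    rw [← ha3] at g3'
    have e : a1 * a2 * a3 - e1 * e2 * e3 =
        (a1 - e1) * a2 * a3 + e1 * (a2 - e2) * a3 + e1 * e2 * (a3 - e3) := by ring
    rw [e]
    exact ((((b1.mul g2').mul g3').mono (by omega)).add (((b3.mul d2).mul g3').mono (by omega))).add
      (((b3.mul g2).mul d3).mono (by omega))
  · have := (b3.mul g2).mul g3
    simpa using this

private theorem gl_facB (M : ℚ) (s H : ℕ) : DRs M s / 2 ^ H =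
    (2 * 32 ^ s * s.factorial / 2 ^ H) *
    (ch (2 * M - 2 * s - 1) s * ch (2 * M - 3 * s - 1) (s - 1) /
      (ch (M - s - 1) (s - 1) * ∏ i ∈ range s, (2 * M - 2 * s - 1 - 2 * (i : ℚ)))) := by
  unfold DRs
  rw [div_div, div_mul_div_comm]
  congr 1 <;> ring

private theorem gl_KB (P : Par) (s : ℕ) (hs0 : P.s0 ≤ s) (hsm : s ≤ P.m) :
    Ge (2 * (3 * (s : ℤ) - P.N0) - P.L) (2 * 32 ^ s * s.factorial / 2 ^ P.H : ℚ) := by
  obtain ⟨p1, p2, p3, p4, p5, p6, p7, p8, p9, p10, p11⟩ := gl_par P s hs0 hsm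
  have hH := P.H_eq
  have k0 : Ge 1 (2 : ℚ) := by
    have := Ge.pow2 1
    rw [pow_one] at this
    exact_mod_cast this
  have k1 := gl_thirty s
  have k2 : Ge ((s : ℤ) - s2 s) (s.factorial : ℚ) := Ge.of_val (by rw [val_fac])
  have k6 := gl_pow2 P.H
  exact (((k0.mul k1).mul k2).div k6).mono (by omega)

private theorem gl_B (P : Par) (s : ℕ) (hs0 : P.s0 ≤ s) (hsm : s ≤ P.m) :
    Ge (2 * (3 * (s : ℤ) - P.N0) + P.w - 5 * P.E)
      (DRs P.N s / 2 ^ P.H - DRs P.N0 s / 2 ^ P.H) := by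
  obtain ⟨p1, p2, p3, p4, p5, p6, p7, p8, p9, p10, p11⟩ := gl_par P s hs0 hsm
  obtain ⟨c1, c2, c3, c4, c5⟩ := gl_den P s hs0 hsm
  obtain ⟨b1, b2, b3⟩ := gl_b1 P s hs0 hsm
  have hN := gl_N P
  have d3 := (ch_lip' (a := 2 * (P.N : ℚ) - 3 * s - 1) (b := 2 * (P.N0 : ℚ) - 3 * s - 1)
    (x := 2 * (P.N : ℤ) - 3 * s - 1) (y := 2 * (P.N0 : ℤ) - 3 * s - 1) (e := P.w) (s - 1)
    (by push_cast; ring) (by push_cast; ring) ⟨2, by rw [hN]; ring⟩)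
  have g3 := Ge_ch (2 * (P.N0 : ℤ) - 3 * s - 1) (s - 1)
  have g3' := Ge_ch (2 * (P.N : ℤ) - 3 * s - 1) (s - 1)
  push_cast at g3 g3'
  have o1 := gl_odd (P.N : ℤ) s s
  have o2 := gl_odd (P.N0 : ℤ) s s
  have o3 := gl_odd_sub P s s
  have hK := gl_KB P s hs0 hsm
  rw [gl_facB, gl_facB, ← mul_sub]
  push_cast at o1 o2
  refine (hK.mul (gl_quot (w := P.w) (E := P.E) (by omega) (by omega) ?_ ?_ c1 c2 c3 c4 c5 o1 o2 o3)).mono
    (by omega)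
  · obtain ⟨a1, ha1⟩ : ∃ a1, a1 = ch (2 * (P.N : ℚ) - 2 * s - 1) s := ⟨_, rfl⟩
    obtain ⟨a3, ha3⟩ : ∃ a3, a3 = ch (2 * (P.N : ℚ) - 3 * s - 1) (s - 1) := ⟨_, rfl⟩
    obtain ⟨e1, he1⟩ : ∃ a1, a1 = ch (2 * (P.N0 : ℚ) - 2 * s - 1) s := ⟨_, rfl⟩
    obtain ⟨e3, he3⟩ : ∃ a3, a3 = ch (2 * (P.N0 : ℚ) - 3 * s - 1) (s - 1) := ⟨_, rfl⟩
    rw [← ha1, ← ha3, ← he1, ← he3]
    rw [← ha1, ← he1] at b1
    rw [← he1] at b3
    rw [← ha3, ← he3] at d3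
    rw [← ha3] at g3'
    have e : a1 * a3 - e1 * e3 = (a1 - e1) * a3 + e1 * (a3 - e3) := by ring
    rw [e]
    exact ((b1.mul g3').mono (by omega)).add ((b3.mul d3).mono (by omega))
  · have := b3.mul g3
    simpa using this

/-- `q > 2s`: the term of `N0` vanishes -/
private theorem gl_far (P : Par) (q s : ℕ) (hs0 : P.s0 ≤ s) (hsm : s ≤ P.m) (h2 : 2 * s < q)
    (hqN : q < P.N0) : ll P.N0 s (P.N0 - q) = 0 := by
  obtain ⟨p1, p2, p3, p4, p5, p6, p7, p8, p9, p10, p11⟩ := gl_par P s hs0 hsm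
  unfold ll
  rw [if_pos (by omega)]
  unfold Rq
  have hy : 2 * (P.N0 : ℚ) - 3 * ((P.N0 : ℚ) - s) - 1 = ((3 * s - P.N0 - 1 : ℕ) : ℚ) := by
    rw [Nat.cast_sub (by omega), Nat.cast_sub (by omega)]
    push_cast
    ring
  rw [hy, ch_of_lt (3 * s - P.N0 - 1) (s - (P.N0 - q)) (by omega), if_neg (by omega),
    ch_of_lt (3 * s - P.N0 - 1) (s - (P.N0 - q) - 1) (by omega)]
  ring

theorem aR_hi (P : Par) (q s : ℕ) (hs0 : P.s0 ≤ s) (hsm : s ≤ P.m) (hq : P.m < q) (hqN : q < P.N0) :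
    Ge (2 * ((q : ℤ) + s - P.N0) + P.w - 5 * P.E)
      (al P.N s * RR P.N s q / 2 ^ P.H + if P.N0 ≤ q + s then ll P.N s (P.N0 - q) else 0) := by
  obtain ⟨p1, p2, p3, p4, p5, p6, p7, p8, p9, p10, p11⟩ := gl_par P s hs0 hsm
  have hH := P.H_eq
  have hHn : P.H = 2 * P.N0 - 1 := by omega
  have h2H : (2 : ℚ) ^ P.H ≠ 0 := by positivity
  have hll : P.N0 ≤ q + s → Ge (2 * ((q : ℤ) + s - P.N0) + P.w - 5 * P.E)
      (ll P.N s (P.N0 - q) - ll P.N0 s (P.N0 - q)) := by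
    intro hc
    have hr := ll_close P s (P.N0 - q) (by omega) (by omega) hsm
    refine hr.mono ?_
    rw [Nat.cast_sub (by omega)]
    omega
  rcases lt_trichotomy q (2 * s) with h | h | h
  · obtain ⟨j, rfl⟩ : ∃ j, q = s + j := ⟨q - s, by omega⟩
    have hA := gl_A P s j hs0 hsm (by omega)
    rw [al_RR P.N s j p1 (by omega) p11]
    have hA' : Ge (2 * (((s + j : ℕ) : ℤ) + s - P.N0) + P.w - 5 * P.E)
        (DRf P.N s j / 2 ^ P.H - DRf P.N0 s j / 2 ^ P.H) := hA.mono (by push_cast; omega)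
    by_cases hc : P.N0 ≤ s + j + s
    · rw [if_pos hc]
      have hp := PI2 P.N0 s j p1 p3 p4 (by omega) (by omega)
      have e0 : P.N0 - s - j = P.N0 - (s + j) := by omega
      rw [e0] at hp
      have e : DRf P.N s j / 2 ^ P.H + ll P.N s (P.N0 - (s + j)) =
          (DRf P.N s j / 2 ^ P.H - DRf P.N0 s j / 2 ^ P.H) +
          (ll P.N s (P.N0 - (s + j)) - ll P.N0 s (P.N0 - (s + j))) := by
        rw [hp, ← hHn]
        field_simp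
        ring
      rw [e]
      exact hA'.add (hll hc)
    · rw [if_neg hc, add_zero]
      rw [DRf_zero P.N0 s j p1 p3 (by omega), zero_div, sub_zero] at hA'
      exact hA'
  · subst h
    have hc : P.N0 ≤ 2 * s + s := by omega
    rw [if_pos hc, al_RRs P.N s p1 p11]
    have hB := gl_B P s hs0 hsm
    have hB' : Ge (2 * (((2 * s : ℕ) : ℤ) + s - P.N0) + P.w - 5 * P.E)
        (DRs P.N s / 2 ^ P.H - DRs P.N0 s / 2 ^ P.H) := hB.mono (by push_cast; omega)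
    have hp := PI2s P.N0 s p1 p3 p4
    have e : DRs P.N s / 2 ^ P.H + ll P.N s (P.N0 - 2 * s) =
        (DRs P.N s / 2 ^ P.H - DRs P.N0 s / 2 ^ P.H) +
        (ll P.N s (P.N0 - 2 * s) - ll P.N0 s (P.N0 - 2 * s)) := by
      rw [hp, ← hHn]
      field_simp
      ring
    rw [e]
    exact hB'.add (hll hc)
  · have hc : P.N0 ≤ q + s := by omega
    rw [if_pos hc, RR_zero P.N s q p1 h, mul_zero, zero_div, zero_add]
    have h1 := hll hc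
    rwa [gl_far P q s hs0 hsm h hqN, sub_zero] at h1
end Pool.Agent.BZ
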