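import Pool.Agent.Lib.MP_06b9d2_bz.XFb
import Pool.Agent.Lib.MP_06b9d2_bz.GL
import Pool.Agent.Lib.MP_06b9d2_bz.BRh
/-! # BZ.FE: `X1`, high rows, columns `> m`
`X1_hR`, `aR_hi`, `LL_hi`; main part `-∑_u LL N s u * ll N u (N0 - q) [N0 ≤ q + u] = -(LL ll)(s, N0-q) + ..` (terms with `u < N0 - q` vanish).
F7: `N0 - q` is high: the sum is `δ` (`LL_ll`); errors `≥ 2(q+s-N0) + w - 5E - L - 1 ≥ l - 4E - h - L`.
F8: `q < N0`: bounded below by `-2L - 10` (`ll_hi`), `y q = 30 L - log n - 8`; `q ≥ N0`: zero (`RR_zero`). -/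
set_option autoImplicit false
open Finset
namespace Pool.Agent.BZ

/-- the linear facts about the parameters -/
private theorem FE_par (P : Par) : 2 * P.m + 1 = 2 * P.s0 + P.l ∧ 2 * P.m + 1 = P.N0 ∧ P.h ≤ P.L ∧
    8000000 * P.L ≤ P.l ∧ P.E = 100 * P.L ∧ (P.w : ℤ) = 2 * P.l + 3 + P.E - P.h ∧
    16 * P.N0 ≤ P.N ∧ 1 ≤ P.L ∧ 1 ≤ P.s0 ∧ 8 * 2 ^ (P.L - 3) ≤ P.l ∧ 1000000 * P.L ≤ 2 ^ (P.L - 3) := by
  have h1 := P.big1
  have h2 := P.big1'
  have h3 := P.l_gt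
  refine ⟨P.m_eq, P.two_m, P.h_le, ?_, rfl, P.w_eq, P.N_big, ?_, ?_, ?_, h1⟩
  · omega
  · have := P.n_le
    omega
  · unfold Par.s0
    exact Nat.le_add_right 1 _
  · omega

private theorem FE_n (P : Par) : Nat.log 2 P.n ≤ P.L := by
  have h1 := P.n_le
  have h2 := Nat.log_le_self 2 P.n
  nlinarith [P.hn3]

private theorem FE_ll0 (P : Par) (q u : ℕ) :
    (if P.N0 ≤ q + u then ll P.N u (P.N0 - q) else 0) = ll P.N u (P.N0 - q) := by
  split_ifs with h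
  · rfl
  · rw [ll, if_neg (by omega)]

/-- splitting of the row -/
private theorem FE_split (P : Par) (s q : ℕ) (hs : P.s0 ≤ s) (hs' : s ≤ P.m) (hq : P.m < q)
    (hqN : q < P.N) :
    P.X1 s q = ∑ u ∈ Icc P.s0 s, LL P.N s u * (al P.N u * RR P.N u q / 2 ^ P.H +
      ll P.N u (P.N0 - q)) - ∑ u ∈ Icc P.s0 s, LL P.N s u * ll P.N u (P.N0 - q) := by
  rw [X1_hR P s q hs hs' hq hqN, ← Finset.sum_sub_distrib]
  refine Finset.sum_congr rfl fun u _ => ?_
  ring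

theorem F7 (P : Par) (s q : ℕ) (hs : P.s0 ≤ s) (hs' : s ≤ P.m) (hq : P.m < q) (hq' : q + P.s0 ≤ P.N0) :
    Ge (2 + 2 ^ (P.L - 3)) (P.X1 s q + if q + s = P.N0 then 1 else 0) := by
  obtain ⟨a1, a2, a3, a4, a5, a6, a7, a8, a9, a10, a11⟩ := FE_par P
  have hsum : ∑ u ∈ Icc P.s0 s, LL P.N s u * ll P.N u (P.N0 - q) =
      if q + s = P.N0 then 1 else 0 := by
    have h1 := LL_ll (N := P.N) (n := P.N0) (by omega) (a := s) (b := P.N0 - q) (by omega) (by omega)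
      (by omega) (by omega)
    have h2 : (if s = P.N0 - q then (1 : ℚ) else 0) = if q + s = P.N0 then 1 else 0 := by
      by_cases h : q + s = P.N0
      · rw [if_pos h, if_pos (by omega)]
      · rw [if_neg h, if_neg (by omega)]
    rw [← h2, ← h1]
    refine Finset.sum_subset (Icc_subset_Icc a9 (by omega)) ?_
    intro t ht1 ht2
    rw [mem_Icc] at ht1
    rw [mem_Icc, not_and_or, not_le, not_le] at ht2
    rcases ht2 with ht | ht
    · rw [ll, if_neg (by omega), mul_zero]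
    · rw [LL, if_neg (by omega), zero_mul]
  rw [FE_split P s q hs hs' hq (by omega), hsum, sub_add_cancel]
  refine Ge.sum _ _ fun u hu => ?_
  rw [mem_Icc] at hu
  have h1 := LL_hi P s u hu.1 hu.2 hs'
  have h2 := aR_hi P q u hu.1 (by omega) hq (by omega)
  rw [FE_ll0] at h2
  refine (h1.mul h2).mono ?_
  have h8 : ((2 : ℤ) ^ (P.L - 3)) = ((2 ^ (P.L - 3) : ℕ) : ℤ) := by push_cast; rfl
  rw [h8]
  omega

theorem F8 (P : Par) (s q : ℕ) (hs : P.s0 ≤ s) (hs' : s ≤ P.m) (hq : P.N0 < q + P.s0) (hqN : q < P.N) :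
    Ge (2 - P.y q) (P.X1 s q) := by
  obtain ⟨a1, a2, a3, a4, a5, a6, a7, a8, a9, a10, a11⟩ := FE_par P
  have hy : P.y q = 30 * P.L - Nat.log 2 P.n - 8 := by
    unfold Par.y
    rw [if_neg (by omega), if_neg (by omega), if_pos hq]
  have hn := FE_n P
  have hL1 : 1000 ≤ P.L := le_trans (Nat.le_add_left 1000 _) P.hL
  rw [hy]
  by_cases hqN0 : P.N0 ≤ q
  · rw [X1_hR P s q hs hs' (by omega) hqN]
    refine Ge.sum _ _ fun u hu => ?_
    rw [mem_Icc] at hu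
    rw [RR_zero P.N u q (by omega) (by omega), mul_zero, zero_div, mul_zero]
    exact Ge.zero _
  rw [FE_split P s q hs hs' (by omega) hqN]
  refine Ge.sub (Ge.sum _ _ fun u hu => ?_) (Ge.sum _ _ fun u hu => ?_)
  · rw [mem_Icc] at hu
    have h1 := LL_hi P s u hu.1 hu.2 hs'
    have h2 := aR_hi P q u hu.1 (by omega) (by omega) (by omega)
    rw [FE_ll0] at h2
    refine (h1.mul h2).mono ?_
    omega
  · rw [mem_Icc] at hu
    have h1 := LL_hi P s u hu.1 hu.2 hs'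
    have h2 := ll_hi P u (P.N0 - q) (by omega) (by omega) hu.1 (by omega)
    have h3 := Nat.log_le_self 2 (u - (P.N0 - q))
    refine (h1.mul h2).mono ?_
    omega
end Pool.Agent.BZ
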