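import Pool.Agent.Lib.MP_06b9d2_bz.ChA
/-! # BZ.LDfA: pole free forms of `α_s L_{p,s}`, and their values at `N = N0` -/
set_option autoImplicit false
open Finset
namespace Pool.Agent.BZ
private theorem od_ne (j : ℕ) : od j ≠ 0 := by
  unfold od
  refine Finset.prod_ne_zero_iff.mpr fun i _ => ?_
  positivity

private theorem od_add (a k : ℕ) : od (a + k) = od a * ∏ i ∈ range k, (2 * (a : ℚ) + 1 + 2 * (i : ℚ)) := by
  unfold od
  rw [Finset.prod_range_add]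
  congr 1
  refine Finset.prod_congr rfl fun i _ => ?_
  push_cast
  ring

private theorem od_fac (j : ℕ) : od j * 2 ^ j * (j.factorial : ℚ) = ((2 * j).factorial : ℚ) := by
  induction j with
  | zero => simp [od]
  | succ j ih =>
    have h : od (j + 1) = od j * (2 * (j : ℚ) + 1) := by
      unfold od
      rw [Finset.prod_range_succ]
    rw [h, show 2 * (j + 1) = (2 * j + 1) + 1 by ring, Nat.factorial_succ, Nat.factorial_succ, Nat.factorial_succ]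
    push_cast
    rw [← ih]
    ring

private theorem ch_comm (x : ℚ) (a b : ℕ) : ch x a * ch (x - a) b = ch x b * ch (x - b) a := by
  have h : ∀ a b : ℕ, (a.factorial : ℚ) * (b.factorial : ℚ) * (ch x a * ch (x - a) b) =
      ∏ i ∈ range (a + b), (x - i) := by
    intro a b
    rw [Finset.prod_range_add, ← ch_prod]
    have h2 : ∏ i ∈ range b, (x - ((a + i : ℕ) : ℚ)) = (b.factorial : ℚ) * ch (x - a) b := by
      rw [ch_prod]
      refine Finset.prod_congr rfl fun i _ => ?_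
      push_cast
      ring
    rw [h2]
    ring
  have h1 := h a b
  have h2 := h b a
  rw [add_comm b a, ← h1] at h2
  have ha : (a.factorial : ℚ) ≠ 0 := by exact_mod_cast a.factorial_ne_zero
  have hb : (b.factorial : ℚ) ≠ 0 := by exact_mod_cast b.factorial_ne_zero
  have h3 : (a.factorial : ℚ) * (b.factorial : ℚ) ≠ 0 := mul_ne_zero ha hb
  apply mul_left_cancel₀ h3
  rw [← h2]
  ring

theorem al_LL (N s p : ℕ) (hs : 1 ≤ s) (hp : s ≤ p) (hN : 4 * (s + p) ≤ N) :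
    al N s * LL N p s = LDf N s p := by
  obtain ⟨k, rfl⟩ : ∃ k, p = s + k := ⟨p - s, by omega⟩
  have hNq : (4 : ℚ) * (s + (s + k)) ≤ N := by exact_mod_cast hN
  have hk0 : (0 : ℚ) ≤ k := Nat.cast_nonneg _
  have hs1 : (1 : ℚ) ≤ s := by exact_mod_cast hs
  have e0 : s + k - s = k := by omega
  have h1 : ((s - 1 : ℕ) : ℚ) = (s : ℚ) - 1 := by push_cast [Nat.cast_sub hs]; ring
  unfold al LL LDf rq
  rw [if_pos hp, e0]
  have a1 : (N : ℚ) - s + k - 1 = N - 2 * s + ((s + k : ℕ) : ℚ) - 1 := by push_cast; ring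
  have a2 : ch (2 * (N : ℚ) - 3 * (N - s) + k - 1) k = (-1) ^ k * ch ((N : ℚ) - 2 * s - 1 - ((s - 1 : ℕ) : ℚ)) k := by
    rw [show 2 * (N : ℚ) - 3 * (N - s) + k - 1 = -((N : ℚ) - 3 * s - k + 1) by ring, ch_neg, h1]
    congr 2
    ring
  have a3 : ch ((N : ℚ) - 2 * (N - s) + k) k = (-1) ^ k * ch ((N : ℚ) - 2 * s - 1) k := by
    rw [show (N : ℚ) - 2 * (N - s) + k = -((N : ℚ) - 2 * s - k) by ring, ch_neg]
    congr 2
    ring
  have a4 : (N : ℚ) - ((s + k : ℕ) : ℚ) - s - 1 = (N : ℚ) - 2 * s - 1 - k := by push_cast; ring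
  have a5 : ∏ i ∈ range k, (2 * (N : ℚ) - 2 * (N - s) + 1 + 2 * (i : ℚ)) = ∏ i ∈ range k, (2 * (s : ℚ) + 1 + 2 * (i : ℚ)) := by
    refine Finset.prod_congr rfl fun i _ => ?_
    ring
  rw [a1, a2, a3, a4, a5, od_add]
  have key := ch_comm ((N : ℚ) - 2 * s - 1) (s - 1) k
  have n1 : ch ((N : ℚ) - 2 * s - 1) k ≠ 0 := ch_ne_zero fun i hi => by
    have : (i : ℚ) + 1 ≤ k := by exact_mod_cast hi
    intro h
    linarith
  have n2 : ch ((N : ℚ) - s - 1) (s - 1) ≠ 0 := ch_ne_zero fun i hi => by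
    have : (i : ℚ) + 1 ≤ s := by exact_mod_cast (by omega : i + 1 ≤ s)
    intro h
    linarith
  have n3 := od_ne s
  have n4 : ∏ i ∈ range k, (2 * (s : ℚ) + 1 + 2 * (i : ℚ)) ≠ 0 :=
    Finset.prod_ne_zero_iff.mpr fun i _ => by positivity
  have n5 : ((-1 : ℚ)) ^ k ≠ 0 := pow_ne_zero _ (by norm_num)
  have p1 : (-8 : ℚ) ^ s = (-1) ^ s * 2 ^ (3 * s) := by
    rw [pow_mul, ← mul_pow]; norm_num
  have p2 : (4 : ℚ) ^ k = 2 ^ (2 * k) := by
    rw [pow_mul]; norm_num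
  rw [p1, p2, pow_add 2 (3 * s) (2 * k)]
  generalize ch ((N : ℚ) - 2 * s - 1) (s - 1) = c1 at *
  generalize ch ((N : ℚ) - 2 * s - 1 - ((s - 1 : ℕ) : ℚ)) k = c2 at *
  generalize ch ((N : ℚ) - 2 * s - 1) k = c3 at *
  generalize ch ((N : ℚ) - 2 * s - 1 - k) (s - 1) = c4 at *
  generalize ch ((N : ℚ) - s - 1) (s - 1) = c5 at *
  generalize ch ((N : ℚ) - 2 * s + ((s + k : ℕ) : ℚ) - 1) (2 * k) = c6 at *
  generalize ch (2 * (N : ℚ) - 2 * s - 1) s = c7 at *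
  generalize (∏ i ∈ range k, (2 * (s : ℚ) + 1 + 2 * (i : ℚ))) = Q at *
  generalize od s = o1 at *
  generalize od k = o2 at *
  generalize (s.factorial : ℚ) = f at *
  generalize (2 : ℚ) ^ (3 * s) = P1 at *
  generalize (2 : ℚ) ^ (2 * k) = P2 at *
  generalize (-1 : ℚ) ^ s = e1 at *
  generalize (-1 : ℚ) ^ k = e2 at *
  rw [div_mul_div_comm, div_eq_div_iff (mul_ne_zero (mul_ne_zero n3 n2) (mul_ne_zero (mul_ne_zero n5 n1) n4)) (mul_ne_zero (mul_ne_zero n3 n4) n2)]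
  linear_combination (e1 * P1 * f * c7 * P2 * o2 * c6 * e2 * o1 * Q * c5) * key

/-- product identity at `N0` -/
theorem PI1 (N0 s p : ℕ) (hs : 1 ≤ s) (h2 : 2 * s < N0) (hp : N0 ≤ p + s) (hp2 : p < N0) :
    LDf N0 s p = -2 ^ (2 * N0 - 1) * rr N0 (N0 - p) s := by
  obtain ⟨t, ht⟩ : ∃ t, t = N0 - p - 1 := ⟨_, rfl⟩
  obtain ⟨k, hk⟩ : ∃ k, k = s + p - N0 := ⟨_, rfl⟩
  obtain ⟨q, hq⟩ : ∃ q, q = N0 - 2 * s - 1 := ⟨_, rfl⟩
  obtain rfl : s = t + k + 1 := by omega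
  obtain rfl : p = t + 2 * k + q + 2 := by omega
  obtain rfl : N0 = 2 * t + 2 * k + q + 3 := by omega
  clear hs h2 hp hp2 ht hk hq
  unfold LDf rr rq
  rw [if_pos (by omega)]
  have b1 : t + k + 1 - (2 * t + 2 * k + q + 3 - (t + 2 * k + q + 2)) = k := by omega
  have b2 : t + 2 * k + q + 2 - (t + k + 1) = k + q + 1 := by omega
  have b3 : t + k + 1 - 1 = t + k := by omega
  have b4 : 2 * (2 * t + 2 * k + q + 3) - 1 = 4 * t + 4 * k + 2 * q + 5 := by omega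
  rw [b1, b2, b3, b4]
  have c1 : 2 * ((2 * t + 2 * k + q + 3 : ℕ) : ℚ) - 2 * ((t + k + 1 : ℕ) : ℚ) - 1 = ((2 * t + 2 * k + 2 * q + 3 : ℕ) : ℚ) := by
    push_cast; ring
  have c2 : ch (((2 * t + 2 * k + q + 3 : ℕ) : ℚ) - ((t + 2 * k + q + 2 : ℕ) : ℚ) - ((t + k + 1 : ℕ) : ℚ) - 1) (t + k) =
      (-1) ^ (t + k) * ((t + 2 * k).choose (t + k) : ℚ) := by
    rw [show ((2 * t + 2 * k + q + 3 : ℕ) : ℚ) - ((t + 2 * k + q + 2 : ℕ) : ℚ) - ((t + k + 1 : ℕ) : ℚ) - 1 = -((k : ℚ) + 1) by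
      push_cast; ring, ch_neg, show (k : ℚ) + 1 + ((t + k : ℕ) : ℚ) - 1 = ((t + 2 * k : ℕ) : ℚ) by push_cast; ring, ch_nat]
  have c3 : ((2 * t + 2 * k + q + 3 : ℕ) : ℚ) - 2 * ((t + k + 1 : ℕ) : ℚ) + ((t + 2 * k + q + 2 : ℕ) : ℚ) - 1 =
      ((t + 2 * k + 2 * q + 2 : ℕ) : ℚ) := by
    push_cast; ring
  have c4 : ((2 * t + 2 * k + q + 3 : ℕ) : ℚ) - ((t + k + 1 : ℕ) : ℚ) - 1 = ((t + k + q + 1 : ℕ) : ℚ) := by
    push_cast; ring
  have c5 : ((t + k + 1 : ℕ) : ℚ) + (k : ℚ) - 1 = ((t + 2 * k : ℕ) : ℚ) := by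
    push_cast; ring
  have c6 : 2 * ((2 * t + 2 * k + q + 3 : ℕ) : ℚ) - 3 * ((t + k + 1 : ℕ) : ℚ) + (k : ℚ) - 1 = ((t + 2 * k + 2 * q + 2 : ℕ) : ℚ) := by
    push_cast; ring
  have c7 : ((2 * t + 2 * k + q + 3 : ℕ) : ℚ) - 2 * ((t + k + 1 : ℕ) : ℚ) + (k : ℚ) = ((q + 1 + k : ℕ) : ℚ) := by
    push_cast; ring
  have c8 : ∏ i ∈ range k, (2 * ((2 * t + 2 * k + q + 3 : ℕ) : ℚ) - 2 * ((t + k + 1 : ℕ) : ℚ) + 1 + 2 * (i : ℚ)) =
      od (t + 2 * k + q + 2) / od (t + k + q + 2) := by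
    rw [show t + 2 * k + q + 2 = (t + k + q + 2) + k by ring, od_add, mul_div_cancel_left₀ _ (od_ne _)]
    refine Finset.prod_congr rfl fun i _ => ?_
    push_cast
    ring
  rw [c1, c2, c3, c4, c5, c6, c7, c8]
  rw [ch_nat, ch_nat, ch_nat, ch_nat, ch_nat, ch_nat]
  have fne : ∀ j : ℕ, (j.factorial : ℚ) ≠ 0 := fun j => by exact_mod_cast j.factorial_ne_zero
  have o : ∀ j : ℕ, od j = ((2 * j).factorial : ℚ) / (2 ^ j * (j.factorial : ℚ)) := fun j => by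
    rw [eq_div_iff (mul_ne_zero (by positivity) (fne j)), ← od_fac]
    ring
  rw [o (k + q + 1), o (t + 2 * k + q + 2), o (t + k + q + 2), o k]
  rw [Nat.cast_choose ℚ (show t + k + 1 ≤ 2 * t + 2 * k + 2 * q + 3 by omega),
    Nat.cast_choose ℚ (show t + k ≤ t + 2 * k by omega),
    Nat.cast_choose ℚ (show 2 * (k + q + 1) ≤ t + 2 * k + 2 * q + 2 by omega),
    Nat.cast_choose ℚ (show t + k ≤ t + k + q + 1 by omega),
    Nat.cast_choose ℚ (show 2 * k ≤ t + 2 * k by omega),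
    Nat.cast_choose ℚ (show k ≤ t + 2 * k + 2 * q + 2 by omega),
    Nat.cast_choose ℚ (show k ≤ q + 1 + k by omega)]
  have d1 : 2 * t + 2 * k + 2 * q + 3 - (t + k + 1) = t + k + 2 * q + 2 := by omega
  have d2 : t + 2 * k - (t + k) = k := by omega
  have d3 : t + 2 * k + 2 * q + 2 - 2 * (k + q + 1) = t := by omega
  have d4 : t + k + q + 1 - (t + k) = q + 1 := by omega
  have d5 : t + 2 * k - 2 * k = t := by omega
  have d6 : t + 2 * k + 2 * q + 2 - k = t + k + 2 * q + 2 := by omega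
  have d7 : q + 1 + k - k = q + 1 := by omega
  rw [d1, d2, d3, d4, d5, d6, d7]
  have f1 : ((2 * (t + k + q + 2)).factorial : ℚ) = (2 * (t + k + q + 2) : ℚ) * ((2 * t + 2 * k + 2 * q + 3).factorial : ℚ) := by
    rw [show 2 * (t + k + q + 2) = (2 * t + 2 * k + 2 * q + 3) + 1 by ring, Nat.factorial_succ]
    push_cast
    ring
  have f2 : ((t + k + q + 2).factorial : ℚ) = (t + k + q + 2 : ℚ) * ((t + k + q + 1).factorial : ℚ) := by
    rw [show t + k + q + 2 = (t + k + q + 1) + 1 by ring, Nat.factorial_succ]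
    push_cast
    ring
  have f3 : q + 1 + k = k + q + 1 := by ring
  rw [f1, f2, f3]
  have tpos : ((t : ℚ) + k + q + 2) ≠ 0 := by positivity
  have g1 := fne (t + k + 1)
  have g2 := fne (t + k + 2 * q + 2)
  have g3 := fne (t + k)
  have g4 := fne k
  have g5 := fne (2 * (k + q + 1))
  have g6 := fne t
  have g7 := fne (q + 1)
  have g8 := fne (2 * k)
  have g9 := fne (k + q + 1)
  have g10 := fne (2 * (t + 2 * k + q + 2))
  have g11 := fne (t + 2 * k + q + 2)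
  have g12 := fne (t + k + q + 1)
  have g13 := fne (2 * t + 2 * k + 2 * q + 3)
  have g14 := fne (t + 2 * k)
  have g15 := fne (t + 2 * k + 2 * q + 2)
  generalize ((t + k + 1).factorial : ℚ) = F1 at *
  generalize ((t + k + 2 * q + 2).factorial : ℚ) = F2 at *
  generalize ((t + k).factorial : ℚ) = F3 at *
  generalize (k.factorial : ℚ) = F4 at *
  generalize ((2 * (k + q + 1)).factorial : ℚ) = F5 at *
  generalize (t.factorial : ℚ) = F6 at *
  generalize ((q + 1).factorial : ℚ) = F7 at *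
  generalize ((2 * k).factorial : ℚ) = F8 at *
  generalize ((k + q + 1).factorial : ℚ) = F9 at *
  generalize ((2 * (t + 2 * k + q + 2)).factorial : ℚ) = F10 at *
  generalize ((t + 2 * k + q + 2).factorial : ℚ) = F11 at *
  generalize ((t + k + q + 1).factorial : ℚ) = F12 at *
  generalize ((2 * t + 2 * k + 2 * q + 3).factorial : ℚ) = F13 at *
  generalize ((t + 2 * k).factorial : ℚ) = F14 at *
  generalize ((t + 2 * k + 2 * q + 2).factorial : ℚ) = F15 at *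
  have s1 : (-1 : ℚ) ^ (t + k + 1) * (-1) ^ (t + k) = -1 := by
    rw [← pow_add, show t + k + 1 + (t + k) = 2 * (t + k) + 1 by ring, pow_succ, pow_mul]
    norm_num
  field_simp
  have h4 : (4 : ℚ) ^ k = 2 ^ (2 * k) := by
    rw [pow_mul]; norm_num
  have hpw : (2 : ℚ) ^ (3 * (t + k + 1) + 2 * (k + q + 1)) * 2 ^ k * 2 ^ (t + k + q + 2) =
      2 ^ (k + q + 1) * 2 ^ (4 * t + 4 * k + 2 * q + 5) * 2 ^ (2 * k) * 2 := by ring
  rw [h4]
  linear_combination (2 ^ (3 * (t + k + 1) + 2 * (k + q + 1)) * 2 ^ k * 2 ^ (t + k + q + 2)) * s1 - hpw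

theorem LDf_zero (N0 s p : ℕ) (hs : 1 ≤ s) (hsp : s ≤ p) (hp : N0 < p + 2 * s) (hp2 : p + s < N0) :
    LDf N0 s p = 0 := by
  unfold LDf
  have h : (N0 : ℚ) - p - s - 1 = ((N0 - p - s - 1 : ℕ) : ℚ) := by
    rw [Nat.cast_sub (by omega), Nat.cast_sub (by omega), Nat.cast_sub (by omega)]
    simp
  rw [h, ch_of_lt _ _ (by omega : N0 - p - s - 1 < s - 1)]
  simp

end Pool.Agent.BZ
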