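import Pool.Agent.Lib.MP_06b9d2_bz.Val
import Pool.Agent.Lib.MP_06b9d2_bz.Dig
import Pool.Agent.Lib.MP_06b9d2_bz.Lip
import Pool.Agent.Lib.MP_06b9d2_bz.ParA
/-! # BZ.UBd: bounds for the entries of `U` -/
set_option autoImplicit false
open Finset
namespace Pool.Agent.BZ

private theorem UBd_half {n : ℤ} {q : ℚ} (h : Ge n q) : Ge (n - 1) (q / 2) := by
  have h1 : q / 2 = q * (2 : ℚ) ^ (-1 : ℤ) := by
    rw [zpow_neg_one]
    rfl
  rw [h1, sub_eq_add_neg]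
  exact h.mul (Ge.pow2z (-1))

private theorem UBd_four (k : ℕ) : Ge (2 * (k : ℤ)) ((4 : ℚ) ^ k) := by
  have h1 : (4 : ℚ) ^ k = 2 ^ (2 * k) := by
    rw [pow_mul]
    norm_num
  rw [h1]
  have := Ge.pow2 (2 * k)
  push_cast at this
  exact this

theorem U_int (N : ℤ) (a s : ℕ) : Ge (2 * ((a : ℤ) + s) - 1) (U N a s) := by
  unfold U
  split_ifs with h1 h2
  · have e : ((a : ℚ) + s - (N : ℚ) - 1) = (((a : ℤ) + s - N - 1 : ℤ) : ℚ) := by push_cast; ring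
    rw [e]
    have h3 := (UBd_four (a + s)).mul ((((Ge_ch ((a : ℤ) + s - N - 1) (2 * a - s))).mono
      (by norm_num : (0 : ℤ) - 1 ≤ 0)).add (UBd_half (Ge_ch ((a : ℤ) + s - N - 1) (2 * a - s - 1))))
    refine h3.mono ?_
    push_cast
    omega
  · have e : ((a : ℚ) + s - (N : ℚ) - 1) = (((a : ℤ) + s - N - 1 : ℤ) : ℚ) := by push_cast; ring
    rw [e, zero_div, add_zero]
    have h3 := (UBd_four (a + s)).mul (Ge_ch ((a : ℤ) + s - N - 1) (2 * a - s))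
    refine h3.mono ?_
    push_cast
    omega
  · exact Ge.zero _

/-- `U N a s = 0` for `s < N ≤ a` -/
theorem U_zero (N a s : ℕ) (hs : 1 ≤ s) (hsN : s < N) (ha : N ≤ a) : U N a s = 0 := by
  unfold U
  have e : ((a : ℚ) + s - (N : ℚ) - 1) = ((a + s - N - 1 : ℕ) : ℚ) := by
    rw [Nat.sub_sub, Nat.cast_sub (by omega)]
    push_cast
    ring
  rw [e, if_pos (by omega), if_pos (by omega), ch_of_lt _ _ (by omega), ch_of_lt _ _ (by omega)]
  ring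

theorem U_zero' (N : ℚ) (a s : ℕ) (h : 2 * a < s) : U N a s = 0 := by
  unfold U
  rw [if_neg (by omega)]

theorem U_lip (M N : ℤ) (e a s : ℕ) (ha : 1 ≤ a) (h : (2 ^ e : ℤ) ∣ M - N) :
    Ge (2 * ((a : ℤ) + s) - 1 + e - Nat.log 2 (2 * a)) (U M a s - U N a s) := by
  have key : ∀ k : ℕ, k ≤ 2 * a → Ge ((e : ℤ) - Nat.log 2 (2 * a))
      (ch ((a : ℚ) + s - (M : ℚ) - 1) k - ch ((a : ℚ) + s - (N : ℚ) - 1) k) := by
    intro k hk
    have h1 := ch_lip' (a := (a : ℚ) + s - (M : ℚ) - 1) (b := (a : ℚ) + s - (N : ℚ) - 1)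
      (x := (a : ℤ) + s - M - 1) (y := (a : ℤ) + s - N - 1) (e := e) k (by push_cast; ring)
      (by push_cast; ring) (by
        have h2 : (a : ℤ) + s - M - 1 - ((a : ℤ) + s - N - 1) = -(M - N) := by ring
        rw [h2]
        exact (dvd_neg).2 h)
    refine h1.mono ?_
    have h3 : Nat.log 2 k ≤ Nat.log 2 (2 * a) := Nat.log_mono_right hk
    omega
  unfold U
  split_ifs with h1 h2
  · have e1 : (4 : ℚ) ^ (a + s) * (ch ((a : ℚ) + s - (M : ℚ) - 1) (2 * a - s) +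
        ch ((a : ℚ) + s - (M : ℚ) - 1) (2 * a - s - 1) / 2) -
        (4 : ℚ) ^ (a + s) * (ch ((a : ℚ) + s - (N : ℚ) - 1) (2 * a - s) +
        ch ((a : ℚ) + s - (N : ℚ) - 1) (2 * a - s - 1) / 2) =
        (4 : ℚ) ^ (a + s) * ((ch ((a : ℚ) + s - (M : ℚ) - 1) (2 * a - s) -
          ch ((a : ℚ) + s - (N : ℚ) - 1) (2 * a - s)) +
        (ch ((a : ℚ) + s - (M : ℚ) - 1) (2 * a - s - 1) -
          ch ((a : ℚ) + s - (N : ℚ) - 1) (2 * a - s - 1)) / 2) := by ring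
    rw [e1]
    have h3 := (UBd_four (a + s)).mul (((key (2 * a - s) (by omega)).mono
      (by omega : (e : ℤ) - Nat.log 2 (2 * a) - 1 ≤ (e : ℤ) - Nat.log 2 (2 * a))).add
        (UBd_half (key (2 * a - s - 1) (by omega))))
    refine h3.mono ?_
    push_cast
    omega
  · have e1 : (4 : ℚ) ^ (a + s) * (ch ((a : ℚ) + s - (M : ℚ) - 1) (2 * a - s) + 0 / 2) -
        (4 : ℚ) ^ (a + s) * (ch ((a : ℚ) + s - (N : ℚ) - 1) (2 * a - s) + 0 / 2) =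
        (4 : ℚ) ^ (a + s) * (ch ((a : ℚ) + s - (M : ℚ) - 1) (2 * a - s) -
          ch ((a : ℚ) + s - (N : ℚ) - 1) (2 * a - s)) := by ring
    rw [e1]
    have h3 := (UBd_four (a + s)).mul (key (2 * a - s) (by omega))
    refine h3.mono ?_
    push_cast
    omega
  · rw [sub_zero]
    exact Ge.zero _

private theorem UBd_div {n : ℤ} {q : ℚ} (k : ℕ) (h : Ge n q) : Ge (n - k) (q / 2 ^ k) := by
  have h1 : q / 2 ^ k = q * (2 : ℚ) ^ (-(k : ℤ)) := by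
    rw [zpow_neg, zpow_natCast]
    rfl
  rw [h1, sub_eq_add_neg]
  exact h.mul (Ge.pow2z (-(k : ℤ)))

theorem Uh_bd (P : Par) (a s : ℕ) : Ge (2 * ((a : ℤ) + s - P.N0)) (U P.N a s / 2 ^ P.H) := by
  have h1 := U_int (P.N : ℤ) a s
  rw [Int.cast_natCast] at h1
  refine (UBd_div P.H h1).mono ?_
  have h2 := P.H_eq
  omega

/-- rows `a ≥ N0`, columns `s < N0` are small -/
theorem Uh_far (P : Par) (a s : ℕ) (hs : 1 ≤ s) (hs' : s < P.N0) (ha : P.N0 ≤ a) :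
    Ge (2 * (s : ℤ) + P.w - P.E - 5) (U P.N a s / 2 ^ P.H) := by
  have h1 := U_lip (P.N : ℤ) (P.N0 : ℤ) P.w a s (by omega) (by
    have h2 : (P.N : ℤ) - P.N0 = 2 ^ P.w := by
      have h3 : P.N = P.N0 + 2 ^ P.w := rfl
      rw [h3]
      push_cast
      ring
    rw [h2])
  rw [Int.cast_natCast, Int.cast_natCast, U_zero P.N0 a s hs hs' ha, sub_zero] at h1
  refine (UBd_div P.H h1).mono ?_
  have h2 := P.H_eq
  have h3 : Nat.log 2 (2 * a) ≤ P.E + 3 + (a - P.N0) := by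
    refine log_lt_of ?_
    have h4 := P.N0_lt
    obtain ⟨t, rfl⟩ : ∃ t, a = P.N0 + t := ⟨a - P.N0, by omega⟩
    have h5 : P.N0 + t - P.N0 = t := by omega
    rw [h5]
    have h6 : t < 2 ^ t := Nat.lt_two_pow_self
    calc 2 * (P.N0 + t) < 2 * (2 ^ (P.E + 2) + 2 ^ t) := by omega
      _ ≤ 2 * (2 ^ (P.E + 2) * 2 ^ t + 2 ^ (P.E + 2) * 2 ^ t) := by
        have h7 : 2 ^ (P.E + 2) ≤ 2 ^ (P.E + 2) * 2 ^ t := Nat.le_mul_of_pos_right _ (by positivity)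
        have h8 : 2 ^ t ≤ 2 ^ (P.E + 2) * 2 ^ t := Nat.le_mul_of_pos_left _ (by positivity)
        omega
      _ = 2 ^ (P.E + 3 + t + 1) := by
        ring
  omega

/-- `N'' = N - 2 s0 + 2 ≡ n` modulo `2^L` -/
theorem U_nn (P : Par) (a s : ℕ) (ha : 1 ≤ a) :
    Ge (2 * ((a : ℤ) + s) - 1 + P.L - Nat.log 2 (2 * a)) (U ((P.N : ℚ) - 2 * P.s0 + 2) a s - U P.n a s) := by
  have h1 := U_lip ((P.N : ℤ) - 2 * P.s0 + 2) (P.n : ℤ) P.L a s ha (by
    have h2 := P.l_eq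
    have h3 : P.N = P.N0 + 2 ^ P.w := rfl
    have h4 : P.N0 = 2 * P.s0 + P.l := rfl
    have h5 : (P.N : ℤ) - 2 * P.s0 + 2 - P.n = 2 ^ P.L + 2 ^ P.w := by
      rw [h3, h4]
      have h6 : (P.l : ℤ) + 2 = P.n + 2 ^ P.L := by exact_mod_cast h2
      push_cast
      linarith
    rw [h5]
    refine dvd_add dvd_rfl (pow_dvd_pow 2 ?_)
    have h7 := P.w_gt
    have h8 : P.L < 2 ^ P.L := Nat.lt_two_pow_self
    omega)
  have e1 : (((P.N : ℤ) - 2 * P.s0 + 2 : ℤ) : ℚ) = (P.N : ℚ) - 2 * P.s0 + 2 := by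
    push_cast
    ring
  rw [e1, Int.cast_natCast] at h1
  exact h1
end Pool.Agent.BZ
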