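import Pool.Agent.Lib.MP_06b9d2_bz.Cls
import Pool.Agent.Lib.MP_06b9d2_bz.UBd
import Pool.Agent.Lib.MP_06b9d2_bz.LDU
import Pool.Agent.Lib.MP_06b9d2_bz.LDfA
/-! # BZ.GUa: `Ur = (U/2^H) rr` on the rows `q > m`
`q < N0`: `Ur q s = al N s * LL N q s / 2^H = LDf N s q / 2^H` (`U_rr` with `n = N0 - 1`, `al_LL`; `ParA.N_big`); compare with `LDf N0 s q` by
`ch_lip'` and `Ge.div_sub` (only the three `ch` in the numerator and the one in the denominator change; all `ch` have valuation `≤ E + 3`;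
`3s + 2(q-s) + v(s!) = 2(q+s) - s2 s`), then `PI1` (`q + s ≥ N0`), `LDf_zero` (`q + s < N0`, note `2s > m` gives `N0 < q + 2s`), and `rr_close`. -/
set_option autoImplicit false
open Finset
namespace Pool.Agent.BZ
private theorem gua_sum (P : Par) (q s : ℕ) (hs : 1 ≤ s) (hsm : s ≤ P.m) (hq : P.m < q)
    (hqN : q < P.N0) : P.Ur q s = LDf P.N s q / 2 ^ P.H := by
  have hm := P.two_m
  have hB := P.N_big
  have h1 := U_rr (N := P.N) (n := P.N0 - 1) (a := q) (b := s) (by omega) (by omega) (by omega)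
    (by omega) (by omega)
  rw [al_LL P.N s q hs (by omega) (by omega)] at h1
  unfold Par.Ur
  rw [← h1, Finset.sum_div]
  have hsub : Icc 1 s ⊆ Icc 1 (P.N0 - 1) := Icc_subset_Icc le_rfl (by omega)
  rw [← Finset.sum_subset hsub]
  · refine Finset.sum_congr rfl fun t _ => ?_
    ring
  · intro t ht1 ht2
    have h2 := (mem_Icc.1 ht1).1
    rw [mem_Icc, not_and_or, not_le, not_le] at ht2
    rw [rr, if_neg (by omega), mul_zero, zero_div]

private theorem gua_fac (M : ℚ) (s q H : ℕ) : LDf M s q / 2 ^ H =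
    ((-1) ^ s * 2 ^ (3 * s + 2 * (q - s)) * s.factorial * od (q - s) / 2 ^ H / od q) *
    (ch (2 * M - 2 * s - 1) s * ch (M - q - s - 1) (s - 1) * ch (M - 2 * s + q - 1) (2 * (q - s)) /
      ch (M - s - 1) (s - 1)) := by
  unfold LDf
  ring

private theorem gua_K (P : Par) (q s : ℕ) (_hs : 1 ≤ s) (hsm : s ≤ P.m) (hq : P.m < q) :
    Ge (2 * ((q : ℤ) + s - P.N0) - P.E - 1)
      ((-1) ^ s * 2 ^ (3 * s + 2 * (q - s)) * s.factorial * od (q - s) / 2 ^ P.H / od q) := by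
  have hm := P.two_m
  have hH := P.H_eq
  have hl := P.N0_lt
  have k1 : Ge 0 ((-1 : ℚ) ^ s) := by
    have := Ge.int ((-1) ^ s)
    push_cast at this
    exact this
  have k2 : Ge ((3 * s + 2 * (q - s) : ℕ) : ℤ) ((2 : ℚ) ^ (3 * s + 2 * (q - s))) := Ge.pow2 _
  have k3 : Ge ((s : ℤ) - s2 s) (s.factorial : ℚ) := Ge.of_val (by rw [val_fac])
  have k4 : Ge 0 (od (q - s)) := Ge.of_val (by rw [(od_val (q - s)).2])
  have k5 : padicValRat 2 ((2 : ℚ) ^ P.H) ≤ (P.H : ℤ) := by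
    have h2 : padicValRat 2 ((2 : ℚ) ^ P.H) = P.H * padicValRat 2 (2 : ℚ) :=
      padicValRat.pow (p := 2) (2 : ℚ)
    have h3 : padicValRat 2 ((2 : ℕ) : ℚ) = 1 := padicValRat.self (by norm_num)
    rw [Nat.cast_ofNat] at h3
    rw [h2, h3, mul_one]
  have k6 : padicValRat 2 (od q) ≤ 0 := by rw [(od_val q).2]
  have h := ((((k1.mul k2).mul k3).mul k4).div k5).div k6
  refine h.mono ?_
  have e1 := s2_le s
  have e2 : Nat.log 2 s ≤ P.E + 1 := log_lt_of (lt_trans (by omega) hl)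
  push_cast [Nat.cast_sub (show s ≤ q by omega)]
  omega

theorem Ur_R (P : Par) (q s : ℕ) (hs : 1 ≤ s) (hsm : s ≤ P.m) (h2 : P.m < 2 * s) (hq : P.m < q) (hqN : q < P.N0) :
    Ge (2 * ((q : ℤ) + s - P.N0) + P.w - 5 * P.E)
      (P.Ur q s + if P.N0 ≤ q + s then rr P.N (P.N0 - q) s else 0) := by
  have hm := P.two_m
  have hH := P.H_eq
  have hl := P.N0_lt
  have hB := P.N_big
  have hE : 100 ≤ P.E := by
    have := P.n_le
    unfold Par.E
    omega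
  have hw1 := P.w_gt
  have hw2 := P.big1
  have hw3 := P.big1'
  have hwE : 3 * P.E + 10 ≤ P.w := by
    have := P.n_le
    unfold Par.E at *
    omega
  have hN : (P.N : ℤ) = P.N0 + 2 ^ P.w := by
    unfold Par.N
    push_cast
    ring
  have l1 : Nat.log 2 s ≤ P.E + 1 := log_lt_of (lt_trans (by omega) hl)
  have l2 : Nat.log 2 (s - 1) ≤ P.E + 1 := log_lt_of (lt_trans (by omega) hl)
  have l3 : Nat.log 2 (2 * (q - s)) ≤ P.E + 2 := log_lt_of (by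
    rw [show P.E + 2 + 1 = (P.E + 2) + 1 by ring, pow_succ]
    omega)
  -- the four binomials
  have d1 := (ch_lip' (a := 2 * (P.N : ℚ) - 2 * s - 1) (b := 2 * (P.N0 : ℚ) - 2 * s - 1)
    (x := 2 * (P.N : ℤ) - 2 * s - 1) (y := 2 * (P.N0 : ℤ) - 2 * s - 1) (e := P.w) s
    (by push_cast; ring) (by push_cast; ring) ⟨2, by rw [hN]; ring⟩)
  have d2 := (ch_lip' (a := (P.N : ℚ) - q - s - 1) (b := (P.N0 : ℚ) - q - s - 1)
    (x := (P.N : ℤ) - q - s - 1) (y := (P.N0 : ℤ) - q - s - 1) (e := P.w) (s - 1)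
    (by push_cast; ring) (by push_cast; ring) ⟨1, by rw [hN]; ring⟩)
  have d3 := (ch_lip' (a := (P.N : ℚ) - 2 * s + q - 1) (b := (P.N0 : ℚ) - 2 * s + q - 1)
    (x := (P.N : ℤ) - 2 * s + q - 1) (y := (P.N0 : ℤ) - 2 * s + q - 1) (e := P.w) (2 * (q - s))
    (by push_cast; ring) (by push_cast; ring) ⟨1, by rw [hN]; ring⟩)
  have d4 := (ch_lip' (a := (P.N : ℚ) - s - 1) (b := (P.N0 : ℚ) - s - 1)
    (x := (P.N : ℤ) - s - 1) (y := (P.N0 : ℤ) - s - 1) (e := P.w) (s - 1)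
    (by push_cast; ring) (by push_cast; ring) ⟨1, by rw [hN]; ring⟩)
  have g1 : Ge 0 (ch (2 * (P.N0 : ℚ) - 2 * s - 1) s) := by
    have := Ge_ch (2 * (P.N0 : ℤ) - 2 * s - 1) s
    push_cast at this
    exact this
  have g2 : Ge 0 (ch ((P.N0 : ℚ) - q - s - 1) (s - 1)) := by
    have := Ge_ch ((P.N0 : ℤ) - q - s - 1) (s - 1)
    push_cast at this
    exact this
  have g3 : Ge 0 (ch ((P.N0 : ℚ) - 2 * s + q - 1) (2 * (q - s))) := by
    have := Ge_ch ((P.N0 : ℤ) - 2 * s + q - 1) (2 * (q - s))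
    push_cast at this
    exact this
  have g2' : Ge 0 (ch ((P.N : ℚ) - q - s - 1) (s - 1)) := by
    have := Ge_ch ((P.N : ℤ) - q - s - 1) (s - 1)
    push_cast at this
    exact this
  have g3' : Ge 0 (ch ((P.N : ℚ) - 2 * s + q - 1) (2 * (q - s))) := by
    have := Ge_ch ((P.N : ℤ) - 2 * s + q - 1) (2 * (q - s))
    push_cast at this
    exact this
  have v4 := val_ch_le (x := (P.N0 : ℚ) - s - 1) (n := P.N0 - s - 1) (k := s - 1)
    (by rw [Nat.cast_sub (by omega), Nat.cast_sub (by omega)]; norm_num) (by omega)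
  have n4 := (val_ch (x := (P.N0 : ℚ) - s - 1) (n := P.N0 - s - 1) (k := s - 1)
    (by rw [Nat.cast_sub (by omega), Nat.cast_sub (by omega)]; norm_num) (by omega)).1
  have n4' := (val_ch (x := (P.N : ℚ) - s - 1) (n := P.N - s - 1) (k := s - 1)
    (by rw [Nat.cast_sub (by omega), Nat.cast_sub (by omega)]; norm_num) (by omega)).1
  have l4 : Nat.log 2 (P.N0 - s - 1) ≤ P.E + 1 := log_lt_of (lt_of_le_of_lt (by omega) hl)
  have v4a : padicValRat 2 (ch ((P.N0 : ℚ) - s - 1) (s - 1)) ≤ P.E + 1 := by omega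
  have v4b : padicValRat 2 (ch ((P.N : ℚ) - s - 1) (s - 1)) ≤ P.E + 1 := by
    by_contra hcon
    rw [not_le] at hcon
    have h3 : Ge ((P.E : ℤ) + 2) (ch ((P.N : ℚ) - s - 1) (s - 1)) := Ge.of_val (by omega)
    have h4 : Ge ((P.E : ℤ) + 2) (ch ((P.N : ℚ) - s - 1) (s - 1) - ch ((P.N0 : ℚ) - s - 1) (s - 1)) :=
      d4.mono (by omega)
    have h5 := h3.sub h4
    rw [sub_sub_cancel] at h5
    have := h5.le_val n4
    omega
  obtain ⟨a1, ha1⟩ : ∃ a1, a1 = ch (2 * (P.N : ℚ) - 2 * s - 1) s := ⟨_, rfl⟩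
  obtain ⟨a2, ha2⟩ : ∃ a2, a2 = ch ((P.N : ℚ) - q - s - 1) (s - 1) := ⟨_, rfl⟩
  obtain ⟨a3, ha3⟩ : ∃ a3, a3 = ch ((P.N : ℚ) - 2 * s + q - 1) (2 * (q - s)) := ⟨_, rfl⟩
  obtain ⟨a4, ha4⟩ : ∃ a4, a4 = ch ((P.N : ℚ) - s - 1) (s - 1) := ⟨_, rfl⟩
  obtain ⟨b1, hb1⟩ : ∃ b1, b1 = ch (2 * (P.N0 : ℚ) - 2 * s - 1) s := ⟨_, rfl⟩
  obtain ⟨b2, hb2⟩ : ∃ b2, b2 = ch ((P.N0 : ℚ) - q - s - 1) (s - 1) := ⟨_, rfl⟩
  obtain ⟨b3, hb3⟩ : ∃ b3, b3 = ch ((P.N0 : ℚ) - 2 * s + q - 1) (2 * (q - s)) := ⟨_, rfl⟩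
  obtain ⟨b4, hb4⟩ : ∃ b4, b4 = ch ((P.N0 : ℚ) - s - 1) (s - 1) := ⟨_, rfl⟩
  rw [← ha1, ← hb1] at d1
  rw [← ha2, ← hb2] at d2
  rw [← ha3, ← hb3] at d3
  rw [← ha4, ← hb4] at d4
  rw [← hb1] at g1
  rw [← hb2] at g2
  rw [← hb3] at g3
  rw [← ha2] at g2'
  rw [← ha3] at g3'
  rw [← hb4] at v4a n4
  rw [← ha4] at v4b n4'
  have hprod : Ge ((P.w : ℤ) - P.E - 2) (a1 * a2 * a3 - b1 * b2 * b3) := by
    have e : a1 * a2 * a3 - b1 * b2 * b3 =
        (a1 - b1) * a2 * a3 + b1 * (a2 - b2) * a3 + b1 * b2 * (a3 - b3) := by ring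
    rw [e]
    refine ((((d1.mul g2').mul g3').mono (by omega)).add (((g1.mul d2).mul g3').mono (by omega))).add
      (((g1.mul g2).mul d3).mono (by omega))
  have hq0 : Ge 0 (b1 * b2 * b3) := by
    have := (g1.mul g2).mul g3
    simpa using this
  have hdiv := Ge.div_sub n4' n4 v4b v4a hprod hq0 d4
  have hdiv' : Ge ((P.w : ℤ) - 3 * P.E - 3) (a1 * a2 * a3 / a4 - b1 * b2 * b3 / b4) := by
    refine hdiv.mono (le_min ?_ ?_) <;> omega
  have hK := gua_K P q s hs hsm hq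
  have hmain : Ge (2 * ((q : ℤ) + s - P.N0) + P.w - 5 * P.E)
      (LDf P.N s q / 2 ^ P.H - LDf P.N0 s q / 2 ^ P.H) := by
    rw [gua_fac, gua_fac, ← mul_sub, ← ha1, ← ha2, ← ha3, ← ha4, ← hb1, ← hb2, ← hb3, ← hb4]
    exact (hK.mul hdiv').mono (by omega)
  rw [gua_sum P q s hs hsm hq hqN]
  have hHn : P.H = 2 * P.N0 - 1 := by omega
  by_cases hc : P.N0 ≤ q + s
  · rw [if_pos hc]
    have hp := PI1 P.N0 s q hs (by omega) hc hqN
    have hr := rr_close P s (P.N0 - q) (by omega) (by omega) hsm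
    have e : LDf P.N s q / 2 ^ P.H + rr P.N (P.N0 - q) s =
        (LDf P.N s q / 2 ^ P.H - LDf P.N0 s q / 2 ^ P.H) +
        (rr P.N (P.N0 - q) s - rr P.N0 (P.N0 - q) s) := by
      rw [hp, ← hHn]
      have h2H : (2 : ℚ) ^ P.H ≠ 0 := by positivity
      field_simp
      ring
    rw [e]
    refine hmain.add (hr.mono ?_)
    rw [Nat.cast_sub (by omega)]
    omega
  · rw [if_neg hc, add_zero]
    have hz := LDf_zero P.N0 s q hs (by omega) (by omega) (by omega)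
    rw [hz, zero_div, sub_zero] at hmain
    exact hmain
end Pool.Agent.BZ
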