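import Pool.Agent.Lib.MP_06b9d2_bz.BRl
import Pool.Agent.Lib.MP_06b9d2_bz.BRh
import Pool.Agent.Lib.MP_06b9d2_bz.UBd
/-! # BZ.GUb: crude bounds for `Ur` (`Uh_bd`, `Uh_far`, `rr_lo`, `rr_hi`) -/
set_option autoImplicit false
open Finset
namespace Pool.Agent.BZ

private theorem GUb_rr (P : Par) (t s : ℕ) (ht : 1 ≤ t) (hts : t ≤ s) (hsm : s ≤ P.m) :
    Ge (2 * ((s : ℤ) - t) - 2 * P.E - 3) (rr P.N t s) := by
  have hE : P.E = 100 * P.L := rfl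
  have hb := P.big2
  have hl := P.l_eq
  have hm := P.two_m
  have hN0 := P.N0_lt
  have hp1 : 2 ^ (P.E + 1) = 2 * 2 ^ P.E := by rw [pow_succ]; ring
  have hp2 : 2 ^ (P.E + 2) = 4 * 2 ^ P.E := by rw [pow_add]; ring
  have hL1 : 1 ≤ 2 ^ P.L := Nat.one_le_two_pow
  have hE1 : 1 ≤ 2 ^ P.E := Nat.one_le_two_pow
  have hs0 : P.s0 = 1 + 2 ^ P.E := rfl
  rcases Nat.lt_or_ge s P.s0 with h | h
  · refine (rr_lo P s t ht hts h).mono ?_
    have h1 : Nat.log 2 (s - t) ≤ P.E := log_lt_of (by omega)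
    have h2 : Nat.log 2 (P.n + 2 * (P.s0 - s)) ≤ P.E + 1 := log_lt_of (by
      have e : P.E + 1 + 1 = P.E + 2 := rfl
      rw [e]
      omega)
    omega
  · refine (rr_hi P s t ht hts h hsm).mono ?_
    have h1 : Nat.log 2 (s - t) ≤ P.E := log_lt_of (by omega)
    omega

theorem Ur_bd (P : Par) (q s : ℕ) (hs : 1 ≤ s) (hsm : s ≤ P.m) :
    Ge (2 * ((q : ℤ) + s - P.N0) - 2 * P.E - 10) (P.Ur q s) := by
  have _ := hs
  unfold Par.Ur
  apply Ge.sum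
  intro t ht
  rw [Finset.mem_Icc] at ht
  refine ((Uh_bd P q t).mul (GUb_rr P t s ht.1 ht.2 hsm)).mono ?_
  omega

theorem Ur_far (P : Par) (q s : ℕ) (hs : 1 ≤ s) (hsm : s ≤ P.m) (hq : P.N0 ≤ q) :
    Ge (P.E : ℤ) (P.Ur q s) := by
  have _ := hs
  unfold Par.Ur
  apply Ge.sum
  intro t ht
  rw [Finset.mem_Icc] at ht
  have hm := P.two_m
  refine ((Uh_far P q t ht.1 (by omega) hq).mul (GUb_rr P t s ht.1 ht.2 hsm)).mono ?_
  have hE : P.E = 100 * P.L := rfl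
  have h1 := P.w_gt
  have h2 := P.big1
  have h3 := P.big1'
  have h4 := P.n_le
  omega

end Pool.Agent.BZ
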