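import Pool.Agent.Lib.MP_06b9d2_bz.XFb
import Pool.Agent.Lib.MP_06b9d2_bz.GUa
import Pool.Agent.Lib.MP_06b9d2_bz.GUb
/-! # BZ.FF: `X1`, rows `> m`, low columns: `X1 q t = Ur q t`, `t = s0 - i`
F9 (`m < q ≤ N0 - s0`): `2t > m`: `Ur_R` (`q + t < N0`): `2(q+t-N0) + w - 5E ≥ l + 4 - 2i - h - 4E`; `2t ≤ m`: `Ur_bd`.
F11 (`q > N0 - s0`; `1 + y q - y t = -7 - log n - 2i - 3l[2t ≤ m]`): `2t > m`, `q < N0`: `Ur_R` and `rr_lo` (`k = q + t - N0`:
`2k - 2 - log k - log(n+2i)`); `2t ≤ m`: `Ur_bd`; `q ≥ N0`: `Ur_far`. -/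
set_option autoImplicit false
open Finset
namespace Pool.Agent.BZ

private theorem FF_log (x : ℕ) : Nat.log 2 x ≤ x := Nat.log_le_self 2 x

/-- the linear facts about the parameters -/
private theorem FF_par (P : Par) : 2 * P.m + 1 = 2 * P.s0 + P.l ∧ 2 * P.m + 1 = P.N0 ∧ P.h ≤ P.L ∧
    8000000 * P.L ≤ P.l ∧ P.E = 100 * P.L ∧ (P.w : ℤ) = 2 * P.l + 3 + P.E - P.h ∧ P.N0 ≤ P.N ∧
    1 ≤ P.L ∧ 1 ≤ P.s0 := by
  refine ⟨P.m_eq, P.two_m, P.h_le, ?_, rfl, P.w_eq, ?_, ?_, ?_⟩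
  · have h1 := P.big1
    have h2 := P.big1'
    have h3 := P.l_gt
    omega
  · have := P.N_big
    omega
  · have := P.n_le
    omega
  · unfold Par.s0
    exact Nat.le_add_right 1 _

private theorem FF_y (P : Par) (t : ℕ) (ht' : t < P.s0) :
    P.y t = 30 * P.L + 2 * ((P.s0 : ℤ) - t) + (if 2 * t ≤ P.m then 3 * P.l else 0) := by
  unfold Par.y
  rw [if_pos ht']

theorem F9 (P : Par) (q t : ℕ) (ht : 1 ≤ t) (ht' : t < P.s0) (hq : P.m < q) (hq' : q + P.s0 ≤ P.N0) :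
    Ge (2 - P.y t) (P.X1 q t) := by
  obtain ⟨a1, a2, a3, a4, a5, a6, a7, a8, a9⟩ := FF_par P
  rw [X1_Rl P q t hq (by omega) ht ht', FF_y P t ht']
  by_cases h2 : 2 * t ≤ P.m
  · rw [if_pos h2]
    refine (Ur_bd P q t ht (by omega)).mono ?_
    omega
  · rw [if_neg h2]
    have h3 := Ur_R P q t ht (by omega) (by omega) hq (by omega)
    rw [if_neg (by omega), add_zero] at h3
    refine h3.mono ?_
    omega

theorem F11 (P : Par) (q t : ℕ) (ht : 1 ≤ t) (ht' : t < P.s0) (hq : P.N0 < q + P.s0) (hqN : q < P.N) :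
    Ge (1 + P.y q - P.y t) (P.X1 q t) := by
  obtain ⟨a1, a2, a3, a4, a5, a6, a7, a8, a9⟩ := FF_par P
  have hy : P.y q = 30 * P.L - Nat.log 2 P.n - 8 := by
    unfold Par.y
    rw [if_neg (by omega), if_neg (by omega), if_pos hq]
  rw [X1_Rl P q t (by omega) hqN ht ht', FF_y P t ht', hy]
  by_cases h2 : 2 * t ≤ P.m
  · rw [if_pos h2]
    refine (Ur_bd P q t ht (by omega)).mono ?_
    omega
  · rw [if_neg h2]
    by_cases h3 : P.N0 ≤ q
    · refine (Ur_far P q t ht (by omega) h3).mono ?_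
      omega
    · have h4 := Ur_R P q t ht (by omega) (by omega) (by omega) (by omega)
      by_cases h5 : P.N0 ≤ q + t
      · rw [if_pos h5] at h4
        have h6 := rr_lo P t (P.N0 - q) (by omega) (by omega) ht'
        have h7 := FF_log (t - (P.N0 - q))
        have h8 := log_add_le P.n (2 * (P.s0 - t)) (by have := P.hn3; omega)
        have h9 := FF_log (2 * (P.s0 - t))
        have h10 : P.Ur q t = (P.Ur q t + rr P.N (P.N0 - q) t) - rr P.N (P.N0 - q) t := by ring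
        rw [h10]
        refine Ge.sub (h4.mono ?_) (h6.mono ?_)
        · omega
        · have h11 : ((P.N0 - q : ℕ) : ℤ) = (P.N0 : ℤ) - q := by omega
          rw [h11]
          omega
      · rw [if_neg h5, add_zero] at h4
        refine h4.mono ?_
        omega

end Pool.Agent.BZ
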