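import Pool.Agent.Lib.MP_06b9d2_bz.XFb
import Pool.Agent.Lib.MP_06b9d2_bz.GUa
import Pool.Agent.Lib.MP_06b9d2_bz.GUb
/-! # BZ.FG: `X1`, rows `> m`, high columns: `X1_Rh`
`q < N0`: `Ur_R` and `RR_hi`; main part `-∑_u rr N (N0-q) u * RR N u t` (terms with `u < N0 - q` vanish), errors
`≥ 2(q+t-N0) + w - 5E - L - 1 ≥ l - 4E - h - L`.  F10: `N0 - q` is high: `rr_RR` gives `-δ`.  F12: `N0 - q` is low: `rr_cross`:
`≥ E - 5L - 20`; `q ≥ N0`: `Ur_far`. -/
set_option autoImplicit false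
open Finset
namespace Pool.Agent.BZ

/-- facts on the parameters, for `omega` -/
private theorem FG_par (P : Par) : 8000000 * P.L < P.l ∧ P.E = 100 * P.L ∧ P.g = P.L / 2 ∧ P.h ≤ P.L ∧
    1000 ≤ P.L ∧ 1000 * P.l ≤ P.s0 ∧ 2 * P.m + 1 = P.N0 ∧ 2 * P.m + 1 = 2 * P.s0 + P.l ∧
    (P.w : ℤ) = 2 * P.l + 3 + P.E - P.h ∧ 16 * P.N0 ≤ P.N ∧ P.l < 2 ^ (P.L + 1) := by
  have h1 := P.big1
  have h2 := P.big1'
  have h3 := P.l_gt
  have h4 := P.big2
  have h5 := P.n_le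
  have h6 : P.s0 = 1 + 2 ^ P.E := rfl
  refine ⟨?_, rfl, rfl, P.h_le, ?_, ?_, P.two_m, P.m_eq, P.w_eq, P.N_big, P.l_lt⟩
  · generalize 2 ^ (P.L - 3) = x at *
    generalize 2 ^ P.L = y at *
    omega
  · omega
  · rw [h6]
    omega

/-- the part of `X1` given by the difference of `Ur` and `-rr` -/
private theorem FG_err (P : Par) (q t : ℕ) (ht : P.s0 ≤ t) (ht' : t ≤ P.m) (hq : P.m < q) (hqN : q < P.N0) (D : ℤ)
    (hD : D ≤ 2 * ((q : ℤ) + t - P.N0) + P.w - 5 * P.E - P.L - 1) :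
    Ge D (∑ u ∈ Icc P.s0 t, (P.Ur q u + if P.N0 ≤ q + u then rr P.N (P.N0 - q) u else 0) * RR P.N u t) := by
  obtain ⟨a1, a2, a3, a4, a5, a6, a7, a8, a9, a10, a11⟩ := FG_par P
  refine Ge.sum _ _ fun u hu => ?_
  obtain ⟨hu1, hu2⟩ := mem_Icc.1 hu
  have h1 := Ur_R P q u (by omega) (by omega) (by omega) hq hqN
  have h2 := RR_hi P t u hu1 hu2 ht'
  refine (h1.mul h2).mono ?_
  omega

private theorem FG_X1 (P : Par) (q t : ℕ) (ht : P.s0 ≤ t) (ht' : t ≤ P.m) (hq : P.m < q) (hqN : q < P.N) :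
    P.X1 q t = (∑ u ∈ Icc P.s0 t, (P.Ur q u + if P.N0 ≤ q + u then rr P.N (P.N0 - q) u else 0) * RR P.N u t) -
      ∑ u ∈ Icc P.s0 t, (if P.N0 ≤ q + u then rr P.N (P.N0 - q) u else 0) * RR P.N u t := by
  rw [X1_Rh P q t hq hqN ht ht', ← Finset.sum_sub_distrib]
  refine Finset.sum_congr rfl fun u _ => ?_
  ring

theorem F10 (P : Par) (q t : ℕ) (ht : P.s0 ≤ t) (ht' : t ≤ P.m) (hq : P.m < q) (hq' : q + P.s0 ≤ P.N0) :
    Ge (P.g + 1) (P.X1 q t + if q + t = P.N0 then 1 else 0) := by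
  obtain ⟨a1, a2, a3, a4, a5, a6, a7, a8, a9, a10, a11⟩ := FG_par P
  have h1 : ∑ u ∈ Icc P.s0 t, (if P.N0 ≤ q + u then rr P.N (P.N0 - q) u else 0) * RR P.N u t =
      if q + t = P.N0 then 1 else 0 := by
    have h2 := rr_RR (N := P.N) (n := P.N0 - 1) (a := P.N0 - q) (b := t) (by omega) (by omega) (by omega)
      (by omega) (by omega)
    have h3 : ∑ u ∈ Icc P.s0 t, (if P.N0 ≤ q + u then rr P.N (P.N0 - q) u else 0) * RR P.N u t =
        ∑ u ∈ Icc 1 (P.N0 - 1), rr P.N (P.N0 - q) u * RR P.N u t := by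
      have h4 : ∑ u ∈ Icc P.s0 t, (if P.N0 ≤ q + u then rr P.N (P.N0 - q) u else 0) * RR P.N u t =
          ∑ u ∈ Icc P.s0 t, rr P.N (P.N0 - q) u * RR P.N u t := by
        refine Finset.sum_congr rfl fun u _ => ?_
        split_ifs with h5
        · rfl
        · rw [rr, if_neg (by omega)]
      rw [h4]
      refine Finset.sum_subset ?_ ?_
      · intro u hu
        rw [mem_Icc] at hu ⊢
        omega
      · intro u hu hu'
        rw [mem_Icc] at hu hu'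
        by_cases h5 : u < P.s0
        · rw [rr, if_neg (by omega), zero_mul]
        · rw [RR, if_neg (by omega), mul_zero]
    rw [h3, h2]
    by_cases h6 : q + t = P.N0
    · rw [if_pos (by omega), if_pos h6]
    · rw [if_neg (by omega), if_neg h6]
  rw [FG_X1 P q t ht ht' hq (by omega), h1, sub_add_cancel]
  exact FG_err P q t ht ht' hq (by omega) _ (by omega)

theorem F12 (P : Par) (q t : ℕ) (ht : P.s0 ≤ t) (ht' : t ≤ P.m) (hq : P.N0 < q + P.s0) (hqN : q < P.N) :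
    Ge (P.g + 30 * P.L) (P.X1 q t) := by
  obtain ⟨a1, a2, a3, a4, a5, a6, a7, a8, a9, a10, a11⟩ := FG_par P
  by_cases hc : q < P.N0
  · rw [FG_X1 P q t ht ht' (by omega) hqN]
    refine Ge.sub (FG_err P q t ht ht' (by omega) hc _ (by omega)) (Ge.sum _ _ fun u hu => ?_)
    obtain ⟨hu1, hu2⟩ := mem_Icc.1 hu
    rw [if_pos (by omega)]
    have h1 := rr_cross P u (P.N0 - q) (by omega) (by omega) hu1 (by omega)
    have h2 := RR_hi P t u hu1 hu2 ht'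
    refine (h1.mul h2).mono ?_
    have h3 : Nat.log 2 (P.l + (u - (P.N0 - q))) ≤ Nat.log 2 P.l + Nat.log 2 (u - (P.N0 - q)) + 1 :=
      log_add_le _ _ (by omega)
    have h4 : Nat.log 2 P.l ≤ P.L := log_lt_of a11
    have h5 := log_lin (u - (P.N0 - q))
    omega
  · rw [X1_Rh P q t (by omega) hqN ht ht']
    refine Ge.sum _ _ fun u hu => ?_
    obtain ⟨hu1, hu2⟩ := mem_Icc.1 hu
    have h1 := Ur_far P q u (by omega) (by omega) (by omega)
    have h2 := RR_hi P t u hu1 hu2 ht'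
    refine (h1.mul h2).mono ?_
    omega

theorem F13 (P : Par) (s q : ℕ) (hs : P.m < s) (hsN : s < P.N) (hq : P.m < q) (hqN : q < P.N) :
    Ge (2 * ((s : ℤ) + q - P.N0)) (P.X1 s q) := by
  rw [X1_RR P s q hs hsN hq hqN]
  exact Uh_bd P s q
end Pool.Agent.BZ
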