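import Pool.Agent.Lib.MP_06b9d2_bz.Defs
/-! # BZ.Val: calculus of `Ge` -/
set_option autoImplicit false
set_option linter.unusedSectionVars false
open Finset
namespace Pool.Agent.BZ
theorem Ge.zero (n : ℤ) : Ge n 0 := Or.inl rfl
theorem Ge.of_val {n : ℤ} {q : ℚ} (h : n ≤ padicValRat 2 q) : Ge n q := Or.inr h
theorem Ge.mono {m n : ℤ} {q : ℚ} (h : Ge n q) (hmn : m ≤ n) : Ge m q :=
  h.imp id (fun h => hmn.trans h)
theorem Ge.add {n : ℤ} {a b : ℚ} (ha : Ge n a) (hb : Ge n b) : Ge n (a + b) := by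
  rcases ha with ha | ha
  · rw [ha, zero_add]; exact hb
  · rcases hb with hb | hb
    · rw [hb, add_zero]; exact Or.inr ha
    · by_cases h : a + b = 0
      · exact Or.inl h
      · have h1 := padicValRat.min_le_padicValRat_add (p := 2) h
        exact Or.inr ((le_min ha hb).trans h1)
theorem Ge.neg {n : ℤ} {a : ℚ} (ha : Ge n a) : Ge n (-a) := by
  rcases ha with ha | ha
  · left; rw [ha, neg_zero]
  · right; rw [padicValRat.neg]; exact ha
theorem Ge.sub {n : ℤ} {a b : ℚ} (ha : Ge n a) (hb : Ge n b) : Ge n (a - b) := by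
  rw [sub_eq_add_neg]; exact ha.add hb.neg
theorem Ge.sum {ι : Type*} {n : ℤ} (s : Finset ι) (f : ι → ℚ) (h : ∀ i ∈ s, Ge n (f i)) :
    Ge n (∑ i ∈ s, f i) := by
  classical
  induction s using Finset.induction_on with
  | empty => rw [Finset.sum_empty]; exact Ge.zero n
  | insert a s ha ih =>
    rw [Finset.sum_insert ha]
    exact (h a (Finset.mem_insert_self a s)).add (ih (fun i hi => h i (Finset.mem_insert_of_mem hi)))
theorem Ge.mul {m n : ℤ} {a b : ℚ} (ha : Ge m a) (hb : Ge n b) : Ge (m + n) (a * b) := by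
  by_cases ha0 : a = 0
  · left; rw [ha0, zero_mul]
  by_cases hb0 : b = 0
  · left; rw [hb0, mul_zero]
  right
  rw [padicValRat.mul ha0 hb0]
  exact add_le_add (ha.resolve_left ha0) (hb.resolve_left hb0)
theorem Ge.int (z : ℤ) : Ge 0 (z : ℚ) := by
  right
  rw [padicValRat.of_int]
  exact Int.natCast_nonneg _
theorem Ge.nat (z : ℕ) : Ge 0 (z : ℚ) := by
  have := Ge.int (z : ℤ)
  rwa [Int.cast_natCast] at this
theorem Ge.pow2z (k : ℤ) : Ge k ((2 : ℚ) ^ k) := by
  right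
  have h : padicValRat 2 ((2 : ℚ) ^ k) = k * padicValRat 2 (2 : ℚ) :=
    padicValRat.zpow (p := 2) (2 : ℚ)
  have h2 : padicValRat 2 (2 : ℚ) = 1 := by
    have := padicValRat.self (p := 2) (by norm_num)
    exact_mod_cast this
  rw [h, h2, mul_one]
theorem Ge.pow2 (k : ℕ) : Ge k ((2 : ℚ) ^ k) := by
  have := Ge.pow2z (k : ℤ)
  rwa [zpow_natCast] at this
theorem Ge.inv {b : ℤ} {q : ℚ} (h : padicValRat 2 q ≤ b) : Ge (-b) q⁻¹ := by
  right
  rw [padicValRat.inv]
  omega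
theorem Ge.div {m b : ℤ} {a q : ℚ} (ha : Ge m a) (h : padicValRat 2 q ≤ b) :
    Ge (m - b) (a / q) := by
  rw [div_eq_mul_inv, sub_eq_add_neg]
  exact ha.mul (Ge.inv h)
theorem Ge.le_val {n : ℤ} {q : ℚ} (h : Ge n q) (hq : q ≠ 0) : n ≤ padicValRat 2 q :=
  h.resolve_left hq
/-- an odd integer -/
theorem val_odd {z : ℤ} (hz : Odd z) : (z : ℚ) ≠ 0 ∧ padicValRat 2 (z : ℚ) = 0 := by
  have h1 : ¬ ((2 : ℕ) : ℤ) ∣ z := by
    intro h
    have h2 : Even z := even_iff_two_dvd.2 (by exact_mod_cast h)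
    exact (Int.not_even_iff_odd.2 hz) h2
  refine ⟨?_, ?_⟩
  · intro h
    have h2 : z = 0 := by exact_mod_cast h
    rw [h2] at hz
    exact (by decide : ¬ Odd (0 : ℤ)) hz
  · rw [padicValRat.of_int, padicValInt.eq_zero_of_not_dvd h1]
    rfl
theorem val_prod_odd {ι : Type*} (s : Finset ι) (f : ι → ℤ) (hf : ∀ i ∈ s, Odd (f i)) :
    (∏ i ∈ s, (f i : ℚ)) ≠ 0 ∧ padicValRat 2 (∏ i ∈ s, (f i : ℚ)) = 0 := by
  have h1 : Odd (∏ i ∈ s, f i) := Finset.prod_induction f Odd (fun _ _ => Odd.mul) odd_one hf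
  have h2 := val_odd h1
  rwa [Int.cast_prod] at h2
theorem od_val (j : ℕ) : od j ≠ 0 ∧ padicValRat 2 (od j) = 0 := by
  have h := val_prod_odd (range j) (fun i => 2 * (i : ℤ) + 1) (fun i _ => ⟨(i : ℤ), rfl⟩)
  have h2 : od j = ∏ i ∈ range j, (((2 * (i : ℤ) + 1 : ℤ)) : ℚ) := by
    unfold od
    refine Finset.prod_congr rfl (fun i _ => ?_)
    push_cast
    ring
  rw [h2]
  exact h
/-- difference of quotients -/
theorem Ge.div_sub {a a' b b' : ℚ} {p q r β β' : ℤ} (hb : b ≠ 0) (hb' : b' ≠ 0)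
    (hβ : padicValRat 2 b ≤ β) (hβ' : padicValRat 2 b' ≤ β') (h1 : Ge p (a - a')) (h2 : Ge q a')
    (h3 : Ge r (b - b')) : Ge (min (p - β) (q + r - β - β')) (a / b - a' / b') := by
  have e : a / b - a' / b' = (a - a') / b - (a' * (b - b')) / (b * b') := by
    field_simp
    ring
  rw [e]
  have h4 : padicValRat 2 (b * b') ≤ β + β' := by
    rw [padicValRat.mul hb hb']
    exact add_le_add hβ hβ'
  refine Ge.sub ((h1.div hβ).mono (min_le_left _ _)) (((h2.mul h3).div h4).mono ?_)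
  have := min_le_right (p - β) (q + r - β - β')
  omega
/-- `1 + small` -/
theorem Ge.one_sub_odd {q : ℚ} (h0 : q ≠ 0) (h : padicValRat 2 q = 0) : Ge 1 (q - 1) := by
  have hn0 : q.num ≠ 0 := Rat.num_ne_zero.2 h0
  have hval : (padicValInt 2 q.num : ℤ) - (padicValNat 2 q.den : ℤ) = 0 := h
  have hcop : Nat.Coprime q.num.natAbs q.den := q.reduced
  have hd : ¬ 2 ∣ q.den := by
    intro hd
    have h1 : 1 ≤ padicValNat 2 q.den := one_le_padicValNat_of_dvd q.den_nz hd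
    have h2 : ¬ ((2 : ℕ) : ℤ) ∣ q.num := by
      intro h3
      have h4 : 2 ∣ q.num.natAbs := by
        have := Int.natAbs_dvd_natAbs.2 h3
        simpa using this
      have h5 := Nat.dvd_gcd h4 hd
      rw [hcop.gcd_eq_one] at h5
      omega
    rw [padicValInt.eq_zero_of_not_dvd h2] at hval
    omega
  have hn : ¬ ((2 : ℕ) : ℤ) ∣ q.num := by
    intro h3
    rw [padicValNat.eq_zero_of_not_dvd hd] at hval
    have h4 : 1 ≤ padicValInt 2 q.num := by
      unfold padicValInt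
      apply one_le_padicValNat_of_dvd (Int.natAbs_ne_zero.2 hn0)
      have := Int.natAbs_dvd_natAbs.2 h3
      simpa using this
    omega
  have e : q - 1 = ((q.num - q.den : ℤ) : ℚ) / ((q.den : ℤ) : ℚ) := by
    have hden : (q.den : ℚ) ≠ 0 := by exact_mod_cast q.den_nz
    push_cast
    rw [sub_div, div_self hden, Rat.num_div_den]
  obtain ⟨k, hk⟩ : ∃ k : ℤ, q.num - q.den = 2 * k := by
    have h1 : q.num % 2 = 1 := by omega
    have h2 : (q.den : ℤ) % 2 = 1 := by omega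
    exact ⟨(q.num - q.den) / 2, by omega⟩
  have h5 : Ge 1 ((q.num - q.den : ℤ) : ℚ) := by
    rw [hk]
    push_cast
    have := (Ge.pow2 1).mul (Ge.int k)
    simpa using this
  have h6 : padicValRat 2 ((q.den : ℤ) : ℚ) ≤ 0 := by
    have : Odd (q.den : ℤ) := by
      rw [← Int.not_even_iff_odd, even_iff_two_dvd]
      omega
    rw [(val_odd this).2]
  have h7 := h5.div h6
  rw [← e, sub_zero] at h7
  exact h7
section K
variable {K : Type*} [NormedField K] [IsUltrametricDist K] [CharZero K]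

omit [CharZero K] in
private theorem val_norm_odd (h2 : ‖(2 : K)‖ = 1 / 2) {m : ℕ} (hm : ¬ 2 ∣ m) : ‖(m : K)‖ = 1 := by
  obtain ⟨k, hk⟩ : ∃ k, m = 2 * k + 1 := ⟨m / 2, by omega⟩
  have h3 : ‖(2 * k : K)‖ ≤ 1 / 2 := by
    rw [norm_mul, h2]
    have := IsUltrametricDist.norm_natCast_le_one K k
    have h4 := norm_nonneg (k : K)
    linarith
  have h5 : ‖(2 * k : K)‖ ≠ ‖(1 : K)‖ := by
    rw [norm_one]
    intro h6
    rw [h6] at h3
    norm_num at h3
  have h6 := IsUltrametricDist.norm_add_eq_max_of_norm_ne_norm h5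
  rw [hk]
  push_cast
  rw [h6, norm_one, max_eq_right]
  linarith

private theorem val_norm_nat (h2 : ‖(2 : K)‖ = 1 / 2) {n : ℕ} (hn : n ≠ 0) :
    ‖(n : K)‖ = (2 : ℝ) ^ (-(padicValNat 2 n : ℤ)) := by
  obtain ⟨m, hm⟩ := pow_padicValNat_dvd (p := 2) (n := n)
  have hodd : ¬ 2 ∣ m := by
    rintro ⟨k, hk⟩
    apply pow_succ_padicValNat_not_dvd (p := 2) hn
    refine ⟨k, ?_⟩
    rw [pow_succ, mul_assoc, ← hk]
    exact hm
  have h3 : ‖(n : K)‖ = ‖((2 ^ padicValNat 2 n * m : ℕ) : K)‖ := by rw [← hm]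
  rw [h3, Nat.cast_mul, Nat.cast_pow, Nat.cast_ofNat, norm_mul, norm_pow, h2, val_norm_odd h2 hodd,
    mul_one, zpow_neg, zpow_natCast, one_div, inv_pow]

theorem norm_cast (h2 : ‖(2 : K)‖ = 1 / 2) {q : ℚ} (hq : q ≠ 0) :
    ‖(q : K)‖ = (2 : ℝ) ^ (-padicValRat 2 q) := by
  have hn0 : q.num.natAbs ≠ 0 := Int.natAbs_ne_zero.2 (Rat.num_ne_zero.2 hq)
  have h3 : ‖(q.num : K)‖ = ‖(q.num.natAbs : K)‖ := by
    rcases Int.natAbs_eq q.num with h | h
    · conv_lhs => rw [h]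
      rw [Int.cast_natCast]
    · conv_lhs => rw [h]
      rw [Int.cast_neg, Int.cast_natCast, norm_neg]
  have h4 : padicValRat 2 q = (padicValNat 2 q.num.natAbs : ℤ) - (padicValNat 2 q.den : ℤ) := rfl
  rw [Rat.cast_def, norm_div, h3, val_norm_nat h2 hn0, val_norm_nat h2 q.den_nz, h4,
    ← zpow_sub₀ (by norm_num : (2 : ℝ) ≠ 0)]
  congr 1
  ring
theorem Ge.cast (h2 : ‖(2 : K)‖ = 1 / 2) {n : ℤ} {q : ℚ} (h : Ge n q) : GK n (q : K) := by
  unfold GK
  by_cases hq : q = 0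
  · rw [hq, Rat.cast_zero, norm_zero]
    positivity
  · rw [norm_cast h2 hq]
    exact zpow_le_zpow_right₀ (by norm_num) (by have := h.resolve_left hq; omega)
theorem GK.add {n : ℤ} {a b : K} (ha : GK n a) (hb : GK n b) : GK n (a + b) :=
  (IsUltrametricDist.norm_add_le_max a b).trans (max_le ha hb)
theorem GK.neg {n : ℤ} {a : K} (ha : GK n a) : GK n (-a) := by
  unfold GK at *
  rwa [norm_neg]
theorem GK.sub {n : ℤ} {a b : K} (ha : GK n a) (hb : GK n b) : GK n (a - b) := by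
  rw [sub_eq_add_neg]; exact GK.add ha (GK.neg hb)
theorem GK.mul {m n : ℤ} {a b : K} (ha : GK m a) (hb : GK n b) : GK (m + n) (a * b) := by
  unfold GK at *
  rw [norm_mul, neg_add, zpow_add₀ (by norm_num : (2 : ℝ) ≠ 0)]
  exact mul_le_mul ha hb (norm_nonneg _) (by positivity)
theorem GK.mono {m n : ℤ} {a : K} (ha : GK n a) (h : m ≤ n) : GK m a :=
  ha.trans (zpow_le_zpow_right₀ (by norm_num) (by omega))
theorem GK.sum {ι : Type*} {n : ℤ} (s : Finset ι) (f : ι → K) (h : ∀ i ∈ s, GK n (f i)) :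
    GK n (∑ i ∈ s, f i) := by
  classical
  induction s using Finset.induction_on with
  | empty =>
    rw [Finset.sum_empty]
    unfold GK
    rw [norm_zero]
    positivity
  | insert a s ha ih =>
    rw [Finset.sum_insert ha]
    exact GK.add (h a (Finset.mem_insert_self a s))
      (ih (fun i hi => h i (Finset.mem_insert_of_mem hi)))
end K
end Pool.Agent.BZ
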