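import Pool.Agent.Lib.MP_06b9d2_bz.LDU
import Pool.Agent.Lib.MP_06b9d2_bz.ParA
/-! # BZ.XFa: the entries of `X0 = A1 B1`
`A1` is lower triangular, `B1` upper triangular on `1..m`, identity for positions `> m`. `LL_ll`, `rr_RR` with `n = N0 - 1`
(restricted sums by triangularity). -/
set_option autoImplicit false
open Finset
namespace Pool.Agent.BZ
private theorem XFa_ll0 {N : ℚ} {s t : ℕ} (h : s < t) : ll N s t = 0 := by
  rw [ll, if_neg (not_le.2 h)]
private theorem XFa_LL0 {N : ℚ} {s t : ℕ} (h : s < t) : LL N s t = 0 := by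
  rw [LL, if_neg (not_le.2 h)]
private theorem XFa_rr0 {N : ℚ} {s t : ℕ} (h : t < s) : rr N s t = 0 := by
  rw [rr, if_neg (not_le.2 h)]
private theorem XFa_RR0 {N : ℚ} {s t : ℕ} (h : t < s) : RR N s t = 0 := by
  rw [RR, if_neg (not_le.2 h)]

private theorem XFa_par (P : Par) : 1 ≤ P.s0 ∧ P.s0 ≤ P.m ∧ 8 * P.m ≤ P.N ∧ P.m < P.N := by
  have h1 := P.m_eq
  have h2 := P.two_m
  have h3 := P.N_big
  obtain ⟨c, hc⟩ := P.l_odd
  have h4 : 1 ≤ P.s0 := by
    rw [Par.s0]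
    exact Nat.le_add_right 1 _
  exact ⟨h4, by omega, by omega, by omega⟩

private theorem XFa_Al (P : Par) {s : ℕ} (t : ℕ) (h : s < P.s0) : P.A1 s t = ll P.N s t := by
  rw [Par.A1, if_pos h]
private theorem XFa_Ah (P : Par) {s : ℕ} (t : ℕ) (h : P.s0 ≤ s) (h' : s ≤ P.m) :
    P.A1 s t = ∑ u ∈ Icc P.s0 s, LL P.N s u * ll P.N u t := by
  rw [Par.A1, if_neg (not_lt.2 h), if_pos h']
private theorem XFa_AR (P : Par) {s : ℕ} (t : ℕ) (h : P.m < s) :
    P.A1 s t = if s = t then 1 else 0 := by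
  have h1 := (XFa_par P).2.1
  rw [Par.A1, if_neg (by omega), if_neg (by omega)]
private theorem XFa_Bl (P : Par) {s : ℕ} (t : ℕ) (h : s < P.s0) : P.B1 t s = rr P.N t s := by
  rw [Par.B1, if_pos h]
private theorem XFa_Bh (P : Par) {s : ℕ} (t : ℕ) (h : P.s0 ≤ s) (h' : s ≤ P.m) :
    P.B1 t s = ∑ u ∈ Icc P.s0 s, rr P.N t u * RR P.N u s := by
  rw [Par.B1, if_neg (not_lt.2 h), if_pos h']
private theorem XFa_BR (P : Par) {s : ℕ} (t : ℕ) (h : P.m < s) :
    P.B1 t s = if t = s then 1 else 0 := by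
  have h1 := (XFa_par P).2.1
  rw [Par.B1, if_neg (by omega), if_neg (by omega)]

/-- restriction of a sum over `1..K` to `1..r` -/
private theorem XFa_res {K r : ℕ} (f : ℕ → ℚ) (hr : r ≤ K) (h : ∀ t, r < t → f t = 0) :
    ∑ t ∈ Icc 1 K, f t = ∑ t ∈ Icc 1 r, f t := by
  symm
  apply Finset.sum_subset (Icc_subset_Icc le_rfl hr)
  intro t ht1 ht2
  rw [mem_Icc] at ht1 ht2
  exact h t (by omega)

theorem X0_ll (P : Par) (s q : ℕ) (hs : 1 ≤ s) (hs' : s < P.s0) (hq : 1 ≤ q) (hq' : q < P.s0) :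
    P.X0 s q = ∑ v ∈ Icc 1 (min s q), ll P.N s v * rr P.N v q := by
  obtain ⟨h1, h2, h3, h4⟩ := XFa_par P
  rw [Par.X0, ← XFa_res (K := P.N - 1) (r := min s q) (fun v => ll P.N s v * rr P.N v q)]
  · refine Finset.sum_congr rfl fun t _ => ?_
    rw [XFa_Al P t hs', XFa_Bl P t hq']
  · have := min_le_left s q
    omega
  · intro t ht
    rcases lt_or_ge s t with h5 | h5
    · simp only [XFa_ll0 h5, zero_mul]
    · have h6 : q < t := by
        rcases le_total s q with h7 | h7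
        · rw [min_eq_left h7] at ht
          omega
        · rw [min_eq_right h7] at ht
          exact ht
      simp only [XFa_rr0 h6, mul_zero]

theorem X0_lh (P : Par) (s q : ℕ) (hs : 1 ≤ s) (hs' : s < P.s0) (hq : P.s0 ≤ q) (hq' : q ≤ P.m) :
    P.X0 s q = ∑ u ∈ Icc P.s0 q, (∑ v ∈ Icc 1 s, ll P.N s v * rr P.N v u) * RR P.N u q := by
  obtain ⟨h1, h2, h3, h4⟩ := XFa_par P
  have e1 : P.X0 s q = ∑ t ∈ Icc 1 (P.N - 1), ∑ u ∈ Icc P.s0 q,
      (ll P.N s t * rr P.N t u) * RR P.N u q := by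
    rw [Par.X0]
    refine Finset.sum_congr rfl fun t _ => ?_
    rw [XFa_Al P t hs', XFa_Bh P t hq hq', Finset.mul_sum]
    exact Finset.sum_congr rfl fun u _ => (mul_assoc _ _ _).symm
  rw [e1, Finset.sum_comm]
  refine Finset.sum_congr rfl fun u _ => ?_
  rw [Finset.sum_mul, XFa_res (K := P.N - 1) (r := s)
    (fun t => (ll P.N s t * rr P.N t u) * RR P.N u q) (by omega)]
  intro t ht
  simp only [XFa_ll0 ht, zero_mul]

theorem X0_hl (P : Par) (s q : ℕ) (hs : P.s0 ≤ s) (hs' : s ≤ P.m) (hq : 1 ≤ q) (hq' : q < P.s0) :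
    P.X0 s q = ∑ u ∈ Icc P.s0 s, LL P.N s u * (∑ v ∈ Icc 1 q, ll P.N u v * rr P.N v q) := by
  obtain ⟨h1, h2, h3, h4⟩ := XFa_par P
  have e1 : P.X0 s q = ∑ t ∈ Icc 1 (P.N - 1), ∑ u ∈ Icc P.s0 s,
      LL P.N s u * (ll P.N u t * rr P.N t q) := by
    rw [Par.X0]
    refine Finset.sum_congr rfl fun t _ => ?_
    rw [XFa_Ah P t hs hs', XFa_Bl P t hq', Finset.sum_mul]
    exact Finset.sum_congr rfl fun u _ => mul_assoc _ _ _
  rw [e1, Finset.sum_comm]
  refine Finset.sum_congr rfl fun u _ => ?_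
  rw [Finset.mul_sum, XFa_res (K := P.N - 1) (r := q)
    (fun t => LL P.N s u * (ll P.N u t * rr P.N t q)) (by omega)]
  intro t ht
  simp only [XFa_rr0 ht, mul_zero]

theorem X0_hh (P : Par) (s q : ℕ) (hs : P.s0 ≤ s) (hs' : s ≤ P.m) (hq : P.s0 ≤ q) (hq' : q ≤ P.m) :
    P.X0 s q = (if s = q then 1 else 0) + ∑ u ∈ Icc P.s0 s, ∑ v ∈ Icc P.s0 q,
      LL P.N s u * (∑ t ∈ Icc 1 (P.s0 - 1), ll P.N u t * rr P.N t v) * RR P.N v q := by
  obtain ⟨h1, h2, h3, h4⟩ := XFa_par P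
  have hA : ∀ t, P.s0 ≤ t → t ≤ P.m →
      ∑ u ∈ Icc P.s0 s, LL P.N s u * ll P.N u t = if s = t then 1 else 0 := by
    intro t ht ht'
    rw [← LL_ll (N := P.N) (n := P.m) h3 (a := s) (b := t) (by omega) hs' (by omega) ht']
    apply Finset.sum_subset (Icc_subset_Icc h1 hs')
    intro u hu1 hu2
    rw [mem_Icc] at hu1 hu2
    rcases lt_or_ge u P.s0 with h5 | h5
    · rw [XFa_ll0 (show u < t by omega), mul_zero]
    · rw [XFa_LL0 (show s < u by omega), zero_mul]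
  have hB : ∀ t, P.s0 ≤ t → t ≤ P.m →
      ∑ u ∈ Icc P.s0 q, rr P.N t u * RR P.N u q = if t = q then 1 else 0 := by
    intro t ht ht'
    rw [← rr_RR (N := P.N) (n := P.m) h3 (a := t) (b := q) (by omega) ht' (by omega) hq']
    apply Finset.sum_subset (Icc_subset_Icc h1 hq')
    intro u hu1 hu2
    rw [mem_Icc] at hu1 hu2
    rcases lt_or_ge u P.s0 with h5 | h5
    · rw [XFa_rr0 (show u < t by omega), zero_mul]
    · rw [XFa_RR0 (show q < u by omega), mul_zero]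
  have e1 : P.X0 s q = ∑ t ∈ Icc 1 P.m, (∑ u ∈ Icc P.s0 s, LL P.N s u * ll P.N u t) *
      (∑ u ∈ Icc P.s0 q, rr P.N t u * RR P.N u q) := by
    rw [← XFa_res (K := P.N - 1) (r := P.m) (fun t => (∑ u ∈ Icc P.s0 s, LL P.N s u * ll P.N u t) *
      (∑ u ∈ Icc P.s0 q, rr P.N t u * RR P.N u q)) (by omega), Par.X0]
    · refine Finset.sum_congr rfl fun t _ => ?_
      rw [XFa_Ah P t hs hs', XFa_Bh P t hq hq']
    · intro t ht
      have h5 : ∑ u ∈ Icc P.s0 s, LL P.N s u * ll P.N u t = 0 := by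
        refine Finset.sum_eq_zero fun u hu => ?_
        rw [mem_Icc] at hu
        rw [XFa_ll0 (show u < t by omega), mul_zero]
      simp only [h5, zero_mul]
  have e2 : Icc 1 P.m = Icc 1 (P.s0 - 1) ∪ Icc P.s0 P.m := by
    ext t
    rw [mem_union, mem_Icc, mem_Icc, mem_Icc]
    omega
  have e3 : Disjoint (Icc 1 (P.s0 - 1)) (Icc P.s0 P.m) := by
    rw [Finset.disjoint_left]
    intro t ht1 ht2
    rw [mem_Icc] at ht1 ht2
    omega
  have e4 : ∑ t ∈ Icc P.s0 P.m, (∑ u ∈ Icc P.s0 s, LL P.N s u * ll P.N u t) *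
      (∑ u ∈ Icc P.s0 q, rr P.N t u * RR P.N u q) = if s = q then 1 else 0 := by
    rw [Finset.sum_congr rfl (fun t ht => by
      rw [hA t (mem_Icc.1 ht).1 (mem_Icc.1 ht).2, hB t (mem_Icc.1 ht).1 (mem_Icc.1 ht).2] :
      ∀ t ∈ Icc P.s0 P.m, (∑ u ∈ Icc P.s0 s, LL P.N s u * ll P.N u t) *
        (∑ u ∈ Icc P.s0 q, rr P.N t u * RR P.N u q) =
        (if s = t then (1 : ℚ) else 0) * (if t = q then 1 else 0))]
    rw [Finset.sum_eq_single s]
    · rw [if_pos rfl, one_mul]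
    · intro t _ ht
      rw [if_neg (Ne.symm ht), zero_mul]
    · intro h
      exact absurd (mem_Icc.2 ⟨hs, hs'⟩) h
  rw [e1, e2, Finset.sum_union e3, e4, add_comm]
  congr 1
  have e5 : ∀ t, (∑ u ∈ Icc P.s0 s, LL P.N s u * ll P.N u t) *
      (∑ u ∈ Icc P.s0 q, rr P.N t u * RR P.N u q) =
      ∑ u ∈ Icc P.s0 s, ∑ v ∈ Icc P.s0 q,
        LL P.N s u * (ll P.N u t * rr P.N t v) * RR P.N v q := by
    intro t
    rw [Finset.sum_mul_sum]
    refine Finset.sum_congr rfl fun u _ => Finset.sum_congr rfl fun v _ => ?_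
    ring
  rw [Finset.sum_congr rfl (fun t _ => e5 t), Finset.sum_comm]
  refine Finset.sum_congr rfl fun u _ => ?_
  rw [Finset.sum_comm]
  refine Finset.sum_congr rfl fun v _ => ?_
  rw [Finset.mul_sum, Finset.sum_mul]

theorem X0_R (P : Par) (s q : ℕ) (hs : 1 ≤ s) (hsN : s < P.N) (hq : 1 ≤ q) (hqN : q < P.N)
    (h : P.m < s ∨ P.m < q) : P.X0 s q = if s = q then 1 else 0 := by
  obtain ⟨h1, h2, h3, h4⟩ := XFa_par P
  rcases lt_or_ge P.m s with hms | hms
  · have e1 : P.X0 s q = P.B1 s q := by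
      rw [Par.X0, Finset.sum_eq_single s]
      · rw [XFa_AR P s hms, if_pos rfl, one_mul]
      · intro t _ ht
        rw [XFa_AR P t hms, if_neg (Ne.symm ht), zero_mul]
      · intro h5
        exact absurd (mem_Icc.2 ⟨hs, by omega⟩) h5
    rw [e1]
    rcases lt_or_ge q P.s0 with h5 | h5
    · rw [XFa_Bl P s h5, XFa_rr0 (show q < s by omega), if_neg (by omega)]
    · rcases le_or_gt q P.m with h6 | h6
      · rw [XFa_Bh P s h5 h6, if_neg (by omega)]
        refine Finset.sum_eq_zero fun u hu => ?_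
        rw [mem_Icc] at hu
        rw [XFa_rr0 (show u < s by omega), zero_mul]
      · rw [XFa_BR P s h6]
  · have hmq : P.m < q := by
      rcases h with h5 | h5
      · omega
      · exact h5
    have e1 : P.X0 s q = P.A1 s q := by
      rw [Par.X0, Finset.sum_eq_single q]
      · rw [XFa_BR P q hmq, if_pos rfl, mul_one]
      · intro t _ ht
        rw [XFa_BR P t hmq, if_neg ht, mul_zero]
      · intro h5
        exact absurd (mem_Icc.2 ⟨hq, by omega⟩) h5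
    rw [e1, if_neg (by omega)]
    rcases lt_or_ge s P.s0 with h5 | h5
    · rw [XFa_Al P q h5, XFa_ll0 (show s < q by omega)]
    · rw [XFa_Ah P q h5 hms]
      refine Finset.sum_eq_zero fun u hu => ?_
      rw [mem_Icc] at hu
      rw [XFa_ll0 (show u < q by omega), mul_zero]

end Pool.Agent.BZ
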