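import Pool.Agent.Lib.MP_06b9d2_bz.CoA
import Pool.Agent.Lib.MP_06b9d2_bz.Val
import Pool.Agent.Lib.MP_06b9d2_bz.XFa
import Pool.Agent.Lib.MP_06b9d2_bz.FA
import Pool.Agent.Lib.MP_06b9d2_bz.FB
import Pool.Agent.Lib.MP_06b9d2_bz.FC
import Pool.Agent.Lib.MP_06b9d2_bz.FD
import Pool.Agent.Lib.MP_06b9d2_bz.FE
import Pool.Agent.Lib.MP_06b9d2_bz.FF
import Pool.Agent.Lib.MP_06b9d2_bz.FG
/-! # BZ.CoB: bounds for `MM`, rows outside the window `S = {s0, .., s0 + n - 2}`
Classes: low (`s < s0`), rest (`s0 + n - 1 ≤ s ≤ m`, `y = 1`), R1 (`m < s ≤ N0 - s0`; `y = -2^(L-3)` if `s > N0 - s0 - n + 1`, else `0`),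
R2 (`s > N0 - s0`, `y = 30 L - log n - 8`). `X0 = δ` if the row or the column is `> m` (`X0_R`).
low/low F1, low/rest F2, low/R1 F4, low/R2 F3; rest/low F5, F9; rest/rest F6b, F6d, F10; rest/R1 F7, F13; rest/R2 F8, F13;
R1/low F9, R2/low F11; R1/rest F10, R2/rest F12; R/R F13 (`l > 2^L`, `big1`).
low/S F2, rest/S F6c, F6d, F10; R1/S F10; R2/S F12. -/
set_option autoImplicit false
open Finset
namespace Pool.Agent.BZ
variable {K : Type*} [NormedField K] [IsUltrametricDist K] [CharZero K]
/-- the window -/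
def Win (P : Par) (s : ℕ) : Prop := P.s0 ≤ s ∧ s + 1 < P.s0 + P.n
instance (P : Par) (s : ℕ) : Decidable (Win P s) := by unfold Win; infer_instance
/-- the diagonal -/
noncomputable def dd (P : Par) (x : K) (s : ℕ) : K :=
  if s < P.s0 then ((P.Dh s : ℚ) : K) else if s ≤ P.m then -(x - x⁻¹) else -x
private theorem gk_mul_unit {n : ℤ} {a u : K} (hu : ‖u‖ = 1) (ha : GK n a) : GK n (u * a) := by
  unfold GK at *
  rw [norm_mul, hu, one_mul]
  exact ha

private theorem gk_div_unit {n : ℤ} {a u : K} (hu : ‖u‖ = 1) (ha : GK n a) : GK n (a / u) := by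
  unfold GK at *
  rw [norm_div, hu, div_one]
  exact ha

private theorem gk_zero (n : ℤ) : GK n (0 : K) := by
  unfold GK
  rw [norm_zero]
  positivity

private theorem gk_one {n : ℤ} (hn : n ≤ 0) : GK n (1 : K) := by
  unfold GK
  rw [norm_one]
  exact one_le_zpow₀ (by norm_num) (by omega)

private theorem gk_ite {n : ℤ} (hn : n ≤ 0) (p : Prop) [Decidable p] :
    GK n (if p then (1 : K) else 0) := by
  split_ifs
  · exact gk_one hn
  · exact gk_zero n

private structure Fac (P : Par) (A : ℕ) : Prop where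
  hA : ((2 : ℤ) ^ (P.L - 3)) = A
  m1 : 2 * P.m + 1 = P.N0
  m2 : 2 * P.m + 1 = 2 * P.s0 + P.l
  l1 : P.l + 2 = P.n + 8 * A
  b1 : 1000000 * P.L ≤ A
  nL : P.n + 1000 ≤ P.L
  n3 : 3 ≤ P.n
  lg : Nat.log 2 P.n ≤ P.n
  gg : 2 * P.g ≤ P.L ∧ P.L ≤ 2 * P.g + 1

private theorem fac (P : Par) : Fac P (2 ^ (P.L - 3)) := by
  have h1 := P.l_eq
  have h2 := P.big1'
  have h3 := P.n_le
  refine ⟨by push_cast; rfl, P.two_m, P.m_eq, by omega, P.big1, ?_, P.hn3, Nat.log_le_self 2 P.n, ?_⟩
  · nlinarith
  · have : P.g = P.L / 2 := rfl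
    omega

private theorem y_low (P : Par) {s : ℕ} (h : s < P.s0) : P.y s =
    30 * P.L + 2 * ((P.s0 : ℤ) - s) + (if 2 * s ≤ P.m then 3 * P.l else 0) := by
  unfold Par.y
  rw [if_pos h]

private theorem y_rest (P : Par) {s : ℕ} (h : P.s0 ≤ s) (h' : s ≤ P.m) : P.y s = 1 := by
  unfold Par.y
  rw [if_neg (by omega), if_pos h']

private theorem y_R2 (P : Par) {s : ℕ} (h0 : P.s0 ≤ s) (h : P.m < s) (h' : P.N0 < s + P.s0) :
    P.y s = 30 * P.L - Nat.log 2 P.n - 8 := by
  unfold Par.y
  rw [if_neg (by omega), if_neg (by omega), if_pos h']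

private theorem y_R1n (P : Par) {s : ℕ} (h0 : P.s0 ≤ s) (h : P.m < s) (h' : s + P.s0 ≤ P.N0)
    (h2 : P.N0 + 1 < s + P.s0 + P.n) : P.y s = -(2 ^ (P.L - 3)) := by
  unfold Par.y
  rw [if_neg (by omega), if_neg (by omega), if_neg (by omega), if_pos h2]

private theorem y_R1f (P : Par) {s : ℕ} (h0 : P.s0 ≤ s) (h : P.m < s) (h' : s + P.s0 ≤ P.N0)
    (h2 : s + P.s0 + P.n ≤ P.N0 + 1) : P.y s = 0 := by
  unfold Par.y
  rw [if_neg (by omega), if_neg (by omega), if_neg (by omega), if_neg (by omega)]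

private theorem y_R1 (P : Par) {s : ℕ} (h0 : P.s0 ≤ s) (h : P.m < s) (h' : s + P.s0 ≤ P.N0) :
    (P.y s = 0 ∧ s + P.s0 + P.n ≤ P.N0 + 1) ∨
      (P.y s = -(2 ^ (P.L - 3)) ∧ P.N0 + 1 < s + P.s0 + P.n) := by
  by_cases h2 : P.N0 + 1 < s + P.s0 + P.n
  · exact Or.inr ⟨y_R1n P h0 h h' h2, h2⟩
  · exact Or.inl ⟨y_R1f P h0 h h' (by omega), by omega⟩

private theorem MM_low (P : Par) (x : K) {s : ℕ} (q : ℕ) (h : s < P.s0) :
    MM P x s q = ((P.X1 s q : ℚ) : K) - x * ((P.X0 s q : ℚ) : K) := by
  unfold MM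
  rw [if_neg (by omega)]
  rfl

private theorem MM_R (P : Par) (x : K) {s : ℕ} (q : ℕ) (h : P.m < s) :
    MM P x s q = ((P.X1 s q : ℚ) : K) - x * ((P.X0 s q : ℚ) : K) := by
  unfold MM
  rw [if_neg (by omega)]
  rfl

private theorem MM_hi (P : Par) (x : K) (hx : x ≠ 0) {s : ℕ} (q : ℕ) (h : P.s0 ≤ s) (h' : s ≤ P.m) :
    MM P x s q = ((P.X1 s q : ℚ) : K) - x * ((P.X0 s q : ℚ) : K) -
      x⁻¹ * ((P.X1 (P.N0 - s) q : ℚ) : K) + ((P.X0 (P.N0 - s) q : ℚ) : K) := by
  unfold MM
  rw [if_pos ⟨h, h'⟩]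
  unfold MX
  field_simp
  ring

private theorem dd_low (P : Par) (x : K) {s : ℕ} (h : s < P.s0) : dd P x s = ((P.Dh s : ℚ) : K) := by
  unfold dd
  rw [if_pos h]

private theorem dd_hi (P : Par) (x : K) {s : ℕ} (h : P.s0 ≤ s) (h' : s ≤ P.m) :
    dd P x s = -(x - x⁻¹) := by
  unfold dd
  rw [if_neg (by omega), if_pos h']

private theorem dd_R (P : Par) (x : K) {s : ℕ} (h0 : P.s0 ≤ s) (h' : P.m < s) : dd P x s = -x := by
  unfold dd
  rw [if_neg (by omega), if_neg (by omega)]

variable (P : Par) (h2 : ‖(2 : K)‖ = 1 / 2) (x : K) (hx : ‖x‖ = 1) (hz : ‖x - x⁻¹‖ = 1)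
  (s q : ℕ) (hs : 1 ≤ s) (hsN : s < P.N) (hq : 1 ≤ q) (hqN : q < P.N)
include h2 hx hz hs hsN hq hqN
theorem MM_T (h : ¬ Win P s) (h' : ¬ Win P q) :
    GK (1 + P.y s - P.y q) ((MM P x s q - if s = q then dd P x s else 0) / dd P x s) := by
  have F := fac P
  obtain ⟨A, hAeq⟩ : ∃ A, A = 2 ^ (P.L - 3) := ⟨_, rfl⟩
  rw [← hAeq] at F
  obtain ⟨hA, m1, m2, l1, b1, nL, n3, lg, g1, g2⟩ := F
  unfold Win at h h'
  have hx0 : x ≠ 0 := by
    intro h0
    rw [h0, norm_zero] at hx
    exact zero_ne_one hx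
  have hxi : ‖x⁻¹‖ = 1 := by rw [norm_inv, hx, inv_one]
  have hxn : ‖-x‖ = 1 := by rw [norm_neg, hx]
  have hzn : ‖-(x - x⁻¹)‖ = 1 := by rw [norm_neg, hz]
  by_cases hsl : s < P.s0
  · -- low rows
    rw [MM_low P x q hsl, dd_low P x hsl]
    by_cases hql : q < P.s0
    · have e := X1_ll P s q hs hsl hq hql
      have f := (F1 P s q hs hsl hq hql).cast h2 (K := K)
      have e2 : (((P.X1 s q : ℚ) : K) - x * ((P.X0 s q : ℚ) : K) -
          if s = q then ((P.Dh s : ℚ) : K) else 0) / ((P.Dh s : ℚ) : K) =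
          (-x) * ((P.X0 s q / P.Dh s : ℚ) : K) := by
        rw [e]
        split_ifs <;> push_cast <;> ring
      rw [e2]
      exact gk_mul_unit hxn f
    · have hne : s ≠ q := by omega
      rw [if_neg hne]
      by_cases hqm : q ≤ P.m
      · have e := X1_lh P s q hs hsl (by omega) hqm
        have f := (F2 P s q hs hsl (by omega) hqm).cast h2 (K := K)
        have e2 : (((P.X1 s q : ℚ) : K) - x * ((P.X0 s q : ℚ) : K) - 0) / ((P.Dh s : ℚ) : K) =
            (-x) * ((P.X0 s q / P.Dh s : ℚ) : K) := by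
          rw [e]
          push_cast
          ring
        rw [e2]
        refine (gk_mul_unit hxn f).mono ?_
        rw [y_rest P (by omega) hqm]
        omega
      · have e := X0_R P s q hs hsN hq hqN (Or.inr (by omega))
        rw [if_neg hne] at e
        have e2 : (((P.X1 s q : ℚ) : K) - x * ((P.X0 s q : ℚ) : K) - 0) / ((P.Dh s : ℚ) : K) =
            ((P.X1 s q / P.Dh s : ℚ) : K) := by
          rw [e]
          push_cast
          ring
        rw [e2]
        by_cases hq2 : q + P.s0 ≤ P.N0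
        · have f := (F4 P s q hs hsl (by omega) hq2).cast h2 (K := K)
          refine f.mono ?_
          rcases y_R1 P (s := q) (by omega) (by omega) hq2 with ⟨hy, _⟩ | ⟨hy, _⟩ <;> rw [hy, hA] <;>
            omega
        · exact (F3 P s q hs hsl (by omega) hqN).cast h2 (K := K)
  · by_cases hsm : s ≤ P.m
    · -- rest rows
      have hs0 : P.s0 ≤ s := by omega
      have hys := y_rest P hs0 hsm
      rw [MM_hi P x hx0 q hs0 hsm, dd_hi P x hs0 hsm, hys]
      apply gk_div_unit hzn
      have hr1 : P.m < P.N0 - s := by omega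
      have hr2 : P.N0 - s + P.s0 ≤ P.N0 := by omega
      have hNb := P.N_big
      have hr3 : P.N0 - s < P.N := by omega
      have e0 := X0_R P (P.N0 - s) q (by omega) hr3 hq hqN (Or.inl hr1)
      by_cases hql : q < P.s0
      · have hne : s ≠ q := by omega
        rw [if_neg hne, e0, if_neg (by omega), X1_hl P s q hs0 hsm hq hql]
        have f1 := (F5 P s q hs0 hsm hq hql).cast h2 (K := K)
        have f2 := (F9 P (P.N0 - s) q hq hql hr1 hr2).cast h2 (K := K)
        have f := (gk_mul_unit hx f1).neg.sub (gk_mul_unit hxi f2)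
        refine GK.mono (m := 1 + 1 - P.y q) (n := 2 - P.y q) ?_ (by omega)
        convert f using 1
        push_cast
        ring
      · by_cases hqm : q ≤ P.m
        · rw [y_rest P (s := q) (by omega) hqm]
          have f1 := (F6b P s q hs0 hsm (by omega) hqm (by omega) (by omega)).cast h2 (K := K)
          have f2 := (F6d P s q hs0 hsm (by omega) hqm).cast h2 (K := K)
          have f3 := (F10 P (P.N0 - s) q (by omega) hqm hr1 hr2).cast h2 (K := K)
          rw [e0, if_neg (show ¬ P.N0 - s = q by omega)]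
          have f := (f1.sub ((gk_mul_unit hx f2).mono (by omega))).sub
            ((gk_mul_unit hxi f3).mono (n := P.g + 1) (m := 1) (by omega))
          refine GK.mono (m := 1 + 1 - 1) (n := 1) ?_ (by omega)
          convert f using 1
          by_cases hsq : s = q
          · rw [if_pos hsq, if_pos hsq, if_pos (show P.N0 - s + q = P.N0 by omega)]
            push_cast
            ring
          · rw [if_neg hsq, if_neg hsq, if_neg (show ¬ P.N0 - s + q = P.N0 by omega)]
            push_cast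
            ring
        · have hne : s ≠ q := by omega
          have e1 := X0_R P s q hs hsN hq hqN (Or.inr (by omega))
          rw [if_neg hne] at e1 ⊢
          have f13 := (F13 P (P.N0 - s) q hr1 hr3 (by omega) hqN).cast h2 (K := K)
          by_cases hq2 : q + P.s0 ≤ P.N0
          · have f7 := (F7 P s q hs0 hsm (by omega) hq2).cast h2 (K := K)
            rw [e0, e1]
            have key : (((P.X1 s q : ℚ) : K) - x * ((0 : ℚ) : K) -
                x⁻¹ * ((P.X1 (P.N0 - s) q : ℚ) : K) +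
                (((if P.N0 - s = q then 1 else 0 : ℚ)) : K) - 0) =
                ((P.X1 s q + (if q + s = P.N0 then 1 else 0) : ℚ) : K) -
                  x⁻¹ * ((P.X1 (P.N0 - s) q : ℚ) : K) := by
              have hiff : (P.N0 - s = q) ↔ (q + s = P.N0) := by omega
              simp only [hiff]
              push_cast
              ring
            rw [key]
            apply GK.sub
            · refine f7.mono ?_
              rcases y_R1 P (s := q) (by omega) (by omega) hq2 with ⟨hy, _⟩ | ⟨hy, _⟩ <;>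
                rw [hy] <;> rw [hA] <;> omega
            · refine (gk_mul_unit hxi f13).mono ?_
              rcases y_R1 P (s := q) (by omega) (by omega) hq2 with ⟨hy, hq3⟩ | ⟨hy, hq3⟩
              · rw [hy]
                push_cast [Nat.cast_sub (show s ≤ P.N0 by omega)]
                omega
              · rw [hy, hA]
                push_cast [Nat.cast_sub (show s ≤ P.N0 by omega)]
                omega
          · have f8 := (F8 P s q hs0 hsm (by omega) hqN).cast h2 (K := K)
            rw [e0, e1, if_neg (show ¬ P.N0 - s = q by omega)]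
            have key : (((P.X1 s q : ℚ) : K) - x * ((0 : ℚ) : K) -
                x⁻¹ * ((P.X1 (P.N0 - s) q : ℚ) : K) + ((0 : ℚ) : K) - 0) =
                ((P.X1 s q : ℚ) : K) - x⁻¹ * ((P.X1 (P.N0 - s) q : ℚ) : K) := by
              push_cast
              ring
            rw [key]
            apply GK.sub
            · exact f8.mono (by omega)
            · refine (gk_mul_unit hxi f13).mono ?_
              rw [y_R2 P (s := q) (by omega) (by omega) (by omega)]
              push_cast [Nat.cast_sub (show s ≤ P.N0 by omega)]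
              omega
    · -- right rows
      have hs0 : P.s0 ≤ s := by omega
      have hsm' : P.m < s := by omega
      have e0 := X0_R P s q hs hsN hq hqN (Or.inl hsm')
      rw [MM_R P x q hsm', dd_R P x hs0 hsm', e0]
      apply gk_div_unit hxn
      have key : (((P.X1 s q : ℚ) : K) - x * (((if s = q then 1 else 0 : ℚ)) : K) -
          if s = q then -x else 0) = ((P.X1 s q : ℚ) : K) := by
        split_ifs <;> push_cast <;> ring
      rw [key]
      by_cases hs2 : s + P.s0 ≤ P.N0
      · have hy1 := y_R1 P hs0 hsm' hs2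
        by_cases hql : q < P.s0
        · refine ((F9 P s q hq hql hsm' hs2).cast h2 (K := K)).mono ?_
          rcases hy1 with ⟨hy, _⟩ | ⟨hy, _⟩ <;> rw [hy] <;> (try rw [hA]) <;> omega
        · by_cases hqm : q ≤ P.m
          · have f := (F10 P s q (by omega) hqm hsm' hs2).cast h2 (K := K)
            rw [y_rest P (s := q) (by omega) hqm]
            have hle : 1 + P.y s - 1 ≤ 0 := by
              rcases hy1 with ⟨hy, _⟩ | ⟨hy, _⟩ <;> rw [hy] <;> (try rw [hA]) <;> omega
            have f2 := (f.mono (n := P.g + 1) (m := 1 + P.y s - 1) (by omega)).sub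
              (gk_ite (K := K) hle (s + q = P.N0))
            convert f2 using 1
            split_ifs <;> push_cast <;> ring
          · have f := (F13 P s q hsm' hsN (by omega) hqN).cast h2 (K := K)
            refine f.mono ?_
            by_cases hq2 : q + P.s0 ≤ P.N0
            · rcases y_R1 P (s := q) (by omega) (by omega) hq2 with ⟨hyq, hq3⟩ | ⟨hyq, hq3⟩ <;>
              rcases hy1 with ⟨hy, _⟩ | ⟨hy, _⟩ <;> rw [hy, hyq] <;> (try rw [hA]) <;> omega
            · rw [y_R2 P (s := q) (by omega) (by omega) (by omega)]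
              rcases hy1 with ⟨hy, _⟩ | ⟨hy, _⟩ <;> rw [hy] <;> (try rw [hA]) <;> omega
      · have hys := y_R2 P hs0 hsm' (by omega)
        by_cases hql : q < P.s0
        · exact (F11 P s q hq hql (by omega) hsN).cast h2 (K := K)
        · by_cases hqm : q ≤ P.m
          · refine ((F12 P s q (by omega) hqm (by omega) hsN).cast h2 (K := K)).mono ?_
            rw [hys, y_rest P (s := q) (by omega) hqm]
            omega
          · have f := (F13 P s q hsm' hsN (by omega) hqN).cast h2 (K := K)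
            refine f.mono ?_
            rw [hys]
            by_cases hq2 : q + P.s0 ≤ P.N0
            · rcases y_R1 P (s := q) (by omega) (by omega) hq2 with ⟨hyq, hq3⟩ | ⟨hyq, hq3⟩ <;>
                rw [hyq] <;> (try rw [hA]) <;> omega
            · rw [y_R2 P (s := q) (by omega) (by omega) (by omega)]
              omega

theorem MM_g (h : ¬ Win P s) (h' : Win P q) : GK (P.g + P.y s) (MM P x s q / dd P x s) := by
  have F := fac P
  obtain ⟨A, hAeq⟩ : ∃ A, A = 2 ^ (P.L - 3) := ⟨_, rfl⟩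
  rw [← hAeq] at F
  obtain ⟨hA, m1, m2, l1, b1, nL, n3, lg, g1, g2⟩ := F
  unfold Win at h h'
  obtain ⟨hq0, hq1⟩ := h'
  have hqm : q ≤ P.m := by omega
  have hx0 : x ≠ 0 := by
    intro h0
    rw [h0, norm_zero] at hx
    exact zero_ne_one hx
  have hxi : ‖x⁻¹‖ = 1 := by rw [norm_inv, hx, inv_one]
  have hxn : ‖-x‖ = 1 := by rw [norm_neg, hx]
  have hzn : ‖-(x - x⁻¹)‖ = 1 := by rw [norm_neg, hz]
  by_cases hsl : s < P.s0
  · rw [MM_low P x q hsl, dd_low P x hsl]
    have e := X1_lh P s q hs hsl hq0 hqm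
    have f := (F2 P s q hs hsl hq0 hqm).cast h2 (K := K)
    have e2 : (((P.X1 s q : ℚ) : K) - x * ((P.X0 s q : ℚ) : K)) / ((P.Dh s : ℚ) : K) =
        (-x) * ((P.X0 s q / P.Dh s : ℚ) : K) := by
      rw [e]
      push_cast
      ring
    rw [e2]
    exact gk_mul_unit hxn f
  · have hs0 : P.s0 ≤ s := by omega
    by_cases hsm : s ≤ P.m
    · rw [MM_hi P x hx0 q hs0 hsm, dd_hi P x hs0 hsm, y_rest P hs0 hsm]
      apply gk_div_unit hzn
      have hr1 : P.m < P.N0 - s := by omega
      have hr2 : P.N0 - s + P.s0 ≤ P.N0 := by omega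
      have hNb := P.N_big
      have hr3 : P.N0 - s < P.N := by omega
      have hne : s ≠ q := by omega
      have e0 := X0_R P (P.N0 - s) q (by omega) hr3 hq hqN (Or.inl hr1)
      have f1 := (F6c P s q hs0 hsm hq0 hqm (by omega) hq1).cast h2 (K := K)
      have f2 := (F6d P s q hs0 hsm hq0 hqm).cast h2 (K := K)
      have f3 := (F10 P (P.N0 - s) q hq0 hqm hr1 hr2).cast h2 (K := K)
      rw [e0, if_neg (show ¬ P.N0 - s = q by omega)]
      have f := (f1.sub (gk_mul_unit hx f2)).sub (gk_mul_unit hxi f3)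
      convert f using 1
      rw [if_neg hne, if_neg (show ¬ P.N0 - s + q = P.N0 by omega)]
      push_cast
      ring
    · have hsm' : P.m < s := by omega
      have e0 := X0_R P s q hs hsN hq hqN (Or.inl hsm')
      rw [if_neg (show ¬ s = q by omega)] at e0
      rw [MM_R P x q hsm', dd_R P x hs0 hsm', e0]
      apply gk_div_unit hxn
      have key : ((P.X1 s q : ℚ) : K) - x * ((0 : ℚ) : K) = ((P.X1 s q : ℚ) : K) := by
        push_cast
        ring
      rw [key]
      by_cases hs2 : s + P.s0 ≤ P.N0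
      · have f := (F10 P s q hq0 hqm hsm' hs2).cast h2 (K := K)
        by_cases hsq : s + q = P.N0
        · rw [y_R1n P hs0 hsm' hs2 (by omega), hA]
          have f2 := (f.mono (n := P.g + 1) (m := P.g + -(A : ℤ)) (by omega)).sub
            (gk_one (K := K) (n := P.g + -(A : ℤ)) (by omega))
          convert f2 using 1
          rw [if_pos hsq]
          push_cast
          ring
        · rw [if_neg hsq, add_zero] at f
          refine f.mono ?_
          rcases y_R1 P hs0 hsm' hs2 with ⟨hy, _⟩ | ⟨hy, _⟩ <;> rw [hy] <;> (try rw [hA]) <;> omega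
      · refine ((F12 P s q hq0 hqm (by omega) hsN).cast h2 (K := K)).mono ?_
        rw [y_R2 P hs0 hsm' (by omega)]
        omega

end Pool.Agent.BZ
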