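import Pool.Agent.Lib.MP_06b9d2_bz.CoB
/-! # BZ.CoC: bounds for `MM`, rows in the window
S/low F5, F9; S/rest F6a, F6d, F10; S/R1 F7, F13; S/R2 F8, F13; S/S F6e, F6d, F10. -/
set_option autoImplicit false
set_option linter.unusedSectionVars false
open Finset
namespace Pool.Agent.BZ
variable {K : Type*} [NormedField K] [IsUltrametricDist K] [CharZero K]

private theorem coc_zero {n : ℤ} : GK n (0 : K) := by
  unfold GK
  rw [norm_zero]
  positivity

private theorem coc_unit {x : K} (hx : ‖x‖ = 1) : GK 0 x := by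
  unfold GK
  rw [hx, neg_zero, zpow_zero]

private theorem coc_unit' {x : K} (hx : ‖x‖ = 1) : GK 0 x⁻¹ := by
  unfold GK
  rw [norm_inv, hx, neg_zero, zpow_zero, inv_one]

private theorem coc_win {P : Par} {s : ℕ} (h : Win P s) : s ≤ P.m := by
  have h1 := P.m_eq
  have h2 := P.l_eq
  have h3 := P.n_le
  have h4 := P.big1
  have h5 := P.big1'
  have h6 := h.2
  have h7 : P.n ≤ P.n ^ 2 := Nat.le_self_pow (by norm_num) _
  omega

private theorem coc_dec (P : Par) {x : K} (hx0 : x ≠ 0) {s : ℕ} (q : ℕ) (h1 : P.s0 ≤ s)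
    (h2 : s ≤ P.m) : MM P x s q = ((P.X1 s q : ℚ) : K) - x * ((P.X0 s q : ℚ) : K) -
      x⁻¹ * ((P.X1 (P.N0 - s) q : ℚ) : K) + ((P.X0 (P.N0 - s) q : ℚ) : K) := by
  unfold MM
  rw [if_pos ⟨h1, h2⟩]
  unfold MX
  field_simp
  ring

variable (P : Par) (h2 : ‖(2 : K)‖ = 1 / 2) (x : K) (hx : ‖x‖ = 1) (hz : ‖x - x⁻¹‖ = 1)
  (s q : ℕ) (hs : 1 ≤ s) (hsN : s < P.N) (hq : 1 ≤ q) (hqN : q < P.N)
include h2 hx hz hs hsN hq hqN
theorem MM_f (h : Win P s) (h' : ¬ Win P q) : GK (-(P.h : ℤ) - P.y q) (MM P x s q) := by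
  have hx0 : x ≠ 0 := by
    intro h0
    rw [h0, norm_zero] at hx
    exact zero_ne_one hx
  have hm := coc_win h
  have hs0 := h.1
  have hsn := h.2
  have e1 := P.m_eq
  have e2 := P.l_eq
  have e3 := P.n_le
  have e4 := P.big1
  have e5 := P.big1'
  have e6 := P.two_m
  have e7 : P.n ≤ P.n ^ 2 := Nat.le_self_pow (by norm_num) _
  have e8 := P.N_big
  have hN0 : P.N0 = 2 * P.s0 + P.l := rfl
  rw [coc_dec P hx0 q hs0 hm]
  obtain ⟨r, hr⟩ : ∃ r, P.N0 - s = r := ⟨_, rfl⟩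
  rw [hr]
  have hr1 : P.m < r := by omega
  have hr2 : r + P.s0 ≤ P.N0 := by omega
  have hrN : r < P.N := by omega
  have hX0r : P.X0 r q = if r = q then 1 else 0 := X0_R P r q (by omega) hrN hq hqN (Or.inl hr1)
  have ux := coc_unit hx
  have ux' := coc_unit' hx
  rcases lt_or_ge q P.s0 with hq1 | hq1
  · -- low
    have f1 := (F5 P s q hs0 hm hq hq1).cast h2 (K := K)
    have f2 := (F9 P r q hq hq1 hr1 hr2).cast h2 (K := K)
    rw [hX0r, if_neg (by omega), X1_hl P s q hs0 hm hq hq1, Rat.cast_zero, zero_sub, add_zero]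
    have h3 := ((GK.mul ux f1).neg).sub (GK.mul ux' f2)
    exact h3.mono (by omega)
  rcases le_or_gt q P.m with hq2 | hq2
  · -- high, outside the window
    have hy : P.y q = 1 := by
      unfold Par.y
      rw [if_neg (by omega), if_pos hq2]
    have hne : s ≠ q := by
      rintro rfl
      exact h' h
    have f1 := (F6a P s q hs0 hm hq1 hq2).cast h2 (K := K)
    have f2 := F6d P s q hs0 hm hq1 hq2
    rw [if_neg hne, sub_zero] at f2
    have f3 := F10 P r q hq1 hq2 hr1 hr2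
    rw [if_neg (by omega), add_zero] at f3
    rw [hX0r, if_neg (by omega), Rat.cast_zero, add_zero, hy]
    have h3 := ((f1.mono (n := -(P.h : ℤ)) (m := -(P.h : ℤ) - 1) (by omega)).sub
      ((GK.mul ux (f2.cast h2 (K := K))).mono (m := -(P.h : ℤ) - 1) (by omega))).sub
      ((GK.mul ux' (f3.cast h2 (K := K))).mono (m := -(P.h : ℤ) - 1) (by omega))
    exact h3
  have hX0s : P.X0 s q = 0 := by
    rw [X0_R P s q hs hsN hq hqN (Or.inr hq2), if_neg (by omega)]
  have f4 := (F13 P r q hr1 hrN hq2 hqN).cast h2 (K := K)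
  rcases le_or_gt (q + P.s0) P.N0 with hq3 | hq3
  · -- R1
    have f1 := (F7 P s q hs0 hm hq2 hq3).cast h2 (K := K)
    have hy : -P.y q ≤ 2 ^ (P.L - 3) := by
      unfold Par.y
      rw [if_neg (by omega), if_neg (by omega), if_neg (by omega)]
      split_ifs
      · rw [neg_neg]
      · positivity
    have hiff : (r = q) ↔ (q + s = P.N0) := by omega
    rw [hX0r, hX0s, Rat.cast_zero, mul_zero, sub_zero]
    have h4 : ((P.X1 s q : ℚ) : K) - x⁻¹ * ((P.X1 r q : ℚ) : K) +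
        (((if r = q then 1 else 0 : ℚ)) : K) =
        (((P.X1 s q + if q + s = P.N0 then 1 else 0 : ℚ)) : K) - x⁻¹ * ((P.X1 r q : ℚ) : K) := by
      rw [Rat.cast_add]
      simp only [hiff]
      ring
    rw [h4]
    have h5 : ((2 : ℤ) ^ (P.L - 3)) = (((2 ^ (P.L - 3) : ℕ)) : ℤ) := by push_cast; rfl
    have h6 := (GK.mono f1 (m := -(P.h : ℤ) - P.y q) (by omega)).sub
      ((GK.mul ux' f4).mono (m := -(P.h : ℤ) - P.y q) (by
        rw [h5] at hy
        omega))
    exact h6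
  · -- R2
    have f1 := (F8 P s q hs0 hm hq3 hqN).cast h2 (K := K)
    have hlog : Nat.log 2 P.n ≤ P.n := Nat.log_le_self 2 P.n
    have hy : 0 ≤ P.y q := by
      unfold Par.y
      rw [if_neg (by omega), if_neg (by omega), if_pos (by omega)]
      omega
    rw [hX0r, hX0s, if_neg (by omega), Rat.cast_zero, mul_zero, sub_zero, add_zero]
    exact (GK.mono f1 (m := -(P.h : ℤ) - P.y q) (by omega)).sub
      ((GK.mul ux' f4).mono (m := -(P.h : ℤ) - P.y q) (by omega))

theorem MM_S (h : Win P s) (h' : Win P q) : GK (P.g : ℤ) (MM P x s q -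
    ((P.c0 : K) * ((U P.n (s - P.s0 + 1) (q - P.s0 + 1) : ℚ) : K) - if s = q then x - x⁻¹ else 0)) := by
  have hx0 : x ≠ 0 := by
    intro h0
    rw [h0, norm_zero] at hx
    exact zero_ne_one hx
  have hm := coc_win h
  have hm' := coc_win h'
  have hs0 := h.1
  have hq0 := h'.1
  have e1 := P.m_eq
  have e6 := P.two_m
  have e8 := P.N_big
  have hN0 : P.N0 = 2 * P.s0 + P.l := rfl
  rw [coc_dec P hx0 q hs0 hm]
  obtain ⟨r, hr⟩ : ∃ r, P.N0 - s = r := ⟨_, rfl⟩
  rw [hr]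
  have hr1 : P.m < r := by omega
  have hr2 : r + P.s0 ≤ P.N0 := by omega
  have hrN : r < P.N := by omega
  have hX0r : P.X0 r q = 0 := by
    rw [X0_R P r q (by omega) hrN hq hqN (Or.inl hr1), if_neg (by omega)]
  have ux := coc_unit hx
  have ux' := coc_unit' hx
  have f1 := (F6e P s q hs0 hm hq0 hm' h.2 h'.2).cast h2 (K := K)
  have f2 := (F6d P s q hs0 hm hq0 hm').cast h2 (K := K)
  have f3 := (F10 P r q hq0 hm' hr1 hr2).cast h2 (K := K)
  have hiff : (r + q = P.N0) ↔ (s = q) := by omega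
  simp only [hiff] at f3
  rw [hX0r, Rat.cast_zero, add_zero]
  have h5 := (f1.sub ((GK.mul ux f2).mono (m := (P.g : ℤ)) (by omega))).sub
    ((GK.mul ux' f3).mono (m := (P.g : ℤ)) (by omega))
  have h6 : ((P.X1 s q : ℚ) : K) - x * ((P.X0 s q : ℚ) : K) - x⁻¹ * ((P.X1 r q : ℚ) : K) -
      ((P.c0 : K) * ((U P.n (s - P.s0 + 1) (q - P.s0 + 1) : ℚ) : K) - if s = q then x - x⁻¹ else 0) =
      (((P.X1 s q - P.c0 * U P.n (s - P.s0 + 1) (q - P.s0 + 1) : ℚ)) : K) -
      x * (((P.X0 s q - if s = q then 1 else 0 : ℚ)) : K) -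
      x⁻¹ * (((P.X1 r q + if s = q then 1 else 0 : ℚ)) : K) := by
    split_ifs
    · push_cast
      ring
    · push_cast
      ring
  rw [h6]
  exact h5

end Pool.Agent.BZ
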