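import Pool.Agent.Lib.MP_06b9d2_bz.Defs
/-! # BZ.Elim: elimination of a dominated block
Write `T = {i | p i}`, conjugate the `T`-block of `diag(d)⁻¹ M` by `diag(2^y)`: it becomes `1 + X`, `‖X_ij‖ ≤ 1/2`;
its determinant is `≡ 1` and the entries of its adjugate are `≡` those of `1` modulo `{‖x‖ ≤ 1/2}`
(ring hom to the quotient of `{‖x‖ ≤ 1}` by `{‖x‖ ≤ 1/2}`), so the inverse has entries of norm `≤ 1`.  Then the Schur
complement: `Matrix.det_toBlock`, `Matrix.det_fromBlocks₁₁`. -/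
set_option autoImplicit false
open Finset
namespace Pool.Agent.BZ
variable {K : Type*} [NormedField K] [IsUltrametricDist K]

omit [IsUltrametricDist K] in
theorem elim_prod_le {ι : Type*} (s : Finset ι) (a : ι → K) (ha : ∀ i ∈ s, ‖a i‖ ≤ 1) :
    ‖∏ i ∈ s, a i‖ ≤ 1 := by
  rw [norm_prod]
  exact Finset.prod_le_one (fun i _ => norm_nonneg _) ha

theorem elim_prod_sub_le {ι : Type*} (s : Finset ι) (a b : ι → K) (c : ℝ) (hc : 0 ≤ c)
    (ha : ∀ i ∈ s, ‖a i‖ ≤ 1) (hb : ∀ i ∈ s, ‖b i‖ ≤ 1) (hab : ∀ i ∈ s, ‖a i - b i‖ ≤ c) :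
    ‖∏ i ∈ s, a i - ∏ i ∈ s, b i‖ ≤ c := by
  classical
  induction s using Finset.induction_on with
  | empty => simpa using hc
  | insert i s his ih =>
    rw [Finset.prod_insert his, Finset.prod_insert his]
    have e : a i * ∏ x ∈ s, a x - b i * ∏ x ∈ s, b x =
        (a i - b i) * ∏ x ∈ s, a x + b i * (∏ x ∈ s, a x - ∏ x ∈ s, b x) := by ring
    rw [e]
    refine (IsUltrametricDist.norm_add_le_max _ _).trans (max_le ?_ ?_)
    · rw [norm_mul]
      have h1 := hab i (Finset.mem_insert_self _ _)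
      have h2 := elim_prod_le s a (fun j hj => ha j (Finset.mem_insert_of_mem hj))
      calc ‖a i - b i‖ * ‖∏ x ∈ s, a x‖ ≤ c * 1 :=
            mul_le_mul h1 h2 (norm_nonneg _) hc
        _ = c := mul_one c
    · rw [norm_mul]
      have h1 := hb i (Finset.mem_insert_self _ _)
      have h2 := ih (fun j hj => ha j (Finset.mem_insert_of_mem hj))
        (fun j hj => hb j (Finset.mem_insert_of_mem hj))
        (fun j hj => hab j (Finset.mem_insert_of_mem hj))
      calc ‖b i‖ * ‖∏ x ∈ s, a x - ∏ x ∈ s, b x‖ ≤ 1 * c :=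
            mul_le_mul h1 h2 (norm_nonneg _) zero_le_one
        _ = c := one_mul c

theorem elim_det_le {ι : Type*} [Fintype ι] [DecidableEq ι] (W : Matrix ι ι K)
    (hW : ∀ i j, ‖W i j‖ ≤ 1) : ‖W.det‖ ≤ 1 := by
  rw [Matrix.det_apply]
  refine IsUltrametricDist.norm_sum_le_of_forall_le_of_nonneg zero_le_one fun σ _ => ?_
  rw [Units.smul_def, ← Int.cast_smul_eq_zsmul K, norm_smul]
  have h1 : ‖((Equiv.Perm.sign σ : ℤ) : K)‖ = 1 := by
    rcases Int.units_eq_one_or (Equiv.Perm.sign σ) with h | h <;> simp [h]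
  rw [h1, one_mul]
  exact elim_prod_le _ _ fun i _ => hW _ _

theorem elim_det_sub_le {ι : Type*} [Fintype ι] [DecidableEq ι] (W V : Matrix ι ι K)
    (c : ℝ) (hc : 0 ≤ c) (hW : ∀ i j, ‖W i j‖ ≤ 1) (hV : ∀ i j, ‖V i j‖ ≤ 1)
    (hWV : ∀ i j, ‖W i j - V i j‖ ≤ c) : ‖W.det - V.det‖ ≤ c := by
  rw [Matrix.det_apply, Matrix.det_apply, ← Finset.sum_sub_distrib]
  refine IsUltrametricDist.norm_sum_le_of_forall_le_of_nonneg hc fun σ _ => ?_
  rw [← smul_sub, Units.smul_def, ← Int.cast_smul_eq_zsmul K, norm_smul]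
  have h1 : ‖((Equiv.Perm.sign σ : ℤ) : K)‖ = 1 := by
    rcases Int.units_eq_one_or (Equiv.Perm.sign σ) with h | h <;> simp [h]
  rw [h1, one_mul]
  exact elim_prod_sub_le _ _ _ c hc (fun i _ => hW _ _) (fun i _ => hV _ _)
    (fun i _ => hWV _ _)

/-- a matrix congruent to `1` has determinant of norm `1` and an inverse with entries of norm at
most `1` -/
theorem elim_inv {ι : Type*} [Fintype ι] [DecidableEq ι] (X : Matrix ι ι K)
    (hX : ∀ i j, ‖X i j‖ ≤ 1 / 2) :
    ‖(1 + X).det‖ = 1 ∧ ∃ Z : Matrix ι ι K, (1 + X) * Z = 1 ∧ ∀ i j, ‖Z i j‖ ≤ 1 := by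
  have h1 : ∀ i j, ‖(1 : Matrix ι ι K) i j‖ ≤ 1 := by
    intro i j
    rw [Matrix.one_apply]
    split_ifs <;> simp
  have hW : ∀ i j, ‖(1 + X) i j‖ ≤ 1 := by
    intro i j
    rw [Matrix.add_apply]
    refine (IsUltrametricDist.norm_add_le_max _ _).trans (max_le (h1 i j) ?_)
    exact (hX i j).trans (by norm_num)
  have hd : ‖(1 + X).det - 1‖ ≤ 1 / 2 := by
    have := elim_det_sub_le (1 + X) 1 (1 / 2) (by norm_num) hW h1 (by
      intro i j
      rw [Matrix.add_apply, add_sub_cancel_left]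
      exact hX i j)
    rwa [Matrix.det_one] at this
  have hdn : ‖(1 + X).det‖ = 1 := by
    have e : (1 + X).det = ((1 + X).det - 1) + 1 := by ring
    rw [e]
    have hne : ‖(1 + X).det - 1‖ ≠ ‖(1 : K)‖ := by
      rw [norm_one]
      intro h
      rw [h] at hd
      norm_num at hd
    rw [IsUltrametricDist.norm_add_eq_max_of_norm_ne_norm hne, norm_one]
    exact max_eq_right (hd.trans (by norm_num))
  have hd0 : (1 + X).det ≠ 0 := by
    intro h
    rw [h, norm_zero] at hdn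
    norm_num at hdn
  refine ⟨hdn, (1 + X)⁻¹, Matrix.mul_nonsing_inv _ (isUnit_iff_ne_zero.2 hd0), ?_⟩
  intro i j
  rw [Matrix.inv_def, Matrix.smul_apply, smul_eq_mul, Ring.inverse_eq_inv', norm_mul, norm_inv,
    hdn, inv_one, one_mul, Matrix.adjugate_apply]
  refine elim_det_le _ ?_
  intro k l
  rw [Matrix.updateRow_apply]
  split_ifs with h
  · by_cases hil : l = i
    · subst hil; simp
    · rw [Pi.single_eq_of_ne hil]; simp
  · exact hW k l

theorem elim {ι : Type} [Fintype ι] [DecidableEq ι] (M : Matrix ι ι K) (p : ι → Prop) [DecidablePred p]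
    (d : ι → K) (y : ι → ℤ) (hd : ∀ i, p i → d i ≠ 0) (h2 : ‖(2 : K)‖ = 1 / 2)
    (hT : ∀ i j, p i → p j → GK (1 + y i - y j) ((M i j - if i = j then d i else 0) / d i))
    (f g : ℤ) (hf : ∀ i j, ¬ p i → p j → GK (f - y j) (M i j))
    (hg : ∀ i j, p i → ¬ p j → GK (g + y i) (M i j / d i)) :
    ∃ (κ : K) (M' : Matrix {i // ¬ p i} {i // ¬ p i} K),
      M.det = κ * M'.det ∧ ‖κ‖ = ∏ i ∈ univ.filter p, ‖d i‖ ∧
      ∀ i j, GK (f + g) (M' i j - M i j) := by
  classical
  have two0 : (2 : K) ≠ 0 := by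
    intro h
    rw [h, norm_zero] at h2
    norm_num at h2
  have hz : ∀ k : ℤ, ‖(2 : K) ^ k‖ = (2 : ℝ) ^ (-k) := by
    intro k
    rw [norm_zpow, h2, one_div, inv_zpow, zpow_neg]
  -- the blocks
  let T := {i // p i}
  let X : Matrix T T K := Matrix.of fun i j =>
    (2 : K) ^ (-(y i)) * ((M i j - if (i : ι) = j then d i else 0) / d i) * (2 : K) ^ (y j)
  have hX : ∀ i j, ‖X i j‖ ≤ 1 / 2 := by
    intro i j
    have h := hT i j i.2 j.2
    unfold GK at h
    rw [show X i j = (2 : K) ^ (-(y i)) * ((M i j - if (i : ι) = j then d i else 0) / d i) *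
      (2 : K) ^ (y j) from rfl, norm_mul, norm_mul, hz, hz]
    calc (2 : ℝ) ^ (- -(y i)) * ‖(M i j - if (i : ι) = j then d i else 0) / d i‖ * 2 ^ (-(y j))
        ≤ (2 : ℝ) ^ (- -(y i)) * 2 ^ (-(1 + y i - y j)) * 2 ^ (-(y j)) := by gcongr
      _ = 1 / 2 := by
          rw [← zpow_add₀ (by norm_num : (2 : ℝ) ≠ 0), ← zpow_add₀ (by norm_num : (2 : ℝ) ≠ 0)]
          have : (- -(y i) + -(1 + y i - y j) + -(y j)) = -1 := by ring
          rw [this]; norm_num
  obtain ⟨hdet, Z, hZ1, hZ⟩ := elim_inv X hX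
  let A : Matrix T T K := Matrix.toBlock M p p
  have hA : A = Matrix.diagonal (fun i : T => d i * (2 : K) ^ (y i)) * (1 + X) *
      Matrix.diagonal (fun i : T => (2 : K) ^ (-(y i))) := by
    ext i j
    rw [Matrix.mul_diagonal, Matrix.diagonal_mul, Matrix.add_apply]
    rw [show X i j = (2 : K) ^ (-(y i)) * ((M i j - if (i : ι) = j then d i else 0) / d i) *
      (2 : K) ^ (y j) from rfl]
    rw [show A i j = M i j from rfl]
    have hi := hd i i.2
    have e1 : (2 : K) ^ (y (i : ι)) * (2 : K) ^ (-(y (i : ι))) = 1 := by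
      rw [← zpow_add₀ two0]; simp
    have e2 : (2 : K) ^ (y (j : ι)) * (2 : K) ^ (-(y (j : ι))) = 1 := by
      rw [← zpow_add₀ two0]; simp
    by_cases hij : i = j
    · subst hij
      rw [Matrix.one_apply_eq, if_pos rfl]
      have : d i * (2 : K) ^ y (i : ι) * (1 + (2 : K) ^ (-y (i : ι)) * ((M i i - d i) / d i) *
          (2 : K) ^ y (i : ι)) * (2 : K) ^ (-y (i : ι)) =
          d i * ((2 : K) ^ y (i : ι) * (2 : K) ^ (-y (i : ι))) + (d i * ((M i i - d i) / d i)) *
          ((2 : K) ^ y (i : ι) * (2 : K) ^ (-y (i : ι))) *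
          ((2 : K) ^ y (i : ι) * (2 : K) ^ (-y (i : ι))) := by ring
      rw [this, e1, mul_div_cancel₀ _ hi]
      ring
    · have hij' : (i : ι) ≠ j := fun h => hij (Subtype.ext h)
      rw [Matrix.one_apply_ne hij, if_neg hij']
      have : d i * (2 : K) ^ y (i : ι) * (0 + (2 : K) ^ (-y (i : ι)) * ((M i j - 0) / d i) *
          (2 : K) ^ y (j : ι)) * (2 : K) ^ (-y (j : ι)) =
          (d i * ((M i j - 0) / d i)) *
          ((2 : K) ^ y (i : ι) * (2 : K) ^ (-y (i : ι))) *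
          ((2 : K) ^ y (j : ι) * (2 : K) ^ (-y (j : ι))) := by ring
      rw [this, e1, e2, mul_div_cancel₀ _ hi]
      ring
  let Ai : Matrix T T K := Matrix.diagonal (fun i : T => (2 : K) ^ (y i)) * Z *
      Matrix.diagonal (fun i : T => (2 : K) ^ (-(y i)) / d i)
  have hAi : A * Ai = 1 := by
    have e3 : Matrix.diagonal (fun i : T => (2 : K) ^ (-(y i))) *
        Matrix.diagonal (fun i : T => (2 : K) ^ (y i)) = 1 := by
      rw [Matrix.diagonal_mul_diagonal, ← Matrix.diagonal_one]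
      congr 1
      funext i
      rw [← zpow_add₀ two0]; simp
    have e4 : Matrix.diagonal (fun i : T => d i * (2 : K) ^ (y i)) *
        Matrix.diagonal (fun i : T => (2 : K) ^ (-(y i)) / d i) = 1 := by
      rw [Matrix.diagonal_mul_diagonal, ← Matrix.diagonal_one]
      congr 1
      funext i
      have hi := hd i i.2
      have e1 : (2 : K) ^ (y (i : ι)) * (2 : K) ^ (-(y (i : ι))) = 1 := by
        rw [← zpow_add₀ two0]; simp
      calc d i * (2 : K) ^ y (i : ι) * ((2 : K) ^ (-y (i : ι)) / d i)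
          = (d i / d i) * ((2 : K) ^ y (i : ι) * (2 : K) ^ (-y (i : ι))) := by ring
        _ = 1 := by rw [e1, div_self hi, one_mul]
    calc A * Ai = Matrix.diagonal (fun i : T => d i * (2 : K) ^ (y i)) * (1 + X) *
          (Matrix.diagonal (fun i : T => (2 : K) ^ (-(y i))) *
          Matrix.diagonal (fun i : T => (2 : K) ^ (y i))) * Z *
          Matrix.diagonal (fun i : T => (2 : K) ^ (-(y i)) / d i) := by
            rw [hA]; simp only [Ai, Matrix.mul_assoc]
      _ = Matrix.diagonal (fun i : T => d i * (2 : K) ^ (y i)) * ((1 + X) * Z) *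
          Matrix.diagonal (fun i : T => (2 : K) ^ (-(y i)) / d i) := by
            rw [e3, Matrix.mul_one, Matrix.mul_assoc (Matrix.diagonal _) (1 + X) Z]
      _ = 1 := by rw [hZ1, Matrix.mul_one, e4]
  letI : Invertible A := ⟨Ai, mul_eq_one_comm.1 hAi, hAi⟩
  have hinv : (⅟A : Matrix T T K) = Ai := rfl
  let B := Matrix.toBlock M p (fun j => ¬ p j)
  let C := Matrix.toBlock M (fun j => ¬ p j) p
  let D := Matrix.toBlock M (fun j => ¬ p j) (fun j => ¬ p j)
  refine ⟨A.det, D - C * Ai * B, ?_, ?_, ?_⟩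
  · rw [Matrix.det_toBlock M p]
    rw [← hinv]
    exact Matrix.det_fromBlocks₁₁ A B C D
  · rw [hA, Matrix.det_mul, Matrix.det_mul, Matrix.det_diagonal, Matrix.det_diagonal, norm_mul,
      norm_mul, hdet, mul_one, norm_prod, norm_prod]
    rw [← Finset.prod_mul_distrib]
    rw [Finset.prod_subtype (univ.filter p) (p := p) (by intro x; simp)]
    refine Finset.prod_congr rfl fun i _ => ?_
    rw [norm_mul, hz, hz, mul_assoc, ← zpow_add₀ (by norm_num : (2 : ℝ) ≠ 0)]
    simp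
  · intro i j
    unfold GK
    have e5 : (D - C * Ai * B) i j - M i j = -((C * Ai * B) i j) := by
      rw [Matrix.sub_apply, show D i j = M i j from rfl]; ring
    rw [e5, norm_neg, Matrix.mul_apply]
    refine IsUltrametricDist.norm_sum_le_of_forall_le_of_nonneg (by positivity) fun l _ => ?_
    rw [Matrix.mul_apply, Finset.sum_mul]
    refine IsUltrametricDist.norm_sum_le_of_forall_le_of_nonneg (by positivity) fun k _ => ?_
    have e6 : Ai k l = (2 : K) ^ (y k) * Z k l * ((2 : K) ^ (-(y l)) / d l) := by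
      simp only [Ai]
      rw [Matrix.mul_diagonal, Matrix.diagonal_mul]
    have e7 : C i k * Ai k l * B l j =
        (M i k * (2 : K) ^ (y k)) * Z k l * ((2 : K) ^ (-(y l)) * (M l j / d l)) := by
      rw [e6, show C i k = M i k from rfl, show B l j = M l j from rfl]; ring
    rw [e7, norm_mul, norm_mul]
    have b1 : ‖M i k * (2 : K) ^ (y k)‖ ≤ (2 : ℝ) ^ (-f) := by
      rw [norm_mul, hz]
      have := hf i k i.2 k.2
      unfold GK at this
      calc ‖M i k‖ * (2 : ℝ) ^ (-(y k)) ≤ 2 ^ (-(f - y k)) * 2 ^ (-(y k)) := by gcongr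
        _ = 2 ^ (-f) := by
          rw [← zpow_add₀ (by norm_num : (2 : ℝ) ≠ 0)]; congr 1; ring
    have b2 : ‖(2 : K) ^ (-(y l)) * (M l j / d l)‖ ≤ (2 : ℝ) ^ (-g) := by
      rw [norm_mul, hz]
      have := hg l j l.2 j.2
      unfold GK at this
      calc (2 : ℝ) ^ (- -(y l)) * ‖M l j / d l‖ ≤ 2 ^ (- -(y l)) * 2 ^ (-(g + y l)) := by gcongr
        _ = 2 ^ (-g) := by
          rw [← zpow_add₀ (by norm_num : (2 : ℝ) ≠ 0)]; congr 1; ring
    calc ‖M i k * (2 : K) ^ (y k)‖ * ‖Z k l‖ * ‖(2 : K) ^ (-(y l)) * (M l j / d l)‖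
        ≤ (2 : ℝ) ^ (-f) * 1 * 2 ^ (-g) := by
          gcongr
          exact hZ k l
      _ = 2 ^ (-(f + g)) := by
          rw [mul_one, ← zpow_add₀ (by norm_num : (2 : ℝ) ≠ 0)]; congr 1; ring
end Pool.Agent.BZ
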