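import Pool.Agent.Lib.MP_06b9d2_bz.Defs
/-! # BZ.Pert: perturbation of determinants -/
set_option autoImplicit false
open Finset
namespace Pool.Agent.BZ
variable {K : Type*} [NormedField K] [IsUltrametricDist K]

omit [IsUltrametricDist K] in
private theorem pert_norm_prod {ι : Type*} (s : Finset ι) (f : ι → K) {M : ℝ} (hf : ∀ i, ‖f i‖ ≤ M) :
    ‖∏ i ∈ s, f i‖ ≤ M ^ s.card := by
  rw [norm_prod]
  calc ∏ i ∈ s, ‖f i‖ ≤ ∏ _i ∈ s, M := Finset.prod_le_prod (fun i _ => norm_nonneg _) fun i _ => hf i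
    _ = M ^ s.card := by rw [Finset.prod_const]

private theorem pert_prod {ι : Type*} [DecidableEq ι] (s : Finset ι) (f g : ι → K) {M δ : ℝ} (hM : 0 < M)
    (hδ : 0 ≤ δ) (hf : ∀ i, ‖f i‖ ≤ M) (hg : ∀ i, ‖g i‖ ≤ M) (hd : ∀ i, ‖g i - f i‖ ≤ δ) :
    ‖∏ i ∈ s, g i - ∏ i ∈ s, f i‖ * M ≤ δ * M ^ s.card := by
  induction s using Finset.induction_on with
  | empty => simpa using hδ
  | insert j s hj ih =>
    rw [Finset.prod_insert hj, Finset.prod_insert hj, Finset.card_insert_of_notMem hj]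
    have h1 : g j * ∏ i ∈ s, g i - f j * ∏ i ∈ s, f i =
        (g j - f j) * ∏ i ∈ s, g i + f j * (∏ i ∈ s, g i - ∏ i ∈ s, f i) := by ring
    have h2 : ‖(g j - f j) * ∏ i ∈ s, g i‖ * M ≤ δ * M ^ (s.card + 1) := by
      rw [norm_mul, pow_succ, ← mul_assoc]
      refine mul_le_mul_of_nonneg_right ?_ hM.le
      exact mul_le_mul (hd j) (pert_norm_prod s g hg) (norm_nonneg _) hδ
    have h3 : ‖f j * (∏ i ∈ s, g i - ∏ i ∈ s, f i)‖ * M ≤ δ * M ^ (s.card + 1) := by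
      rw [norm_mul, mul_assoc]
      calc ‖f j‖ * (‖∏ i ∈ s, g i - ∏ i ∈ s, f i‖ * M) ≤ M * (δ * M ^ s.card) :=
            mul_le_mul (hf j) ih (by positivity) hM.le
        _ = δ * M ^ (s.card + 1) := by ring
    rw [h1]
    have h4 := IsUltrametricDist.norm_add_le_max ((g j - f j) * ∏ i ∈ s, g i)
      (f j * (∏ i ∈ s, g i - ∏ i ∈ s, f i))
    calc _ ≤ max ‖(g j - f j) * ∏ i ∈ s, g i‖ ‖f j * (∏ i ∈ s, g i - ∏ i ∈ s, f i)‖ * M :=
          mul_le_mul_of_nonneg_right h4 hM.le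
      _ ≤ δ * M ^ (s.card + 1) := by
        rcases max_cases ‖(g j - f j) * ∏ i ∈ s, g i‖ ‖f j * (∏ i ∈ s, g i - ∏ i ∈ s, f i)‖ with h | h
        · rw [h.1]
          exact h2
        · rw [h.1]
          exact h3

theorem det_pert {n : ℕ} (A B : Matrix (Fin n) (Fin n) K) (a e : ℤ) (ha : 0 ≤ a) (he : 0 ≤ e)
    (hA : ∀ i j, GK (-a) (A i j)) (hB : ∀ i j, GK e (B i j - A i j)) :
    GK (e - a * (n - 1)) (B.det - A.det) := by
  unfold GK at hA hB ⊢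
  have hM1 : (1 : ℝ) ≤ (2 : ℝ) ^ a := one_le_zpow₀ (by norm_num) ha
  have hM : (0 : ℝ) < (2 : ℝ) ^ a := by positivity
  have hδ : (0 : ℝ) ≤ (2 : ℝ) ^ (-e) := by positivity
  have hδ1 : (2 : ℝ) ^ (-e) ≤ 1 := zpow_le_one_of_nonpos₀ (by norm_num) (by omega)
  have hA' : ∀ i j, ‖A i j‖ ≤ (2 : ℝ) ^ a := by
    intro i j
    have := hA i j
    rwa [neg_neg] at this
  have hB' : ∀ i j, ‖B i j‖ ≤ (2 : ℝ) ^ a := by
    intro i j
    have h1 := IsUltrametricDist.norm_add_le_max (B i j - A i j) (A i j)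
    rw [sub_add_cancel] at h1
    exact h1.trans (max_le ((hB i j).trans (hδ1.trans hM1)) (hA' i j))
  have hE : (2 : ℝ) ^ (-(e - a * ((n : ℤ) - 1))) * (2 : ℝ) ^ a = (2 : ℝ) ^ (-e) * ((2 : ℝ) ^ a) ^ n := by
    rw [← zpow_natCast, ← zpow_mul, ← zpow_add₀ (by norm_num), ← zpow_add₀ (by norm_num)]
    congr 1
    ring
  have hC : (0 : ℝ) ≤ (2 : ℝ) ^ (-(e - a * ((n : ℤ) - 1))) := by positivity
  rw [Matrix.det_apply, Matrix.det_apply, ← Finset.sum_sub_distrib]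
  refine IsUltrametricDist.norm_sum_le_of_forall_le_of_nonneg hC fun σ _ => ?_
  rw [← smul_sub]
  have h1 : ‖Equiv.Perm.sign σ • (∏ i, B (σ i) i - ∏ i, A (σ i) i)‖ =
      ‖∏ i, B (σ i) i - ∏ i, A (σ i) i‖ := by
    rcases Int.units_eq_one_or (Equiv.Perm.sign σ) with h | h
    · rw [h, one_smul]
    · rw [h, Units.neg_smul, one_smul, norm_neg]
  rw [h1]
  have h2 := pert_prod Finset.univ (fun i => A (σ i) i) (fun i => B (σ i) i) hM hδ
    (fun i => hA' _ _) (fun i => hB' _ _) (fun i => hB _ _)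
  rw [Finset.card_univ, Fintype.card_fin, ← hE] at h2
  exact le_of_mul_le_mul_right h2 hM

end Pool.Agent.BZ
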