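import Pool.Agent.Lib.MP_06b9d2_bz.CoC
import Pool.Agent.Lib.MP_06b9d2_bz.Elim
import Pool.Agent.Lib.MP_06b9d2_bz.Pert
import Pool.Agent.Lib.MP_06b9d2_bz.UBd
/-! # BZ.Core: the determinant of `U(N) - 2^H x`
`det_MM`, then `elim` with `p i = ¬ Win (i+1)`, `d = dd`, `y`, `f = -h`, `g = P.g`: `M.det = κ M'.det`, and the entries of `M'` differ from those of
`c0 U n - (x - 1/x)` (window `≃ Fin (n-1)`) by `GK (g - h)` (`g`-part and `MM_S`).  `det_pert` with `a = h`, `e = g - h`:
the determinants differ by `GK (g - h - h (n-2))`, `g - h (n-1) ≥ 1` (`g_big`; the entries of `c0 U n - ζ` are `GK (-h)`: `c0_ge`, `U_int`).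
`‖κ‖ = ∏ ‖dd‖`, where `‖x‖ = ‖x - 1/x‖ = 1`, does not depend on `x`; multiply by `‖2^(H(N-1))‖`. -/
set_option autoImplicit false
open Finset
namespace Pool.Agent.BZ
variable {K : Type*} [NormedField K] [IsUltrametricDist K] [CharZero K]

private theorem core_win_lt (P : Par) (j : Fin (P.n - 1)) : P.s0 - 1 + (j : ℕ) < P.N - 1 := by
  have h1 := P.l_eq
  have h2 : 0 < 2 ^ P.L := by positivity
  have h3 := j.2
  have h4 : P.N = P.N0 + 2 ^ P.w := rfl
  have h5 : P.N0 = 2 * P.s0 + P.l := rfl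
  have h6 : 0 < 2 ^ P.w := by positivity
  have h7 := P.hn3
  omega

private theorem core_s0 (P : Par) : 1 ≤ P.s0 := by
  unfold Par.s0; exact Nat.le_add_right _ _

/-- the positions in the window -/
private noncomputable def coreE (P : Par) : Fin (P.n - 1) ≃ {i : Fin (P.N - 1) // ¬ ¬ Win P (i + 1)} where
  toFun j := ⟨⟨P.s0 - 1 + j, core_win_lt P j⟩, by
    have h1 := j.2
    have h2 := core_s0 P
    rw [not_not]
    unfold Win
    simp only
    omega⟩
  invFun i := ⟨(i : Fin (P.N - 1)).1 + 1 - P.s0, by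
    have h := not_not.1 i.2
    unfold Win at h
    omega⟩
  left_inv j := by
    have h2 := core_s0 P
    ext
    simp only
    omega
  right_inv i := by
    have h := not_not.1 i.2
    unfold Win at h
    have h2 := core_s0 P
    ext
    simp only
    omega

private theorem coreE_val (P : Par) (j : Fin (P.n - 1)) :
    (((coreE P j : {i : Fin (P.N - 1) // ¬ ¬ Win P (i + 1)}) : Fin (P.N - 1)) : ℕ) + 1 = P.s0 + j := by
  have h2 := core_s0 P
  show P.s0 - 1 + (j : ℕ) + 1 = P.s0 + j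
  omega

private noncomputable def coreC (K : Type*) [NormedField K] [CharZero K] (P : Par) (s : ℕ) : ℝ :=
  if s < P.s0 then ‖((P.Dh s : ℚ) : K)‖ else 1

omit [IsUltrametricDist K] in
private theorem core_dd (P : Par) (x : K) (hx : ‖x‖ = 1) (hz : ‖x - x⁻¹‖ = 1) (s : ℕ) :
    ‖dd P x s‖ = coreC K P s := by
  unfold dd coreC
  split_ifs
  · rfl
  · rw [norm_neg, hz]
  · rw [norm_neg, hx]

omit [IsUltrametricDist K] in
private theorem coreC_pos (P : Par) (s : ℕ) (hs : 1 ≤ s) : 0 < coreC K P s := by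
  unfold coreC
  split_ifs with h
  · rw [norm_pos_iff]
    exact_mod_cast Dh_ne P s hs h
  · exact one_pos

private theorem core_entry (P : Par) (h2 : ‖(2 : K)‖ = 1 / 2) (a s : ℕ) (ha : 1 ≤ a) :
    GK (-(P.h : ℤ)) ((P.c0 : K) * ((U P.n a s : ℚ) : K)) := by
  have h1 := (c0_ge P).cast h2
  have h3 := (U_int (P.n : ℤ) a s).cast h2
  rw [show (((P.n : ℕ) : ℤ) : ℚ) = ((P.n : ℕ) : ℚ) by push_cast; rfl] at h3
  exact (h1.mul h3).mono (by omega)

theorem core (P : Par) (h2 : ‖(2 : K)‖ = 1 / 2) : ∃ C0 : ℝ, 0 < C0 ∧ ∀ x : K, ‖x‖ = 1 → ‖x - x⁻¹‖ = 1 →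
    ∃ κ e : K, (UM K P.N - ((2 : K) ^ P.H * x) • (1 : Matrix _ _ K)).det =
      κ * (((P.c0 : K) • UM K P.n - (x - x⁻¹) • (1 : Matrix _ _ K)).det + e) ∧
      ‖κ‖ = C0 ∧ ‖e‖ ≤ 1 / 2 := by
  classical
  refine ⟨‖(2 : K) ^ (P.H * (P.N - 1))‖ *
    ∏ i ∈ univ.filter (fun i : Fin (P.N - 1) => ¬ Win P (i + 1)), coreC K P (i + 1), ?_, ?_⟩
  · have h0 : (0 : ℝ) < ‖(2 : K) ^ (P.H * (P.N - 1))‖ := by
      rw [norm_pow, h2]; positivity
    exact mul_pos h0 (Finset.prod_pos fun i _ => coreC_pos P _ (by omega))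
  intro x hx hz
  let M : Matrix (Fin (P.N - 1)) (Fin (P.N - 1)) K := Matrix.of fun i j => MM P x (i + 1) (j + 1)
  have hlt : ∀ i : Fin (P.N - 1), (i : ℕ) + 1 < P.N := fun i => by
    have := i.2
    omega
  obtain ⟨κ, M', hdet, hκ, hM'⟩ := elim M (fun i => ¬ Win P (i + 1)) (fun i => dd P x (i + 1))
    (fun i => P.y (i + 1))
    (fun i _ => by
      have h := coreC_pos (K := K) P (i + 1) (by omega)
      rw [← core_dd P x hx hz, norm_pos_iff] at h
      exact h) h2
    (fun i j hi hj => by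
      have h := MM_T P h2 x hx hz (i + 1) (j + 1) (by omega) (hlt i) (by omega) (hlt j) hi hj
      have e1 : ((i : ℕ) + 1 = j + 1) ↔ i = j := by
        rw [Nat.add_right_cancel_iff]; exact Fin.val_inj
      simp only [e1] at h
      exact h) (-(P.h : ℤ)) (P.g : ℤ)
    (fun i j hi hj => MM_f P h2 x hx hz (i + 1) (j + 1) (by omega) (hlt i) (by omega) (hlt j)
      (not_not.1 hi) hj)
    (fun i j hi hj => MM_g P h2 x hx hz (i + 1) (j + 1) (by omega) (hlt i) (by omega) (hlt j)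
      hi (not_not.1 hj))
  let A : Matrix (Fin (P.n - 1)) (Fin (P.n - 1)) K :=
    (P.c0 : K) • UM K P.n - (x - x⁻¹) • (1 : Matrix _ _ K)
  let B : Matrix (Fin (P.n - 1)) (Fin (P.n - 1)) K := M'.submatrix (coreE P) (coreE P)
  have hBd : B.det = M'.det := Matrix.det_submatrix_equiv_self (coreE P) M'
  have hAe : ∀ i j, A i j = (P.c0 : K) * ((U P.n (i + 1) (j + 1) : ℚ) : K) -
      if i = j then x - x⁻¹ else 0 := by
    intro i j
    simp only [A, Matrix.sub_apply, Matrix.smul_apply, smul_eq_mul, UM, Matrix.of_apply,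
      Matrix.one_apply, mul_ite, mul_one, mul_zero]
  have hz0 : GK 0 (x - x⁻¹) := by
    unfold GK
    rw [hz]; simp
  have hA : ∀ i j, GK (-(P.h : ℤ)) (A i j) := by
    intro i j
    rw [hAe]
    refine GK.sub (core_entry P h2 _ _ (by omega)) ?_
    split_ifs
    · exact hz0.mono (by omega)
    · unfold GK; rw [norm_zero]; positivity
  have hB : ∀ i j, GK ((P.g : ℤ) - P.h) (B i j - A i j) := by
    intro i j
    have hi := coreE_val P i
    have hj := coreE_val P j
    have e1 : B i j - A i j = (M' (coreE P i) (coreE P j) - M (coreE P i) (coreE P j)) +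
        (M (coreE P i) (coreE P j) - A i j) := by
      show M' (coreE P i) (coreE P j) - A i j = _
      ring
    rw [e1]
    refine GK.add ((hM' _ _).mono (by omega)) ?_
    have hs0 := core_s0 P
    have hwi : Win P (P.s0 + i) := by
      have h3 := i.2
      unfold Win; omega
    have hwj : Win P (P.s0 + j) := by
      have h3 := j.2
      unfold Win; omega
    have h5 : P.s0 + (i : ℕ) < P.N := by rw [← hi]; exact hlt _
    have h6 : P.s0 + (j : ℕ) < P.N := by rw [← hj]; exact hlt _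
    have h := MM_S P h2 x hx hz (P.s0 + i) (P.s0 + j) (by omega) h5 (by omega) h6 hwi hwj
    rw [hAe]
    have e2 : M (coreE P i) (coreE P j) = MM P x (P.s0 + i) (P.s0 + j) := by
      show MM P x (((coreE P i : {i : Fin (P.N - 1) // ¬ ¬ Win P (i + 1)}) : Fin (P.N - 1)) + 1)
        (((coreE P j : {i : Fin (P.N - 1) // ¬ ¬ Win P (i + 1)}) : Fin (P.N - 1)) + 1) = _
      rw [hi, hj]
    have e3 : (P.s0 + (i : ℕ) = P.s0 + j) ↔ i = j := by
      rw [Nat.add_left_cancel_iff]; exact Fin.val_inj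
    rw [e2]
    simp only [e3, Nat.add_sub_cancel_left] at h
    exact h.mono (by omega)
  have hg := P.g_big
  have hgz : (P.h : ℤ) * (P.n + 2) + 400 ≤ P.g := by exact_mod_cast hg
  have hn3 := P.hn3
  have hpert := det_pert A B (P.h : ℤ) ((P.g : ℤ) - P.h) (by omega) (by nlinarith) hA hB
  have hpert' : GK 1 (B.det - A.det) := by
    refine hpert.mono ?_
    have e5 : ((P.n - 1 : ℕ) : ℤ) = (P.n : ℤ) - 1 := by
      rw [Nat.cast_sub (by omega)]; simp
    rw [e5]
    nlinarith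
  refine ⟨(2 : K) ^ (P.H * (P.N - 1)) * κ, B.det - A.det, ?_, ?_, ?_⟩
  · rw [det_MM P x, hdet, ← hBd]
    show (2 : K) ^ (P.H * (P.N - 1)) * (κ * B.det) =
      (2 : K) ^ (P.H * (P.N - 1)) * κ * (A.det + (B.det - A.det))
    ring
  · rw [norm_mul, hκ]
    congr 1
    exact Finset.prod_congr rfl fun i _ => core_dd P x hx hz _
  · unfold GK at hpert'
    rw [show (-(1 : ℤ)) = -1 from rfl, zpow_neg_one] at hpert'
    rw [one_div]
    exact hpert'
end Pool.Agent.BZ
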