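import Mathlib

/-!
# BZ.Defs: `U_2` in level `Γ₀(2)`, weight `4 N`, and its explicit `L D R` factorisation

`B = (16 E₄(2τ) - E₄(τ)) / 15`, `G = 4 (E₄(τ) - E₄(2τ)) / 15`, `x_s = B^(N-s) G^s`, `1 ≤ s ≤ N - 1`,
`U_2 x_s = ∑_a U N a s x_a`.  `U = LL · diag (al) · RR`, `ll = LL⁻¹`, `rr = RR⁻¹` (lower / upper unipotent).
Indices (positions) are natural numbers `≥ 1`; the weight parameter `N` is a rational number.
-/
set_option autoImplicit false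
open Finset

namespace Pool.Agent.BZ

/-- `v₂(q) ≥ n` -/
def Ge (n : ℤ) (q : ℚ) : Prop := q = 0 ∨ n ≤ padicValRat 2 q

/-- the binomial coefficient `C(x, k)` -/
noncomputable def ch (x : ℚ) (k : ℕ) : ℚ := (∏ i ∈ range k, (x - i)) / k.factorial

/-- `(2 j - 1)!!` -/
noncomputable def od (j : ℕ) : ℚ := ∏ i ∈ range j, (2 * (i : ℚ) + 1)

/-- the matrix of `U_2` in weight `4 N`: the coefficient of `x_a` in `U_2 x_s` -/
noncomputable def U (N : ℚ) (a s : ℕ) : ℚ :=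
  if s ≤ 2 * a then
    4 ^ (a + s) * (ch (a + s - N - 1) (2 * a - s) +
      (if s < 2 * a then ch (a + s - N - 1) (2 * a - s - 1) else 0) / 2)
  else 0

/-- the family `r_{b-k,b}` -/
noncomputable def rq (N b : ℚ) (k : ℕ) : ℚ :=
  4 ^ k * od k * ch (b + k - 1) (2 * k) * ch (2 * N - 3 * b + k - 1) k /
    (ch (N - 2 * b + k) k * ∏ i ∈ range k, (2 * N - 2 * b + 1 + 2 * (i : ℚ)))

/-- the family `R_{a,a+j}` -/
noncomputable def Rq (N a : ℚ) (j : ℕ) : ℚ :=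
  (-4) ^ j * od j * ch (a + j) (2 * j) *
    (ch (2 * N - 3 * a - 1) j - 2 * (if j = 0 then 0 else ch (2 * N - 3 * a - 1) (j - 1))) /
    (ch (N - 2 * a - 1) j * ∏ i ∈ range j, (2 * N - 2 * a - 1 - 2 * (i : ℚ)))

/-- `r_{t,s}`, upper triangular (`t ≤ s`) -/
noncomputable def rr (N : ℚ) (t s : ℕ) : ℚ := if t ≤ s then rq N s (s - t) else 0
/-- `R_{s,t}`, upper triangular (`s ≤ t`) -/
noncomputable def RR (N : ℚ) (s t : ℕ) : ℚ := if s ≤ t then Rq N s (t - s) else 0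
/-- `L_{a,s}`, lower triangular (`s ≤ a`) -/
noncomputable def LL (N : ℚ) (a s : ℕ) : ℚ := if s ≤ a then rq N (N - s) (a - s) else 0
/-- `l_{s,t}`, lower triangular (`t ≤ s`) -/
noncomputable def ll (N : ℚ) (s t : ℕ) : ℚ := if t ≤ s then Rq N (N - s) (s - t) else 0

/-- the diagonal `α_s` -/
noncomputable def al (N : ℚ) (s : ℕ) : ℚ :=
  (-8) ^ s * s.factorial * ch (2 * N - 2 * s - 1) s * ch (N - 2 * s - 1) (s - 1) /
    (od s * ch (N - s - 1) (s - 1))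

/-- pole free form of `α_s L_{p,s}`, `p ≥ s` -/
noncomputable def LDf (N : ℚ) (s p : ℕ) : ℚ :=
  (-1) ^ s * 2 ^ (3 * s + 2 * (p - s)) * s.factorial * od (p - s) * ch (2 * N - 2 * s - 1) s *
    ch (N - p - s - 1) (s - 1) * ch (N - 2 * s + p - 1) (2 * (p - s)) /
    (od p * ch (N - s - 1) (s - 1))

/-- pole free form of `α_s R_{s,s+j}`, `j ≤ s - 1` -/
noncomputable def DRf (N : ℚ) (s j : ℕ) : ℚ :=
  (-8) ^ s * s.factorial * ch (2 * N - 2 * s - 1) s * ch (N - 2 * s - 1 - j) (s - 1 - j) *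
    (-4) ^ j * od j * ch (s + j) (2 * j) *
    (ch (2 * N - 3 * s - 1) j - 2 * (if j = 0 then 0 else ch (2 * N - 3 * s - 1) (j - 1))) /
    (od s * ch (N - s - 1) (s - 1) * ((s - 1).choose j : ℚ) *
      ∏ i ∈ range j, (2 * N - 2 * s - 1 - 2 * (i : ℚ)))

/-- pole free form of `α_s R_{s,2s}` -/
noncomputable def DRs (N : ℚ) (s : ℕ) : ℚ :=
  2 * 32 ^ s * s.factorial * ch (2 * N - 2 * s - 1) s * ch (2 * N - 3 * s - 1) (s - 1) /
    (ch (N - s - 1) (s - 1) * ∏ i ∈ range s, (2 * N - 2 * s - 1 - 2 * (i : ℚ)))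

/-- the parameters of one step -/
structure Par where
  n : ℕ
  h : ℕ
  L : ℕ
  hn : Odd n
  hn3 : 3 ≤ n
  hh1 : 100 + 20 * Nat.log 2 n ≤ h
  hh2 : h + 2 ≤ 4 * n
  hL : 16 * n ^ 2 + 1000 ≤ L

namespace Par
variable (P : Par)

def E : ℕ := 100 * P.L
def l : ℕ := P.n - 2 + 2 ^ P.L
def s0 : ℕ := 1 + 2 ^ P.E
def N0 : ℕ := 2 * P.s0 + P.l
def m : ℕ := P.s0 + (P.l - 1) / 2
def H : ℕ := 2 * P.N0 - 1
def w : ℕ := 2 * P.l + 3 + P.E - P.h
def N : ℕ := P.N0 + 2 ^ P.w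
/-- the gain -/
def g : ℕ := P.L / 2

/-- the weights -/
def y (s : ℕ) : ℤ :=
  if s < P.s0 then 30 * P.L + 2 * ((P.s0 : ℤ) - s) + (if 2 * s ≤ P.m then 3 * P.l else 0)
  else if s ≤ P.m then 1
  else if P.N0 < s + P.s0 then 30 * P.L - Nat.log 2 P.n - 8
  else if P.N0 + 1 < s + P.s0 + P.n then -(2 ^ (P.L - 3))
  else 0

/-- `α_s / 2^H` -/
noncomputable def Dh (s : ℕ) : ℚ := al P.N s / 2 ^ P.H

/-- row transformation (low rows: `ll`; high rows: `LL_hh ll`) -/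
noncomputable def A1 (s t : ℕ) : ℚ :=
  if s < P.s0 then ll P.N s t
  else if s ≤ P.m then ∑ u ∈ Icc P.s0 s, LL P.N s u * ll P.N u t
  else if s = t then 1 else 0

/-- column transformation (low columns: `rr`; high columns: `rr RR_hh`) -/
noncomputable def B1 (t s : ℕ) : ℚ :=
  if s < P.s0 then rr P.N t s
  else if s ≤ P.m then ∑ u ∈ Icc P.s0 s, rr P.N t u * RR P.N u s
  else if t = s then 1 else 0

/-- the transformed identity matrix -/
noncomputable def X0 (s q : ℕ) : ℚ := ∑ t ∈ Icc 1 (P.N - 1), P.A1 s t * P.B1 t q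

/-- the transformed matrix `U / 2^H` -/
noncomputable def X1 (s q : ℕ) : ℚ :=
  ∑ t ∈ Icc 1 (P.N - 1), ∑ u ∈ Icc 1 (P.N - 1), P.A1 s t * (U P.N t u / 2 ^ P.H) * P.B1 u q

/-- `(U/2^H) rr` -/
noncomputable def Ur (q s : ℕ) : ℚ := ∑ t ∈ Icc 1 s, U P.N q t / 2 ^ P.H * rr P.N t s

/-- the scaling constant `α_{s0}(N) / (2^H α_1(N - 2 s0 + 2))` -/
noncomputable def c0 : ℚ :=
  al P.N P.s0 / 2 ^ P.H / (-8 * (2 * ((P.N : ℚ) - 2 * P.s0 + 2) - 3))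

end Par

/-- the matrix of `U_2` over a field `F`, size `N - 1` -/
noncomputable def UM (F : Type*) [Field F] (N : ℕ) : Matrix (Fin (N - 1)) (Fin (N - 1)) F :=
  Matrix.of fun i j => ((U N (i + 1) (j + 1) : ℚ) : F)

/-- `u` is an eigenvalue -/
def IsEig {F : Type*} [Field F] (N : ℕ) (u : F) : Prop := (UM F N - u • (1 : Matrix _ _ F)).det = 0

/-- admissible pairs (weight parameter, slope) -/
def Good (n h : ℕ) : Prop := Odd n ∧ 3 ≤ n ∧ 100 + 20 * Nat.log 2 n ≤ h ∧ h + 2 ≤ 4 * n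

/-- `v(x) ≥ n` in a normed field -/
def GK {K : Type*} [NormedField K] (n : ℤ) (x : K) : Prop := ‖x‖ ≤ (2 : ℝ) ^ (-n)

end Pool.Agent.BZ
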