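import Pool.Agent.Lib.MP_06b9d2_bz.Val
import Pool.Agent.Lib.MP_06b9d2_bz.ChA
/-! # BZ.Rat: the ratio `α_{s+t} / α_s`
`α_{s+1}/α_s = -4 (2N-3s-1)(2N-3s-2)(2N-3s-3)(N-3s)(N-3s-1)(N-3s-2) / ((2s+1)(2N-2s-1)(N-2s)(N-2s-1)²(N-2s-2))`. -/
set_option autoImplicit false
open Finset
namespace Pool.Agent.BZ
/-- the ratio -/
noncomputable def rho (N : ℚ) (s t : ℕ) : ℚ :=
  (-4) ^ t * ((3 * t).factorial : ℚ) ^ 2 / ((2 * t).factorial : ℚ) ^ 2 *
    (ch (2 * N - 3 * s - 1) (3 * t) * ch (N - 3 * s) (3 * t)) /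
    (ch (N - 2 * s) (2 * t) * ch (N - 2 * s - 1) (2 * t) *
      (∏ i ∈ range t, (2 * (s : ℚ) + 1 + 2 * i)) * ∏ i ∈ range t, (2 * N - 2 * s - 1 - 2 * (i : ℚ)))

/-- one step -/
private noncomputable def sg (N s : ℚ) : ℚ :=
  -4 * (((2 * N - 3 * s - 1) * (2 * N - 3 * s - 2) * (2 * N - 3 * s - 3)) *
      ((N - 3 * s) * (N - 3 * s - 1) * (N - 3 * s - 2))) /
    (((N - 2 * s) * (N - 2 * s - 1)) * ((N - 2 * s - 1) * (N - 2 * s - 2)) * (2 * s + 1) *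
      (2 * N - 2 * s - 1))

private theorem l2 (x : ℚ) (k : ℕ) :
    (k + 1) * (x * ch (x - 1) (k + 1)) = (x - 1 - k) * (x - k) * ch x k := by
  have h1 := ch_step (x - 1) k
  have h2 := ch_step'' x k
  linear_combination x * h1 - (x - 1 - k) * h2

private theorem l3 (x : ℚ) (k : ℕ) :
    (k + 1) * (x * (x - 1) * ch (x - 2) (k + 1)) = (x - 2 - k) * (x - 1 - k) * (x - k) * ch x k := by
  have h1 := ch_step (x - 2) k
  have h2 := ch_step'' (x - 1) k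
  have h3 := ch_step'' x k
  have e : x - 1 - 1 = x - 2 := by ring
  rw [e] at h2
  linear_combination x * (x - 1) * h1 - (x - 2 - k) * x * h2 - (x - 2 - k) * (x - 1 - k) * h3

private theorem rho_eq (N : ℚ) (s t : ℕ) : rho N s t =
    (-4) ^ t * ((∏ i ∈ range (3 * t), (2 * N - 3 * s - 1 - (i : ℚ))) *
      (∏ i ∈ range (3 * t), (N - 3 * s - (i : ℚ)))) /
    ((∏ i ∈ range (2 * t), (N - 2 * s - (i : ℚ))) * (∏ i ∈ range (2 * t), (N - 2 * s - 1 - (i : ℚ))) *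
      (∏ i ∈ range t, (2 * (s : ℚ) + 1 + 2 * i)) * ∏ i ∈ range t, (2 * N - 2 * s - 1 - 2 * (i : ℚ))) := by
  unfold rho
  rw [← ch_prod, ← ch_prod, ← ch_prod, ← ch_prod]
  have h : ∀ a b c d e f g u v w : ℚ, a * b ^ 2 / c ^ 2 * (d * e) / (f * g * u * v) =
      a * ((b * d) * (b * e)) / ((c * f) * (c * g) * u * v) := by
    intro a b c d e f g u v _
    simp only [div_eq_mul_inv, mul_inv]
    ring
  exact h _ _ _ _ _ _ _ _ _ 0

private theorem rho_step (N : ℚ) (s t : ℕ) : rho N s (t + 1) = rho N s t * sg N ((s : ℚ) + t) := by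
  rw [rho_eq, rho_eq]
  unfold sg
  have e3 : 3 * (t + 1) = 3 * t + 1 + 1 + 1 := by ring
  have e2 : 2 * (t + 1) = 2 * t + 1 + 1 := by ring
  rw [e3, e2]
  simp only [prod_range_succ, pow_succ]
  rw [div_mul_div_comm]
  push_cast
  congr 1
  · ring
  · ring

private theorem fin (G F A B C O p1 p2 p3 m1 m2 m3 x y y1 z c2 k : ℚ) (hz : z ≠ 0) :
    G * (-8) * F / (O * k) * (p1 * p2 * p3 * A / (x * (2 * z))) *
      ((m1 * m2 * m3 * B / (y * y1)) / (y * c2 * C / z)) =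
    G * F * A * B / (O * C) * (-4 * ((p3 * p2 * p1) * (m3 * m2 * m1)) / ((c2 * y) * (y * y1) * k * x)) := by
  have hz1 : z * z⁻¹ = 1 := mul_inv_cancel₀ hz
  simp only [div_eq_mul_inv, mul_inv, inv_inv]
  linear_combination (G * (-8) * F * O⁻¹ * k⁻¹ * p1 * p2 * p3 * A * x⁻¹ * 2⁻¹ * m1 * m2 * m3 * B *
    y⁻¹ * y1⁻¹ * y⁻¹ * c2⁻¹ * C⁻¹) * hz1

private theorem al_step (N s : ℕ) (hs : 1 ≤ s) (hN : 4 * (s + 1) ≤ N) :
    al N (s + 1) = al N s * sg N s := by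
  obtain ⟨u, rfl⟩ : ∃ u, s = u + 1 := ⟨s - 1, by omega⟩
  have hN' : 4 * ((u : ℚ) + 1 + 1) ≤ N := by exact_mod_cast hN
  have hu : (0 : ℚ) ≤ u := by positivity
  unfold al sg
  have e1 : u + 1 + 1 - 1 = u + 1 := by omega
  have e2 : u + 1 - 1 = u := by omega
  rw [e1, e2]
  have h1 := l3 (2 * (N : ℚ) - 2 * ((u + 1 : ℕ) : ℚ) - 1) (u + 1)
  have h2 := l3 ((N : ℚ) - 2 * ((u + 1 : ℕ) : ℚ) - 1) u
  have h3 := l2 ((N : ℚ) - ((u + 1 : ℕ) : ℚ) - 1) u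
  have i1 : 2 * (N : ℚ) - 2 * ((u + 1 : ℕ) : ℚ) - 1 - 2 = 2 * (N : ℚ) - 2 * ((u + 1 + 1 : ℕ) : ℚ) - 1 := by
    push_cast; ring
  have i2 : (N : ℚ) - 2 * ((u + 1 : ℕ) : ℚ) - 1 - 2 = (N : ℚ) - 2 * ((u + 1 + 1 : ℕ) : ℚ) - 1 := by
    push_cast; ring
  have i3 : (N : ℚ) - ((u + 1 : ℕ) : ℚ) - 1 - 1 = (N : ℚ) - ((u + 1 + 1 : ℕ) : ℚ) - 1 := by
    push_cast; ring
  rw [i1] at h1
  rw [i2] at h2
  rw [i3] at h3
  have n0 : ch ((N : ℚ) - ((u + 1 : ℕ) : ℚ) - 1) u ≠ 0 := by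
    apply ch_ne_zero
    intro i hi h
    have hi' : (i : ℚ) < u := by exact_mod_cast hi
    push_cast at h
    linarith
  have o1 : od (u + 1 + 1) = od (u + 1) * (2 * ((u : ℚ) + 1) + 1) := by
    unfold od
    rw [prod_range_succ]
    push_cast
    rfl
  have o2 : od (u + 1) ≠ 0 := by
    unfold od
    rw [prod_ne_zero_iff]
    intro i _
    positivity
  have f1 : (((u + 1 + 1).factorial : ℕ) : ℚ) = ((u : ℚ) + 1 + 1) * ((u + 1).factorial : ℚ) := by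
    rw [Nat.factorial_succ]
    push_cast
    ring
  rw [o1, f1]
  generalize ch (2 * (N : ℚ) - 2 * ((u + 1 + 1 : ℕ) : ℚ) - 1) (u + 1 + 1) = A' at h1 ⊢
  generalize ch (2 * (N : ℚ) - 2 * ((u + 1 : ℕ) : ℚ) - 1) (u + 1) = A at h1 ⊢
  generalize ch ((N : ℚ) - 2 * ((u + 1 + 1 : ℕ) : ℚ) - 1) (u + 1) = B' at h2 ⊢
  generalize ch ((N : ℚ) - 2 * ((u + 1 : ℕ) : ℚ) - 1) u = B at h2 ⊢
  generalize ch ((N : ℚ) - ((u + 1 + 1 : ℕ) : ℚ) - 1) (u + 1) = C' at h3 ⊢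
  generalize ch ((N : ℚ) - ((u + 1 : ℕ) : ℚ) - 1) u = C at h3 n0 ⊢
  generalize ((u + 1).factorial : ℚ) = F
  generalize od (u + 1) = O at o2 ⊢
  push_cast at h1 h2 h3 ⊢
  generalize (N : ℚ) = n at *
  generalize (u : ℚ) = w at *
  have k1 : (w + 1 + 1) * A' = (2 * n - 2 * (w + 1) - 1 - 2 - (w + 1)) * (2 * n - 2 * (w + 1) - 1 - 1 - (w + 1)) *
      (2 * n - 2 * (w + 1) - 1 - (w + 1)) * A /
      ((2 * n - 2 * (w + 1) - 1) * (2 * n - 2 * (w + 1) - 1 - 1)) := by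
    rw [eq_div_iff (mul_ne_zero (by intro h; linarith) (by intro h; linarith))]
    linear_combination h1
  have k2 : (w + 1) * B' = (n - 2 * (w + 1) - 1 - 2 - w) * (n - 2 * (w + 1) - 1 - 1 - w) *
      (n - 2 * (w + 1) - 1 - w) * B / ((n - 2 * (w + 1) - 1) * (n - 2 * (w + 1) - 1 - 1)) := by
    rw [eq_div_iff (mul_ne_zero (by intro h; linarith) (by intro h; linarith))]
    linear_combination h2
  have k3 : (w + 1) * C' = (n - (w + 1) - 1 - 1 - w) * (n - (w + 1) - 1 - w) * C / (n - (w + 1) - 1) := by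
    rw [eq_div_iff (by intro h; linarith)]
    linear_combination h3
  have hw1 : w + 1 ≠ 0 := by positivity
  have hC' : C' ≠ 0 := by
    intro h
    rw [h, mul_zero] at k3
    have : (n - (w + 1) - 1 - 1 - w) * (n - (w + 1) - 1 - w) * C / (n - (w + 1) - 1) ≠ 0 :=
      div_ne_zero (mul_ne_zero (mul_ne_zero (by intro h; linarith) (by intro h; linarith)) n0)
        (by intro h; linarith)
    exact this k3.symm
  have k4 : B' / C' = ((w + 1) * B') / ((w + 1) * C') := by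
    rw [mul_div_mul_left _ _ hw1]
  have k5 : (-8 : ℚ) ^ (u + 1 + 1) * ((w + 1 + 1) * F) * A' * B' / (O * (2 * (w + 1) + 1) * C') =
      (-8) ^ (u + 1) * (-8) * F / (O * (2 * (w + 1) + 1)) * ((w + 1 + 1) * A') * (B' / C') := by
    rw [pow_succ]
    simp only [div_eq_mul_inv, mul_inv]
    ring
  rw [k5, k4, k1, k2, k3]
  have r1 : 2 * n - 2 * (w + 1) - 1 - 1 = 2 * (n - (w + 1) - 1) := by ring
  have r2 : n - (w + 1) - 1 - 1 - w = n - 2 * (w + 1) - 1 := by ring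
  have r3 : n - (w + 1) - 1 - w = n - 2 * (w + 1) := by ring
  have r4 : n - 2 * (w + 1) - 1 - 1 = n - 2 * (w + 1) - 2 := by ring
  have r5 : 2 * n - 2 * (w + 1) - 1 - 2 - (w + 1) = 2 * n - 3 * (w + 1) - 3 := by ring
  have r6 : 2 * (n - (w + 1) - 1) - (w + 1) = 2 * n - 3 * (w + 1) - 2 := by ring
  have r7 : 2 * n - 2 * (w + 1) - 1 - (w + 1) = 2 * n - 3 * (w + 1) - 1 := by ring
  have r8 : n - 2 * (w + 1) - 1 - 2 - w = n - 3 * (w + 1) - 2 := by ring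
  have r9 : n - 2 * (w + 1) - 2 - w = n - 3 * (w + 1) - 1 := by ring
  have r10 : n - 2 * (w + 1) - 1 - w = n - 3 * (w + 1) := by ring
  rw [r1, r2, r3, r4, r5, r6, r7, r8, r9, r10]
  exact fin _ _ _ _ _ _ _ _ _ _ _ _ _ _ _ _ _ _ (by intro h; linarith)

theorem al_ratio (N s t : ℕ) (hs : 1 ≤ s) (hN : 4 * (s + t) ≤ N) : al N (s + t) = al N s * rho N s t := by
  induction t with
  | zero =>
    have h : rho N s 0 = 1 := by
      rw [rho_eq]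
      simp
    rw [h, mul_one, add_zero]
  | succ t ih =>
    rw [← add_assoc, al_step N (s + t) (by omega) (by omega), ih (by omega), rho_step, mul_assoc]
    push_cast
    rfl

theorem al_one (N : ℚ) : al N 1 = -8 * (2 * N - 3) := by
  have h : ∀ x : ℚ, ch x 1 = x := by
    intro x
    unfold ch
    simp
  unfold al od
  simp only [Nat.sub_self, ch_zero, h, prod_range_one]
  simp
  ring
end Pool.Agent.BZ
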