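import Pool.Agent.Lib.MP_06b9d2_bz.BAl
import Pool.Agent.Lib.MP_06b9d2_bz.Rat
/-! # BZ.GSim: self-similarity
`N'' = N - 2 s0 + 2 = 2^w + l + 2`; `c0 = α_{s0}(N) / (2^H α_1(N''))`, `v(α_{s0}/2^H) = 3 - h` (`val_al_s0`).
`U N'' a b = ∑_t LL N'' a t * al N'' t * RR N'' t b` (`U_LDU`, `n = (l+1)/2`).  With `u = s0 + t - 1` compare termwise
`LL N s u` with `LL N'' a t`, `rho N s0 (t-1)` with `rho N'' 1 (t-1)`, `RR N u q` with `RR N'' t b`: the denominators `C(N-2u-1,j)`,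
`C(N-2s0,2τ)`, `C(N-2s0-1,2τ)` are THE SAME, of valuation `≤ L + 1`; the numerators are `ch` of integers which differ by `± 2^E`
(`ch_lip'`), the odd products differ by multiples of `2^(E+1)`.  `(3τ)!²/(2τ)!²` has valuation `≥ 2τ - 2(L+3)`, `τ ≤ (l-1)/2`.
Bounds: `LL, RR`: `≥ 2j - L - 1`, errors `≥ 2j + E - 2L - 4`; `rho`: `≥ 4τ - 4L - 8`, error `≥ 4τ + E - 5L - 12`. -/
set_option autoImplicit false
open Finset
namespace Pool.Agent.BZ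

private theorem gs_key {x x' d d' D : ℚ} {p q e β : ℤ} (hd : d ≠ 0 ∧ padicValRat 2 d = 0)
    (hd' : d' ≠ 0 ∧ padicValRat 2 d' = 0) (hD : padicValRat 2 D ≤ β) (h1 : Ge p (x - x'))
    (h2 : Ge q x') (h3 : Ge e (d - d')) (hpe : p ≤ q + e) :
    Ge (p - β) (x / (D * d) - x' / (D * d')) ∧ Ge (q - β) (x' / (D * d')) := by
  have e1 : x / (D * d) - x' / (D * d') = (x / d - x' / d') / D := by
    rw [sub_div, div_div, div_div, mul_comm d D, mul_comm d' D]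
  have e2 : x' / (D * d') = (x' / d') / D := by
    rw [div_div, mul_comm d' D]
  have h4 := Ge.div_sub hd.1 hd'.1 hd.2.le hd'.2.le h1 h2 h3
  have h5 := (h4.div hD)
  have h6 := ((h2.div hd'.2.le).div hD)
  rw [e1, e2]
  refine ⟨h5.mono ?_, h6.mono (by omega)⟩
  have : min (p - 0) (q + e - 0 - 0) = p := by
    rw [sub_zero, sub_zero, sub_zero]
    exact min_eq_left hpe
  rw [this]

private theorem gs_mul_sub {a a' b b' : ℚ} {e : ℤ} (h1 : Ge e (a - a')) (h2 : Ge e (b - b'))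
    (h3 : Ge 0 a') (h4 : Ge 0 b) : Ge e (a * b - a' * b') := by
  have e1 : a * b - a' * b' = (a - a') * b + a' * (b - b') := by ring
  rw [e1]
  have h5 := h1.mul h4
  have h6 := h3.mul h2
  rw [add_zero] at h5
  rw [zero_add] at h6
  exact h5.add h6

private theorem gs_prod (k e : ℕ) (f g : ℕ → ℤ) (h : ∀ i, (2 ^ e : ℤ) ∣ f i - g i) :
    Ge e ((∏ i ∈ range k, (f i : ℚ)) - ∏ i ∈ range k, (g i : ℚ)) := by
  have h1 : (2 ^ e : ℤ) ∣ (∏ i ∈ range k, f i) - ∏ i ∈ range k, g i := by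
    induction k with
    | zero => simp
    | succ k ih =>
      rw [prod_range_succ, prod_range_succ]
      have e1 : (∏ i ∈ range k, f i) * f k - (∏ i ∈ range k, g i) * g k =
        ((∏ i ∈ range k, f i) - ∏ i ∈ range k, g i) * f k + (∏ i ∈ range k, g i) * (f k - g k) := by
        ring
      rw [e1]
      exact dvd_add (Dvd.dvd.mul_right ih _) (Dvd.dvd.mul_left (h k) _)
  obtain ⟨z, hz⟩ := h1
  have h2 : (∏ i ∈ range k, (f i : ℚ)) - ∏ i ∈ range k, (g i : ℚ) = (2 : ℚ) ^ e * z := by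
    have := congrArg (fun t : ℤ => (t : ℚ)) hz
    push_cast at this
    exact this
  rw [h2]
  have h3 := (Ge.pow2 e).mul (Ge.int z)
  rwa [add_zero] at h3

private theorem gs_four (k : ℕ) : Ge (2 * k) ((4 : ℚ) ^ k) := by
  have h1 : (4 : ℚ) ^ k = 2 ^ (2 * k) := by
    rw [pow_mul]; norm_num
  rw [h1]
  exact_mod_cast Ge.pow2 (2 * k)

private theorem gs_nfour (k : ℕ) : Ge (2 * k) ((-4 : ℚ) ^ k) := by
  rcases Nat.even_or_odd k with h | h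
  · rw [h.neg_pow]; exact gs_four k
  · rw [h.neg_pow]; exact (gs_four k).neg

private theorem gs_sgn (k : ℕ) (q : ℚ) : padicValRat 2 ((-1) ^ k * q) = padicValRat 2 q := by
  rcases neg_one_pow_eq_or ℚ k with h | h
  · rw [h, one_mul]
  · rw [h, neg_one_mul, padicValRat.neg]

private theorem gs_den {w L x k : ℕ} {q : ℚ} (hq : q = ((2 ^ w + x : ℕ) : ℚ)) (hk : k ≤ x)
    (hx : x < 2 ^ (L + 1)) (hw : x < 2 ^ w) : ch q k ≠ 0 ∧ padicValRat 2 (ch q k) ≤ L := by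
  obtain ⟨h1, h2⟩ := val_ch hq (show k ≤ 2 ^ w + x by omega)
  refine ⟨h1, ?_⟩
  have e1 : 2 ^ w + x - k = 2 ^ w + (x - k) := by omega
  rw [h2, e1, s2_pow_add hw, s2_pow_add (by omega : x - k < 2 ^ w)]
  have h3 := (val_ch (x := (x : ℚ)) rfl hk).2
  have h4 := val_ch_le (x := (x : ℚ)) rfl hk
  have h5 : Nat.log 2 x ≤ L := by
    rcases Nat.eq_zero_or_pos x with h | h
    · rw [h]; simp
    · exact Nat.lt_succ_iff.1 (Nat.log_lt_of_lt_pow h.ne' hx)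
  have h6 : (Nat.log 2 x : ℤ) ≤ L := by exact_mod_cast h5
  push_cast
  omega

private theorem gs_N (P : Par) : (P.N : ℤ) = 2 * P.s0 + P.l + 2 ^ P.w := by
  unfold Par.N Par.N0; push_cast; ring

private theorem gs_s0 (P : Par) : (P.s0 : ℤ) = 1 + 2 ^ P.E := by
  unfold Par.s0; push_cast; ring

private theorem gs_lw (P : Par) : P.l < 2 ^ P.w := by
  have h1 := P.big3
  have h2 : P.N0 = 2 * P.s0 + P.l := rfl
  have h3 : 1 ≤ P.s0 := Nat.le_add_right 1 _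
  omega

private theorem gs_log {k L : ℕ} (h : k < 2 ^ (L + 1)) : (Nat.log 2 k : ℤ) ≤ L := by
  have h5 : Nat.log 2 k ≤ L := by
    rcases Nat.eq_zero_or_pos k with h0 | h0
    · rw [h0]; simp
    · exact Nat.lt_succ_iff.1 (Nat.log_lt_of_lt_pow h0.ne' h)
  exact_mod_cast h5

theorem LL_sim (P : Par) (a t : ℕ) (ht : 1 ≤ t) (hta : t ≤ a) (ha : 2 * a ≤ P.l + 1) :
    Ge (2 * ((a : ℤ) - t) + P.E - 2 * P.L - 4)
      (LL P.N (P.s0 + a - 1) (P.s0 + t - 1) - LL ((P.N : ℚ) - 2 * P.s0 + 2) a t) ∧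
    Ge (2 * ((a : ℤ) - t) - P.L - 1) (LL ((P.N : ℚ) - 2 * P.s0 + 2) a t) := by
  obtain ⟨j, rfl⟩ := Nat.exists_eq_add_of_le hta
  have hl := P.l_lt
  have hlw := gs_lw P
  have hN := gs_N P
  have hs := gs_s0 P
  have hNq : (P.N : ℚ) = 2 * P.s0 + P.l + 2 ^ P.w := by exact_mod_cast hN
  have hsq : (P.s0 : ℚ) = 1 + 2 ^ P.E := by exact_mod_cast hs
  have c1 : ((P.s0 + t - 1 : ℕ) : ℚ) = P.s0 + t - 1 := by
    rw [Nat.cast_sub (by omega)]; push_cast; ring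
  have hlog : (Nat.log 2 (2 * j) : ℤ) ≤ P.L := gs_log (by omega)
  have hlog' : (Nat.log 2 j : ℤ) ≤ P.L := gs_log (by omega)
  unfold LL
  rw [if_pos (by omega), if_pos (by omega)]
  have e0 : P.s0 + (t + j) - 1 - (P.s0 + t - 1) = j := by omega
  have e0' : t + j - t = j := by omega
  rw [e0, e0', c1]
  unfold rq
  -- denominators
  have eD : (P.N : ℚ) - 2 * (P.N - (P.s0 + t - 1)) + j =
      ((P.N : ℚ) - 2 * P.s0 + 2) - 2 * (((P.N : ℚ) - 2 * P.s0 + 2) - t) + j := by ring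
  rw [eD]
  have hD : padicValRat 2 (ch (((P.N : ℚ) - 2 * P.s0 + 2) -
      2 * (((P.N : ℚ) - 2 * P.s0 + 2) - t) + j) j) ≤ P.L := by
    have e1 : ((P.N : ℚ) - 2 * P.s0 + 2) - 2 * (((P.N : ℚ) - 2 * P.s0 + 2) - t) + j =
        -((P.N : ℚ) - 2 * P.s0 + 2 - 2 * t - j) := by ring
    rw [e1, ch_neg, gs_sgn]
    refine (gs_den (w := P.w) (x := P.l + 1 - 2 * t) ?_ (by omega) (by omega) (by omega)).2
    rw [hNq]
    push_cast [Nat.cast_sub (show 2 * t ≤ P.l + 1 by omega)]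
    ring
  have hd : (∏ i ∈ range j, (2 * (P.N : ℚ) - 2 * (P.N - (P.s0 + t - 1)) + 1 + 2 * (i : ℚ))) =
      ∏ i ∈ range j, (((2 * P.s0 + 2 * t - 1 + 2 * i : ℤ)) : ℚ) :=
    prod_congr rfl fun i _ => by push_cast; ring
  have hd' : (∏ i ∈ range j, (2 * ((P.N : ℚ) - 2 * P.s0 + 2) -
      2 * (((P.N : ℚ) - 2 * P.s0 + 2) - t) + 1 + 2 * (i : ℚ))) =
      ∏ i ∈ range j, (((2 * t + 1 + 2 * i : ℤ)) : ℚ) :=
    prod_congr rfl fun i _ => by push_cast; ring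
  rw [hd, hd']
  have o1 := val_prod_odd (range j) (fun i : ℕ => (2 * P.s0 + 2 * t - 1 + 2 * i : ℤ))
    (fun i _ => ⟨(P.s0 : ℤ) + t - 1 + i, by ring⟩)
  have o2 := val_prod_odd (range j) (fun i : ℕ => (2 * t + 1 + 2 * i : ℤ))
    (fun i _ => ⟨(t : ℤ) + i, by ring⟩)
  have o3 := gs_prod j (P.E + 1) (fun i : ℕ => (2 * P.s0 + 2 * t - 1 + 2 * i : ℤ))
    (fun i : ℕ => (2 * t + 1 + 2 * i : ℤ)) (fun i => ⟨1, by rw [hs]; ring⟩)
  -- numerators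
  have n1 : Ge ((P.E : ℤ) - P.L) (ch ((P.N : ℚ) - (P.s0 + t - 1) + j - 1) (2 * j) -
      ch ((P.N : ℚ) - 2 * P.s0 + 2 - t + j - 1) (2 * j)) :=
    (ch_lip' (e := P.E) (x := (P.N : ℤ) - (P.s0 + t - 1) + j - 1)
      (y := (P.N : ℤ) - 2 * P.s0 + 2 - t + j - 1) (2 * j) (by push_cast; ring)
      (by push_cast; ring) ⟨1, by rw [hs]; ring⟩).mono (by omega)
  have n2 : Ge ((P.E : ℤ) - P.L)
      (ch (2 * (P.N : ℚ) - 3 * (P.N - (P.s0 + t - 1)) + j - 1) j -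
      ch (2 * ((P.N : ℚ) - 2 * P.s0 + 2) - 3 * (((P.N : ℚ) - 2 * P.s0 + 2) - t) + j - 1) j) :=
    (ch_lip' (e := P.E) (x := 2 * (P.N : ℤ) - 3 * (P.N - (P.s0 + t - 1)) + j - 1)
      (y := 2 * ((P.N : ℤ) - 2 * P.s0 + 2) - 3 * (((P.N : ℤ) - 2 * P.s0 + 2) - t) + j - 1) j
      (by push_cast; ring) (by push_cast; ring) ⟨1, by rw [hs]; ring⟩).mono (by omega)
  have g1 : Ge 0 (ch ((P.N : ℚ) - 2 * P.s0 + 2 - t + j - 1) (2 * j)) := by
    have := Ge_ch ((P.N : ℤ) - 2 * P.s0 + 2 - t + j - 1) (2 * j)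
    push_cast at this
    exact this
  have g2 : Ge 0 (ch (2 * (P.N : ℚ) - 3 * (P.N - (P.s0 + t - 1)) + j - 1) j) := by
    have := Ge_ch (2 * (P.N : ℤ) - 3 * (P.N - (P.s0 + t - 1)) + j - 1) j
    push_cast at this
    exact this
  have g3 : Ge 0 (ch (2 * ((P.N : ℚ) - 2 * P.s0 + 2) -
      3 * (((P.N : ℚ) - 2 * P.s0 + 2) - t) + j - 1) j) := by
    have := Ge_ch (2 * ((P.N : ℤ) - 2 * P.s0 + 2) -
      3 * (((P.N : ℤ) - 2 * P.s0 + 2) - t) + j - 1) j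
    push_cast at this
    exact this
  have n3 := gs_mul_sub n1 n2 g1 g2
  have f0 : Ge (2 * j + 0) ((4 : ℚ) ^ j * od j) :=
    (gs_four j).mul (Ge.of_val (od_val j).2.ge)
  have n4 := f0.mul n3
  have n5 := f0.mul (g1.mul g3)
  have n4' : Ge (2 * (j : ℤ) + P.E - P.L)
      (4 ^ j * od j * ch ((P.N : ℚ) - (P.s0 + t - 1) + j - 1) (2 * j) *
        ch (2 * (P.N : ℚ) - 3 * (P.N - (P.s0 + t - 1)) + j - 1) j -
      4 ^ j * od j * ch ((P.N : ℚ) - 2 * P.s0 + 2 - t + j - 1) (2 * j) *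
        ch (2 * ((P.N : ℚ) - 2 * P.s0 + 2) - 3 * (((P.N : ℚ) - 2 * P.s0 + 2) - t) + j - 1) j) := by
    refine Ge.mono (n := 2 * (j : ℤ) + 0 + (P.E - P.L)) ?_ (by omega)
    convert n4 using 1
    ring
  have n5' : Ge (2 * (j : ℤ))
      (4 ^ j * od j * ch ((P.N : ℚ) - 2 * P.s0 + 2 - t + j - 1) (2 * j) *
        ch (2 * ((P.N : ℚ) - 2 * P.s0 + 2) - 3 * (((P.N : ℚ) - 2 * P.s0 + 2) - t) + j - 1) j) := by
    refine Ge.mono (n := 2 * (j : ℤ) + 0 + (0 + 0)) ?_ (by omega)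
    convert n5 using 1
    ring
  have key := gs_key o1 o2 hD n4' n5' o3 (by push_cast; omega)
  refine ⟨key.1.mono (by push_cast; omega), key.2.mono (by push_cast; omega)⟩

theorem RR_sim (P : Par) (a t : ℕ) (ht : 1 ≤ t) (hta : t ≤ a) (ha : 2 * a ≤ P.l + 1) :
    Ge (2 * ((a : ℤ) - t) + P.E - 2 * P.L - 4)
      (RR P.N (P.s0 + t - 1) (P.s0 + a - 1) - RR ((P.N : ℚ) - 2 * P.s0 + 2) t a) ∧
    Ge (2 * ((a : ℤ) - t) - P.L - 1) (RR ((P.N : ℚ) - 2 * P.s0 + 2) t a) := by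
  obtain ⟨j, rfl⟩ := Nat.exists_eq_add_of_le hta
  have hl := P.l_lt
  have hlw := gs_lw P
  have hN := gs_N P
  have hs := gs_s0 P
  have hNq : (P.N : ℚ) = 2 * P.s0 + P.l + 2 ^ P.w := by exact_mod_cast hN
  have c1 : ((P.s0 + t - 1 : ℕ) : ℚ) = P.s0 + t - 1 := by
    rw [Nat.cast_sub (by omega)]; push_cast; ring
  have hlog : (Nat.log 2 (2 * j) : ℤ) ≤ P.L := gs_log (by omega)
  have hlog' : (Nat.log 2 j : ℤ) ≤ P.L := gs_log (by omega)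
  have hlog'' : (Nat.log 2 (j - 1) : ℤ) ≤ P.L := gs_log (by omega)
  unfold RR
  rw [if_pos (by omega), if_pos (by omega)]
  have e0 : P.s0 + (t + j) - 1 - (P.s0 + t - 1) = j := by omega
  have e0' : t + j - t = j := by omega
  rw [e0, e0', c1]
  unfold Rq
  -- denominators
  have eD : (P.N : ℚ) - 2 * (P.s0 + t - 1) - 1 =
      ((P.N : ℚ) - 2 * P.s0 + 2) - 2 * t - 1 := by ring
  rw [eD]
  have hD : padicValRat 2 (ch (((P.N : ℚ) - 2 * P.s0 + 2) - 2 * t - 1) j) ≤ P.L := by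
    refine (gs_den (w := P.w) (x := P.l + 1 - 2 * t) ?_ (by omega) (by omega) (by omega)).2
    rw [hNq]
    push_cast [Nat.cast_sub (show 2 * t ≤ P.l + 1 by omega)]
    ring
  have hd : (∏ i ∈ range j, (2 * (P.N : ℚ) - 2 * (P.s0 + t - 1) - 1 - 2 * (i : ℚ))) =
      ∏ i ∈ range j, (((2 * P.N - 2 * P.s0 - 2 * t + 1 - 2 * i : ℤ)) : ℚ) :=
    prod_congr rfl fun i _ => by push_cast; ring
  have hd' : (∏ i ∈ range j, (2 * ((P.N : ℚ) - 2 * P.s0 + 2) - 2 * t - 1 - 2 * (i : ℚ))) =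
      ∏ i ∈ range j, (((2 * P.N - 4 * P.s0 - 2 * t + 3 - 2 * i : ℤ)) : ℚ) :=
    prod_congr rfl fun i _ => by push_cast; ring
  rw [hd, hd']
  have o1 := val_prod_odd (range j) (fun i : ℕ => (2 * P.N - 2 * P.s0 - 2 * t + 1 - 2 * i : ℤ))
    (fun i _ => ⟨(P.N : ℤ) - P.s0 - t - i, by ring⟩)
  have o2 := val_prod_odd (range j) (fun i : ℕ => (2 * P.N - 4 * P.s0 - 2 * t + 3 - 2 * i : ℤ))
    (fun i _ => ⟨(P.N : ℤ) - 2 * P.s0 - t + 1 - i, by ring⟩)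
  have o3 := gs_prod j (P.E + 1) (fun i : ℕ => (2 * P.N - 2 * P.s0 - 2 * t + 1 - 2 * i : ℤ))
    (fun i : ℕ => (2 * P.N - 4 * P.s0 - 2 * t + 3 - 2 * i : ℤ)) (fun i => ⟨1, by rw [hs]; ring⟩)
  -- numerators
  have n1 : Ge ((P.E : ℤ) - P.L) (ch (((P.s0 : ℚ) + t - 1) + j) (2 * j) -
      ch ((t : ℚ) + j) (2 * j)) :=
    (ch_lip' (e := P.E) (x := ((P.s0 : ℤ) + t - 1) + j)
      (y := (t : ℤ) + j) (2 * j) (by push_cast; ring)
      (by push_cast; ring) ⟨1, by rw [hs]; ring⟩).mono (by omega)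
  have m1 : ∀ k : ℕ, (Nat.log 2 k : ℤ) ≤ P.L → Ge ((P.E : ℤ) - P.L)
      (ch (2 * (P.N : ℚ) - 3 * (P.s0 + t - 1) - 1) k -
      ch (2 * ((P.N : ℚ) - 2 * P.s0 + 2) - 3 * t - 1) k) := fun k hk =>
    (ch_lip' (e := P.E) (x := 2 * (P.N : ℤ) - 3 * (P.s0 + t - 1) - 1)
      (y := 2 * ((P.N : ℤ) - 2 * P.s0 + 2) - 3 * t - 1) k
      (by push_cast; ring) (by push_cast; ring) ⟨1, by rw [hs]; ring⟩).mono (by omega)
  have m2 : ∀ k : ℕ, Ge 0 (ch (2 * (P.N : ℚ) - 3 * (P.s0 + t - 1) - 1) k) := fun k => by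
    have := Ge_ch (2 * (P.N : ℤ) - 3 * (P.s0 + t - 1) - 1) k
    push_cast at this
    exact this
  have m3 : ∀ k : ℕ, Ge 0 (ch (2 * ((P.N : ℚ) - 2 * P.s0 + 2) - 3 * t - 1) k) := fun k => by
    have := Ge_ch (2 * ((P.N : ℤ) - 2 * P.s0 + 2) - 3 * t - 1) k
    push_cast at this
    exact this
  have g1 : Ge 0 (ch ((t : ℚ) + j) (2 * j)) := by
    have := Ge_ch ((t : ℤ) + j) (2 * j)
    push_cast at this
    exact this
  have two : Ge 0 (2 : ℚ) := by exact_mod_cast Ge.nat 2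
  have n2 : Ge ((P.E : ℤ) - P.L)
      ((ch (2 * (P.N : ℚ) - 3 * (P.s0 + t - 1) - 1) j -
        2 * (if j = 0 then 0 else ch (2 * (P.N : ℚ) - 3 * (P.s0 + t - 1) - 1) (j - 1))) -
      (ch (2 * ((P.N : ℚ) - 2 * P.s0 + 2) - 3 * t - 1) j -
        2 * (if j = 0 then 0 else ch (2 * ((P.N : ℚ) - 2 * P.s0 + 2) - 3 * t - 1) (j - 1)))) := by
    have a1 := m1 j hlog'
    have a2 := two.mul (m1 (j - 1) hlog'')
    rw [zero_add] at a2
    split_ifs with hj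
    · convert a1 using 1
      ring
    · convert a1.sub a2 using 1
      ring
  have g2 : Ge 0 (ch (2 * (P.N : ℚ) - 3 * (P.s0 + t - 1) - 1) j -
        2 * (if j = 0 then 0 else ch (2 * (P.N : ℚ) - 3 * (P.s0 + t - 1) - 1) (j - 1))) := by
    have a1 := m2 j
    have a2 := two.mul (m2 (j - 1))
    rw [zero_add] at a2
    split_ifs with hj
    · convert a1 using 1
      ring
    · exact a1.sub a2
  have g3 : Ge 0 (ch (2 * ((P.N : ℚ) - 2 * P.s0 + 2) - 3 * t - 1) j -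
        2 * (if j = 0 then 0 else ch (2 * ((P.N : ℚ) - 2 * P.s0 + 2) - 3 * t - 1) (j - 1))) := by
    have a1 := m3 j
    have a2 := two.mul (m3 (j - 1))
    rw [zero_add] at a2
    split_ifs with hj
    · convert a1 using 1
      ring
    · exact a1.sub a2
  have n3 := gs_mul_sub n1 n2 g1 g2
  have f0 : Ge (2 * j + 0) ((-4 : ℚ) ^ j * od j) :=
    (gs_nfour j).mul (Ge.of_val (od_val j).2.ge)
  have n4 := f0.mul n3
  have n5 := f0.mul (g1.mul g3)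
  generalize (ch (2 * (P.N : ℚ) - 3 * (P.s0 + t - 1) - 1) j -
        2 * (if j = 0 then 0 else ch (2 * (P.N : ℚ) - 3 * (P.s0 + t - 1) - 1) (j - 1))) = X at *
  generalize (ch (2 * ((P.N : ℚ) - 2 * P.s0 + 2) - 3 * t - 1) j -
        2 * (if j = 0 then 0 else ch (2 * ((P.N : ℚ) - 2 * P.s0 + 2) - 3 * t - 1) (j - 1))) = Y at *
  have n4' : Ge (2 * (j : ℤ) + P.E - P.L)
      ((-4) ^ j * od j * ch (((P.s0 : ℚ) + t - 1) + j) (2 * j) * X -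
      (-4) ^ j * od j * ch ((t : ℚ) + j) (2 * j) * Y) := by
    refine Ge.mono (n := 2 * (j : ℤ) + 0 + (P.E - P.L)) ?_ (by omega)
    convert n4 using 1
    ring
  have n5' : Ge (2 * (j : ℤ)) ((-4) ^ j * od j * ch ((t : ℚ) + j) (2 * j) * Y) := by
    refine Ge.mono (n := 2 * (j : ℤ) + 0 + (0 + 0)) ?_ (by omega)
    convert n5 using 1
    ring
  have key := gs_key o1 o2 hD n4' n5' o3 (by push_cast; omega)
  refine ⟨key.1.mono (by push_cast; omega), key.2.mono (by push_cast; omega)⟩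

private theorem gs_fac (t L : ℕ) (ht : t < 2 ^ L) (hL : 1 ≤ L) :
    Ge (2 * (t : ℤ) - 2 * L) (((3 * t).factorial : ℚ) ^ 2 / ((2 * t).factorial : ℚ) ^ 2) := by
  have h1 := val_fac (3 * t)
  have h2 := val_fac (2 * t)
  have c1 : ((3 * t).factorial : ℚ) ≠ 0 := by exact_mod_cast (3 * t).factorial_ne_zero
  have c2 : ((2 * t).factorial : ℚ) ≠ 0 := by exact_mod_cast (2 * t).factorial_ne_zero
  have h3 : s2 (3 * t) ≤ s2 (2 * t) + s2 t := by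
    have := s2_add_le (2 * t) t
    have e : 2 * t + t = 3 * t := by ring
    rwa [e] at this
  have h4 : s2 t ≤ L := by
    have h5 := s2_le t
    rcases Nat.eq_zero_or_pos t with h | h
    · subst h
      rw [s2_zero]; omega
    · have := Nat.log_lt_of_lt_pow h.ne' ht
      omega
  apply Ge.of_val
  rw [padicValRat.div (pow_ne_zero 2 c1) (pow_ne_zero 2 c2), padicValRat.pow, padicValRat.pow,
    h1, h2]
  push_cast
  omega

theorem rho_sim (P : Par) (t : ℕ) (ht : 2 * t + 1 ≤ P.l) :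
    Ge (4 * (t : ℤ) + P.E - 5 * P.L - 12) (rho P.N P.s0 t - rho ((P.N : ℚ) - 2 * P.s0 + 2) 1 t) ∧
    Ge (4 * (t : ℤ) - 4 * P.L - 8) (rho ((P.N : ℚ) - 2 * P.s0 + 2) 1 t) := by
  have hl := P.l_lt
  have hlw := gs_lw P
  have hN := gs_N P
  have hs := gs_s0 P
  have hL : 1 ≤ P.L := by have := P.n_le; omega
  have hNq : (P.N : ℚ) = 2 * P.s0 + P.l + 2 ^ P.w := by exact_mod_cast hN
  have h2L : 2 ^ (P.L + 1) = 2 * 2 ^ P.L := by ring
  have h4L : 2 ^ (P.L + 1 + 1) = 4 * 2 ^ P.L := by ring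
  have hlog : (Nat.log 2 (3 * t) : ℤ) ≤ P.L + 1 := by
    have := gs_log (k := 3 * t) (L := P.L + 1) (by omega)
    exact_mod_cast this
  unfold rho
  have eD1 : ((P.N : ℚ) - 2 * P.s0 + 2) - 2 * ((1 : ℕ) : ℚ) = (P.N : ℚ) - 2 * P.s0 := by
    push_cast; ring
  rw [eD1]
  have hD1 : ch ((P.N : ℚ) - 2 * P.s0) (2 * t) ≠ 0 ∧
      padicValRat 2 (ch ((P.N : ℚ) - 2 * P.s0) (2 * t)) ≤ P.L := by
    refine gs_den (w := P.w) (x := P.l) ?_ (by omega) hl hlw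
    rw [hNq]
    push_cast
    ring
  have hD2 : ch ((P.N : ℚ) - 2 * P.s0 - 1) (2 * t) ≠ 0 ∧
      padicValRat 2 (ch ((P.N : ℚ) - 2 * P.s0 - 1) (2 * t)) ≤ P.L := by
    refine gs_den (w := P.w) (x := P.l - 1) ?_ (by omega) (by omega) (by omega)
    rw [hNq]
    push_cast [Nat.cast_sub (show 1 ≤ P.l by omega)]
    ring
  have hD : padicValRat 2 (ch ((P.N : ℚ) - 2 * P.s0) (2 * t) *
      ch ((P.N : ℚ) - 2 * P.s0 - 1) (2 * t)) ≤ 2 * P.L := by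
    rw [padicValRat.mul hD1.1 hD2.1]
    have := hD1.2
    have := hD2.2
    omega
  rw [mul_assoc _ (∏ i ∈ range t, (2 * (P.s0 : ℚ) + 1 + 2 * i)) _,
    mul_assoc _ (∏ i ∈ range t, (2 * ((1 : ℕ) : ℚ) + 1 + 2 * i)) _]
  have hd : ((∏ i ∈ range t, (2 * (P.s0 : ℚ) + 1 + 2 * i)) *
      ∏ i ∈ range t, (2 * (P.N : ℚ) - 2 * P.s0 - 1 - 2 * (i : ℚ))) =
      ∏ i ∈ range t, ((((2 * P.s0 + 1 + 2 * i) * (2 * P.N - 2 * P.s0 - 1 - 2 * i) : ℤ)) : ℚ) := by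
    rw [← prod_mul_distrib]
    exact prod_congr rfl fun i _ => by push_cast; ring
  have hd' : ((∏ i ∈ range t, (2 * ((1 : ℕ) : ℚ) + 1 + 2 * i)) *
      ∏ i ∈ range t, (2 * ((P.N : ℚ) - 2 * P.s0 + 2) - 2 * ((1 : ℕ) : ℚ) - 1 - 2 * (i : ℚ))) =
      ∏ i ∈ range t, ((((3 + 2 * i) * (2 * P.N - 4 * P.s0 + 1 - 2 * i) : ℤ)) : ℚ) := by
    rw [← prod_mul_distrib]
    exact prod_congr rfl fun i _ => by push_cast; ring
  rw [hd, hd']
  have o1 := val_prod_odd (range t)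
    (fun i : ℕ => ((2 * P.s0 + 1 + 2 * i) * (2 * P.N - 2 * P.s0 - 1 - 2 * i) : ℤ))
    (fun i _ => Odd.mul ⟨(P.s0 : ℤ) + i, by ring⟩ ⟨(P.N : ℤ) - P.s0 - 1 - i, by ring⟩)
  have o2 := val_prod_odd (range t)
    (fun i : ℕ => ((3 + 2 * i) * (2 * P.N - 4 * P.s0 + 1 - 2 * i) : ℤ))
    (fun i _ => Odd.mul ⟨1 + (i : ℤ), by ring⟩ ⟨(P.N : ℤ) - 2 * P.s0 - i, by ring⟩)
  have o3 := gs_prod t (P.E + 1)
    (fun i : ℕ => ((2 * P.s0 + 1 + 2 * i) * (2 * P.N - 2 * P.s0 - 1 - 2 * i) : ℤ))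
    (fun i : ℕ => ((3 + 2 * i) * (2 * P.N - 4 * P.s0 + 1 - 2 * i) : ℤ))
    (fun i => ⟨(2 * P.N - 4 * P.s0 + 1 - 2 * i) + (2 * P.s0 + 1 + 2 * i), by
      rw [hs]; ring⟩)
  -- numerators
  have n1 : Ge ((P.E : ℤ) - P.L - 1) (ch (2 * (P.N : ℚ) - 3 * P.s0 - 1) (3 * t) -
      ch (2 * ((P.N : ℚ) - 2 * P.s0 + 2) - 3 * ((1 : ℕ) : ℚ) - 1) (3 * t)) :=
    (ch_lip' (e := P.E) (x := 2 * (P.N : ℤ) - 3 * P.s0 - 1)
      (y := 2 * ((P.N : ℤ) - 2 * P.s0 + 2) - 3 - 1) (3 * t) (by push_cast; ring)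
      (by push_cast; ring) ⟨1, by rw [hs]; ring⟩).mono (by omega)
  have n2 : Ge ((P.E : ℤ) - P.L - 1) (ch ((P.N : ℚ) - 3 * P.s0) (3 * t) -
      ch (((P.N : ℚ) - 2 * P.s0 + 2) - 3 * ((1 : ℕ) : ℚ)) (3 * t)) :=
    (ch_lip' (e := P.E) (x := (P.N : ℤ) - 3 * P.s0)
      (y := ((P.N : ℤ) - 2 * P.s0 + 2) - 3) (3 * t) (by push_cast; ring)
      (by push_cast; ring) ⟨-1, by rw [hs]; ring⟩).mono (by omega)
  have g1 : Ge 0 (ch (2 * ((P.N : ℚ) - 2 * P.s0 + 2) - 3 * ((1 : ℕ) : ℚ) - 1) (3 * t)) := by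
    have := Ge_ch (2 * ((P.N : ℤ) - 2 * P.s0 + 2) - 3 - 1) (3 * t)
    push_cast at this
    rw [Nat.cast_one, mul_one]
    exact this
  have g2 : Ge 0 (ch ((P.N : ℚ) - 3 * P.s0) (3 * t)) := by
    have := Ge_ch ((P.N : ℤ) - 3 * P.s0) (3 * t)
    push_cast at this
    exact this
  have g3 : Ge 0 (ch (((P.N : ℚ) - 2 * P.s0 + 2) - 3 * ((1 : ℕ) : ℚ)) (3 * t)) := by
    have := Ge_ch (((P.N : ℤ) - 2 * P.s0 + 2) - 3) (3 * t)
    push_cast at this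
    rw [Nat.cast_one, mul_one]
    exact this
  have n3 := gs_mul_sub n1 n2 g1 g2
  have f0 : Ge (2 * (t : ℤ) + (2 * t - 2 * P.L))
      ((-4 : ℚ) ^ t * (((3 * t).factorial : ℚ) ^ 2 / ((2 * t).factorial : ℚ) ^ 2)) :=
    (gs_nfour t).mul (gs_fac t P.L (by omega) hL)
  have n4 := f0.mul n3
  have n5 := f0.mul (g1.mul g3)
  have n4' : Ge (4 * (t : ℤ) - 2 * P.L + (P.E - P.L - 1))
      ((-4 : ℚ) ^ t * ((3 * t).factorial : ℚ) ^ 2 / ((2 * t).factorial : ℚ) ^ 2 *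
        (ch (2 * (P.N : ℚ) - 3 * P.s0 - 1) (3 * t) * ch ((P.N : ℚ) - 3 * P.s0) (3 * t)) -
      (-4 : ℚ) ^ t * ((3 * t).factorial : ℚ) ^ 2 / ((2 * t).factorial : ℚ) ^ 2 *
        (ch (2 * ((P.N : ℚ) - 2 * P.s0 + 2) - 3 * ((1 : ℕ) : ℚ) - 1) (3 * t) *
          ch (((P.N : ℚ) - 2 * P.s0 + 2) - 3 * ((1 : ℕ) : ℚ)) (3 * t))) := by
    refine Ge.mono (n := 2 * (t : ℤ) + (2 * t - 2 * P.L) + (P.E - P.L - 1)) ?_ (by omega)
    convert n4 using 1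
    ring
  have n5' : Ge (4 * (t : ℤ) - 2 * P.L)
      ((-4 : ℚ) ^ t * ((3 * t).factorial : ℚ) ^ 2 / ((2 * t).factorial : ℚ) ^ 2 *
        (ch (2 * ((P.N : ℚ) - 2 * P.s0 + 2) - 3 * ((1 : ℕ) : ℚ) - 1) (3 * t) *
          ch (((P.N : ℚ) - 2 * P.s0 + 2) - 3 * ((1 : ℕ) : ℚ)) (3 * t))) := by
    refine Ge.mono (n := 2 * (t : ℤ) + (2 * t - 2 * P.L) + (0 + 0)) ?_ (by omega)
    convert n5 using 1
    ring
  have key := gs_key o1 o2 hD n4' n5' o3 (by push_cast; omega)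
  refine ⟨key.1.mono (by omega), key.2.mono (by omega)⟩
end Pool.Agent.BZ
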