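import Pool.Agent.Lib.MP_06b9d2_bz.ChA
/-! # BZ.Inv: `∑_j R_{a,a+j} r_{a+j,a+n} = 0` for `n ≥ 1`
WZ / Gosper proof: with `t(j) = Rq N a j * rq N (a+n) (n-j)` the partial sums are
`∑_{j ≤ J} t(j) = t(J) (n-J)(a-J)(2N-3a-J)(N-2a-n-J) / (n (a+J) (2N-3a-3J) (N-2a-n))`, which is `0` at `J = n`.
(To avoid the division by `2N-3a-3J` and `a+J`, note
`C(y-1,j) - 2 C(y-1,j-1) = (y-3j)/j! ∏_{1≤i<j} (y-i)`, `y = 2N-3a`, and `(2j)! C(a+j,2j) = ∏_{-j<i≤j} (a+i)`;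
or prove it first for rational `N, a` outside a finite set and argue by polynomial identities / continuity.) -/
set_option autoImplicit false
open Finset
namespace Pool.Agent.BZ
/-- rising product `x (x+1) ⋯ (x+k-1)` -/
private noncomputable def pr (x : ℚ) (k : ℕ) : ℚ := ∏ i ∈ range k, (x + i)

private theorem pr_zero (x : ℚ) : pr x 0 = 1 := by simp [pr]

private theorem pr_succ (x : ℚ) (k : ℕ) : pr x (k + 1) = pr x k * (x + k) := by
  unfold pr
  rw [prod_range_succ]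

private theorem pr_succ' (x : ℚ) (k : ℕ) : pr x (k + 1) = x * pr (x + 1) k := by
  unfold pr
  rw [prod_range_succ', mul_comm]
  push_cast
  rw [add_zero]
  congr 1
  exact prod_congr rfl fun i _ => by ring

private theorem ch_pr (x : ℚ) (k : ℕ) : ch x k = pr (x - k + 1) k / k.factorial := by
  unfold ch pr
  congr 1
  rw [← prod_range_reflect]
  refine prod_congr rfl fun i hi => ?_
  rw [mem_range] at hi
  have : ((k - 1 - i : ℕ) : ℚ) = k - 1 - i := by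
    rw [Nat.cast_sub (by omega), Nat.cast_sub (by omega)]
    push_cast
    ring
  rw [this]
  ring

private theorem pr_ne {x : ℚ} {k : ℕ} (h : ∀ i < k, x + i ≠ 0) : pr x k ≠ 0 :=
  prod_ne_zero_iff.2 fun i hi => h i (mem_range.1 hi)

/-- the products of odd numbers -/
private noncomputable def o1 (N a : ℚ) (j : ℕ) : ℚ := ∏ i ∈ range j, (2 * N - 2 * a - 1 - 2 * (i : ℚ))
private noncomputable def o2 (N b : ℚ) (k : ℕ) : ℚ := ∏ i ∈ range k, (2 * N - 2 * b + 1 + 2 * (i : ℚ))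

private theorem o1_succ (N a : ℚ) (j : ℕ) : o1 N a (j + 1) = o1 N a j * (2 * N - 2 * a - 1 - 2 * j) := by
  unfold o1
  rw [prod_range_succ]

private theorem o2_succ (N b : ℚ) (k : ℕ) : o2 N b (k + 1) = o2 N b k * (2 * N - 2 * b + 1 + 2 * k) := by
  unfold o2
  rw [prod_range_succ]

private theorem o1_ne (N a : ℤ) (j : ℕ) : o1 N a j ≠ 0 := by
  refine prod_ne_zero_iff.2 fun i _ => ?_
  have h : (2 * N - 2 * a - 1 - 2 * (i : ℤ)) ≠ 0 := by omega
  exact_mod_cast h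

private theorem o2_ne (N b : ℤ) (k : ℕ) : o2 N b k ≠ 0 := by
  refine prod_ne_zero_iff.2 fun i _ => ?_
  have h : (2 * N - 2 * b + 1 + 2 * (i : ℤ)) ≠ 0 := by omega
  exact_mod_cast h

private theorem od_succ (j : ℕ) : od (j + 1) = od j * (2 * j + 1) := by
  unfold od
  rw [prod_range_succ]

private theorem fac_succ (k : ℕ) : ((k + 1).factorial : ℚ) = (k + 1) * (k.factorial : ℚ) := by
  rw [Nat.factorial_succ]
  push_cast
  ring

private theorem fac_succ2 (k : ℕ) : ((2 * (k + 1)).factorial : ℚ) =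
    (2 * k + 2) * ((2 * k + 1) * ((2 * k).factorial : ℚ)) := by
  have : 2 * (k + 1) = 2 * k + 1 + 1 := by ring
  rw [this, fac_succ, fac_succ]
  push_cast
  ring

/-- `rq` in terms of rising products; `b = a + n`, `n = J + k` -/
private theorem rq_eq (N a : ℚ) (J k : ℕ) : rq N (a + ((J + k : ℕ) : ℚ)) k =
    4 ^ k * od k * (pr (a + J) (2 * k) / ((2 * k).factorial : ℚ)) *
      (pr (2 * N - 3 * a - 3 * ((J + k : ℕ) : ℚ)) k / (k.factorial : ℚ)) /
    ((pr (N - 2 * a - 2 * ((J + k : ℕ) : ℚ) + 1) k / (k.factorial : ℚ)) *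
      o2 N (a + ((J + k : ℕ) : ℚ)) k) := by
  unfold rq
  rw [ch_pr, ch_pr, ch_pr]
  have e1 : a + ((J + k : ℕ) : ℚ) + k - 1 - ((2 * k : ℕ) : ℚ) + 1 = a + J := by
    push_cast
    ring
  have e2 : 2 * N - 3 * (a + ((J + k : ℕ) : ℚ)) + k - 1 - k + 1 =
      2 * N - 3 * a - 3 * ((J + k : ℕ) : ℚ) := by ring
  have e3 : N - 2 * (a + ((J + k : ℕ) : ℚ)) + k - k + 1 = N - 2 * a - 2 * ((J + k : ℕ) : ℚ) + 1 := by ring
  rw [e1, e2, e3]
  rfl

/-- `Rq` in terms of rising products -/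
private theorem Rq_succ (N a : ℚ) (J : ℕ) : Rq N a (J + 1) =
    (-4) ^ (J + 1) * od (J + 1) * (pr (a - J) (2 * (J + 1)) / ((2 * (J + 1)).factorial : ℚ)) *
      ((2 * N - 3 * a - 3 * (J + 1)) * pr (2 * N - 3 * a - J) J / ((J + 1).factorial : ℚ)) /
    ((pr (N - 2 * a - (J + 1)) (J + 1) / ((J + 1).factorial : ℚ)) * o1 N a (J + 1)) := by
  unfold Rq
  rw [ch_pr, ch_pr, ch_pr, if_neg (Nat.succ_ne_zero J), Nat.add_sub_cancel, ch_pr]
  have e1 : a + ((J + 1 : ℕ) : ℚ) - ((2 * (J + 1) : ℕ) : ℚ) + 1 = a - J := by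
    push_cast
    ring
  have e2 : 2 * N - 3 * a - 1 - ((J + 1 : ℕ) : ℚ) + 1 = 2 * N - 3 * a - J - 1 := by
    push_cast
    ring
  have e3 : 2 * N - 3 * a - 1 - (J : ℚ) + 1 = 2 * N - 3 * a - J := by ring
  have e4 : N - 2 * a - 1 - ((J + 1 : ℕ) : ℚ) + 1 = N - 2 * a - (J + 1) := by
    push_cast
    ring
  have e5 : pr (2 * N - 3 * a - J - 1) (J + 1) = (2 * N - 3 * a - J - 1) * pr (2 * N - 3 * a - J) J := by
    rw [pr_succ']
    congr 2
    ring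
  rw [e1, e2, e3, e4, e5]
  have e6 : (2 * N - 3 * a - J - 1) * pr (2 * N - 3 * a - J) J / ((J + 1).factorial : ℚ) -
      2 * (pr (2 * N - 3 * a - J) J / (J.factorial : ℚ)) =
      (2 * N - 3 * a - 3 * (J + 1)) * pr (2 * N - 3 * a - J) J / ((J + 1).factorial : ℚ) := by
    have h1 : (J.factorial : ℚ) ≠ 0 := by positivity
    have h2 : ((J : ℚ) + 1) ≠ 0 := by positivity
    rw [fac_succ]
    field_simp
    ring
  rw [e6]
  rfl

/-- the partial sum up to `J`, `n = J + k` -/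
private noncomputable def SS (N a : ℚ) (J k : ℕ) : ℚ :=
  (-4) ^ J * od J * (pr (a - J) (2 * J) / ((2 * J).factorial : ℚ)) *
      (pr (2 * N - 3 * a - J) J / (J.factorial : ℚ)) /
    ((pr (N - 2 * a - J) J / (J.factorial : ℚ)) * o1 N a J) *
    rq N (a + ((J + k : ℕ) : ℚ)) k * (k * (N - 2 * a - ((J + k : ℕ) : ℚ) - J)) /
    (((J + k : ℕ) : ℚ) * (N - 2 * a - ((J + k : ℕ) : ℚ)))

private theorem SS_step (N a : ℤ) (J k : ℕ)
    (h : ∀ c : ℤ, 1 ≤ c → c ≤ 2 * ((J + 1 + k : ℕ) : ℤ) - 1 → N - 2 * a - c ≠ 0) :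
    SS N a (J + 1) k = SS N a J (k + 1) + Rq N a (J + 1) * rq N (a + ((J + 1 + k : ℕ) : ℚ)) k := by
  have hc : ∀ c : ℤ, 1 ≤ c → c ≤ 2 * ((J + 1 + k : ℕ) : ℤ) - 1 → (N : ℚ) - 2 * a - c ≠ 0 := by
    intro c h1 h2
    exact_mod_cast h c h1 h2
  unfold SS
  have ejk : J + (k + 1) = J + 1 + k := by ring
  rw [ejk, Rq_succ, rq_eq]
  have hk1 : rq (N : ℚ) ((a : ℚ) + ((J + 1 + k : ℕ) : ℚ)) (k + 1) =
      4 ^ (k + 1) * od (k + 1) * (pr (a + J) (2 * (k + 1)) / ((2 * (k + 1)).factorial : ℚ)) *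
      (pr (2 * N - 3 * a - 3 * ((J + 1 + k : ℕ) : ℚ)) (k + 1) / ((k + 1).factorial : ℚ)) /
    ((pr (N - 2 * a - 2 * ((J + 1 + k : ℕ) : ℚ) + 1) (k + 1) / ((k + 1).factorial : ℚ)) *
      o2 N (a + ((J + 1 + k : ℕ) : ℚ)) (k + 1)) := by
    have := rq_eq N a J (k + 1)
    rw [ejk] at this
    exact this
  rw [hk1]
  -- the recurrences
  obtain ⟨n, hn⟩ : ∃ n : ℚ, n = ((J + 1 + k : ℕ) : ℚ) := ⟨_, rfl⟩
  have hk : (k : ℚ) = n - J - 1 := by
    rw [hn]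
    push_cast
    ring
  obtain ⟨A, hA⟩ : ∃ A : ℚ, A = pr ((a : ℚ) - J) (2 * J) := ⟨_, rfl⟩
  obtain ⟨B, hB⟩ : ∃ B : ℚ, B = pr ((a : ℚ) + J + 1) (2 * k) := ⟨_, rfl⟩
  obtain ⟨Y, hY⟩ : ∃ Y : ℚ, Y = pr (2 * (N : ℚ) - 3 * a - J) J := ⟨_, rfl⟩
  obtain ⟨Y', hY'⟩ : ∃ Y' : ℚ, Y' = pr (2 * (N : ℚ) - 3 * a - 3 * ((J + 1 + k : ℕ) : ℚ)) k := ⟨_, rfl⟩
  obtain ⟨Z, hZ⟩ : ∃ Z : ℚ, Z = pr ((N : ℚ) - 2 * a - J) J := ⟨_, rfl⟩
  obtain ⟨Z', hZ'⟩ : ∃ Z' : ℚ, Z' = pr ((N : ℚ) - 2 * a - 2 * ((J + 1 + k : ℕ) : ℚ) + 1) k := ⟨_, rfl⟩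
  have r1 : pr ((a : ℚ) - J) (2 * (J + 1)) = A * (a + J) * (a + J + 1) := by
    have : 2 * (J + 1) = 2 * J + 1 + 1 := by ring
    rw [this, pr_succ, pr_succ, ← hA]
    push_cast
    ring
  have r2 : pr ((a : ℚ) - ((J + 1 : ℕ) : ℚ)) (2 * (J + 1)) = (a - J - 1) * A * (a + J) := by
    have : 2 * (J + 1) = 2 * J + 1 + 1 := by ring
    rw [this, pr_succ']
    have e : (a : ℚ) - ((J + 1 : ℕ) : ℚ) + 1 = a - J := by
      push_cast
      ring
    rw [e, pr_succ, ← hA]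
    push_cast
    ring
  have r3 : pr ((a : ℚ) + J) (2 * (k + 1)) = (a + J) * B * (a + J + 1 + 2 * k) := by
    have : 2 * (k + 1) = 2 * k + 1 + 1 := by ring
    rw [this, pr_succ', pr_succ, ← hB]
    push_cast
    ring
  have r4 : pr ((a : ℚ) + ((J + 1 : ℕ) : ℚ)) (2 * k) = B := by
    rw [hB]
    push_cast
    rw [add_assoc]
  have r5 : pr (2 * (N : ℚ) - 3 * a - 3 * ((J + 1 + k : ℕ) : ℚ)) (k + 1) =
      Y' * (2 * N - 3 * a - 3 * n + k) := by
    rw [pr_succ, ← hY', hn]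
  have r6 : pr ((N : ℚ) - 2 * a - 2 * ((J + 1 + k : ℕ) : ℚ) + 1) (k + 1) =
      Z' * (N - 2 * a - 2 * n + 1 + k) := by
    rw [pr_succ, ← hZ', hn]
  have r7 : pr ((N : ℚ) - 2 * a - (J + 1)) (J + 1) = (N - 2 * a - J - 1) * Z := by
    rw [pr_succ', hZ]
    congr 1
    · ring
    · congr 1
      ring
  have r8 : pr ((N : ℚ) - 2 * a - ((J + 1 : ℕ) : ℚ)) (J + 1) = (N - 2 * a - J - 1) * Z := by
    rw [← r7]
    push_cast
    rfl
  have r9 : pr (2 * (N : ℚ) - 3 * a - ((J + 1 : ℕ) : ℚ)) (J + 1) = (2 * N - 3 * a - J - 1) * Y := by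
    rw [pr_succ', hY]
    congr 1
    · push_cast
      ring
    · congr 1
      push_cast
      ring
  have r10 : o2 (N : ℚ) ((a : ℚ) + ((J + 1 + k : ℕ) : ℚ)) (k + 1) =
      o2 N (a + ((J + 1 + k : ℕ) : ℚ)) k * (2 * N - 2 * a - 1 - 2 * J) := by
    rw [o2_succ]
    congr 1
    push_cast
    ring
  have hO1 : o1 (N : ℚ) (a : ℚ) J ≠ 0 := o1_ne N a J
  have hO2 : o2 (N : ℚ) ((a : ℚ) + ((J + 1 + k : ℕ) : ℚ)) k ≠ 0 := by
    have := o2_ne N (a + (J + 1 + k : ℕ)) k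
    push_cast at this ⊢
    exact this
  have hodd : (2 * (N : ℚ) - 2 * a - 1 - 2 * J) ≠ 0 := by
    have : (2 * N - 2 * a - 1 - 2 * (J : ℤ)) ≠ 0 := by omega
    exact_mod_cast this
  have hZ0 : Z ≠ 0 := by
    rw [hZ]
    refine pr_ne fun i hi => ?_
    have := hc (J - i) (by omega) (by push_cast; omega)
    push_cast at this
    intro h0
    exact this (by linarith)
  have hZ'0 : Z' ≠ 0 := by
    rw [hZ']
    refine pr_ne fun i hi => ?_
    have := hc (2 * (J + 1 + k : ℕ) - 1 - i) (by push_cast; omega) (by push_cast; omega)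
    push_cast at this ⊢
    intro h0
    exact this (by linarith)
  have hz1 : ((N : ℚ) - 2 * a - J - 1) ≠ 0 := by
    have := hc (J + 1) (by omega) (by push_cast; omega)
    push_cast at this
    intro h0
    exact this (by linarith)
  have hz2 : ((N : ℚ) - 2 * a - 2 * n + 1 + k) ≠ 0 := by
    have := hc (2 * (J + 1 + k : ℕ) - 1 - k) (by push_cast; omega) (by push_cast; omega)
    rw [hn]
    push_cast at this ⊢
    intro h0
    exact this (by linarith)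
  have hz3 : ((N : ℚ) - 2 * a - n) ≠ 0 := by
    have := hc ((J + 1 + k : ℕ)) (by push_cast; omega) (by push_cast; omega)
    rw [hn]
    push_cast at this ⊢
    intro h0
    exact this (by linarith)
  have hn0 : n ≠ 0 := by
    rw [hn]
    positivity
  have f1 : ((2 * J).factorial : ℚ) ≠ 0 := by positivity
  have f2 : (J.factorial : ℚ) ≠ 0 := by positivity
  have f3 : ((2 * k).factorial : ℚ) ≠ 0 := by positivity
  have f4 : (k.factorial : ℚ) ≠ 0 := by positivity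
  have f5 : ((J : ℚ) + 1) ≠ 0 := by positivity
  have f6 : ((k : ℚ) + 1) ≠ 0 := by positivity
  have f7 : (2 * (J : ℚ) + 1) ≠ 0 := by positivity
  have f8 : (2 * (k : ℚ) + 1) ≠ 0 := by positivity
  rw [r1, r2, r3, r4, r5, r6, r7, r8, r9, r10, o1_succ, od_succ, od_succ, fac_succ2, fac_succ2, fac_succ,
    fac_succ, ← hA, ← hY, ← hY', ← hZ, ← hZ', ← hn]
  obtain ⟨O1, hO1e⟩ : ∃ O1 : ℚ, O1 = o1 (N : ℚ) a J := ⟨_, rfl⟩
  obtain ⟨O2, hO2e⟩ : ∃ O2 : ℚ, O2 = o2 (N : ℚ) (a + n) k := ⟨_, rfl⟩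
  rw [← hn] at hO2
  rw [← hO1e] at hO1 ⊢
  rw [← hO2e] at hO2 ⊢
  push_cast
  have hz2' : ((N : ℚ) - 2 * a - n - J) ≠ 0 := by
    intro h0
    refine hz2 ?_
    rw [hk]
    linarith
  have e2 : (N : ℚ) - 2 * a - 2 * n + 1 + k = N - 2 * a - n - J := by
    rw [hk]
    ring
  rw [e2]
  field_simp
  rw [hk]
  ring

theorem inv1 (N a : ℤ) (n : ℕ) (hn : 0 < n)
    (h : ∀ c : ℤ, 1 ≤ c → c ≤ 2 * n - 1 → N - 2 * a - c ≠ 0) :
    ∑ j ∈ range (n + 1), Rq N a j * rq N (a + n) (n - j) = 0 := by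
  have key : ∀ J k : ℕ, J + k = n →
      ∑ j ∈ range (J + 1), Rq N a j * rq N (a + n) (n - j) = SS N a J k := by
    intro J
    induction J with
    | zero =>
      intro k hk
      have hk' : k = n := by omega
      subst hk'
      rw [sum_range_succ, sum_range_zero, zero_add]
      unfold SS Rq
      have h1 : ((k : ℕ) : ℚ) ≠ 0 := by exact_mod_cast hn.ne'
      have h2 : ((N : ℚ) - 2 * a - k) ≠ 0 := by
        have := h k (by omega) (by omega)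
        exact_mod_cast this
      simp only [pr_zero, o1, prod_range_zero, pow_zero, Nat.factorial_zero, Nat.cast_one, zero_add,
        Nat.cast_zero, mul_zero, sub_zero, tsub_zero, ch_pr]
      simp [od]
      have h3 : ((N : ℚ) - a * 2 - k) ≠ 0 := by
        rwa [mul_comm (a : ℚ) 2]
      field_simp
    | succ J ih =>
      intro k hk
      rw [sum_range_succ, ih (k + 1) (by omega)]
      have hk' : n - (J + 1) = k := by omega
      rw [hk']
      have hc : (J + 1 + k : ℕ) = n := hk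
      have := SS_step N a J k (by rw [hc]; exact h)
      rw [hc] at this
      exact this.symm
  rw [key n 0 (by omega)]
  unfold SS
  simp

end Pool.Agent.BZ
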