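import Pool.Agent.Lib.MP_06b9d2_bz.Defs
import Pool.Agent.Lib.MP_06b9d2_nt.MD.Defs
import Pool.Agent.Lib.L1.SpanC
/-! # BZ.MDefs: modular definitions -/
set_option autoImplicit false
open UpperHalfPlane hiding I
open Complex ModularForm EisensteinSeries Finset
open scoped Real MatrixGroups Manifold

namespace Pool.Agent.BZ

/-- `B = (16 E₄(2τ) - E₄(τ)) / 15` -/
noncomputable def Bf (τ : ℍ) : ℂ := (16 * E₄ (ofComplex (2 * (τ : ℂ))) - E₄ τ) / 15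
/-- `G = 4 (E₄(τ) - E₄(2τ)) / 15` -/
noncomputable def Gf (τ : ℍ) : ℂ := 4 * (E₄ τ - E₄ (ofComplex (2 * (τ : ℂ)))) / 15
/-- `x_s` -/
noncomputable def xs (N s : ℕ) (τ : ℍ) : ℂ := Bf τ ^ (N - s) * Gf τ ^ s
/-- `U_2` on functions -/
noncomputable def U2op (f : ℍ → ℂ) (τ : ℍ) : ℂ :=
  (f (ofComplex ((τ : ℂ) / 2)) + f (ofComplex (((τ : ℂ) + 1) / 2))) / 2

end Pool.Agent.BZ
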