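import Pool.Agent.Lib.MP_06b9d2_bz.Xs
/-! # BZ.MMain: eigenvectors of `U` give level one forms with known `T_2`-eigenvalue
`F = ∑ v_s x_s`, `F' = ∑ v_s x_{N-s}`, `H = 2N-1`; `f = U_2 F + 2^H F' = u F + 2^H F'` is a polynomial in `E₄`, `Δ` without the term
`E₄^N` (`algT`, `bg_del`), so a cusp form; swapping `B, G` in it gives `f' := u F' + 2^H F = 2^(2N) f(2τ)` (`bg_e2`, `bg_del2`:
`G + 4 B = 4 E₄(2τ)`, `G² B = 2^12 Δ(2τ) = 2^6 · 64 Δ(2τ)`).  Now `u f - 2^H f' = (u² - 2^(2H)) F`; apply `U_2`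
(`U_2 (f(2τ)) = f`): `u U_2 f - 2^H 2^(2N) f = (u² - 2^(2H)) u F = u (u f - 2^H f')`, so
`U_2 f + 2^(4N-1) f(2τ) = (u + 2^(4N-1)/u) f`.  `f = 0` would give `(u² - 2^(2H)) F = 0`. -/
set_option autoImplicit false
open UpperHalfPlane hiding I
open Complex ModularForm EisensteinSeries Finset
open scoped Real MatrixGroups Manifold
namespace Pool.Agent.BZ

theorem mm_mono (N j : ℕ) (hj : 1 ≤ j) (hjN : 3 * j ≤ N) :
    ∃ g : CuspForm 𝒮ℒ ((4 * N : ℕ) : ℤ), ∀ τ : ℍ,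
      g τ = E₄ τ ^ (N - 3 * j) * discriminant τ ^ j := by
  let D : ModularForm 𝒮ℒ 12 := (CuspForm.discriminant : ModularForm 𝒮ℒ 12)
  refine ⟨CuspForm.mcast ?_ (CuspForm.discriminant.mulModularForm
    ((E₄.pow (N - 3 * j)).mul (D.pow (j - 1)))), ?_⟩
  · push_cast [Nat.cast_sub hj, Nat.cast_sub hjN]
    ring
  · intro τ
    change discriminant τ * ((E₄.pow (N - 3 * j)) τ * (D.pow (j - 1)) τ) = _
    rw [ModularForm.coe_pow, ModularForm.coe_pow]
    change discriminant τ * (E₄ τ ^ (N - 3 * j) * discriminant τ ^ (j - 1)) = _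
    have : discriminant τ ^ j = discriminant τ * discriminant τ ^ (j - 1) := by
      rw [← pow_succ']
      congr 1
      omega
    rw [this]
    ring

theorem mm_coe (z : ℂ) (hz : 0 < z.im) : ((ofComplex z : ℍ) : ℂ) = z := by
  rw [ofComplex_apply_of_im_pos hz]

theorem mm_oc (τ : ℍ) : ofComplex (τ : ℂ) = τ := ofComplex_apply τ

/-- the part of the argument that is pure algebra -/
theorem mm_alg (N : ℕ) (hN : 3 ≤ N) (v : ℕ → ℂ) (u : ℂ)
    (heig : ∀ a ∈ Icc 1 (N - 1), ∑ s ∈ Icc 1 (N - 1), ((U N a s : ℚ) : ℂ) * v s = u * v a) :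
    ∃ c : ℕ → ℂ, ∀ b g : ℂ,
      ∑ j ∈ Icc 1 (N / 3), c j * ((b + 4 * g) ^ (N - 3 * j) * (b ^ 2 * g) ^ j) =
      u * ∑ a ∈ Icc 1 (N - 1), v a * (b ^ (N - a) * g ^ a) +
        2 ^ (2 * N - 1) * ∑ a ∈ Icc 1 (N - 1), v a * (g ^ (N - a) * b ^ a) := by
  classical
  have hk : ∀ s : ℕ, ∃ k : ℕ → ℚ, s ∈ Icc 1 (N - 1) → ∀ b g : ℂ,
      ∑ a ∈ Icc 1 (N - 1), ((U N a s : ℚ) : ℂ) * (b ^ (N - a) * g ^ a) +
      2 ^ (2 * N - 1) * (b ^ s * g ^ (N - s)) =
      ∑ j ∈ Icc 1 (N / 3), (k j : ℂ) * ((b + 4 * g) ^ (N - 3 * j) * (b ^ 2 * g) ^ j) := by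
    intro s
    by_cases hs : s ∈ Icc 1 (N - 1)
    · rw [Finset.mem_Icc] at hs
      obtain ⟨k, hk⟩ := algT N s hs.1 (by omega)
      exact ⟨k, fun _ => hk⟩
    · exact ⟨fun _ => 0, fun h => absurd h hs⟩
  choose k hk using hk
  refine ⟨fun j => ∑ s ∈ Icc 1 (N - 1), v s * (k s j : ℂ), fun b g => ?_⟩
  calc ∑ j ∈ Icc 1 (N / 3), (∑ s ∈ Icc 1 (N - 1), v s * (k s j : ℂ)) *
        ((b + 4 * g) ^ (N - 3 * j) * (b ^ 2 * g) ^ j)
      = ∑ s ∈ Icc 1 (N - 1), v s * ∑ j ∈ Icc 1 (N / 3), (k s j : ℂ) *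
        ((b + 4 * g) ^ (N - 3 * j) * (b ^ 2 * g) ^ j) := by
        simp only [Finset.sum_mul, Finset.mul_sum]
        rw [Finset.sum_comm]
        refine Finset.sum_congr rfl fun s _ => Finset.sum_congr rfl fun j _ => ?_
        ring
    _ = ∑ s ∈ Icc 1 (N - 1), v s * (∑ a ∈ Icc 1 (N - 1), ((U N a s : ℚ) : ℂ) *
        (b ^ (N - a) * g ^ a) + 2 ^ (2 * N - 1) * (b ^ s * g ^ (N - s))) := by
        refine Finset.sum_congr rfl fun s hs => ?_
        rw [hk s hs b g]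
    _ = ∑ a ∈ Icc 1 (N - 1), (∑ s ∈ Icc 1 (N - 1), ((U N a s : ℚ) : ℂ) * v s) *
          (b ^ (N - a) * g ^ a) + 2 ^ (2 * N - 1) * ∑ a ∈ Icc 1 (N - 1),
            v a * (g ^ (N - a) * b ^ a) := by
        simp only [mul_add, Finset.sum_add_distrib]
        congr 1
        · simp only [Finset.sum_mul, Finset.mul_sum]
          rw [Finset.sum_comm]
          refine Finset.sum_congr rfl fun s _ => Finset.sum_congr rfl fun j _ => ?_
          ring
        · rw [Finset.mul_sum]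
          refine Finset.sum_congr rfl fun s _ => ?_
          ring
    _ = _ := by
        congr 1
        rw [Finset.mul_sum]
        refine Finset.sum_congr rfl fun a ha => ?_
        rw [heig a ha]
        ring

theorem modular_form (N : ℕ) (hN : 3 ≤ N) (v : ℕ → ℂ) (u : ℂ) (hv : ∃ s ∈ Icc 1 (N - 1), v s ≠ 0)
    (hu : u ≠ 0) (hu2 : u ^ 2 ≠ 2 ^ (4 * N - 2))
    (heig : ∀ a ∈ Icc 1 (N - 1), ∑ s ∈ Icc 1 (N - 1), ((U N a s : ℚ) : ℂ) * v s = u * v a) :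
    ∃ f : CuspForm 𝒮ℒ ((4 * N : ℕ) : ℤ), f ≠ 0 ∧ ∀ τ : ℍ,
      U2op f τ + 2 ^ (4 * N - 1) * f (ofComplex (2 * (τ : ℂ))) = (u + 2 ^ (4 * N - 1) / u) * f τ := by
  classical
  obtain ⟨c, hc⟩ := mm_alg N hN v u heig
  have hG : ∀ j : ℕ, ∃ g : CuspForm 𝒮ℒ ((4 * N : ℕ) : ℤ), j ∈ Icc 1 (N / 3) → ∀ τ : ℍ,
      g τ = E₄ τ ^ (N - 3 * j) * discriminant τ ^ j := by
    intro j
    by_cases hj : j ∈ Icc 1 (N / 3)
    · have h := hj
      rw [Finset.mem_Icc] at h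
      obtain ⟨g, hg⟩ := mm_mono N j h.1 (by omega)
      exact ⟨g, fun _ => hg⟩
    · exact ⟨0, fun h => absurd h hj⟩
  choose G hG using hG
  let f : CuspForm 𝒮ℒ ((4 * N : ℕ) : ℤ) := ∑ j ∈ Icc 1 (N / 3), (c j * 64 ^ j) • G j
  have hf : ∀ τ : ℍ, f τ = ∑ j ∈ Icc 1 (N / 3),
      c j * (E₄ τ ^ (N - 3 * j) * (64 * discriminant τ) ^ j) := by
    intro τ
    have e1 : f τ = ∑ j ∈ Icc 1 (N / 3), (c j * 64 ^ j) * G j τ := by
      have : ∀ S : Finset ℕ, (∑ j ∈ S, (c j * 64 ^ j) • G j : CuspForm 𝒮ℒ ((4 * N : ℕ) : ℤ)) τ =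
          ∑ j ∈ S, (c j * 64 ^ j) * G j τ := by
        intro S
        induction S using Finset.induction_on with
        | empty => simp
        | insert i S hi ih =>
          rw [Finset.sum_insert hi, Finset.sum_insert hi, ← ih]
          rfl
      exact this _
    rw [e1]
    refine Finset.sum_congr rfl fun j hj => ?_
    rw [hG j hj τ, mul_pow]
    ring
  -- the two relations
  set F : ℍ → ℂ := fun τ => ∑ a ∈ Icc 1 (N - 1), v a * (Bf τ ^ (N - a) * Gf τ ^ a) with hF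
  set F' : ℍ → ℂ := fun τ => ∑ a ∈ Icc 1 (N - 1), v a * (Gf τ ^ (N - a) * Bf τ ^ a) with hF'
  have h1 : ∀ τ : ℍ, f τ = u * F τ + 2 ^ (2 * N - 1) * F' τ := by
    intro τ
    rw [hf τ]
    have := hc (Bf τ) (Gf τ)
    rw [bg_e, bg_del] at this
    exact this
  have h2 : ∀ τ : ℍ, 4 ^ N * f (ofComplex (2 * (τ : ℂ))) =
      u * F' τ + 2 ^ (2 * N - 1) * F τ := by
    intro τ
    have h := hc (Gf τ) (Bf τ)
    have e1 : Gf τ + 4 * Bf τ = 4 * E₄ (ofComplex (2 * (τ : ℂ))) := by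
      rw [← bg_e2 τ]; ring
    have e2 : Gf τ ^ 2 * Bf τ = 4096 * discriminant (ofComplex (2 * (τ : ℂ))) := by
      rw [← bg_del2 τ]; ring
    rw [e1, e2] at h
    rw [← h, hf, Finset.mul_sum]
    refine Finset.sum_congr rfl fun j hj => ?_
    rw [Finset.mem_Icc] at hj
    have e3 : (4 : ℂ) ^ N * 64 ^ j = 4 ^ (N - 3 * j) * 4096 ^ j := by
      have h64 : (64 : ℂ) = 4 ^ 3 := by norm_num
      have h4096 : (4096 : ℂ) = 4 ^ 6 := by norm_num
      rw [h64, h4096, ← pow_mul, ← pow_mul, ← pow_add, ← pow_add]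
      congr 1
      omega
    simp only [mul_pow]
    calc 4 ^ N * (c j * (E₄ (ofComplex (2 * (τ : ℂ))) ^ (N - 3 * j) *
          (64 ^ j * discriminant (ofComplex (2 * (τ : ℂ))) ^ j)))
        = (4 ^ N * 64 ^ j) * (c j * (E₄ (ofComplex (2 * (τ : ℂ))) ^ (N - 3 * j) *
          discriminant (ofComplex (2 * (τ : ℂ))) ^ j)) := by ring
      _ = _ := by rw [e3]; ring
  have hcc : (2 : ℂ) ^ (2 * N - 1) * 2 ^ (2 * N - 1) = 2 ^ (4 * N - 2) := by
    rw [← pow_add]; congr 1; omega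
  have hc4 : (2 : ℂ) ^ (2 * N - 1) * 4 ^ N = 2 ^ (4 * N - 1) := by
    have : (4 : ℂ) = 2 ^ 2 := by norm_num
    rw [this, ← pow_mul, ← pow_add]; congr 1; omega
  have h4 : ∀ τ : ℍ, u * f τ - 2 ^ (4 * N - 1) * f (ofComplex (2 * (τ : ℂ))) =
      (u ^ 2 - 2 ^ (4 * N - 2)) * F τ := by
    intro τ
    have a1 := h1 τ
    have a2 := h2 τ
    rw [← hc4, ← hcc, mul_assoc, a2, a1]
    ring
  -- the operator
  have hUF : ∀ τ : ℍ, U2op F τ = u * F τ := by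
    intro τ
    have e1 : U2op F τ = ∑ s ∈ Icc 1 (N - 1), v s * U2op (xs N s) τ := by
      unfold U2op xs
      simp only [hF]
      rw [← Finset.sum_add_distrib, Finset.sum_div]
      refine Finset.sum_congr rfl fun s _ => ?_
      ring
    rw [e1]
    have e2 : ∀ s ∈ Icc 1 (N - 1), v s * U2op (xs N s) τ =
        ∑ a ∈ Icc 1 (N - 1), ((U N a s : ℚ) : ℂ) * v s * xs N a τ := by
      intro s hs
      rw [Finset.mem_Icc] at hs
      rw [U2_xs N s hs.1 (by omega) τ, Finset.mul_sum]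
      refine Finset.sum_congr rfl fun a _ => ?_
      ring
    rw [Finset.sum_congr rfl e2, Finset.sum_comm, hF, Finset.mul_sum]
    refine Finset.sum_congr rfl fun a ha => ?_
    rw [← Finset.sum_mul, heig a ha]
    unfold xs
    ring
  have him : ∀ τ : ℍ, 0 < (τ : ℂ).im := fun τ => τ.2
  have hper : ∀ τ : ℍ, f (ofComplex ((τ : ℂ) + 1)) = f τ := by
    intro τ
    have h := SlashInvariantFormClass.periodic_comp_ofComplex f one_mem_strictPeriods_SL (τ : ℂ)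
    simp only [Function.comp_apply, Complex.ofReal_one] at h
    rw [h, mm_oc]
  have hUV : ∀ τ : ℍ, U2op (fun τ => f (ofComplex (2 * (τ : ℂ)))) τ = f τ := by
    intro τ
    unfold U2op
    have i1 : 0 < ((τ : ℂ) / 2).im := by
      have := him τ
      rw [show ((τ : ℂ) / 2).im = (τ : ℂ).im / 2 by simp]
      linarith
    have i2 : 0 < (((τ : ℂ) + 1) / 2).im := by
      have := him τ
      rw [show (((τ : ℂ) + 1) / 2).im = (τ : ℂ).im / 2 by simp]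
      linarith
    beta_reduce
    rw [mm_coe _ i1, mm_coe _ i2]
    have e1 : 2 * ((τ : ℂ) / 2) = τ := by ring
    have e2 : 2 * (((τ : ℂ) + 1) / 2) = τ + 1 := by ring
    rw [e1, e2, mm_oc, hper]
    ring
  refine ⟨f, ?_, ?_⟩
  · intro hf0
    obtain ⟨s, hs, hvs⟩ := hv
    refine hvs (xs_indep N v (fun τ => ?_) s hs)
    have a := h4 τ
    rw [hf0] at a
    have z1 : ∀ w : ℍ, (0 : CuspForm 𝒮ℒ ((4 * N : ℕ) : ℤ)) w = 0 := fun w => rfl
    rw [z1, z1, mul_zero, mul_zero, sub_zero] at a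
    rcases mul_eq_zero.1 a.symm with h | h
    · exact absurd (sub_eq_zero.1 h) hu2
    · exact h
  · intro τ
    have e1 : U2op (fun τ => u * f τ - 2 ^ (4 * N - 1) * f (ofComplex (2 * (τ : ℂ)))) τ =
        u * U2op f τ - 2 ^ (4 * N - 1) *
          U2op (fun τ => f (ofComplex (2 * (τ : ℂ)))) τ := by
      unfold U2op; ring
    have e2 : U2op (fun τ => u * f τ - 2 ^ (4 * N - 1) * f (ofComplex (2 * (τ : ℂ)))) τ =
        (u ^ 2 - 2 ^ (4 * N - 2)) * U2op F τ := by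
      unfold U2op
      beta_reduce
      rw [h4, h4]
      ring
    have e3 : u * U2op f τ - 2 ^ (4 * N - 1) * f τ =
        u * (u * f τ - 2 ^ (4 * N - 1) * f (ofComplex (2 * (τ : ℂ)))) := by
      rw [h4 τ, ← hUV τ, ← e1, e2, hUF τ]
      ring
    have e4 : u * (U2op f τ + 2 ^ (4 * N - 1) * f (ofComplex (2 * (τ : ℂ)))) =
        u * ((u + 2 ^ (4 * N - 1) / u) * f τ) := by
      have e5 : u * ((u + 2 ^ (4 * N - 1) / u) * f τ) = u * u * f τ + 2 ^ (4 * N - 1) * f τ := by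
        field_simp
      rw [e5]
      linear_combination e3
    exact mul_left_cancel₀ hu e4
end Pool.Agent.BZ
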