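import Pool.Agent.Lib.MP_06b9d2_bz.AlgT
import Pool.Agent.Lib.MP_06b9d2_bz.Clo
/-! # BZ.Sta: the starting eigenvalue
Let `V = ℂ^(N-1)` with basis `x_s`, `W x_s = x_{N-s}`, `H = 2N-1`.  By `algT` the image of `U + 2^H W` lies in a space of dimension
`≤ N/3` (the polynomials `b^(N-a) g^a` are linearly independent, so `algT` is an identity of vectors), so
`K = ker (U + 2^H W)` has dimension `≥ N-1-N/3` and `K ∩ W K ≠ 0` for `N ≥ 5`.  For `0 ≠ v ∈ K ∩ W K`, one of `v + W v`, `v - W v` is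
nonzero and is an eigenvector with eigenvalue `∓2^H`.  The determinant vanishes over `ℂ`, hence over `ℚ`, hence over `PadicAlgCl 2`.
Take `N = 301`, `h = 2N - 1 = 601` (`Nat.log 2 301 = 8`). -/
set_option autoImplicit false
open Finset
namespace Pool.Agent.BZ
/-- the identity of `algT` for the coefficients -/
private theorem coefT (N s : ℕ) (hs : 1 ≤ s) (hsN : s < N) : ∃ k : ℕ → ℚ, ∀ a : ℕ, 1 ≤ a → a < N →
    U N a s + (if a = N - s then (2 : ℚ) ^ (2 * N - 1) else 0) =
      ∑ j ∈ Icc 1 (N / 3), k j *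
        ((1 + 4 * Polynomial.X) ^ (N - 3 * j) * Polynomial.X ^ j : Polynomial ℚ).coeff a := by
  obtain ⟨k, hk⟩ := algT N s hs hsN
  refine ⟨k, fun a ha haN => ?_⟩
  have hpoly : (∑ a ∈ Icc 1 (N - 1), Polynomial.C (U N a s) * Polynomial.X ^ a +
      Polynomial.C ((2 : ℚ) ^ (2 * N - 1)) * Polynomial.X ^ (N - s) : Polynomial ℚ) =
      ∑ j ∈ Icc 1 (N / 3), Polynomial.C (k j) *
        ((1 + 4 * Polynomial.X) ^ (N - 3 * j) * Polynomial.X ^ j) := by
    apply Polynomial.map_injective (algebraMap ℚ ℂ) (algebraMap ℚ ℂ).injective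
    apply Polynomial.funext
    intro x
    have h := hk 1 x
    simp only [one_pow, one_mul] at h
    rw [Polynomial.eval_map, Polynomial.eval_map, Polynomial.eval₂_add, Polynomial.eval₂_finsetSum,
      Polynomial.eval₂_finsetSum]
    simp only [Polynomial.eval₂_mul, Polynomial.eval₂_C, Polynomial.eval₂_pow, Polynomial.eval₂_X,
      Polynomial.eval₂_add, Polynomial.eval₂_one, Polynomial.eval₂_ofNat, eq_ratCast]
    push_cast
    exact h
  have h := congrArg (fun q : Polynomial ℚ => q.coeff a) hpoly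
  simp only [Polynomial.coeff_add, Polynomial.finsetSum_coeff, Polynomial.coeff_C_mul,
    Polynomial.coeff_X_pow] at h
  rw [← h]
  congr 1
  · rw [Finset.sum_eq_single a]
    · simp
    · intro b _ hb
      rw [if_neg (Ne.symm hb), mul_zero]
    · intro h1
      exact absurd (mem_Icc.2 ⟨ha, by omega⟩) h1
  · split_ifs <;> simp

/-- a nonzero vector `v` with `(U + 2^H W) v = 0`, `(U + 2^H W) W v = 0` -/
private theorem exists_vec (N : ℕ) (hN : 5 ≤ N) : ∃ v : Fin (N - 1) → ℚ, v ≠ 0 ∧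
    (∀ i : Fin (N - 1), ∑ s : Fin (N - 1), U N (i + 1 : ℕ) (s + 1 : ℕ) * v s = -(2 : ℚ) ^ (2 * N - 1) * v i.rev) ∧
    (∀ i : Fin (N - 1), ∑ s : Fin (N - 1), U N (i + 1 : ℕ) (s + 1 : ℕ) * v s.rev = -(2 : ℚ) ^ (2 * N - 1) * v i) := by
  have hex : ∀ s : Fin (N - 1), ∃ k : ℕ → ℚ, ∀ a : ℕ, 1 ≤ a → a < N →
      U N a (s + 1 : ℕ) + (if a = N - (s + 1 : ℕ) then (2 : ℚ) ^ (2 * N - 1) else 0) =
      ∑ j ∈ Icc 1 (N / 3), k j *
        ((1 + 4 * Polynomial.X) ^ (N - 3 * j) * Polynomial.X ^ j : Polynomial ℚ).coeff a :=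
    fun s => coefT N (s + 1) (by omega) (by omega)
  choose k hk using hex
  -- the linear map
  let f : (Fin (N - 1) → ℚ) →ₗ[ℚ] (Fin (N / 3) → ℚ) × (Fin (N / 3) → ℚ) :=
    { toFun := fun v => (fun j => ∑ s, k s (j + 1 : ℕ) * v s, fun j => ∑ s, k s (j + 1 : ℕ) * v s.rev)
      map_add' := by
        intro x y
        ext j <;> simp [mul_add, Finset.sum_add_distrib]
      map_smul' := by
        intro c x
        ext j <;> simp [Finset.mul_sum, mul_left_comm] }
  have hdim : Module.finrank ℚ ((Fin (N / 3) → ℚ) × (Fin (N / 3) → ℚ)) <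
      Module.finrank ℚ (Fin (N - 1) → ℚ) := by
    rw [Module.finrank_prod, Module.finrank_fin_fun, Module.finrank_fin_fun]
    omega
  have hker := LinearMap.ker_ne_bot_of_finrank_lt (f := f) hdim
  obtain ⟨v, hv, hv0⟩ := Submodule.exists_mem_ne_zero_of_ne_bot hker
  rw [LinearMap.mem_ker] at hv
  have h1 : ∀ j : Fin (N / 3), ∑ s, k s (j + 1 : ℕ) * v s = 0 := fun j => by
    have := congrFun (congrArg Prod.fst hv) j
    exact this
  have h2 : ∀ j : Fin (N / 3), ∑ s, k s (j + 1 : ℕ) * v s.rev = 0 := fun j => by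
    have := congrFun (congrArg Prod.snd hv) j
    exact this
  have key : ∀ x : Fin (N - 1) → ℚ, (∀ j : Fin (N / 3), ∑ s, k s (j + 1 : ℕ) * x s = 0) →
      ∀ i : Fin (N - 1), ∑ s : Fin (N - 1), U N (i + 1 : ℕ) (s + 1 : ℕ) * x s =
        -(2 : ℚ) ^ (2 * N - 1) * x i.rev := by
    intro x hx i
    have e1 : ∀ s : Fin (N - 1), U N (i + 1 : ℕ) (s + 1 : ℕ) * x s =
        ∑ j ∈ Icc 1 (N / 3), ((1 + 4 * Polynomial.X) ^ (N - 3 * j) *
          Polynomial.X ^ j : Polynomial ℚ).coeff (i + 1 : ℕ) * (k s j * x s) -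
          (if s = i.rev then (2 : ℚ) ^ (2 * N - 1) * x s else 0) := by
      intro s
      have h := hk s (i + 1) (by omega) (by omega)
      have hiff : ((i : ℕ) + 1 = N - ((s : ℕ) + 1)) ↔ s = i.rev := by
        rw [Fin.ext_iff, Fin.val_rev]
        omega
      rw [if_congr hiff rfl rfl] at h
      have h' := congrArg (fun q => q * x s) h
      rw [Finset.sum_mul] at h'
      have e : ∑ j ∈ Icc 1 (N / 3), ((1 + 4 * Polynomial.X) ^ (N - 3 * j) *
          Polynomial.X ^ j : Polynomial ℚ).coeff (i + 1 : ℕ) * (k s j * x s) =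
          ∑ j ∈ Icc 1 (N / 3), k s j * ((1 + 4 * Polynomial.X) ^ (N - 3 * j) *
          Polynomial.X ^ j : Polynomial ℚ).coeff (i + 1 : ℕ) * x s :=
        Finset.sum_congr rfl fun j _ => by ring
      rw [e, ← h']
      split_ifs <;> ring
    rw [Finset.sum_congr rfl fun s _ => e1 s, Finset.sum_sub_distrib, Finset.sum_comm]
    have e2 : ∑ j ∈ Icc 1 (N / 3), ∑ s : Fin (N - 1), ((1 + 4 * Polynomial.X) ^ (N - 3 * j) *
          Polynomial.X ^ j : Polynomial ℚ).coeff (i + 1 : ℕ) * (k s j * x s) = 0 := by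
      refine Finset.sum_eq_zero fun j hj => ?_
      rw [← Finset.mul_sum]
      rw [mem_Icc] at hj
      have := hx ⟨j - 1, by omega⟩
      have e3 : (j - 1 + 1 : ℕ) = j := by omega
      simp only [e3] at this
      rw [this, mul_zero]
    rw [e2, Finset.sum_ite_eq' Finset.univ i.rev]
    simp
  refine ⟨v, hv0, key v h1, fun i => ?_⟩
  have := key (fun s => v s.rev) h2 i
  simpa using this

private theorem isEig_of (N : ℕ) (u : ℚ) (x : Fin (N - 1) → ℚ) (hx : x ≠ 0)
    (h : ∀ i : Fin (N - 1), ∑ s : Fin (N - 1), U N (i + 1 : ℕ) (s + 1 : ℕ) * x s = u * x i) :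
    IsEig N u := by
  unfold IsEig
  rw [← Matrix.exists_mulVec_eq_zero_iff]
  refine ⟨x, hx, ?_⟩
  rw [Matrix.sub_mulVec, Matrix.smul_mulVec, Matrix.one_mulVec, sub_eq_zero]
  funext i
  have := h i
  rw [Pi.smul_apply, smul_eq_mul, ← this]
  unfold UM Matrix.mulVec dotProduct
  refine Finset.sum_congr rfl fun s _ => ?_
  simp

theorem start_eig (N : ℕ) (hN : 5 ≤ N) : IsEig N ((2 : ℚ) ^ (2 * N - 1)) ∨ IsEig N (-(2 : ℚ) ^ (2 * N - 1)) := by
  obtain ⟨v, hv, h1, h2⟩ := exists_vec N hN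
  by_cases h : (fun i => v i - v i.rev) = 0
  · right
    refine isEig_of N _ v hv fun i => ?_
    rw [h1 i]
    have := congrFun h i
    simp only [Pi.zero_apply] at this
    rw [sub_eq_zero.1 this]
  · left
    refine isEig_of N _ (fun i => v i - v i.rev) h fun i => ?_
    have e : ∑ s : Fin (N - 1), U N (i + 1 : ℕ) (s + 1 : ℕ) * (v s - v s.rev) =
        ∑ s : Fin (N - 1), U N (i + 1 : ℕ) (s + 1 : ℕ) * v s -
        ∑ s : Fin (N - 1), U N (i + 1 : ℕ) (s + 1 : ℕ) * v s.rev := by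
      rw [← Finset.sum_sub_distrib]
      exact Finset.sum_congr rfl fun s _ => by ring
    rw [e, h1 i, h2 i]
    ring

private theorem isEig_cast (N : ℕ) (u : ℚ) (h : IsEig N u) :
    IsEig N ((u : ℚ) : PadicAlgCl 2) := by
  unfold IsEig at h ⊢
  have e : UM (PadicAlgCl 2) N - ((u : ℚ) : PadicAlgCl 2) • (1 : Matrix _ _ (PadicAlgCl 2)) =
      (algebraMap ℚ (PadicAlgCl 2)).mapMatrix (UM ℚ N - u • (1 : Matrix _ _ ℚ)) := by
    ext i j
    rw [RingHom.mapMatrix_apply, Matrix.map_apply, Matrix.sub_apply, Matrix.sub_apply, Matrix.smul_apply,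
      Matrix.smul_apply, map_sub, smul_eq_mul, smul_eq_mul, map_mul]
    unfold UM
    rw [Matrix.of_apply, Matrix.of_apply, eq_ratCast, eq_ratCast, Matrix.one_apply, Matrix.one_apply]
    split_ifs <;> simp
  rw [e, ← RingHom.map_det, h, map_zero]

private theorem norm_two : ‖(2 : PadicAlgCl 2)‖ = (2 : ℝ)⁻¹ := by
  have h := PadicAlgCl.norm_extends 2 (2 : ℚ_[2])
  have e : ((2 : ℚ_[2]) : PadicAlgCl 2) = 2 := by
    exact map_ofNat (algebraMap ℚ_[2] (PadicAlgCl 2)) 2
  rw [e] at h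
  rw [h]
  have := Padic.norm_p (p := 2)
  exact_mod_cast this

theorem start : ∃ x, Rch x ∧ ‖x - 1‖ < 1 := by
  have hgood : Good 301 601 := by
    refine ⟨by decide, by norm_num, ?_, by norm_num⟩
    have : Nat.log 2 301 = 8 := by
      rw [Nat.log_eq_iff (by norm_num)]
      norm_num
    rw [this]
    norm_num
  have h2 : (2 : PadicAlgCl 2) ≠ 0 := by
    intro h
    have := norm_two
    rw [h, norm_zero] at this
    norm_num at this
  have hn : ‖(2 : PadicAlgCl 2) ^ 601‖ = (2 : ℝ) ^ (-((601 : ℕ) : ℤ)) := by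
    rw [norm_pow, norm_two, inv_pow, zpow_neg, zpow_natCast]
  rcases start_eig 301 (by norm_num) with h | h
  · refine ⟨1, ⟨301, 601, 2 ^ 601, hgood, ?_, hn, ?_⟩, ?_⟩
    · have := isEig_cast 301 _ h
      push_cast at this
      exact this
    · rw [div_self (pow_ne_zero _ h2), sub_self, norm_zero]
      exact one_pos
    · rw [sub_self, norm_zero]
      exact one_pos
  · refine ⟨-1, ⟨301, 601, -2 ^ 601, hgood, ?_, ?_, ?_⟩, ?_⟩
    · have := isEig_cast 301 _ h
      push_cast at this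
      exact this
    · rw [norm_neg]
      exact hn
    · rw [neg_div, div_self (pow_ne_zero _ h2), sub_self, norm_zero]
      exact one_pos
    · have e : (-1 - 1 : PadicAlgCl 2) = -2 := by norm_num
      rw [e, norm_neg, norm_two]
      norm_num

end Pool.Agent.BZ
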