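import Pool.Agent.Lib.MP_06b9d2_bz.Tow
import Pool.Agent.Lib.MP_06b9d2_bz.Sta
import Pool.Agent.Lib.MP_06b9d2_bz.MMain
import Pool.Agent.Lib.MP_06b9d2_nt.MD.HeckeQ
/-! # BZ.PartI: `T_2`-eigenvalues of level one with residues of large 2-power degree at a place over 2
`tower` and `start` give `n, h, u`, `‖u‖ = 2^(-h)`, `h + 1 < 2n`, `u/2^h ≡ x`.  `u` is algebraic over `ℚ` (root of the characteristic polynomial of
`UM ℚ n`); let `v` be a complex root of `minpoly ℚ u`: it is an eigenvalue over `ℂ`, take an eigenvector; `modular_form` gives `f` with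
`T_2`-eigenvalue `c = v + 2^(4n-1)/v` (`MD.hecke_val`).  `c' = u + 2^(4n-1)/u` is the image of `c` under `ℚ(v) → PadicAlgCl 2`, `v ↦ u`, so has the
same minimal polynomial; `‖c' - u‖ = 2^(h+1-4n) < 2^(-h)` and `‖(c' - u)/2^h‖ < 1`. -/
set_option autoImplicit false
open UpperHalfPlane hiding I
open Complex ModularForm EisensteinSeries Finset
open scoped Real MatrixGroups Manifold
namespace Pool.Agent.BZ
open Pool.Agent.Lib.MP_06b9d2_nt

private theorem pI_eig {F : Type*} [Field F] [CharZero F] (n : ℕ) (u : F) :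
    IsEig n u ↔ Polynomial.aeval u (UM ℚ n).charpoly = 0 := by
  have h1 : UM F n = (UM ℚ n).map (algebraMap ℚ F) := by
    ext i j
    rw [Matrix.map_apply]
    unfold UM
    rw [Matrix.of_apply, Matrix.of_apply, eq_ratCast]
    simp
  have h2 : Polynomial.aeval u (UM ℚ n).charpoly = (UM F n).charpoly.eval u := by
    rw [h1, Matrix.charpoly_map, Polynomial.eval_map, Polynomial.aeval_def]
  rw [h2, Matrix.eval_charpoly]
  unfold IsEig
  have h3 : Matrix.scalar (Fin (n - 1)) u - UM F n =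
      -(UM F n - u • (1 : Matrix (Fin (n - 1)) (Fin (n - 1)) F)) := by
    rw [neg_sub, Matrix.smul_one_eq_diagonal]
    rfl
  rw [h3, Matrix.det_neg]
  constructor
  · intro h
    rw [h, mul_zero]
  · intro h
    rcases mul_eq_zero.1 h with h | h
    · exact absurd h (pow_ne_zero _ (neg_ne_zero.2 one_ne_zero))
    · exact h

/-- an eigenvector as a function on the natural numbers -/
private theorem pI_vec (n : ℕ) (v : ℂ) (h : IsEig n v) : ∃ w : ℕ → ℂ,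
    (∃ s ∈ Icc 1 (n - 1), w s ≠ 0) ∧
    ∀ a ∈ Icc 1 (n - 1), ∑ s ∈ Icc 1 (n - 1), ((U n a s : ℚ) : ℂ) * w s = v * w a := by
  obtain ⟨x, hx0, hx⟩ := Matrix.exists_mulVec_eq_zero_iff.2 h
  have hx' : ∀ i : Fin (n - 1), ∑ j : Fin (n - 1), ((U n (i + 1 : ℕ) (j + 1 : ℕ) : ℚ) : ℂ) * x j =
      v * x i := by
    intro i
    have h1 := congrFun hx i
    rw [Matrix.sub_mulVec, Matrix.smul_mulVec, Matrix.one_mulVec, Pi.sub_apply, Pi.zero_apply,
      sub_eq_zero, Pi.smul_apply, smul_eq_mul, Matrix.mulVec, dotProduct] at h1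
    exact h1
  let w : ℕ → ℂ := fun s => if hs : s - 1 < n - 1 then x ⟨s - 1, hs⟩ else 0
  have hw : ∀ j : Fin (n - 1), w (j + 1) = x j := by
    intro j
    have h1 : (j : ℕ) + 1 - 1 < n - 1 := by
      have := j.2
      omega
    have h2 : w ((j : ℕ) + 1) = x ⟨(j : ℕ) + 1 - 1, h1⟩ := dif_pos h1
    rw [h2]
    congr 1
  refine ⟨w, ?_, ?_⟩
  · obtain ⟨i, hi⟩ : ∃ i, x i ≠ 0 := by
      by_contra hc
      push Not at hc
      exact hx0 (funext hc)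
    refine ⟨(i : ℕ) + 1, ?_, ?_⟩
    · rw [Finset.mem_Icc]
      have := i.2
      omega
    · rw [hw]
      exact hi
  · intro a ha
    rw [Finset.mem_Icc] at ha
    obtain ⟨i, hi⟩ : ∃ i : Fin (n - 1), (i : ℕ) + 1 = a := ⟨⟨a - 1, by omega⟩, by simp; omega⟩
    rw [← hi, hw, ← hx' i]
    have h1 : ∑ s ∈ Icc 1 (n - 1), ((U n ((i : ℕ) + 1 : ℕ) s : ℚ) : ℂ) * w s =
        ∑ j ∈ Finset.range (n - 1), ((U n ((i : ℕ) + 1 : ℕ) (j + 1) : ℚ) : ℂ) * w (j + 1) := by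
      rw [Finset.range_eq_Ico, Finset.sum_Ico_add' (fun s => ((U n ((i : ℕ) + 1 : ℕ) s : ℚ) : ℂ) * w s) 0 (n - 1) 1]
      refine Finset.sum_congr ?_ fun _ _ => rfl
      ext s
      rw [Finset.mem_Icc, Finset.mem_Ico]
      omega
    rw [h1, ← Fin.sum_univ_eq_sum_range (fun j => ((U n ((i : ℕ) + 1 : ℕ) (j + 1) : ℚ) : ℂ) * w (j + 1))]
    refine Finset.sum_congr rfl fun j _ => ?_
    rw [hw]

private theorem pI_add {a b : PadicAlgCl 2} (ha : ‖a‖ < 1) (hb : ‖b‖ < 1) : ‖a + b‖ < 1 :=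
  lt_of_le_of_lt (IsUltrametricDist.norm_add_le_max a b) (max_lt ha hb)

private theorem pI_mul {a b : PadicAlgCl 2} (ha : ‖a‖ < 1) (hb : ‖b‖ ≤ 1) : ‖a * b‖ < 1 := by
  rw [norm_mul]
  have := norm_nonneg a
  nlinarith [norm_nonneg b]

private theorem pI_pow {a b : PadicAlgCl 2} (ha : ‖a‖ ≤ 1) (hb : ‖b‖ ≤ 1) (h : ‖a - b‖ < 1) (n : ℕ) :
    ‖a ^ n - b ^ n‖ < 1 := by
  induction n with
  | zero => simp
  | succ n ih =>
    have h1 : a ^ (n + 1) - b ^ (n + 1) = (a ^ n - b ^ n) * a + (a - b) * b ^ n := by ring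
    rw [h1]
    refine pI_add (pI_mul ih ha) (pI_mul h ?_)
    rw [norm_pow]
    exact pow_le_one₀ (norm_nonneg _) hb

/-- the norm of an element close to another one -/
private theorem pI_norm {a b : PadicAlgCl 2} (h : ‖a - b‖ < ‖b‖) : ‖a‖ = ‖b‖ := by
  have h1 := IsUltrametricDist.norm_add_le_max (a - b) b
  rw [sub_add_cancel, max_eq_right h.le] at h1
  have h2 := IsUltrametricDist.norm_add_le_max (-(a - b)) a
  have h3 : -(a - b) + a = b := by ring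
  rw [h3, norm_neg] at h2
  rcases le_max_iff.1 h2 with h4 | h4
  · exact absurd h (not_lt.2 h4)
  · exact le_antisymm h1 h4

private theorem pI_two : ‖(2 : PadicAlgCl 2)‖ = (2 : ℝ)⁻¹ := by
  have h := PadicAlgCl.norm_extends 2 (2 : ℚ_[2])
  have e : ((2 : ℚ_[2]) : PadicAlgCl 2) = 2 := by
    exact map_ofNat (algebraMap ℚ_[2] (PadicAlgCl 2)) 2
  rw [e] at h
  rw [h]
  have := Padic.norm_p (p := 2)
  exact_mod_cast this

/-- conjugates -/
private theorem pI_conj {F G : Type*} [Field F] [CharZero F] [Field G] [CharZero G] (u : F) (v : G)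
    (P : Polynomial ℚ) (hP : Irreducible P) (hu : Polynomial.aeval u P = 0)
    (hv : Polynomial.aeval v P = 0) (m : ℕ) :
    minpoly ℚ (u + 2 ^ m / u) = minpoly ℚ (v + 2 ^ m / v) := by
  have : Fact (Irreducible P) := ⟨hP⟩
  let φ : AdjoinRoot P →ₐ[ℚ] F := AdjoinRoot.liftAlgHom P (Algebra.ofId ℚ F) u hu
  let ψ : AdjoinRoot P →ₐ[ℚ] G := AdjoinRoot.liftAlgHom P (Algebra.ofId ℚ G) v hv
  have hφ : φ (AdjoinRoot.root P) = u := AdjoinRoot.liftAlgHom_root _ _ _ _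
  have hψ : ψ (AdjoinRoot.root P) = v := AdjoinRoot.liftAlgHom_root _ _ _ _
  have h1 : φ (AdjoinRoot.root P + 2 ^ m / AdjoinRoot.root P) = u + 2 ^ m / u := by
    rw [map_add, map_div₀, map_pow, map_ofNat, hφ]
  have h2 : ψ (AdjoinRoot.root P + 2 ^ m / AdjoinRoot.root P) = v + 2 ^ m / v := by
    rw [map_add, map_div₀, map_pow, map_ofNat, hψ]
  rw [← h1, ← h2, minpoly.algHom_eq φ φ.toRingHom.injective, minpoly.algHom_eq ψ ψ.toRingHom.injective]

theorem partI (a : ℕ) : ∃ (N H : ℕ) (f : CuspForm 𝒮ℒ ((4 * N : ℕ) : ℤ)) (c : ℂ) (c' : PadicAlgCl 2),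
    3 ≤ N ∧ f ≠ 0 ∧
    (∀ T : CuspForm 𝒮ℒ ((4 * N : ℕ) : ℤ) →ₗ[ℂ] CuspForm 𝒮ℒ ((4 * N : ℕ) : ℤ),
      IsHecke ((4 * N : ℕ) : ℤ) 2 T → T f = c • f) ∧
    IsAlgebraic ℚ c ∧ minpoly ℚ c' = minpoly ℚ c ∧ ‖c'‖ = (2 : ℝ) ^ (-(H : ℤ)) ∧
    ‖(c' / 2 ^ H) ^ 2 ^ 2 ^ a - c' / 2 ^ H‖ = 1 ∧
    ∃ e : ℕ, ‖(c' / 2 ^ H) ^ 2 ^ 2 ^ e - c' / 2 ^ H‖ < 1 := by
  obtain ⟨x, ⟨n, h, u, hgood, hn2, hu, hun, hux⟩, hx1, hxa, e, hxe⟩ := tower start a
  obtain ⟨-, hn3, -, -⟩ := hgood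
  have h2ne : (2 : PadicAlgCl 2) ≠ 0 := by
    intro h0
    have := pI_two
    rw [h0, norm_zero] at this
    norm_num at this
  have hupos : 0 < ‖u‖ := by
    rw [hun]
    positivity
  have hu0 : u ≠ 0 := norm_pos_iff.1 hupos
  -- the minimal polynomial of `u`
  have huP : Polynomial.aeval u (UM ℚ n).charpoly = 0 := (pI_eig n u).1 hu
  have hPm : (UM ℚ n).charpoly.Monic := Matrix.charpoly_monic _
  have huint : IsIntegral ℚ u := ⟨_, hPm, huP⟩
  have hmirr := minpoly.irreducible huint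
  have hmdvd : minpoly ℚ u ∣ (UM ℚ n).charpoly := minpoly.dvd ℚ u huP
  have hmu : Polynomial.aeval u (minpoly ℚ u) = 0 := minpoly.aeval ℚ u
  obtain ⟨v, hv⟩ : ∃ v : ℂ, Polynomial.aeval v (minpoly ℚ u) = 0 :=
    IsAlgClosed.exists_aeval_eq_zero ℂ _ (minpoly.degree_pos huint).ne'
  have hvP : Polynomial.aeval v (UM ℚ n).charpoly = 0 := by
    obtain ⟨R, hR⟩ := hmdvd
    rw [hR, map_mul, hv, zero_mul]
  have hvE : IsEig n v := (pI_eig n v).2 hvP
  -- polynomials which vanish at `v` vanish at `u`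
  have hvmin : minpoly ℚ u = minpoly ℚ v :=
    minpoly.eq_of_irreducible_of_monic hmirr hv (minpoly.monic huint)
  have htrans : ∀ R : Polynomial ℚ, Polynomial.aeval v R = 0 → Polynomial.aeval u R = 0 := by
    intro R hR
    have h1 : minpoly ℚ u ∣ R := by
      rw [hvmin]
      exact minpoly.dvd ℚ v hR
    obtain ⟨S, hS⟩ := h1
    rw [hS, map_mul, hmu, zero_mul]
  have hv0 : v ≠ 0 := by
    intro h0
    have h1 := htrans Polynomial.X (by rw [Polynomial.aeval_X, h0])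
    rw [Polynomial.aeval_X] at h1
    exact hu0 h1
  have hv2 : v ^ 2 ≠ 2 ^ (4 * n - 2) := by
    intro h0
    have h1 := htrans (Polynomial.X ^ 2 - Polynomial.C (2 ^ (4 * n - 2))) (by
      rw [map_sub, map_pow, Polynomial.aeval_X, Polynomial.aeval_C, h0, map_pow, map_ofNat, sub_self])
    rw [map_sub, map_pow, Polynomial.aeval_X, Polynomial.aeval_C, map_pow, map_ofNat, sub_eq_zero] at h1
    have h3 := congrArg norm h1
    rw [norm_pow, norm_pow, hun, pI_two, inv_pow, ← zpow_natCast, ← zpow_natCast, ← zpow_mul,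
      ← zpow_neg] at h3
    have h4 := zpow_right_injective₀ (by norm_num : (0 : ℝ) < 2) (by norm_num) h3
    push_cast at h4
    omega
  obtain ⟨w, hw1, hw2⟩ := pI_vec n v hvE
  obtain ⟨f, hf0, hf⟩ := modular_form n hn3 w v hw1 hv0 hv2 hw2
  have hconj := pI_conj u v (minpoly ℚ u) hmirr hmu hv (4 * n - 1)
  -- sizes
  have hq : ‖(2 : PadicAlgCl 2) ^ (4 * n - 1) / u‖ = (2 : ℝ) ^ ((h : ℤ) - (4 * n - 1)) := by
    rw [norm_div, norm_pow, pI_two, hun, inv_pow, ← zpow_natCast, ← zpow_neg, div_eq_mul_inv,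
      ← zpow_neg, neg_neg, ← zpow_add₀ (by norm_num)]
    congr 1
    have : ((4 * n - 1 : ℕ) : ℤ) = 4 * (n : ℤ) - 1 := by omega
    rw [this]
    ring
  obtain ⟨c', hc'⟩ : ∃ c' : PadicAlgCl 2, c' = u + 2 ^ (4 * n - 1) / u := ⟨_, rfl⟩
  have hcu : c' - u = 2 ^ (4 * n - 1) / u := by
    rw [hc']
    ring
  have hcu1 : ‖c' - u‖ < ‖u‖ := by
    rw [hcu, hq, hun]
    exact zpow_lt_zpow_right₀ (by norm_num) (by omega)
  have hcn : ‖c'‖ = (2 : ℝ) ^ (-(h : ℤ)) := by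
    rw [pI_norm hcu1, hun]
  have h2h : ‖(2 : PadicAlgCl 2) ^ h‖ = (2 : ℝ) ^ (-(h : ℤ)) := by
    rw [norm_pow, pI_two, inv_pow, ← zpow_natCast, ← zpow_neg]
  have hcx : ‖c' / 2 ^ h - x‖ < 1 := by
    have h1 : c' / 2 ^ h - x = (c' - u) / 2 ^ h + (u / 2 ^ h - x) := by
      ring
    rw [h1]
    refine pI_add ?_ hux
    rw [norm_div, h2h, ← hun, div_lt_one hupos]
    exact hcu1
  have hcn1 : ‖c' / 2 ^ h‖ = 1 := by
    rw [norm_div, hcn, h2h]
    exact div_self (by positivity)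
  have hdiff : ∀ m : ℕ, ‖((c' / 2 ^ h) ^ m - c' / 2 ^ h) - (x ^ m - x)‖ < 1 := by
    intro m
    have h1 : ((c' / 2 ^ h) ^ m - c' / 2 ^ h) - (x ^ m - x) =
        ((c' / 2 ^ h) ^ m - x ^ m) + -(c' / 2 ^ h - x) := by
      ring
    rw [h1]
    refine pI_add (pI_pow hcn1.le hx1.le hcx m) ?_
    rw [norm_neg]
    exact hcx
  have hvalg : IsAlgebraic ℚ v := ⟨minpoly ℚ u, (minpoly.monic huint).ne_zero, hv⟩
  refine ⟨n, h, f, v + 2 ^ (4 * n - 1) / v, c', hn3, hf0, ?_, ?_, ?_, hcn, ?_, e, ?_⟩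
  · intro T hT
    ext τ
    rw [hecke_val hT f τ]
    have h1 := hf τ
    unfold U2op at h1
    have h2 : (2 : ℂ) ^ (((4 * n : ℕ) : ℤ) - 1) = 2 ^ (4 * n - 1) := by
      have h3 : ((4 * n : ℕ) : ℤ) - 1 = ((4 * n - 1 : ℕ) : ℤ) := by omega
      rw [h3, zpow_natCast]
    rw [h2]
    have h3 : ((v + 2 ^ (4 * n - 1) / v) • f) τ = (v + 2 ^ (4 * n - 1) / v) * f τ := rfl
    rw [h3, ← h1]
    ring
  · have h1 : IsAlgebraic ℚ ((2 : ℂ) ^ (4 * n - 1)) := by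
      have h2 : (2 : ℂ) ^ (4 * n - 1) = algebraMap ℚ ℂ (2 ^ (4 * n - 1)) := by
        rw [map_pow, map_ofNat]
      rw [h2]
      exact isAlgebraic_algebraMap _
    rw [div_eq_mul_inv]
    exact hvalg.add (h1.mul hvalg.inv)
  · rw [hc']
    exact hconj
  · have h1 := hdiff (2 ^ 2 ^ a)
    rw [← hxa] at h1
    rw [pI_norm h1, hxa]
  · have h1 := pI_add (hdiff (2 ^ 2 ^ e)) hxe
    rwa [sub_add_cancel] at h1

end Pool.Agent.BZ
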