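import Pool.Agent.Lib.MP_06b9d2_bz.MDefs
/-! # BZ.Sym: symmetric functions of `16 E₄(2τ), E₄(τ/2), E₄((τ+1)/2)`
These are `2 E₄ |₄ gl (dl j)`, `j = 0,1,2` (`MP_06b9d2_nt.MD`: `dl`, `gl`, `MD.Slash`), and right multiplication by `SL₂(ℤ)` permutes the
cosets `SL₂(ℤ) dl j`; so the elementary symmetric functions are modular forms of level one and weights 4, 8, 12 (holomorphic, bounded at
`i∞`), hence equal to `c E₄`, `c E₄²`, `c E₄³ + c' Δ`; compare `q`-expansions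
(`E₄(τ/2) = 1 + 240 q^{1/2} + 2160 q + ...`). -/
set_option autoImplicit false
open UpperHalfPlane hiding I
open Complex ModularForm EisensteinSeries Finset
open scoped Real MatrixGroups Manifold
namespace Pool.Agent.BZ

open Filter Function

/-- `16 E₄(2τ)` -/
private noncomputable def f0 (τ : ℍ) : ℂ := 16 * E₄ (ofComplex (2 * (τ : ℂ)))
private noncomputable def f1 (τ : ℍ) : ℂ := E₄ (ofComplex ((τ : ℂ) / 2))
private noncomputable def f2 (τ : ℍ) : ℂ := E₄ (ofComplex (((τ : ℂ) + 1) / 2))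

private theorem E4_act (γ : SL(2, ℤ)) (z : ℍ) :
    E₄ (γ • z) = (((γ : Matrix (Fin 2) (Fin 2) ℤ) 1 0 : ℂ) * (z : ℂ) +
      ((γ : Matrix (Fin 2) (Fin 2) ℤ) 1 1 : ℂ)) ^ (4 : ℤ) * E₄ z := by
  have h := SlashInvariantForm.slash_action_eqn'' (Γ := 𝒮ℒ) (k := 4) E₄
    (γ := Matrix.SpecialLinearGroup.mapGL ℝ γ) (MonoidHom.mem_range.2 ⟨γ, rfl⟩) z
  rw [show (γ • z : ℍ) = Matrix.SpecialLinearGroup.mapGL ℝ γ • z from rfl, h]
  simp [denom]

private theorem E4_tr (a b c d : ℤ) (h : a * d - b * c = 1) (w w' : ℂ) (hw : 0 < w.im)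
    (hw' : w' = (a * w + b) / (c * w + d)) :
    E₄ (ofComplex w') = ((c : ℂ) * w + d) ^ 4 * E₄ (ofComplex w) := by
  set γ : SL(2, ℤ) := ⟨!![a, b; c, d], by rw [Matrix.det_fin_two_of]; exact h⟩ with hγ
  have h1 := E4_act γ (ofComplex w)
  have hz : ((ofComplex w : ℍ) : ℂ) = w := by rw [ofComplex_apply_of_im_pos hw]
  have h2 : ((γ • ofComplex w : ℍ) : ℂ) = w' := by
    rw [coe_specialLinearGroup_apply, hz, hw']
    simp [hγ]
  have h3 : ofComplex w' = γ • ofComplex w := by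
    rw [← h2, ofComplex_apply]
  rw [h3, h1, hz]
  simp only [hγ]
  norm_cast

private theorem pos2 (τ : ℍ) : 0 < (2 * (τ : ℂ)).im := by
  have := τ.im_pos
  simp
  exact this

private theorem posh (τ : ℍ) : 0 < ((τ : ℂ) / 2).im := by
  have := τ.im_pos
  have e : ((τ : ℂ) / 2).im = τ.im / 2 := by
    rw [div_ofNat_im]; rfl
  rw [e]; positivity

private theorem posh' (τ : ℍ) : 0 < (((τ : ℂ) + 1) / 2).im := by
  have := τ.im_pos
  have e : (((τ : ℂ) + 1) / 2).im = τ.im / 2 := by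
    rw [div_ofNat_im, add_im, one_im, add_zero]; rfl
  rw [e]; positivity

private theorem S_coe (τ : ℍ) : ((ModularGroup.S • τ : ℍ) : ℂ) = -1 / τ := by
  rw [UpperHalfPlane.modular_S_smul]
  simp [neg_div]

private theorem T_coe (τ : ℍ) : ((ModularGroup.T • τ : ℍ) : ℂ) = τ + 1 := by
  rw [UpperHalfPlane.modular_T_smul]
  simp [add_comm]

private theorem f0_S (τ : ℍ) : f0 (ModularGroup.S • τ) = (τ : ℂ) ^ 4 * f1 τ := by
  have h0 : (τ : ℂ) ≠ 0 := τ.ne_zero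
  unfold f0 f1
  have e : 2 * (-1 / (τ : ℂ)) = (((0 : ℤ) : ℂ) * ((τ : ℂ) / 2) + ((-1 : ℤ) : ℂ)) /
      (((1 : ℤ) : ℂ) * ((τ : ℂ) / 2) + ((0 : ℤ) : ℂ)) := by
    push_cast
    rw [eq_div_iff (by simp [h0])]
    field_simp
    ring
  rw [S_coe, E4_tr 0 (-1) 1 0 (by norm_num) ((τ : ℂ) / 2) _ (posh τ) e]
  push_cast
  ring

private theorem f1_S (τ : ℍ) : f1 (ModularGroup.S • τ) = (τ : ℂ) ^ 4 * f0 τ := by
  have h0 : (τ : ℂ) ≠ 0 := τ.ne_zero
  unfold f0 f1
  rw [S_coe, E4_tr 0 (-1) 1 0 (by norm_num) (2 * (τ : ℂ)) _ (pos2 τ) (by push_cast; field_simp; ring)]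
  push_cast
  ring

private theorem f2_S (τ : ℍ) : f2 (ModularGroup.S • τ) = (τ : ℂ) ^ 4 * f2 τ := by
  have h0 : (τ : ℂ) ≠ 0 := τ.ne_zero
  unfold f2
  rw [S_coe, E4_tr 1 (-1) 2 (-1) (by norm_num) (((τ : ℂ) + 1) / 2) _ (posh' τ)
    (by push_cast
        have e : (2 * (((τ : ℂ) + 1) / 2) + -1) = τ := by ring
        rw [e]; field_simp; ring)]
  push_cast
  ring

private theorem f0_T (τ : ℍ) : f0 (ModularGroup.T • τ) = f0 τ := by
  unfold f0
  rw [T_coe, E4_tr 1 2 0 1 (by norm_num) (2 * (τ : ℂ)) _ (pos2 τ) (by push_cast; ring)]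
  push_cast
  ring

private theorem f1_T (τ : ℍ) : f1 (ModularGroup.T • τ) = f2 τ := by
  unfold f1 f2
  rw [T_coe]

private theorem f2_T (τ : ℍ) : f2 (ModularGroup.T • τ) = f1 τ := by
  unfold f1 f2
  rw [T_coe, E4_tr 1 1 0 1 (by norm_num) ((τ : ℂ) / 2) _ (posh τ) (by push_cast; ring)]
  push_cast
  ring

private theorem mk_form (k : ℤ) (f : ℍ → ℂ) (hS : f ∣[k] ModularGroup.S = f)
    (hT : f ∣[k] ModularGroup.T = f) (hd : MDifferentiable 𝓘(ℂ) 𝓘(ℂ) f)
    (hb : IsBoundedAtImInfty f) : ∃ g : ModularForm 𝒮ℒ k, (g : ℍ → ℂ) = f := by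
  refine ⟨⟨⟨f, ?_⟩, hd, ?_⟩, rfl⟩
  · rintro A ⟨A, rfl⟩
    exact SlashInvariantForm.slash_action_generators_SL2Z hS hT A
  · intro c hc
    rw [Subgroup.IsArithmetic.isCusp_iff_isCusp_SL2Z] at hc
    rw [OnePoint.isBoundedAt_iff_forall_SL2Z hc]
    intro γ _
    have h := SlashInvariantForm.slash_action_generators_SL2Z hS hT γ
    show IsBoundedAtImInfty (f ∣[k] γ)
    rw [h]
    exact hb

private theorem slS (k : ℕ) (f : ℍ → ℂ) (h : ∀ τ : ℍ, f (ModularGroup.S • τ) = (τ : ℂ) ^ k * f τ) :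
    f ∣[(k : ℤ)] ModularGroup.S = f := by
  ext τ
  have h0 : (τ : ℂ) ≠ 0 := τ.ne_zero
  rw [SL_slash_apply, h]
  have e : denom (ModularGroup.S : SL(2, ℤ)) τ = τ := by simp [denom, ModularGroup.S]
  rw [e, zpow_neg, zpow_natCast]
  field_simp

private theorem slT (k : ℕ) (f : ℍ → ℂ) (h : ∀ τ : ℍ, f (ModularGroup.T • τ) = f τ) :
    f ∣[(k : ℤ)] ModularGroup.T = f := by
  ext τ
  rw [SL_slash_apply, h]
  have e : denom (ModularGroup.T : SL(2, ℤ)) τ = 1 := by simp [denom, ModularGroup.T]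
  rw [e]
  simp

private theorem E4_diff {u : ℂ → ℂ} (hu : Differentiable ℂ u) (hp : ∀ z : ℂ, 0 < z.im → 0 < (u z).im) :
    MDifferentiable 𝓘(ℂ) 𝓘(ℂ) (fun τ : ℍ => E₄ (ofComplex (u τ))) := by
  rw [UpperHalfPlane.mdifferentiable_iff]
  have h1 : DifferentiableOn ℂ ((E₄ : ℍ → ℂ) ∘ ofComplex) {z | 0 < z.im} :=
    UpperHalfPlane.mdifferentiable_iff.1 E₄.holo'
  have h2 : DifferentiableOn ℂ (((E₄ : ℍ → ℂ) ∘ ofComplex) ∘ u) {z | 0 < z.im} :=
    h1.comp hu.differentiableOn fun z hz => hp z hz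
  refine h2.congr fun z hz => ?_
  simp only [Function.comp_apply]
  rw [ofComplex_apply_of_im_pos (show 0 < z.im from hz)]

private theorem f0_diff : MDifferentiable 𝓘(ℂ) 𝓘(ℂ) f0 := by
  have h := E4_diff (u := fun z => 2 * z) (by fun_prop) (fun z hz => by simpa using hz)
  exact (mdifferentiable_const (c := (16 : ℂ))).mul h

private theorem f1_diff : MDifferentiable 𝓘(ℂ) 𝓘(ℂ) f1 :=
  E4_diff (u := fun z => z / 2) (by fun_prop) (fun z hz => by
    show 0 < (z / 2).im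
    rw [div_ofNat_im]; linarith)

private theorem f2_diff : MDifferentiable 𝓘(ℂ) 𝓘(ℂ) f2 :=
  E4_diff (u := fun z => (z + 1) / 2) (by fun_prop) (fun z hz => by
    show 0 < ((z + 1) / 2).im
    rw [div_ofNat_im, add_im, one_im]; linarith)

private theorem taylor2 (F : ℂ → ℂ) (hF : AnalyticAt ℂ F 0) :
    ∃ A : ℂ → ℂ, ContinuousAt A 0 ∧ A 0 = (((2 : ℕ).factorial : ℂ))⁻¹ * iteratedDeriv 2 F 0 ∧
      ∀ x, F x = F 0 + deriv F 0 * x + x ^ 2 * A x := by
  have h0 := hF.hasFPowerSeriesAt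
  have h1 := h0.has_fpower_series_dslope_fslope
  have h2 := h1.has_fpower_series_dslope_fslope
  refine ⟨dslope (dslope F 0) 0, h2.continuousAt, ?_, fun x => ?_⟩
  · have h3 := h2.coeff_zero 1
    rw [← h3]
    show (FormalMultilinearSeries.coeff _ 0) = _
    rw [FormalMultilinearSeries.coeff_fslope, FormalMultilinearSeries.coeff_fslope,
      FormalMultilinearSeries.coeff_ofScalars, div_eq_mul_inv, mul_comm]
  · have e1 := sub_smul_dslope F 0 x
    have e2 := sub_smul_dslope (dslope F 0) 0 x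
    rw [dslope_same] at e2
    simp only [sub_zero, smul_eq_mul] at e1 e2
    linear_combination (-1 : ℂ) * e1 - x * e2

private theorem qc0 (f : ℍ → ℂ) : (qExpansion 1 f).coeff 0 = cuspFunction 1 f 0 := by
  rw [qExpansion_coeff]
  simp

private theorem qc1 (f : ℍ → ℂ) : (qExpansion 1 f).coeff 1 = deriv (cuspFunction 1 f) 0 := by
  rw [qExpansion_coeff]
  simp

private theorem E4_cusp : ∃ A : ℂ → ℂ, ContinuousAt A 0 ∧ A 0 = 2160 ∧
    ∀ x, cuspFunction 1 E₄ x = 1 + 240 * x + x ^ 2 * A x := by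
  obtain ⟨A, h1, h2, h3⟩ := taylor2 (cuspFunction 1 E₄)
    (ModularFormClass.analyticAt_cuspFunction_zero E₄ one_pos one_mem_strictPeriods_SL)
  refine ⟨A, h1, ?_, fun x => ?_⟩
  · rw [h2, ← qExpansion_coeff]
    have hs : (ArithmeticFunction.sigma 3) 2 = 9 := by decide +kernel
    norm_num [E_qExpansion_coeff _ ⟨2, rfl⟩, show bernoulli 4 = -1 / 30 by decide +kernel, hs]
  · rw [h3, ← qc0, ← qc1, E₄_qExpansion_coeff_one, E_qExpansion_coeff_zero _ ⟨2, rfl⟩]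

private theorem D_cusp : ∃ A : ℂ → ℂ, ContinuousAt A 0 ∧
    ∀ x, cuspFunction 1 discriminant x = x + x ^ 2 * A x := by
  obtain ⟨A, h1, h2, h3⟩ := taylor2 (cuspFunction 1 discriminant)
    (ModularFormClass.analyticAt_cuspFunction_zero CuspForm.discriminant one_pos one_mem_strictPeriods_SL)
  refine ⟨A, h1, fun x => ?_⟩
  have h4 : (qExpansion 1 discriminant).coeff 0 = 0 :=
    PowerSeries.coeff_of_lt_order _ (by rw [discriminant_qExpansion_order]; norm_num)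
  rw [h3, ← qc0, ← qc1, discriminant_qExpansion_coeff_one, h4]
  ring

private noncomputable def xx (τ : ℍ) : ℂ := Periodic.qParam 2 (τ : ℂ)

private theorem xx_lim : Tendsto xx atImInfty (nhds 0) := by
  exact qParam_tendsto_atImInfty (h := 2) (by norm_num)

private theorem xx_ne (τ : ℍ) : xx τ ≠ 0 := Complex.exp_ne_zero _

private theorem xx_def (τ : ℍ) : xx τ = Complex.exp (π * I * τ) := by
  unfold xx Periodic.qParam
  congr 1
  push_cast
  ring

private theorem qp1 (w : ℂ) : Periodic.qParam 1 w = Complex.exp (2 * π * I * w) := by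
  unfold Periodic.qParam
  congr 1
  push_cast
  ring

private theorem E4_val (w : ℂ) (hw : 0 < w.im) :
    E₄ (ofComplex w) = cuspFunction 1 E₄ (Periodic.qParam 1 w) := by
  have h := SlashInvariantFormClass.eq_cuspFunction E₄ (ofComplex w) one_mem_strictPeriods_SL
    one_ne_zero
  rw [← h, ofComplex_apply_of_im_pos hw]

private theorem f0_val (τ : ℍ) : f0 τ = 16 * cuspFunction 1 E₄ (xx τ ^ 4) := by
  unfold f0
  rw [E4_val _ (pos2 τ), qp1, xx_def, ← Complex.exp_nat_mul]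
  congr 3
  push_cast
  ring

private theorem f1_val (τ : ℍ) : f1 τ = cuspFunction 1 E₄ (xx τ) := by
  unfold f1
  rw [E4_val _ (posh τ), qp1, xx_def]
  congr 2
  ring

private theorem f2_val (τ : ℍ) : f2 τ = cuspFunction 1 E₄ (-xx τ) := by
  unfold f2
  rw [E4_val _ (posh' τ), qp1, xx_def]
  congr 1
  rw [show 2 * (π : ℂ) * I * (((τ : ℂ) + 1) / 2) = π * I * τ + π * I by ring, Complex.exp_add,
    Complex.exp_pi_mul_I]
  ring

private theorem E4_val' (τ : ℍ) : E₄ τ = cuspFunction 1 E₄ (xx τ ^ 2) := by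
  have h := SlashInvariantFormClass.eq_cuspFunction E₄ τ one_mem_strictPeriods_SL
    one_ne_zero
  rw [← h, qp1, xx_def, ← Complex.exp_nat_mul]
  congr 2
  push_cast
  ring

private theorem D_val (τ : ℍ) : discriminant τ = cuspFunction 1 discriminant (xx τ ^ 2) := by
  have h := SlashInvariantFormClass.eq_cuspFunction CuspForm.discriminant τ one_mem_strictPeriods_SL
    one_ne_zero
  rw [CuspForm.coe_discriminant] at h
  rw [← h, qp1, xx_def, ← Complex.exp_nat_mul]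
  congr 2
  push_cast
  ring

private theorem lims {A : ℂ → ℂ} (hA : ContinuousAt A 0) {u : ℍ → ℂ}
    (hu : Tendsto u atImInfty (nhds 0)) : Tendsto (fun τ => A (u τ)) atImInfty (nhds (A 0)) :=
  Tendsto.comp hA hu

private theorem E4c : ContinuousAt (cuspFunction 1 E₄) 0 :=
  (ModularFormClass.analyticAt_cuspFunction_zero E₄ one_pos one_mem_strictPeriods_SL).continuousAt

private theorem E4c0 : cuspFunction 1 E₄ 0 = 1 := by
  rw [← qc0, E_qExpansion_coeff_zero _ ⟨2, rfl⟩]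

private theorem xx_lim_pow (n : ℕ) (hn : n ≠ 0) : Tendsto (fun τ => xx τ ^ n) atImInfty (nhds 0) := by
  have := xx_lim.pow n
  rwa [zero_pow hn] at this

private theorem xx_lim_neg : Tendsto (fun τ => -xx τ) atImInfty (nhds 0) := by
  have := xx_lim.neg
  rwa [neg_zero] at this

private theorem f0_lim : Tendsto f0 atImInfty (nhds 16) := by
  have h := (lims E4c (xx_lim_pow 4 (by norm_num))).const_mul 16
  rw [E4c0, mul_one] at h
  exact h.congr fun τ => (f0_val τ).symm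

private theorem f1_lim : Tendsto f1 atImInfty (nhds 1) := by
  have h := lims E4c xx_lim
  rw [E4c0] at h
  exact h.congr fun τ => (f1_val τ).symm

private theorem f2_lim : Tendsto f2 atImInfty (nhds 1) := by
  have h := lims E4c xx_lim_neg
  rw [E4c0] at h
  exact h.congr fun τ => (f2_val τ).symm

private theorem coeff0 {k : ℤ} (g : ModularForm 𝒮ℒ k) {c : ℂ} (h : Tendsto g atImInfty (nhds c)) :
    (qExpansion 1 g).coeff 0 = c := by
  rw [UpperHalfPlane.qExpansion_coeff_zero one_pos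
    (ModularFormClass.analyticAt_cuspFunction_zero g one_pos one_mem_strictPeriods_SL)
    (SlashInvariantFormClass.periodic_comp_ofComplex g one_mem_strictPeriods_SL)]
  exact h.limUnder_eq

/-- weight less than 12, constant term zero -/
private theorem low {k : ℕ} (hk : k < 12) (g : ModularForm 𝒮ℒ (k : ℤ))
    (h : Tendsto g atImInfty (nhds 0)) (τ : ℍ) : g τ = 0 := by
  have h0 : g = 0 := by
    apply sturm_bound_levelOne_nat
    rw [Nat.div_eq_of_lt hk]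
    have h1 : ((1 : ℕ) : ℕ∞) ≤ (qExpansion 1 g).order := by
      apply PowerSeries.nat_le_order
      intro i hi
      obtain rfl : i = 0 := by omega
      exact coeff0 g h
    exact lt_of_lt_of_le (by norm_num) h1
  rw [h0]
  rfl

private theorem E4_lim : Tendsto E₄ atImInfty (nhds 1) := by
  have h := lims E4c (xx_lim_pow 2 (by norm_num))
  rw [E4c0] at h
  exact h.congr fun τ => (E4_val' τ).symm

private theorem bdd {f : ℍ → ℂ} {c : ℂ} (h : Tendsto f atImInfty (nhds c)) : IsBoundedAtImInfty f :=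
  h.isBigO_one ℝ

private theorem E4_diff' : MDifferentiable 𝓘(ℂ) 𝓘(ℂ) (E₄ : ℍ → ℂ) := E₄.holo'

private theorem s1 (τ : ℍ) : f0 τ + f1 τ + f2 τ = 18 * E₄ τ := by
  obtain ⟨g, hg⟩ := mk_form ((4 : ℕ) : ℤ) (fun τ => f0 τ + f1 τ + f2 τ)
    (slS 4 _ fun τ => by simp only [f0_S, f1_S, f2_S]; ring)
    (slT 4 _ fun τ => by simp only [f0_T, f1_T, f2_T]; ring)
    ((f0_diff.add f1_diff).add f2_diff) (bdd ((f0_lim.add f1_lim).add f2_lim))
  set g' : ModularForm 𝒮ℒ ((4 : ℕ) : ℤ) := g - (18 : ℂ) • E₄ with hg'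
  have e : ∀ τ, g' τ = f0 τ + f1 τ + f2 τ - 18 * E₄ τ := by
    intro τ
    rw [hg']
    show g τ - (18 : ℂ) * E₄ τ = _
    rw [hg]
  have hl : Tendsto g' atImInfty (nhds 0) := by
    have := ((f0_lim.add f1_lim).add f2_lim).sub (E4_lim.const_mul 18)
    norm_num at this
    exact this.congr fun τ => (e τ).symm
  have := low (by norm_num) g' hl τ
  rw [e] at this
  linear_combination this

private theorem E4_S (τ : ℍ) : E₄ (ModularGroup.S • τ) = (τ : ℂ) ^ 4 * E₄ τ := by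
  have h := E4_act ModularGroup.S τ
  simp [ModularGroup.S] at h
  rw [← zpow_natCast]
  exact_mod_cast h

private theorem E4_T (τ : ℍ) : E₄ (ModularGroup.T • τ) = E₄ τ := by
  have h := E4_act ModularGroup.T τ
  simpa [ModularGroup.T] using h

private theorem s2 (τ : ℍ) : f0 τ * f1 τ + f0 τ * f2 τ + f1 τ * f2 τ = 33 * E₄ τ ^ 2 := by
  have hl : Tendsto (fun τ => f0 τ * f1 τ + f0 τ * f2 τ + f1 τ * f2 τ - 33 * E₄ τ ^ 2)
      atImInfty (nhds 0) := by
    have := (((f0_lim.mul f1_lim).add (f0_lim.mul f2_lim)).add (f1_lim.mul f2_lim)).sub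
      ((E4_lim.pow 2).const_mul 33)
    norm_num at this
    exact this
  have hd : MDifferentiable 𝓘(ℂ) 𝓘(ℂ)
      (fun τ => f0 τ * f1 τ + f0 τ * f2 τ + f1 τ * f2 τ - 33 * E₄ τ ^ 2) :=
    (((f0_diff.mul f1_diff).add (f0_diff.mul f2_diff)).add (f1_diff.mul f2_diff)).sub
      ((mdifferentiable_const (c := (33 : ℂ))).mul (E4_diff'.pow 2))
  obtain ⟨g, hg⟩ := mk_form ((8 : ℕ) : ℤ)
    (fun τ => f0 τ * f1 τ + f0 τ * f2 τ + f1 τ * f2 τ - 33 * E₄ τ ^ 2)
    (slS 8 _ fun τ => by simp only [f0_S, f1_S, f2_S, E4_S]; ring)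
    (slT 8 _ fun τ => by simp only [f0_T, f1_T, f2_T, E4_T]; ring)
    hd (bdd hl)
  have := low (by norm_num) g (by rw [hg]; exact hl) τ
  rw [hg] at this
  linear_combination this

private theorem s3 (τ : ℍ) : f0 τ * f1 τ * f2 τ = 16 * E₄ τ ^ 3 - 864000 * discriminant τ := by
  have hl : Tendsto (fun τ => f0 τ * f1 τ * f2 τ - 16 * E₄ τ ^ 3) atImInfty (nhds 0) := by
    have := ((f0_lim.mul f1_lim).mul f2_lim).sub ((E4_lim.pow 3).const_mul 16)
    norm_num at this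
    exact this
  have hd : MDifferentiable 𝓘(ℂ) 𝓘(ℂ) (fun τ => f0 τ * f1 τ * f2 τ - 16 * E₄ τ ^ 3) :=
    ((f0_diff.mul f1_diff).mul f2_diff).sub
      ((mdifferentiable_const (c := (16 : ℂ))).mul (E4_diff'.pow 3))
  obtain ⟨g, hg⟩ := mk_form ((12 : ℕ) : ℤ) (fun τ => f0 τ * f1 τ * f2 τ - 16 * E₄ τ ^ 3)
    (slS 12 _ fun τ => by simp only [f0_S, f1_S, f2_S, E4_S]; ring)
    (slT 12 _ fun τ => by simp only [f0_T, f1_T, f2_T, E4_T]; ring)
    hd (bdd hl)
  have h0 : (qExpansion 1 g).coeff 0 = 0 := coeff0 g (by rw [hg]; exact hl)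
  obtain ⟨c, hc⟩ := CuspForm.exists_smul_discriminant_of_weight_eq_twelve (toCuspForm g h0)
  have hc' : ∀ τ, f0 τ * f1 τ * f2 τ - 16 * E₄ τ ^ 3 = c * discriminant τ := by
    intro τ
    have h1 : (toCuspForm g h0) τ = g τ := rfl
    rw [← hc, hg] at h1
    exact h1.symm
  obtain ⟨A, hA, hA0, hAF⟩ := E4_cusp
  obtain ⟨B, hB, hBF⟩ := D_cusp
  have l1 := lims hA xx_lim
  have l2 := lims hA xx_lim_neg
  have l3 := lims hA (xx_lim_pow 2 (by norm_num))
  have l4 := lims hA (xx_lim_pow 4 (by norm_num))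
  have l5 := lims hB (xx_lim_pow 2 (by norm_num))
  have hx0 := xx_lim
  rw [hA0] at l1 l2 l3 l4
  have L2 : Tendsto (fun τ => c * (1 + xx τ ^ 2 * B (xx τ ^ 2))) atImInfty (nhds c) := by
    have := (((xx_lim_pow 2 (by norm_num)).mul l5).const_add 1).const_mul c
    rw [zero_mul, add_zero, mul_one] at this
    exact this
  have L1 : Tendsto (fun τ => c * (1 + xx τ ^ 2 * B (xx τ ^ 2))) atImInfty (nhds (-864000)) := by
    have key : ∀ τ, c * (1 + xx τ ^ 2 * B (xx τ ^ 2)) =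
        16 * (240 * xx τ ^ 2 + xx τ ^ 6 * A (xx τ ^ 4)) *
          ((1 + xx τ ^ 2 * A (xx τ) + 240 * xx τ) * (1 + xx τ ^ 2 * A (-xx τ) - 240 * xx τ)) +
        16 * ((A (xx τ) + A (-xx τ)) + xx τ ^ 2 * A (xx τ) * A (-xx τ) - 240 ^ 2 +
          240 * xx τ * (A (-xx τ) - A (xx τ))) -
        16 * (3 * (240 + xx τ ^ 2 * A (xx τ ^ 2)) + 3 * xx τ ^ 2 * (240 + xx τ ^ 2 * A (xx τ ^ 2)) ^ 2 +
          xx τ ^ 4 * (240 + xx τ ^ 2 * A (xx τ ^ 2)) ^ 3) := by
      intro τ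
      have h1 := hc' τ
      rw [f0_val, f1_val, f2_val, E4_val', D_val, hAF, hAF, hAF, hAF, hBF] at h1
      apply mul_left_cancel₀ (pow_ne_zero 2 (xx_ne τ))
      linear_combination (-1 : ℂ) * h1
    have hP : Continuous (fun p : ℂ × ℂ × ℂ × ℂ × ℂ =>
        16 * (240 * p.1 ^ 2 + p.1 ^ 6 * p.2.2.2.2) *
          ((1 + p.1 ^ 2 * p.2.1 + 240 * p.1) * (1 + p.1 ^ 2 * p.2.2.1 - 240 * p.1)) +
        16 * ((p.2.1 + p.2.2.1) + p.1 ^ 2 * p.2.1 * p.2.2.1 - 240 ^ 2 +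
          240 * p.1 * (p.2.2.1 - p.2.1)) -
        16 * (3 * (240 + p.1 ^ 2 * p.2.2.2.1) + 3 * p.1 ^ 2 * (240 + p.1 ^ 2 * p.2.2.2.1) ^ 2 +
          p.1 ^ 4 * (240 + p.1 ^ 2 * p.2.2.2.1) ^ 3)) := by fun_prop
    have hT := (hP.tendsto (0, 2160, 2160, 2160, 2160)).comp
      (hx0.prodMk_nhds (l1.prodMk_nhds (l2.prodMk_nhds (l3.prodMk_nhds l4))))
    have hv : Tendsto (fun τ => c * (1 + xx τ ^ 2 * B (xx τ ^ 2))) atImInfty (nhds _) :=
      hT.congr fun τ => (key τ).symm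
    norm_num at hv
    exact hv
  have hcc : c = -864000 := tendsto_nhds_unique L2 L1
  have := hc' τ
  rw [hcc] at this
  linear_combination this

theorem sym1 (τ : ℍ) : 16 * E₄ (ofComplex (2 * (τ : ℂ))) + E₄ (ofComplex ((τ : ℂ) / 2)) +
    E₄ (ofComplex (((τ : ℂ) + 1) / 2)) = 18 * E₄ τ := s1 τ

theorem sym2 (τ : ℍ) : 16 * E₄ (ofComplex (2 * (τ : ℂ))) * E₄ (ofComplex ((τ : ℂ) / 2)) +
    16 * E₄ (ofComplex (2 * (τ : ℂ))) * E₄ (ofComplex (((τ : ℂ) + 1) / 2)) +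
    E₄ (ofComplex ((τ : ℂ) / 2)) * E₄ (ofComplex (((τ : ℂ) + 1) / 2)) = 33 * E₄ τ ^ 2 := s2 τ

theorem sym3 (τ : ℍ) : 16 * E₄ (ofComplex (2 * (τ : ℂ))) * E₄ (ofComplex ((τ : ℂ) / 2)) *
    E₄ (ofComplex (((τ : ℂ) + 1) / 2)) = 16 * E₄ τ ^ 3 - 864000 * discriminant τ := s3 τ

end Pool.Agent.BZ
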