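import Pool.Agent.Lib.MP_06b9d2_bz.Clo
/-! # BZ.Tow: residues of arbitrarily large 2-power degree
`S M` : a finite set of pairwise incongruent units with `Rcn`, each with `x^(2^(2^e)) ≡ x` for some `e`, of size `≥ M`.
Induction: pass to all preimages under `x ↦ x + 1/x` (for each `z` of the set, the two roots of `X² - z X + 1`; they are incongruent as the square
of their difference is `z² - 4`): the size doubles; a root of `X² - z X + 1` with `z` in the field with `q = 2^(2^e)` elements lies in the field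
with `q²` elements (raise to the power `q`: `x^q` is again a root).  Start: the preimages of the given `x` with `x ≡ x^(2^(2^e))`.
At most `q` pairwise incongruent `x` satisfy `‖x^q - x‖ < 1` (`X^q - X` splits). -/
set_option autoImplicit false
open Finset
namespace Pool.Agent.BZ

private theorem tow_norm_four : ‖(4 : PadicAlgCl 2)‖ < 1 := by
  have h1 : ‖((2 : ℚ_[2]) : PadicAlgCl 2)‖ = ‖(2 : ℚ_[2])‖ := PadicAlgCl.norm_extends 2 2
  have h2 : ‖(2 : ℚ_[2])‖ = 1 / 2 := by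
    have := Padic.norm_p (p := 2)
    rw [show ((2 : ℕ) : ℚ_[2]) = 2 by norm_num] at this
    rw [this]
    norm_num
  have h3 : ((2 : ℚ_[2]) : PadicAlgCl 2) = 2 := by
    show algebraMap ℚ_[2] (PadicAlgCl 2) 2 = 2
    exact map_ofNat _ 2
  rw [h3, h2] at h1
  have h4 : (4 : PadicAlgCl 2) = 2 * 2 := by norm_num
  rw [h4, norm_mul, h1]
  norm_num

/-- a preimage -/
private theorem tow_pre (z : PadicAlgCl 2) : ∃ x : PadicAlgCl 2, ‖z‖ = 1 →
    ‖x‖ = 1 ∧ x ≠ 0 ∧ x + x⁻¹ = z := by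
  by_cases hz : ‖z‖ = 1
  · obtain ⟨s, hs⟩ := IsAlgClosed.exists_pow_nat_eq (z ^ 2 - 4) (n := 2) (by norm_num)
    refine ⟨(z + s) / 2, fun _ => ?_⟩
    obtain ⟨x, hx⟩ : ∃ x : PadicAlgCl 2, x = (z + s) / 2 := ⟨_, rfl⟩
    rw [← hx]
    have h1 : x ^ 2 - z * x + 1 = 0 := by
      rw [hx]
      linear_combination (1 / 4 : PadicAlgCl 2) * hs
    have hx0 : x ≠ 0 := by
      intro h
      rw [h] at h1
      simp at h1
    have h2 : x + x⁻¹ = z := by
      field_simp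
      linear_combination h1
    refine ⟨?_, hx0, h2⟩
    have hpos : 0 < ‖x‖ := norm_pos_iff.2 hx0
    have h3 : ‖x⁻¹‖ ≤ max 1 ‖x‖ := by
      have h4 := IsUltrametricDist.norm_add_le_max z (-x)
      rw [norm_neg, hz] at h4
      have h5 : x⁻¹ = z + -x := by rw [← h2]; ring
      rw [h5]
      exact h4
    have h3' : ‖x‖ ≤ max 1 ‖x⁻¹‖ := by
      have h4 := IsUltrametricDist.norm_add_le_max z (-x⁻¹)
      rw [norm_neg, hz] at h4
      have h5 : x = z + -x⁻¹ := by rw [← h2]; ring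
      calc ‖x‖ = ‖z + -x⁻¹‖ := by rw [← h5]
        _ ≤ _ := h4
    rw [norm_inv] at h3 h3'
    rcases lt_trichotomy ‖x‖ 1 with hlt | heq | hgt
    · exfalso
      rw [max_eq_left hlt.le] at h3
      have := (one_lt_inv₀ hpos).2 hlt
      linarith
    · exact heq
    · exfalso
      have h6 : ‖x‖⁻¹ ≤ 1 := inv_le_one_of_one_le₀ hgt.le
      rw [max_eq_left h6] at h3'
      linarith
  · exact ⟨0, fun h => absurd h hz⟩

private theorem tow_sub_le {x y : PadicAlgCl 2} (hx : ‖x‖ = 1) (hy : ‖y‖ = 1) : ‖x - y‖ ≤ 1 := by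
  have h1 := IsUltrametricDist.norm_add_le_max x (-y)
  rw [norm_neg, hx, hy, max_self, ← sub_eq_add_neg] at h1
  exact h1

private theorem tow_inv {x z : PadicAlgCl 2} (hz : ‖z‖ = 1) (hx : ‖x‖ = 1) (h0 : x ≠ 0)
    (h : x + x⁻¹ = z) : ‖x - x⁻¹‖ = 1 := by
  have h1 : ‖x⁻¹‖ = 1 := by rw [norm_inv, hx, inv_one]
  apply le_antisymm (tow_sub_le hx h1)
  have h2 : (x - x⁻¹) ^ 2 = z ^ 2 - 4 := by
    rw [← h]
    field_simp
    ring
  have h3 : 1 ≤ ‖z ^ 2 - 4‖ := by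
    have h4 := IsUltrametricDist.norm_add_le_max (z ^ 2 - 4) 4
    rw [sub_add_cancel, norm_pow, hz, one_pow] at h4
    rcases le_max_iff.1 h4 with h5 | h5
    · exact h5
    · exact absurd tow_norm_four (not_lt.2 h5)
  rw [← h2, norm_pow] at h3
  by_contra hc
  rw [not_le] at hc
  have := norm_nonneg (x - x⁻¹)
  nlinarith

private theorem tow_diff {x y : PadicAlgCl 2} (hx : ‖x‖ = 1) (hy : ‖y‖ = 1) (hx0 : x ≠ 0) (hy0 : y ≠ 0)
    (h : ‖(x + x⁻¹) - (y + y⁻¹)‖ = 1) : ‖x - y‖ = 1 := by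
  apply le_antisymm (tow_sub_le hx hy)
  have h1 : (x + x⁻¹) - (y + y⁻¹) = (x - y) * (1 - (x * y)⁻¹) := by
    field_simp
    ring
  have h2 : ‖(1 : PadicAlgCl 2) - (x * y)⁻¹‖ ≤ 1 := by
    apply tow_sub_le norm_one
    rw [norm_inv, norm_mul, hx, hy]
    norm_num
  rw [h1, norm_mul] at h
  have h3 := norm_nonneg (x - y)
  nlinarith [norm_nonneg ((1 : PadicAlgCl 2) - (x * y)⁻¹)]

private theorem tow_Rch {x : PadicAlgCl 2} (h : Rcn x) : Rch x := by
  obtain ⟨n, k, u, h1, -, h2, h3, h4⟩ := h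
  exact ⟨n, k, u, h1, h2, h3, h4⟩

private theorem tow_add {a b : PadicAlgCl 2} (ha : ‖a‖ < 1) (hb : ‖b‖ < 1) : ‖a + b‖ < 1 :=
  lt_of_le_of_lt (IsUltrametricDist.norm_add_le_max a b) (max_lt ha hb)

private theorem tow_add_le {a b : PadicAlgCl 2} (ha : ‖a‖ ≤ 1) (hb : ‖b‖ ≤ 1) : ‖a + b‖ ≤ 1 :=
  (IsUltrametricDist.norm_add_le_max a b).trans (max_le ha hb)

private theorem tow_mul {a b : PadicAlgCl 2} (ha : ‖a‖ < 1) (hb : ‖b‖ ≤ 1) : ‖a * b‖ < 1 := by
  rw [norm_mul]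
  have := norm_nonneg a
  nlinarith [norm_nonneg b]

private theorem tow_two : ‖(2 : PadicAlgCl 2)‖ < 1 := by
  have h1 := tow_norm_four
  have h2 : (4 : PadicAlgCl 2) = 2 * 2 := by norm_num
  rw [h2, norm_mul] at h1
  by_contra hc
  rw [not_lt] at hc
  nlinarith

private theorem tow_pow {a b : PadicAlgCl 2} (ha : ‖a‖ ≤ 1) (hb : ‖b‖ ≤ 1) (h : ‖a - b‖ < 1) (n : ℕ) :
    ‖a ^ n - b ^ n‖ < 1 := by
  induction n with
  | zero => simp
  | succ n ih =>
    have h1 : a ^ (n + 1) - b ^ (n + 1) = (a ^ n - b ^ n) * a + (a - b) * b ^ n := by ring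
    rw [h1]
    refine tow_add (tow_mul ih ha) (tow_mul h ?_)
    rw [norm_pow]
    exact pow_le_one₀ (norm_nonneg _) hb

private theorem tow_frob {a b : PadicAlgCl 2} (ha : ‖a‖ ≤ 1) (hb : ‖b‖ ≤ 1) (k : ℕ) :
    ‖(a + b) ^ 2 ^ k - (a ^ 2 ^ k + b ^ 2 ^ k)‖ < 1 := by
  have hp : ∀ c : PadicAlgCl 2, ‖c‖ ≤ 1 → ∀ n : ℕ, ‖c ^ n‖ ≤ 1 := by
    intro c hc n
    rw [norm_pow]
    exact pow_le_one₀ (norm_nonneg _) hc
  induction k with
  | zero => simp
  | succ k ih =>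
    have h1 : (a + b) ^ 2 ^ (k + 1) - (a ^ 2 ^ (k + 1) + b ^ 2 ^ (k + 1)) =
        ((a + b) ^ 2 ^ k - (a ^ 2 ^ k + b ^ 2 ^ k)) * ((a + b) ^ 2 ^ k + (a ^ 2 ^ k + b ^ 2 ^ k)) +
          2 * (a ^ 2 ^ k * b ^ 2 ^ k) := by
      rw [pow_succ, pow_mul, pow_mul, pow_mul]
      ring
    rw [h1]
    refine tow_add (tow_mul ih ?_) (tow_mul tow_two ?_)
    · exact tow_add_le (hp _ (tow_add_le ha hb) _) (tow_add_le (hp _ ha _) (hp _ hb _))
    · rw [norm_mul]
      have h2 := hp a ha (2 ^ k)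
      have h3 := hp b hb (2 ^ k)
      exact mul_le_one₀ h2 (norm_nonneg _) h3

/-- the residue of `x` is in a field with `2 ^ 2 ^ e` elements -/
private def TowF (x : PadicAlgCl 2) : Prop := ∃ e : ℕ, ‖x ^ 2 ^ 2 ^ e - x‖ < 1

private theorem tow_fix {x z : PadicAlgCl 2} (hz : ‖z‖ = 1) (hx : ‖x‖ = 1) (h0 : x ≠ 0)
    (h : x + x⁻¹ = z) (hf : TowF z) : TowF x := by
  obtain ⟨e, he⟩ := hf
  refine ⟨e + 1, ?_⟩
  obtain ⟨q, hq⟩ : ∃ q : ℕ, q = 2 ^ 2 ^ e := ⟨_, rfl⟩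
  have hxi : ‖x⁻¹‖ = 1 := by rw [norm_inv, hx, inv_one]
  obtain ⟨w, hw⟩ : ∃ w : PadicAlgCl 2, w = x ^ q := ⟨_, rfl⟩
  have hwn : ‖w‖ = 1 := by rw [hw, norm_pow, hx, one_pow]
  have hw0 : w ≠ 0 := by rw [hw]; exact pow_ne_zero _ h0
  have hwi : ‖w⁻¹‖ = 1 := by rw [norm_inv, hwn, inv_one]
  have h1 : ‖(w + w⁻¹) - (x + x⁻¹)‖ < 1 := by
    have h2 := tow_frob hx.le hxi.le (2 ^ e)
    rw [h, ← hq, ← hw, inv_pow, ← hw] at h2
    rw [← hq] at he
    have h3 : (w + w⁻¹) - (x + x⁻¹) = -(z ^ q - (w + w⁻¹)) + (z ^ q - z) := by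
      rw [h]
      ring
    rw [h3]
    refine tow_add ?_ he
    rw [norm_neg]
    exact h2
  have h4 : (w + w⁻¹) - (x + x⁻¹) = (w - x) * (1 - (w * x)⁻¹) := by
    field_simp
    ring
  have hqq : x ^ 2 ^ 2 ^ (e + 1) = w ^ q := by
    rw [hw, ← pow_mul, hq, ← pow_add, pow_succ, mul_two]
  rw [hqq]
  rw [h4, norm_mul] at h1
  rcases lt_or_ge ‖w - x‖ 1 with h5 | h5
  · have h6 := tow_pow hwn.le hx.le h5 q
    rw [← hw] at h6
    have h7 : w ^ q - x = (w ^ q - w) + (w - x) := by ring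
    rw [h7]
    exact tow_add h6 h5
  · have h6 : ‖1 - (w * x)⁻¹‖ < 1 := by
      by_contra hc
      rw [not_lt] at hc
      nlinarith
    have h7 : ‖w - x⁻¹‖ < 1 := by
      have h8 : w - x⁻¹ = (1 - (w * x)⁻¹) * w := by
        field_simp
      rw [h8]
      exact tow_mul h6 hwn.le
    have h9 := tow_pow hwn.le hxi.le h7 q
    rw [inv_pow, ← hw] at h9
    have h10 : ‖w⁻¹ - x‖ < 1 := by
      have h11 : w⁻¹ - x = -(1 - (w * x)⁻¹) * x := by
        field_simp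
        ring
      rw [h11]
      refine tow_mul ?_ hx.le
      rw [norm_neg]
      exact h6
    have h12 : w ^ q - x = (w ^ q - w⁻¹) + (w⁻¹ - x) := by ring
    rw [h12]
    exact tow_add h9 h10

private theorem tow_step {S : Finset (PadicAlgCl 2)} (h1 : ∀ x ∈ S, Rcn x ∧ ‖x‖ = 1 ∧ TowF x)
    (h2 : ∀ x ∈ S, ∀ x' ∈ S, x ≠ x' → ‖x - x'‖ = 1) : ∃ S' : Finset (PadicAlgCl 2),
    S'.card = S.card + S.card ∧ (∀ x ∈ S', Rcn x ∧ ‖x‖ = 1 ∧ TowF x) ∧
      (∀ x ∈ S', ∀ x' ∈ S', x ≠ x' → ‖x - x'‖ = 1) := by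
  classical
  choose r hr using tow_pre
  have hS' : ∀ x ∈ S.image r ∪ S.image (fun z => (r z)⁻¹),
      ‖x‖ = 1 ∧ x ≠ 0 ∧ x + x⁻¹ ∈ S := by
    intro x hx
    rw [mem_union, mem_image, mem_image] at hx
    rcases hx with ⟨z, hz, rfl⟩ | ⟨z, hz, rfl⟩
    · obtain ⟨a, b, c⟩ := hr z (h1 z hz).2.1
      exact ⟨a, b, by rw [c]; exact hz⟩
    · obtain ⟨a, b, c⟩ := hr z (h1 z hz).2.1
      refine ⟨by rw [norm_inv, a, inv_one], inv_ne_zero b, ?_⟩
      rw [inv_inv, add_comm, c]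
      exact hz
  have hinj : Set.InjOn r (S : Set (PadicAlgCl 2)) := by
    intro z hz z' hz' h
    have a := (hr z (h1 z hz).2.1).2.2
    have b := (hr z' (h1 z' hz').2.1).2.2
    rw [← a, ← b, h]
  refine ⟨S.image r ∪ S.image (fun z => (r z)⁻¹), ?_, ?_, ?_⟩
  · rw [card_union_of_disjoint, card_image_of_injOn hinj, card_image_of_injOn]
    · intro z hz z' hz' h
      exact hinj hz hz' (inv_injective h)
    · rw [disjoint_left]
      intro x hx hx'
      rw [mem_image] at hx hx'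
      obtain ⟨z, hz, rfl⟩ := hx
      obtain ⟨z', hz', h⟩ := hx'
      obtain ⟨a, b, c⟩ := hr z (h1 z hz).2.1
      obtain ⟨a', b', c'⟩ := hr z' (h1 z' hz').2.1
      have h : (r z')⁻¹ = r z := h
      have h3 : z = z' := by
        rw [← c, ← c', ← h, inv_inv]
        ring
      subst h3
      have h4 := tow_inv (h1 z hz).2.1 a b c
      rw [h, sub_self, norm_zero] at h4
      norm_num at h4
  · intro x hx
    obtain ⟨a, b, c⟩ := hS' x hx
    obtain ⟨d, e, f⟩ := h1 _ c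
    refine ⟨closure (tow_Rch d) e a ?_, a, tow_fix e a b rfl f⟩
    rw [sub_self, norm_zero]
    norm_num
  · intro x hx x' hx' hne
    obtain ⟨a, b, c⟩ := hS' x hx
    obtain ⟨a', b', c'⟩ := hS' x' hx'
    by_cases h : x + x⁻¹ = x' + x'⁻¹
    · have h3 : (x - x') * (1 - (x * x')⁻¹) = 0 := by
        have h4 : (x + x⁻¹) - (x' + x'⁻¹) = (x - x') * (1 - (x * x')⁻¹) := by
          field_simp
          ring
        rw [← h4, h, sub_self]
      rcases mul_eq_zero.1 h3 with h5 | h5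
      · exact absurd (sub_eq_zero.1 h5) hne
      · have h6 : x * x' = 1 := by
          have h7 := (sub_eq_zero.1 h5).symm
          rwa [inv_eq_one] at h7
        have h8 : x' = x⁻¹ := eq_inv_of_mul_eq_one_right h6
        rw [h8]
        exact tow_inv (h1 _ c).2.1 a b rfl
    · exact tow_diff a a' b b' (h2 _ c _ c' h)

private theorem tow_all (h0 : ∃ x, Rch x ∧ ‖x - 1‖ < 1) (M : ℕ) : ∃ S : Finset (PadicAlgCl 2),
    M + 1 ≤ S.card ∧ (∀ x ∈ S, Rcn x ∧ ‖x‖ = 1 ∧ TowF x) ∧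
      (∀ x ∈ S, ∀ x' ∈ S, x ≠ x' → ‖x - x'‖ = 1) := by
  induction M with
  | zero =>
    obtain ⟨z, hz, hz0⟩ := h0
    have hz1 : ‖z‖ = 1 := by
      apply le_antisymm
      · have h1 := tow_add_le hz0.le (norm_one (α := PadicAlgCl 2)).le
        rwa [sub_add_cancel] at h1
      · by_contra hc
        rw [not_le] at hc
        have h1 : ‖-(z - 1)‖ < 1 := by rw [norm_neg]; exact hz0
        have h2 := tow_add h1 hc
        have h3 : -(z - 1) + z = (1 : PadicAlgCl 2) := by ring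
        rw [h3, norm_one] at h2
        exact lt_irrefl _ h2
    have hzF : TowF z := by
      refine ⟨0, ?_⟩
      have h1 : z ^ 2 ^ 2 ^ 0 - z = (z - 1) * z := by
        norm_num
        ring
      rw [h1]
      exact tow_mul hz0 hz1.le
    obtain ⟨x, hx⟩ := tow_pre z
    obtain ⟨a, b, c⟩ := hx hz1
    refine ⟨{x}, by simp, ?_, ?_⟩
    · intro y hy
      rw [mem_singleton] at hy
      subst hy
      refine ⟨closure hz hz1 a ?_, a, tow_fix hz1 a b c hzF⟩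
      rw [c, sub_self, norm_zero]
      norm_num
    · intro y hy y' hy' hne
      rw [mem_singleton] at hy hy'
      exact absurd (hy.trans hy'.symm) hne
  | succ M ih =>
    obtain ⟨S, h1, h2, h3⟩ := ih
    obtain ⟨S', h4, h5, h6⟩ := tow_step h2 h3
    exact ⟨S', by omega, h5, h6⟩

private theorem tow_root (P : Polynomial (PadicAlgCl 2)) (hP : P.Monic) (x : PadicAlgCl 2)
    (h : ‖P.eval x‖ < 1) : ∃ r ∈ P.roots, ‖x - r‖ < 1 := by
  by_contra hc
  push Not at hc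
  have hs : P.Splits := IsAlgClosed.splits P
  rw [hs.eval_eq_prod_roots_of_monic hP] at h
  have key : ∀ s : Multiset (PadicAlgCl 2), (∀ r ∈ s, 1 ≤ ‖x - r‖) →
      1 ≤ ‖(s.map fun r => x - r).prod‖ := by
    intro s
    induction s using Multiset.induction_on with
    | empty => intro _; simp
    | cons a s ih =>
      intro hs
      rw [Multiset.map_cons, Multiset.prod_cons, norm_mul]
      have h1 := hs a (Multiset.mem_cons_self _ _)
      have h2 := ih fun r hr => hs r (Multiset.mem_cons_of_mem hr)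
      nlinarith
  have := key _ hc
  linarith

private theorem tow_count (q : ℕ) (hq : 2 ≤ q) (S : Finset (PadicAlgCl 2))
    (h1 : ∀ x ∈ S, ‖x ^ q - x‖ < 1) (h2 : ∀ x ∈ S, ∀ x' ∈ S, x ≠ x' → ‖x - x'‖ = 1) :
    S.card ≤ q := by
  classical
  obtain ⟨P, hP⟩ : ∃ P : Polynomial (PadicAlgCl 2), P = Polynomial.X ^ q - Polynomial.X := ⟨_, rfl⟩
  have hdeg : (Polynomial.X : Polynomial (PadicAlgCl 2)).degree < (q : WithBot ℕ) := by
    rw [Polynomial.degree_X]
    exact_mod_cast (by omega : 1 < q)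
  have hPm : P.Monic := by
    rw [hP]
    exact Polynomial.monic_X_pow_sub hdeg
  have hPd : P.natDegree = q := by
    rw [hP]
    have h3 : (Polynomial.X ^ q - Polynomial.X : Polynomial (PadicAlgCl 2)).degree = q := by
      rw [Polynomial.degree_sub_eq_left_of_degree_lt, Polynomial.degree_X_pow]
      rw [Polynomial.degree_X_pow]
      exact hdeg
    exact Polynomial.natDegree_eq_of_degree_eq_some h3
  have h3 : ∀ x ∈ S, ∃ r ∈ P.roots, ‖x - r‖ < 1 := by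
    intro x hx
    apply tow_root P hPm
    rw [hP]
    simpa using h1 x hx
  have h4 : ∀ x : PadicAlgCl 2, ∃ r : PadicAlgCl 2, x ∈ S → r ∈ P.roots ∧ ‖x - r‖ < 1 := by
    intro x
    by_cases hx : x ∈ S
    · obtain ⟨r, hr1, hr2⟩ := h3 x hx
      exact ⟨r, fun _ => ⟨hr1, hr2⟩⟩
    · exact ⟨0, fun h => absurd h hx⟩
  choose f hf using h4
  have h5 : S.card ≤ P.roots.toFinset.card := by
    apply card_le_card_of_injOn f
    · intro x hx
      exact Multiset.mem_toFinset.2 (hf x hx).1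
    · intro x hx x' hx' h
      by_contra hne
      have a := (hf x hx).2
      have b := (hf x' hx').2
      rw [← h] at b
      have c : ‖-(x' - f x)‖ < 1 := by rw [norm_neg]; exact b
      have d := tow_add a c
      have e : (x - f x) + -(x' - f x) = x - x' := by ring
      rw [e, h2 x hx x' hx' hne] at d
      exact lt_irrefl _ d
  calc S.card ≤ P.roots.toFinset.card := h5
    _ ≤ Multiset.card P.roots := Multiset.toFinset_card_le _
    _ ≤ P.natDegree := Polynomial.card_roots' P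
    _ = q := hPd

theorem tower (h0 : ∃ x, Rch x ∧ ‖x - 1‖ < 1) (a : ℕ) : ∃ x : PadicAlgCl 2, Rcn x ∧ ‖x‖ = 1 ∧
    ‖x ^ 2 ^ 2 ^ a - x‖ = 1 ∧ ∃ e : ℕ, ‖x ^ 2 ^ 2 ^ e - x‖ < 1 := by
  obtain ⟨S, h1, h2, h3⟩ := tow_all h0 (2 ^ 2 ^ a)
  have hq : 2 ≤ 2 ^ 2 ^ a := by
    calc 2 = 2 ^ 1 := by norm_num
      _ ≤ 2 ^ 2 ^ a := Nat.pow_le_pow_right (by norm_num) Nat.one_le_two_pow
  by_cases h : ∀ x ∈ S, ‖x ^ 2 ^ 2 ^ a - x‖ < 1
  · have := tow_count _ hq S h h3
    omega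
  · push Not at h
    obtain ⟨x, hx, hx1⟩ := h
    obtain ⟨h4, h5, h6⟩ := h2 x hx
    refine ⟨x, h4, h5, le_antisymm ?_ hx1, h6⟩
    refine tow_sub_le ?_ h5
    rw [norm_pow, h5, one_pow]

end Pool.Agent.BZ
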