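import Pool.Agent.Lib.MP_06b9d2_bz.LDU
import Pool.Agent.Lib.MP_06b9d2_bz.UBd
import Pool.Agent.Lib.MP_06b9d2_bz.DRfA
/-! # BZ.XFb: the entries of `X1 = A1 (U/2^H) B1`
`ll U = α RR` (`ll_U`), `U rr = LL α` (`U_rr`), `n = N0 - 1`, for the positions `< N0`; `U N a q = 0` for `q > 2a` (`U_zero'`), so
rows `≤ m` have no entries in columns `≥ N0 = 2m+1`. -/
set_option autoImplicit false
open Finset
namespace Pool.Agent.BZ

private theorem xfb_rr0 (N : ℚ) {t s : ℕ} (h : s < t) : rr N t s = 0 := by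
  rw [rr, if_neg (by omega)]

private theorem xfb_ll0 (N : ℚ) {s t : ℕ} (h : s < t) : ll N s t = 0 := by
  rw [ll, if_neg (by omega)]

private theorem xfb_RR0 (N : ℚ) {s t : ℕ} (h : t < s) : RR N s t = 0 := by
  rw [RR, if_neg (by omega)]

private theorem xfb_facts (P : Par) : 2 * P.m + 1 = P.N0 ∧ 16 * P.N0 ≤ P.N ∧ P.s0 ≤ P.m ∧ 1 ≤ P.s0 := by
  refine ⟨P.two_m, P.N_big, ?_, ?_⟩
  · unfold Par.m
    omega
  · exact Nat.le_add_right 1 _

/-- `ll U = α RR`, rows `≤ m`, all columns -/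
private theorem xfb_llU (P : Par) {v u : ℕ} (hv : 1 ≤ v) (hvm : v ≤ P.m) (hu : 1 ≤ u) :
    ∑ t ∈ Icc 1 (P.N - 1), ll P.N v t * U P.N t u = al P.N v * RR P.N v u := by
  obtain ⟨h1, h2, h3, h4⟩ := xfb_facts P
  have hsub : Icc 1 (2 * P.m) ⊆ Icc 1 (P.N - 1) := Icc_subset_Icc le_rfl (by omega)
  rw [← Finset.sum_subset hsub fun t ht ht' => by
    rw [mem_Icc] at ht ht'
    rw [xfb_ll0 _ (show v < t by omega), zero_mul]]
  by_cases hu2 : u ≤ 2 * P.m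
  · exact ll_U (N := P.N) (n := 2 * P.m) (by omega) hv (by omega) hu hu2
  · rw [RR_zero P.N v u hv (by omega), mul_zero]
    refine Finset.sum_eq_zero fun t ht => ?_
    rw [mem_Icc] at ht
    by_cases htv : t ≤ v
    · rw [U_zero' (P.N : ℚ) t u (by omega), mul_zero]
    · rw [xfb_ll0 _ (show v < t by omega), zero_mul]

private theorem xfb_swap (P : Par) (s q : ℕ) : P.X1 s q =
    ∑ u ∈ Icc 1 (P.N - 1), (∑ t ∈ Icc 1 (P.N - 1), P.A1 s t * U P.N t u) / 2 ^ P.H * P.B1 u q := by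
  unfold Par.X1
  rw [Finset.sum_comm]
  refine Finset.sum_congr rfl fun u _ => ?_
  rw [Finset.sum_div, Finset.sum_mul]
  refine Finset.sum_congr rfl fun t _ => ?_
  rw [mul_div_assoc]

private theorem xfb_rowl (P : Par) {s : ℕ} (q : ℕ) (hs : 1 ≤ s) (hs' : s < P.s0) :
    P.X1 s q = P.Dh s * ∑ u ∈ Icc 1 (P.N - 1), RR P.N s u * P.B1 u q := by
  obtain ⟨h1, h2, h3, h4⟩ := xfb_facts P
  rw [xfb_swap, Finset.mul_sum]
  refine Finset.sum_congr rfl fun u hu => ?_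
  have e1 : ∑ t ∈ Icc 1 (P.N - 1), P.A1 s t * U P.N t u = al P.N s * RR P.N s u := by
    rw [← xfb_llU P hs (by omega) (mem_Icc.1 hu).1]
    refine Finset.sum_congr rfl fun t _ => ?_
    rw [Par.A1, if_pos hs']
  rw [e1, Par.Dh]
  ring

private theorem xfb_rowh (P : Par) {s : ℕ} (q : ℕ) (hs : P.s0 ≤ s) (hs' : s ≤ P.m) :
    P.X1 s q = ∑ v ∈ Icc P.s0 s, LL P.N s v * al P.N v / 2 ^ P.H *
      ∑ u ∈ Icc 1 (P.N - 1), RR P.N v u * P.B1 u q := by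
  obtain ⟨h1, h2, h3, h4⟩ := xfb_facts P
  rw [xfb_swap]
  have e1 : ∀ u ∈ Icc 1 (P.N - 1), (∑ t ∈ Icc 1 (P.N - 1), P.A1 s t * U P.N t u) / 2 ^ P.H * P.B1 u q =
      ∑ v ∈ Icc P.s0 s, LL P.N s v * al P.N v / 2 ^ P.H * (RR P.N v u * P.B1 u q) := by
    intro u hu
    have e2 : ∑ t ∈ Icc 1 (P.N - 1), P.A1 s t * U P.N t u =
        ∑ v ∈ Icc P.s0 s, LL P.N s v * (al P.N v * RR P.N v u) := by
      have e3 : ∀ t ∈ Icc 1 (P.N - 1), P.A1 s t * U P.N t u =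
          ∑ v ∈ Icc P.s0 s, LL P.N s v * (ll P.N v t * U P.N t u) := by
        intro t _
        rw [Par.A1, if_neg (by omega), if_pos hs', Finset.sum_mul]
        refine Finset.sum_congr rfl fun v _ => ?_
        ring
      rw [Finset.sum_congr rfl e3, Finset.sum_comm]
      refine Finset.sum_congr rfl fun v hv => ?_
      rw [mem_Icc] at hv
      rw [← Finset.mul_sum, xfb_llU P (by omega) (by omega) (mem_Icc.1 hu).1]
    rw [e2, Finset.sum_div, Finset.sum_mul]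
    refine Finset.sum_congr rfl fun v _ => ?_
    ring
  rw [Finset.sum_congr rfl e1, Finset.sum_comm]
  refine Finset.sum_congr rfl fun v _ => ?_
  rw [Finset.mul_sum]

private theorem xfb_rowR (P : Par) {s : ℕ} (q : ℕ) (hs : P.m < s) (hsN : s < P.N) :
    P.X1 s q = ∑ u ∈ Icc 1 (P.N - 1), U P.N s u / 2 ^ P.H * P.B1 u q := by
  obtain ⟨h1, h2, h3, h4⟩ := xfb_facts P
  rw [xfb_swap]
  refine Finset.sum_congr rfl fun u hu => ?_
  have e1 : ∑ t ∈ Icc 1 (P.N - 1), P.A1 s t * U P.N t u = U P.N s u := by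
    rw [Finset.sum_eq_single s]
    · rw [Par.A1, if_neg (by omega), if_neg (by omega), if_pos rfl, one_mul]
    · intro t _ ht
      rw [Par.A1, if_neg (by omega), if_neg (by omega), if_neg (Ne.symm ht), zero_mul]
    · intro h
      exact absurd (mem_Icc.2 ⟨by omega, by omega⟩) h
  rw [e1]

/-- `RR rr = 1` on the positions `≤ m` -/
private theorem xfb_RRrr (P : Par) {v w : ℕ} (hv : 1 ≤ v) (hvm : v ≤ P.m) (hw : 1 ≤ w) (hwm : w ≤ P.m) :
    ∑ u ∈ Icc 1 (P.N - 1), RR P.N v u * rr P.N u w = if v = w then 1 else 0 := by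
  obtain ⟨h1, h2, h3, h4⟩ := xfb_facts P
  have hsub : Icc 1 (2 * P.m) ⊆ Icc 1 (P.N - 1) := Icc_subset_Icc le_rfl (by omega)
  rw [← Finset.sum_subset hsub fun t ht ht' => by
    rw [mem_Icc] at ht ht'
    rw [xfb_rr0 _ (show w < t by omega), mul_zero]]
  exact RR_rr (N := P.N) (n := 2 * P.m) (by omega) hv (by omega) hw (by omega)

private theorem xfb_Cl (P : Par) {v q : ℕ} (hv : 1 ≤ v) (hvm : v ≤ P.m) (hq : 1 ≤ q) (hq' : q < P.s0) :
    ∑ u ∈ Icc 1 (P.N - 1), RR P.N v u * P.B1 u q = if v = q then 1 else 0 := by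
  obtain ⟨h1, h2, h3, h4⟩ := xfb_facts P
  rw [← xfb_RRrr P hv hvm hq (by omega)]
  refine Finset.sum_congr rfl fun u _ => ?_
  rw [Par.B1, if_pos hq']

private theorem xfb_Ch (P : Par) {v q : ℕ} (hv : 1 ≤ v) (hvm : v ≤ P.m) (hq : P.s0 ≤ q) (hq' : q ≤ P.m) :
    ∑ u ∈ Icc 1 (P.N - 1), RR P.N v u * P.B1 u q = if P.s0 ≤ v then RR P.N v q else 0 := by
  obtain ⟨h1, h2, h3, h4⟩ := xfb_facts P
  have e1 : ∀ u ∈ Icc 1 (P.N - 1), RR P.N v u * P.B1 u q =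
      ∑ w ∈ Icc P.s0 q, RR P.N v u * rr P.N u w * RR P.N w q := by
    intro u _
    rw [Par.B1, if_neg (by omega), if_pos hq', Finset.mul_sum]
    refine Finset.sum_congr rfl fun w _ => ?_
    ring
  rw [Finset.sum_congr rfl e1, Finset.sum_comm]
  have e2 : ∀ w ∈ Icc P.s0 q, ∑ u ∈ Icc 1 (P.N - 1), RR P.N v u * rr P.N u w * RR P.N w q =
      if v = w then RR P.N w q else 0 := by
    intro w hw
    rw [mem_Icc] at hw
    rw [← Finset.sum_mul, xfb_RRrr P hv hvm (by omega) (by omega)]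
    split_ifs
    · rw [one_mul]
    · rw [zero_mul]
  rw [Finset.sum_congr rfl e2, Finset.sum_ite_eq]
  by_cases hsv : P.s0 ≤ v
  · rw [if_pos hsv]
    by_cases hvq : v ≤ q
    · rw [if_pos (mem_Icc.2 ⟨hsv, hvq⟩)]
    · rw [if_neg (by rw [mem_Icc]; omega), xfb_RR0 _ (by omega)]
  · rw [if_neg hsv, if_neg (by rw [mem_Icc]; omega)]

private theorem xfb_CR (P : Par) {f : ℕ → ℚ} {q : ℕ} (hq : P.m < q) (hqN : q < P.N) :
    ∑ u ∈ Icc 1 (P.N - 1), f u * P.B1 u q = f q := by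
  obtain ⟨h1, h2, h3, h4⟩ := xfb_facts P
  rw [Finset.sum_eq_single q]
  · rw [Par.B1, if_neg (by omega), if_neg (by omega), if_pos rfl, mul_one]
  · intro t _ ht
    rw [Par.B1, if_neg (by omega), if_neg (by omega), if_neg ht, mul_zero]
  · intro h
    exact absurd (mem_Icc.2 ⟨by omega, by omega⟩) h

/-- the sums of `Ur` -/
private theorem xfb_Ur (P : Par) {s w : ℕ} (hwN : w < P.N) :
    ∑ u ∈ Icc 1 (P.N - 1), U P.N s u / 2 ^ P.H * rr P.N u w = P.Ur s w := by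
  have hsub : Icc 1 w ⊆ Icc 1 (P.N - 1) := Icc_subset_Icc le_rfl (by omega)
  rw [← Finset.sum_subset hsub fun t ht ht' => by
    rw [mem_Icc] at ht ht'
    rw [xfb_rr0 _ (show w < t by omega), mul_zero]]
  rfl

theorem X1_ll (P : Par) (s q : ℕ) (hs : 1 ≤ s) (hs' : s < P.s0) (hq : 1 ≤ q) (hq' : q < P.s0) :
    P.X1 s q = if s = q then P.Dh s else 0 := by
  obtain ⟨h1, h2, h3, h4⟩ := xfb_facts P
  rw [xfb_rowl P q hs hs', xfb_Cl P hs (by omega) hq hq', mul_ite, mul_one, mul_zero]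
theorem X1_lh (P : Par) (s q : ℕ) (hs : 1 ≤ s) (hs' : s < P.s0) (hq : P.s0 ≤ q) (hq' : q ≤ P.m) :
    P.X1 s q = 0 := by
  obtain ⟨h1, h2, h3, h4⟩ := xfb_facts P
  rw [xfb_rowl P q hs hs', xfb_Ch P hs (by omega) hq hq', if_neg (by omega), mul_zero]
theorem X1_hl (P : Par) (s q : ℕ) (hs : P.s0 ≤ s) (hs' : s ≤ P.m) (hq : 1 ≤ q) (hq' : q < P.s0) :
    P.X1 s q = 0 := by
  obtain ⟨h1, h2, h3, h4⟩ := xfb_facts P
  rw [xfb_rowh P q hs hs']
  refine Finset.sum_eq_zero fun v hv => ?_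
  rw [mem_Icc] at hv
  rw [xfb_Cl P (by omega) (by omega) hq hq', if_neg (by omega), mul_zero]
theorem X1_hh (P : Par) (s q : ℕ) (hs : P.s0 ≤ s) (hs' : s ≤ P.m) (hq : P.s0 ≤ q) (hq' : q ≤ P.m) :
    P.X1 s q = (∑ u ∈ Icc P.s0 (min s q), LL P.N s u * al P.N u * RR P.N u q) / 2 ^ P.H := by
  obtain ⟨h1, h2, h3, h4⟩ := xfb_facts P
  rw [xfb_rowh P q hs hs']
  have hsub : Icc P.s0 (min s q) ⊆ Icc P.s0 s := Icc_subset_Icc le_rfl (min_le_left _ _)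
  have e1 : ∀ v ∈ Icc P.s0 s, LL P.N s v * al P.N v / 2 ^ P.H *
      ∑ u ∈ Icc 1 (P.N - 1), RR P.N v u * P.B1 u q =
      LL P.N s v * al P.N v * RR P.N v q / 2 ^ P.H := by
    intro v hv
    rw [mem_Icc] at hv
    rw [xfb_Ch P (by omega) (by omega) hq hq', if_pos hv.1]
    ring
  rw [Finset.sum_congr rfl e1, ← Finset.sum_div, ← Finset.sum_subset hsub fun t ht ht' => by
    rw [mem_Icc] at ht ht'
    rw [xfb_RR0 _ (show q < t by omega), mul_zero]]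
theorem X1_lR (P : Par) (s q : ℕ) (hs : 1 ≤ s) (hs' : s < P.s0) (hq : P.m < q) (hqN : q < P.N) :
    P.X1 s q = P.Dh s * RR P.N s q := by
  rw [xfb_rowl P q hs hs', xfb_CR P (f := fun u => RR P.N s u) hq hqN]
theorem X1_hR (P : Par) (s q : ℕ) (hs : P.s0 ≤ s) (hs' : s ≤ P.m) (hq : P.m < q) (hqN : q < P.N) :
    P.X1 s q = ∑ u ∈ Icc P.s0 s, LL P.N s u * (al P.N u * RR P.N u q / 2 ^ P.H) := by
  rw [xfb_rowh P q hs hs']
  refine Finset.sum_congr rfl fun v _ => ?_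
  rw [xfb_CR P (f := fun u => RR P.N v u) hq hqN]
  ring
theorem X1_Rl (P : Par) (s q : ℕ) (hs : P.m < s) (hsN : s < P.N) (hq : 1 ≤ q) (hq' : q < P.s0) :
    P.X1 s q = P.Ur s q := by
  obtain ⟨h1, h2, h3, h4⟩ := xfb_facts P
  rw [xfb_rowR P q hs hsN, ← xfb_Ur P (by omega)]
  refine Finset.sum_congr rfl fun u _ => ?_
  rw [Par.B1, if_pos hq']
theorem X1_Rh (P : Par) (s q : ℕ) (hs : P.m < s) (hsN : s < P.N) (hq : P.s0 ≤ q) (hq' : q ≤ P.m) :
    P.X1 s q = ∑ u ∈ Icc P.s0 q, P.Ur s u * RR P.N u q := by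
  obtain ⟨h1, h2, h3, h4⟩ := xfb_facts P
  rw [xfb_rowR P q hs hsN]
  have e1 : ∀ u ∈ Icc 1 (P.N - 1), U P.N s u / 2 ^ P.H * P.B1 u q =
      ∑ w ∈ Icc P.s0 q, U P.N s u / 2 ^ P.H * rr P.N u w * RR P.N w q := by
    intro u _
    rw [Par.B1, if_neg (by omega), if_pos hq', Finset.mul_sum]
    refine Finset.sum_congr rfl fun w _ => ?_
    ring
  rw [Finset.sum_congr rfl e1, Finset.sum_comm]
  refine Finset.sum_congr rfl fun w hw => ?_
  rw [mem_Icc] at hw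
  rw [← Finset.sum_mul, xfb_Ur P (by omega)]
theorem X1_RR (P : Par) (s q : ℕ) (hs : P.m < s) (hsN : s < P.N) (hq : P.m < q) (hqN : q < P.N) :
    P.X1 s q = U P.N s q / 2 ^ P.H := by
  rw [xfb_rowR P q hs hsN, xfb_CR P (f := fun u => U P.N s u / 2 ^ P.H) hq hqN]
end Pool.Agent.BZ
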