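import Pool.Agent.Lib.MP_06b9d2_bz.BG
import Pool.Agent.Lib.MP_06b9d2_bz.AlgT
/-! # BZ.Xs: `U_2 x_s`, and linear independence of the `x_s` -/
set_option autoImplicit false
open UpperHalfPlane hiding I
open Complex ModularForm EisensteinSeries Finset
open scoped Real MatrixGroups Manifold
namespace Pool.Agent.BZ
theorem U2_xs (N s : ℕ) (hs : 1 ≤ s) (hsN : s < N) (τ : ℍ) :
    U2op (xs N s) τ = ∑ a ∈ Icc 1 (N - 1), ((U N a s : ℚ) : ℂ) * xs N a τ := by
  have h := algU N s hs hsN (Bf τ) (Gf τ) (Gf (ofComplex ((τ : ℂ) / 2)) / 4)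
    (Gf (ofComplex (((τ : ℂ) + 1) / 2)) / 4) (bg_sum τ) (bg_prod τ)
  unfold xs at *
  rw [← h, U2op, bg_half1, bg_half2]
  have h1 : 4 * (Gf (ofComplex ((τ : ℂ) / 2)) / 4) = Gf (ofComplex ((τ : ℂ) / 2)) := by ring
  have h2 : 4 * (Gf (ofComplex (((τ : ℂ) + 1) / 2)) / 4) = Gf (ofComplex (((τ : ℂ) + 1) / 2)) := by ring
  rw [h1, h2]

private theorem Xs_E4 : Filter.Tendsto (fun τ : ℍ => E₄ τ) atImInfty (nhds 1) := by
  have hanal := ModularFormClass.analyticAt_cuspFunction_zero E₄ one_pos one_mem_strictPeriods_SL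
  have hper := SlashInvariantFormClass.periodic_comp_ofComplex E₄ one_mem_strictPeriods_SL
  have h0 : cuspFunction 1 E₄ 0 = 1 := by
    rw [cuspFunction_apply_zero one_pos hanal hper, ← qExpansion_coeff_zero one_pos hanal hper]
    exact E_qExpansion_coeff_zero _ ⟨2, rfl⟩
  have h1 := hanal.continuousAt.tendsto.comp (qParam_tendsto_atImInfty one_pos)
  rw [h0] at h1
  exact h1.congr fun τ => SlashInvariantFormClass.eq_cuspFunction E₄ τ one_mem_strictPeriods_SL one_ne_zero

private theorem Xs_two : Filter.Tendsto (fun τ : ℍ => ofComplex (2 * (τ : ℂ))) atImInfty atImInfty := by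
  rw [atImInfty, Filter.tendsto_comap_iff]
  have h1 : (UpperHalfPlane.im ∘ fun τ : ℍ => ofComplex (2 * (τ : ℂ))) = fun τ : ℍ => 2 * τ.im := by
    funext τ
    have h2 : 0 < (2 * (τ : ℂ)).im := by
      have := τ.im_pos
      simpa using this
    show (ofComplex (2 * (τ : ℂ))).im = 2 * τ.im
    rw [ofComplex_apply_of_im_pos h2]
    show (2 * (τ : ℂ)).im = 2 * τ.im
    simp
  rw [h1]
  exact Filter.Tendsto.const_mul_atTop (by norm_num) Filter.tendsto_comap

/-- `B → 1`, `G ~ 64 q → 0` at `i∞`, `G ≠ 0` -/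
theorem xs_indep (N : ℕ) (v : ℕ → ℂ) (h : ∀ τ, ∑ s ∈ Icc 1 (N - 1), v s * xs N s τ = 0) :
    ∀ s ∈ Icc 1 (N - 1), v s = 0 := by
  have hB : Filter.Tendsto Bf atImInfty (nhds 1) := by
    have h1 := (((Xs_E4.comp Xs_two).const_mul 16).sub Xs_E4).div_const (15 : ℂ)
    have e : ((16 : ℂ) * 1 - 1) / 15 = 1 := by norm_num
    rw [e] at h1
    exact h1
  have hG : Filter.Tendsto Gf atImInfty (nhds 0) := by
    have h1 := ((Xs_E4.sub (Xs_E4.comp Xs_two)).const_mul 4).div_const (15 : ℂ)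
    have e : (4 : ℂ) * (1 - 1) / 15 = 0 := by norm_num
    rw [e] at h1
    exact h1
  have hne : ∀ τ, Bf τ ≠ 0 ∧ Gf τ ≠ 0 := by
    intro τ
    have h1 := bg_del τ
    have h2 := discriminant_ne_zero τ
    constructor
    · intro h0
      rw [h0] at h1
      apply h2
      have h3 : (64 : ℂ) * discriminant τ = 0 := by rw [← h1]; ring
      simpa using h3
    · intro h0
      rw [h0] at h1
      apply h2
      have h3 : (64 : ℂ) * discriminant τ = 0 := by rw [← h1]; ring
      simpa using h3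
  set p : Polynomial ℂ := ∑ s ∈ Icc 1 (N - 1), Polynomial.C (v s) * Polynomial.X ^ s with hp
  have hroot : ∀ τ, p.eval (Gf τ / Bf τ) = 0 := by
    intro τ
    have hb := (hne τ).1
    have h1 : Bf τ ^ N * p.eval (Gf τ / Bf τ) = ∑ s ∈ Icc 1 (N - 1), v s * xs N s τ := by
      rw [hp, Polynomial.eval_finsetSum, Finset.mul_sum]
      refine Finset.sum_congr rfl fun s hs => ?_
      rw [mem_Icc] at hs
      rw [Polynomial.eval_mul, Polynomial.eval_C, Polynomial.eval_pow, Polynomial.eval_X, xs, div_pow]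
      have h2 : Bf τ ^ N = Bf τ ^ (N - s) * Bf τ ^ s := by
        rw [← pow_add]
        congr 1
        omega
      rw [h2]
      field_simp
    rw [h τ] at h1
    exact (mul_eq_zero.1 h1).resolve_left (pow_ne_zero _ hb)
  have hp0 : p = 0 := by
    by_contra hp0
    have hfin : ({x : ℂ | p.IsRoot x} \ {0}).Finite :=
      (Polynomial.finite_setOfPred_isRoot hp0).subset Set.sdiff_subset
    have hnhds : ({x : ℂ | p.IsRoot x} \ {0})ᶜ ∈ nhds (0 : ℂ) :=
      hfin.isClosed.isOpen_compl.mem_nhds (by simp)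
    have hlim : Filter.Tendsto (fun τ => Gf τ / Bf τ) atImInfty (nhds 0) := by
      have := hG.div hB one_ne_zero
      rw [zero_div] at this
      exact this
    obtain ⟨τ, hτ⟩ := (hlim.eventually hnhds).exists
    exact hτ ⟨hroot τ, div_ne_zero (hne τ).2 (hne τ).1⟩
  intro s hs
  have h1 : p.coeff s = v s := by
    rw [hp, Polynomial.finsetSum_coeff, Finset.sum_eq_single s]
    · simp
    · intro b _ hb
      rw [Polynomial.coeff_C_mul, Polynomial.coeff_X_pow, if_neg (Ne.symm hb), mul_zero]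
    · intro h'
      exact absurd hs h'
  rw [← h1, hp0, Polynomial.coeff_zero]
end Pool.Agent.BZ
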